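import Pool.Agent.W92_960bf8.Defs

/-!
# MP_960bf8_lc : restrictions, legal extensions, amalgamation
-/

set_option autoImplicit false
set_option linter.unusedSectionVars false

universe u

open Cardinal Set P96 IM

namespace SQ

variable {K J : Type u} [LinearOrder K]

theorem Raw.ext' {p q : Raw J K} (h1 : p.top = q.top) (h2 : p.T = q.T) (h3 : p.A = q.A)
    (h4 : p.F = q.F) : p = q := by
  cases p
  cases q
  subst h1 h2 h3 h4
  rfl

theorem rs_le (p : Raw J K) (I : Set J) : p ≤ p.rs I :=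
  ⟨Or.inl rfl, fun _ _ => rfl, fun _ _ => rfl, fun _ h => h.1, fun _ hc _ _ h => ⟨h, hc.2⟩⟩

theorem rs_mono {q p : Raw J K} (h : q ≤ p) (I : Set J) : q.rs I ≤ p.rs I :=
  ⟨h.top, h.T, h.A, fun _ hf => ⟨h.F hf.1, hf.2⟩, fun c hc x hx hq => ⟨h.b c hc.1 x hx hq.1, hq.2⟩⟩

theorem rs_rs (p : Raw J K) (I I' : Set J) : (p.rs I).rs I' = p.rs (I ∩ I') :=
  Raw.ext' rfl rfl rfl (by
    ext f
    constructor
    · rintro ⟨⟨h1, h2⟩, h3⟩
      exact ⟨h1, h2, h3⟩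
    · rintro ⟨h1, h2, h3⟩
      exact ⟨⟨h1, h2⟩, h3⟩)

theorem rs_of_in (p : Raw J K) (I : Set J) (h : ∀ c t, (c, t) ∈ p.F → c.1 ∈ I) : p.rs I = p :=
  Raw.ext' rfl rfl rfl (by
    ext f
    constructor
    · exact fun hf => hf.1
    · exact fun hf => ⟨hf, h f.1 f.2 hf⟩)

theorem le_rs {q p : Raw J K} (I : Set J) (h : q ≤ p) : q ≤ p.rs I := h.trans (rs_le p I)

theorem Frc.mono {R : Set (Raw J K)} {p q : Raw J K} {N : Set (Raw J K)} (h : Frc R p N)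
    (hq : q ≤ p) : Frc R q N := fun r hr hrq => h r hr (hrq.trans hq)

theorem Nfrc.mono {R : Set (Raw J K)} {p q : Raw J K} {N : Set (Raw J K)} (h : Nfrc R p N)
    (hq : q ≤ p) : Nfrc R q N := fun r hr hrq => h r hr (hrq.trans hq)

theorem CofF.mono {R : Set (Raw J K)} {p q : Raw J K} {N : K → Set (Raw J K)} {b : K}
    (h : CofF R p N b) (hq : q ≤ p) : CofF R q N b :=
  ⟨h.1, fun x hx r hr hrq => h.2 x hx r hr (hrq.trans hq)⟩

variable [LinearOrder J]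

theorem rs_Iio_rs (p : Raw J K) {I : Set J} (hI : ∀ i ∈ I, ∀ j < i, j ∈ I) {i : J} (hi : i ∈ I) :
    (p.rs I).rs (Iio i) = p.rs (Iio i) := by
  rw [rs_rs]
  congr 1
  ext j
  constructor
  · exact fun h => h.2
  · exact fun h => ⟨hI i hi j h, h⟩

/-- The requirement depends only on the facts about `c`, and is monotone in the lower part. -/
theorem Req.congr {nm : J → K → Set (Raw J K)} {R : Set (Raw J K)} {c : Crd J} {p q : Raw J K}
    (h : Req nm R c p) (hF : ∀ t, (c, t) ∈ q.F ↔ (c, t) ∈ p.F)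
    (hle : q.rs (Iio c.1) ≤ p.rs (Iio c.1)) : Req nm R c q where
  ls := h.ls
  eps := fun e he => (h.eps e ((hF _).1 he)).mono hle
  lim := fun a ha hx => (h.lim a ha fun x hxa => by
    obtain ⟨y, h1, h2, h3⟩ := hx x hxa
    exact ⟨y, h1, h2, (hF _).1 h3⟩).mono hle
  pro := fun m e he => by
    obtain ⟨h1, h2⟩ := h.pro m e ((hF _).1 he)
    exact ⟨h1, fun b hb heb => (h2 b ((hF _).1 hb) heb).mono hle⟩

variable [WellFoundedLT J] {nm : J → K → Set (Raw J K)}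

theorem ok_rs {p : Raw J K} (hp : Ok nm p) {I : Set J} (hI : ∀ i ∈ I, ∀ j < i, j ∈ I) :
    Ok nm (p.rs I) := by
  intro c hc
  refine (hp c hc.1).congr (fun t => ⟨fun h => h.1, fun h => ⟨h, hc.2⟩⟩) ?_
  rw [rs_Iio_rs p hI hc.2]

/-- A raw condition below a condition with the same facts is a condition. -/
theorem ok_of_le {p r : Raw J K} (hp : Ok nm p) (hr : r ≤ p) (hF : r.F = p.F) : Ok nm r := by
  intro c hc
  refine (hp c (hF ▸ hc)).congr (fun t => by rw [hF]) (rs_mono hr _)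

theorem low_Iio (i : J) : ∀ j ∈ Iio i, ∀ k < j, k ∈ Iio i := fun _ hj _ hk => hk.trans hj

theorem low_Iic (i : J) : ∀ j ∈ Iic i, ∀ k < j, k ∈ Iic i := fun _ hj _ hk => hk.le.trans hj

/-- the part of the condition `p` of the levels below `i` -/
def Cnd.lo (p : Cnd nm) (i : J) : Cnd nm := ⟨p.p.rs (Iio i), ok_rs p.ok (low_Iio i)⟩

/-- the part of the condition `p` of the levels up to `i` -/
def Cnd.li (p : Cnd nm) (i : J) : Cnd nm := ⟨p.p.rs (Iic i), ok_rs p.ok (low_Iic i)⟩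

theorem Cnd.ext' {p q : Cnd nm} (h : p.p = q.p) : p = q := by
  cases p
  cases q
  subst h
  rfl

theorem Cnd.le_lo (p : Cnd nm) (i : J) : p ≤ p.lo i := rs_le _ _

theorem Cnd.le_li (p : Cnd nm) (i : J) : p ≤ p.li i := rs_le _ _

theorem Cnd.lo_mono {q p : Cnd nm} (h : q ≤ p) (i : J) : q.lo i ≤ p.lo i := rs_mono (J := J) h _

theorem Cnd.li_mono {q p : Cnd nm} (h : q ≤ p) (i : J) : q.li i ≤ p.li i := rs_mono (J := J) h _

theorem Cnd.lo_in (p : Cnd nm) (i : J) : (p.lo i).In (Iio i) := fun _ _ h => h.2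

theorem Cnd.li_in (p : Cnd nm) (i : J) : (p.li i).In (Iic i) := fun _ _ h => h.2

theorem Cnd.lo_of_in {p : Cnd nm} {i : J} (h : p.In (Iio i)) : p.lo i = p :=
  Cnd.ext' (rs_of_in _ _ h)

theorem Cnd.li_of_in {p : Cnd nm} {i : J} (h : p.In (Iic i)) : p.li i = p :=
  Cnd.ext' (rs_of_in _ _ h)

theorem Cnd.lo_lo (p : Cnd nm) {i j : J} (h : j ≤ i) : (p.lo i).lo j = p.lo j :=
  Cnd.ext' (by
    show (p.p.rs (Iio i)).rs (Iio j) = p.p.rs (Iio j)
    rw [rs_rs, inter_eq_right.2 (Iio_subset_Iio h)])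

theorem Cnd.lo_li (p : Cnd nm) {i j : J} (h : j < i) : (p.lo i).li j = p.li j :=
  Cnd.ext' (by
    show (p.p.rs (Iio i)).rs (Iic j) = p.p.rs (Iic j)
    rw [rs_rs, inter_eq_right.2 (show Iic j ⊆ Iio i from fun k hk => lt_of_le_of_lt hk h)])

theorem Cnd.li_lo (p : Cnd nm) {i j : J} (h : j ≤ i) : (p.li i).lo j = p.lo j :=
  Cnd.ext' (by
    show (p.p.rs (Iic i)).rs (Iio j) = p.p.rs (Iio j)
    rw [rs_rs, inter_eq_right.2 (show Iio j ⊆ Iic i from fun k hk => (lt_of_lt_of_le hk h).le)])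

theorem Cnd.li_li (p : Cnd nm) {i j : J} (h : j ≤ i) : (p.li i).li j = p.li j :=
  Cnd.ext' (by
    show (p.p.rs (Iic i)).rs (Iic j) = p.p.rs (Iic j)
    rw [rs_rs, inter_eq_right.2 (Iic_subset_Iic.2 h)])

theorem Cnd.mem_RR {p : Cnd nm} {i : J} (h : p.In (Iio i)) : p.p ∈ RR nm i :=
  SQ.mem_RR.2 ⟨p.ok, fun c hc => h c _ hc⟩

theorem RR_ok {p : Raw J K} {i : J} (h : p ∈ RR nm i) : Ok nm p := (SQ.mem_RR.1 h).1

theorem RR_in {p : Raw J K} {i : J} (h : p ∈ RR nm i) : ∀ c t, (c, t) ∈ p.F → c.1 ∈ Iio i :=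
  fun c t hc => (SQ.mem_RR.1 h).2 c (p.act c t hc)

theorem rs_mem_RR {p : Raw J K} (hp : Ok nm p) (i : J) : p.rs (Iio i) ∈ RR nm i :=
  SQ.mem_RR.2 ⟨ok_rs hp (low_Iio i), fun _ hc => hc.2⟩

/-- The raw condition obtained from `u` (levels `< i`), the facts `G` of level `i`, and the facts of `p` of the levels `> i`. -/
def bld (p u : Raw J K) (i : J) (G : Set (Fact J K)) (hK : ℵ₀ ≤ #K) (hle : p.top ≤ u.top) (hGs : #G < #K)
    (hact : ∀ c t, (c, t) ∈ G → (c, Tag.act) ∈ G)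
    (helt : ∀ c b, (c, Tag.elt b) ∈ G → b < u.top)
    (heps : ∀ c b, (c, Tag.elt b) ∈ G → ∃ e, b < e ∧ (c, Tag.eps e) ∈ G)
    (heps' : ∀ c e, (c, Tag.eps e) ∈ G → e ≤ u.top)
    (hpro : ∀ c m e, (c, Tag.pro m e) ∈ G → e ≤ u.top) : Raw J K where
  top := u.top
  T := u.T
  A := u.A
  F := u.F ∪ G ∪ {f | f ∈ p.F ∧ i < f.1.1}
  small := by
    refine lt_of_le_of_lt (mk_union_le _ _) (add_lt_of_lt hK ?_ ?_)
    · exact lt_of_le_of_lt (mk_union_le _ _) (add_lt_of_lt hK u.small hGs)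
    · exact lt_of_le_of_lt (mk_le_mk_of_subset fun _ h => h.1) p.small
  act := by
    rintro c t ((h | h) | h)
    · exact Or.inl (Or.inl (u.act c t h))
    · exact Or.inl (Or.inr (hact c t h))
    · exact Or.inr ⟨p.act c t h.1, h.2⟩
  elt_lt := by
    rintro c b ((h | h) | h)
    · exact u.elt_lt c b h
    · exact helt c b h
    · exact (p.elt_lt c b h.1).trans_le hle
  elt_eps := by
    rintro c b ((h | h) | h)
    · obtain ⟨e, h1, h2⟩ := u.elt_eps c b h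
      exact ⟨e, h1, Or.inl (Or.inl h2)⟩
    · obtain ⟨e, h1, h2⟩ := heps c b h
      exact ⟨e, h1, Or.inl (Or.inr h2)⟩
    · obtain ⟨e, h1, h2⟩ := p.elt_eps c b h.1
      exact ⟨e, h1, Or.inr ⟨h2, h.2⟩⟩
  eps_le := by
    rintro c e ((h | h) | h)
    · exact u.eps_le c e h
    · exact heps' c e h
    · exact (p.eps_le c e h.1).trans hle
  pro_le := by
    rintro c m e ((h | h) | h)
    · exact u.pro_le c m e h
    · exact hpro c m e h
    · exact (p.pro_le c m e h.1).trans hle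

/-- The general extension lemma: extend the part of `p` of the levels `< i` to `u`, and add facts of level `i`. -/
theorem build0 (hK : ℵ₀ ≤ #K) (p u : Cnd nm) (i : J) (hu : u.In (Iio i)) (hup : u ≤ p.lo i)
    (G : Set (Fact J K)) (hGs : #G < #K) (hGi : ∀ c t, (c, t) ∈ G → c.1 = i)
    (hGp : ∀ c t, (c, t) ∈ p.p.F → c.1 = i → (c, t) ∈ G)
    (hact : ∀ c t, (c, t) ∈ G → (c, Tag.act) ∈ G)
    (helt : ∀ c b, (c, Tag.elt b) ∈ G → b < u.p.top)
    (heps : ∀ c b, (c, Tag.elt b) ∈ G → ∃ e, b < e ∧ (c, Tag.eps e) ∈ G)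
    (heps' : ∀ c e, (c, Tag.eps e) ∈ G → e ≤ u.p.top)
    (hpro : ∀ c m e, (c, Tag.pro m e) ∈ G → e ≤ u.p.top)
    (hb : ∀ c, (c, Tag.act) ∈ p.p.F → ∀ x < p.p.top, (c, Tag.elt x) ∈ G → (c, Tag.elt x) ∈ p.p.F)
    (hLS : ∀ c, (c, Tag.act) ∈ G → LSr nm (RR nm i) c)
    (h1 : ∀ c e, (c, Tag.eps e) ∈ G → Frc (RR nm i) u.p (nm c.2.2 e))
    (h2 : ∀ c : Crd J, c.1 = i → ∀ a, (∃ x, x < a) →
      (∀ x < a, ∃ y, x < y ∧ y < a ∧ (c, Tag.elt y) ∈ G) → Frc (RR nm i) u.p (nm c.2.1 a))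
    (h3 : ∀ c m e, (c, Tag.pro m e) ∈ G → LPr nm (RR nm i) i m ∧
      ∀ b, (c, Tag.elt b) ∈ G → e ≤ b → Nfrc (RR nm i) u.p (nm m b)) :
    ∃ q : Cnd nm, q ≤ p ∧ q ≤ u ∧ q.p.top = u.p.top ∧ q.p.T = u.p.T ∧ q.p.A = u.p.A ∧
      q.p.F = u.p.F ∪ G ∪ {f | f ∈ p.p.F ∧ i < f.1.1} := by
  have hup' : Ext u.p (p.p.rs (Iio i)) := hup
  have hle : p.p.top ≤ u.p.top := hup'.top_le
  let r : Raw J K := bld p.p u.p i G hK hle hGs hact helt heps heps' hpro
  have hrF : r.F = u.p.F ∪ G ∪ {f | f ∈ p.p.F ∧ i < f.1.1} := rfl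
  have hru : r ≤ u.p := by
    refine ⟨Or.inl rfl, fun _ _ => rfl, fun _ _ => rfl, fun f hf => Or.inl (Or.inl hf), ?_⟩
    rintro c hc x hx ((h | h) | h)
    · exact h
    · exact absurd (hGi c _ h) (ne_of_lt (hu c _ hc))
    · exact absurd h.2 (not_lt.2 (hu c _ hc).le)
  have hrp : r ≤ p.p := by
    refine ⟨hup.top, hup.T, hup.A, fun f hf => ?_, ?_⟩
    · rcases lt_trichotomy f.1.1 i with h | h | h
      · exact Or.inl (Or.inl (hup.F ⟨hf, h⟩))
      · exact Or.inl (Or.inr (hGp _ _ hf h))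
      · exact Or.inr ⟨hf, h⟩
    · rintro c hc x hx ((h | h) | h)
      · exact (hup.b c ⟨hc, hu c _ h⟩ x hx h).1
      · exact hb c hc x hx h
      · exact h.1
  have hlo : ∀ {j : J}, j ≤ i → r.rs (Iio j) = u.p.rs (Iio j) := by
    intro j hj
    refine Raw.ext' rfl rfl rfl ?_
    ext f
    constructor
    · rintro ⟨(h | h) | h, h'⟩
      · exact ⟨h, h'⟩
      · exact absurd (hGi f.1 f.2 h) (ne_of_lt (lt_of_lt_of_le h' hj))
      · exact absurd (lt_of_lt_of_le h' hj) (not_lt.2 h.2.le)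
    · rintro ⟨h, h'⟩
      exact ⟨Or.inl (Or.inl h), h'⟩
  have huu : u.p.rs (Iio i) = u.p := rs_of_in _ _ hu
  have hok : Ok nm r := by
    intro c hc
    rcases lt_trichotomy c.1 i with h | h | h
    · have hcu : ∀ t, (c, t) ∈ r.F ↔ (c, t) ∈ u.p.F := by
        intro t
        constructor
        · rintro ((h' | h') | h')
          · exact h'
          · exact absurd (hGi _ _ h') (ne_of_lt h)
          · exact absurd h'.2 (not_lt.2 h.le)
        · exact fun h' => Or.inl (Or.inl h')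
      refine (u.ok c ((hcu _).1 hc)).congr hcu ?_
      rw [hlo h.le]
    · have hcG : ∀ t, (c, t) ∈ r.F ↔ (c, t) ∈ G := by
        intro t
        constructor
        · rintro ((h' | h') | h')
          · exact absurd h (ne_of_lt (hu _ _ h'))
          · exact h'
          · exact absurd h'.2 (not_lt.2 h.le)
        · exact fun h' => Or.inl (Or.inr h')
      have hrs : r.rs (Iio c.1) = u.p := by rw [h, hlo le_rfl, huu]
      refine ⟨?_, fun e he => ?_, fun a ha hx => ?_, fun m e he => ?_⟩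
      · rw [h]
        exact hLS c ((hcG _).1 hc)
      · rw [hrs, h]
        exact h1 c e ((hcG _).1 he)
      · rw [hrs, h]
        refine h2 c h a ha fun x hxa => ?_
        obtain ⟨y, h4, h5, h6⟩ := hx x hxa
        exact ⟨y, h4, h5, (hcG _).1 h6⟩
      · rw [hrs, h]
        obtain ⟨h4, h5⟩ := h3 c m e ((hcG _).1 he)
        exact ⟨h4, fun b hb' heb => h5 b ((hcG _).1 hb') heb⟩
    · have hcp : ∀ t, (c, t) ∈ r.F ↔ (c, t) ∈ p.p.F := by
        intro t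
        constructor
        · rintro ((h' | h') | h')
          · exact absurd (hu _ _ h') (not_lt.2 h.le)
          · exact absurd (hGi _ _ h') (ne_of_gt h)
          · exact h'.1
        · exact fun h' => Or.inr ⟨h', h⟩
      exact (p.ok c ((hcp _).1 hc)).congr hcp (rs_mono hrp _)
  exact ⟨⟨r, hok⟩, hrp, hru, rfl, rfl, rfl, rfl⟩

/-- Amalgamation. -/
theorem amal (hK : ℵ₀ ≤ #K) (p u : Cnd nm) (i : J) (hu : u.In (Iio i)) (hup : u ≤ p.lo i) :
    ∃ q : Cnd nm, q ≤ p ∧ q ≤ u ∧ q.p.top = u.p.top ∧ q.p.T = u.p.T ∧ q.p.A = u.p.A ∧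
      q.p.F = u.p.F ∪ {f | f ∈ p.p.F ∧ i ≤ f.1.1} := by
  have hup' : Ext u.p (p.p.rs (Iio i)) := hup
  have hle : p.p.top ≤ u.p.top := hup'.top_le
  have hle' : ∀ {c : Crd J}, c.1 = i → u.p ≤ p.p.rs (Iio c.1) := by
    intro c hc
    rw [hc]
    exact hup
  obtain ⟨q, h1, h2, h3, h4, h5, h6⟩ := build0 hK p u i hu hup {f | f ∈ p.p.F ∧ f.1.1 = i}
    (lt_of_le_of_lt (mk_le_mk_of_subset fun _ h => h.1) p.p.small) (fun c t h => h.2)
    (fun c t h h' => ⟨h, h'⟩) (fun c t h => ⟨p.p.act c t h.1, h.2⟩)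
    (fun c b h => (p.p.elt_lt c b h.1).trans_le hle)
    (fun c b h => by
      obtain ⟨e, h1, h2⟩ := p.p.elt_eps c b h.1
      exact ⟨e, h1, h2, h.2⟩)
    (fun c e h => (p.p.eps_le c e h.1).trans hle)
    (fun c m e h => (p.p.pro_le c m e h.1).trans hle)
    (fun c hc x hx h => h.1)
    (fun c h => by
      have := (p.ok c h.1).ls
      have h' : c.1 = i := h.2
      rw [h'] at this
      exact this)
    (fun c e h => by
      have h' : c.1 = i := h.2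
      have := ((p.ok c (p.p.act c _ h.1)).eps e h.1).mono (hle' h')
      rwa [h'] at this)
    (fun c hc a ha hx => by
      obtain ⟨y, -, -, hy⟩ := hx _ ha.choose_spec
      have := ((p.ok c (p.p.act c _ hy.1)).lim a ha fun x hxa => by
        obtain ⟨y, h1, h2, h3⟩ := hx x hxa
        exact ⟨y, h1, h2, h3.1⟩).mono (hle' hc)
      rwa [hc] at this)
    (fun c m e h => by
      have h' : c.1 = i := h.2
      obtain ⟨h1, h2⟩ := (p.ok c (p.p.act c _ h.1)).pro m e h.1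
      rw [h'] at h1
      refine ⟨h1, fun b hb heb => ?_⟩
      have := (h2 b hb.1 heb).mono (hle' h')
      rwa [h'] at this)
  refine ⟨q, h1, h2, h3, h4, h5, ?_⟩
  rw [h6, union_assoc]
  congr 1
  ext f
  constructor
  · rintro (h | h)
    · exact ⟨h.1, h.2.ge⟩
    · exact ⟨h.1, h.2.le⟩
  · rintro ⟨h, h'⟩
    rcases h'.eq_or_lt with h'' | h''
    · exact Or.inl ⟨h, h''.symm⟩
    · exact Or.inr ⟨h, h''⟩

theorem mem_V {N : Set (Raw J K)} {p : Cnd nm} :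
    p ∈ (V N : RO (Cnd nm)).1 ↔ ∀ q ≤ p, ∃ r ≤ q, ∃ s : Cnd nm, s.p ∈ N ∧ r ≤ s := Iff.rfl

/-- Forcing over the conditions of levels `< i` and forcing over all conditions. -/
theorem fr_iff (hK : ℵ₀ ≤ #K) {N : Set (Raw J K)} {i : J} (hN : N ⊆ RR nm i) (p : Cnd nm) :
    p ∈ (V N : RO (Cnd nm)).1 ↔ Frc (RR nm i) (p.p.rs (Iio i)) N := by
  constructor
  · intro h q hq hqp
    obtain ⟨q', h1, h2, -⟩ := amal hK p ⟨q, RR_ok hq⟩ i (RR_in hq) hqp
    obtain ⟨r, h3, s, h4, h5⟩ := mem_V.1 h q' h1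
    have hr : r.p ≤ q := (h3.trans h2 : r ≤ ⟨q, RR_ok hq⟩)
    refine ⟨r.p.rs (Iio i), rs_mem_RR r.ok i, ?_, s.p, h4, ?_⟩
    · have := rs_mono hr (Iio i)
      rwa [rs_of_in q _ (RR_in hq)] at this
    · have h5' : r.p ≤ s.p := h5
      have := rs_mono h5' (Iio i)
      rwa [rs_of_in s.p _ (RR_in (hN h4))] at this
  · intro h
    refine mem_V.2 fun q hq => ?_
    have hq' : q.p ≤ p.p := hq
    obtain ⟨r, h1, h2, s, h3, h4⟩ := h _ (rs_mem_RR q.ok i) (rs_mono hq' (Iio i))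
    obtain ⟨t, h5, h6, -⟩ := amal hK q ⟨r, RR_ok h1⟩ i (RR_in h1) h2
    exact ⟨t, h5, ⟨s, RR_ok (hN h3)⟩, h3, h6.trans h4⟩

/-- the same for negations -/
theorem nfr_iff (hK : ℵ₀ ≤ #K) {N : Set (Raw J K)} {i : J} (hN : N ⊆ RR nm i) (p : Cnd nm) :
    p ∈ ((V N : RO (Cnd nm))ᶜ).1 ↔ Nfrc (RR nm i) (p.p.rs (Iio i)) N := by
  rw [RO.mem_compl]
  constructor
  · intro h r hr hrp s hs hrs
    obtain ⟨t, h5, h6, -⟩ := amal hK p ⟨r, RR_ok hr⟩ i (RR_in hr) hrp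
    refine h t h5 (mem_V.2 fun q hq => ⟨q, le_rfl, ⟨s, RR_ok (hN hs)⟩, hs, ?_⟩)
    exact (hq.trans h6).trans hrs
  · intro h q hq hqV
    obtain ⟨r, h1, s, h2, h3⟩ := mem_V.1 hqV q le_rfl
    have h4 : r.p ≤ p.p := (h1.trans hq : r ≤ p)
    refine h _ (rs_mem_RR r.ok i) (rs_mono h4 _) s.p h2 ?_
    have h5 : r.p ≤ s.p := h3
    have := rs_mono h5 (Iio i)
    rwa [rs_of_in s.p _ (RR_in (hN h2))] at this

end SQ
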