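import Pool.Agent.W92_960bf8.Lim

/-!
# MP_960bf8_lc : truth values which are based on the levels below `i`
-/

set_option autoImplicit false
set_option linter.unusedSectionVars false

universe u

open Cardinal Set P96 IM

namespace SQ

variable {K J : Type u} [LinearOrder K] [LinearOrder J] [WellFoundedLT J] {nm : J → K → Set (Raw J K)}

/-- the truth value `a` is based on the levels below `i` -/
def Bsd (i : J) (a : RO (Cnd nm)) : Prop := ∀ p ∈ a.1, p.lo i ∈ a.1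

theorem Bsd.iff {i : J} {a : RO (Cnd nm)} (h : Bsd i a) {p : Cnd nm} : p.lo i ∈ a.1 ↔ p ∈ a.1 :=
  ⟨fun hp => RO.mem_lower hp (p.le_lo i), h p⟩

theorem Bsd.compl (hK : ℵ₀ ≤ #K) {i : J} {a : RO (Cnd nm)} (h : Bsd i a) : Bsd i aᶜ := by
  intro p hp
  rw [RO.mem_compl] at hp ⊢
  intro q hq hqa
  have h1 := h q hqa
  have h2 : q.lo i ≤ p.lo i := by
    have := Cnd.lo_mono hq i
    rwa [Cnd.lo_lo _ le_rfl] at this
  obtain ⟨r, h3, h4, -⟩ := amal hK p (q.lo i) i (q.lo_in i) h2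
  exact hp r h3 (RO.mem_lower h1 h4)

theorem Bsd.iSup (hK : ℵ₀ ≤ #K) {i : J} {ι : Sort*} {a : ι → RO (Cnd nm)} (h : ∀ t, Bsd i (a t)) :
    Bsd i (⨆ t, a t) := by
  have h1 : (⨆ t, a t) = (⨅ t, (a t)ᶜ)ᶜ := by rw [compl_iInf]; simp
  rw [h1]
  refine Bsd.compl hK fun p hp => ?_
  intro u hu
  obtain ⟨t, rfl⟩ := hu
  exact (h t).compl hK p (hp _ ⟨t, rfl⟩)

theorem Bsd.iInf {i : J} {ι : Sort*} {a : ι → RO (Cnd nm)} (h : ∀ t, Bsd i (a t)) :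
    Bsd i (⨅ t, a t) := by
  intro p hp u hu
  obtain ⟨t, rfl⟩ := hu
  exact h t p (hp _ ⟨t, rfl⟩)

theorem Bsd.inf {i : J} {a b : RO (Cnd nm)} (ha : Bsd i a) (hb : Bsd i b) : Bsd i (a ⊓ b) :=
  fun p hp => ⟨ha p hp.1, hb p hp.2⟩

theorem Bsd.sup (hK : ℵ₀ ≤ #K) {i : J} {a b : RO (Cnd nm)} (ha : Bsd i a) (hb : Bsd i b) :
    Bsd i (a ⊔ b) := by
  have h1 : a ⊔ b = (aᶜ ⊓ bᶜ)ᶜ := by rw [compl_inf, compl_compl, compl_compl]
  rw [h1]
  exact ((ha.compl hK).inf (hb.compl hK)).compl hK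

theorem Bsd.mono {i j : J} (hij : i ≤ j) {a : RO (Cnd nm)} (h : Bsd i a) : Bsd j a := by
  intro p hp
  refine h.iff.1 ?_
  rw [Cnd.lo_lo _ hij]
  exact h p hp

theorem Bsd.V (hK : ℵ₀ ≤ #K) {i : J} {N : Set (Raw J K)} (hN : N ⊆ RR nm i) :
    Bsd i (SQ.V N : RO (Cnd nm)) := fun p hp => (V_low hK hN p).2 hp

theorem RR_mono {i j : J} (h : i ≤ j) : RR nm i ⊆ RR nm j := by
  intro p hp
  rw [SQ.mem_RR] at hp ⊢
  exact ⟨hp.1, fun c hc => (hp.2 c hc).trans_le h⟩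

theorem Bsd.unbV (hK : ℵ₀ ≤ #K) {i : J} {e : K → RO (Cnd nm)} (h : ∀ b, Bsd i (e b)) (b : K) :
    Bsd i (unbV e b) := Bsd.iInf fun _ => Bsd.iSup hK fun _ => h _

/-- every condition has only levels below some `i` -/
theorem exists_in (H : Par nm) (p : Cnd nm) : ∃ i, p.In (Iio i) := by
  obtain ⟨j, hj⟩ := H.Jbdd (Prod.fst ∘ Prod.fst '' p.p.F) (by
    refine mk_image_le.trans (p.p.small.le.trans ?_)
    exact (cantor _).le.trans (cantor _).le)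
  exact ⟨j, fun c t h => hj _ ⟨(c, t), h, rfl⟩⟩

end SQ
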