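import Pool.Agent.W92_960bf8.Bsd
import Pool.Agent.W_MP_7dc84e_h31.CCabs

/-!
# MP_960bf8_lc : the chain condition
-/

set_option autoImplicit false
set_option linter.unusedSectionVars false

universe u

open Cardinal Set P96 IM

namespace SQ

variable {K J : Type u} [LinearOrder K] [LinearOrder J] [WellFoundedLT J] {nm : J → K → Set (Raw J K)}

/-- Conditions with the same top, tree, sequence, and the same sets `B_c` at the common active coordinates are compatible.

PROOF.  `r := p` with the facts `p.F ∪ q.F` (small by `mk_union_le`, `add_lt_of_lt`).  `r ≤ p`: for `c` active in `p` and `(c, elt x) ∈ q.F`, `c` is active in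
`q` as well, so `(c, elt x) ∈ p.F` by `hb`.  `r ≤ q`: the same, with `hT`, `hA`.  `Ok nm r`: for `c` active in `r`, the facts `eps e` are facts of `p` or of
`q`: use `p.ok`, `q.ok` and `Frc.mono`, `rs_mono`; if `c` is active in both, all facts `(c, elt x)` of `r` are facts of `p` and of `q`; if
`c` is active only in `p`, all facts about `c` are facts of `p` (`Raw.act`).  So `lim`, `pro` follow from the requirement for `p` or `q`. -/
theorem compat (hK : ℵ₀ ≤ #K) (p q : Cnd nm) (htop : p.p.top = q.p.top)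
    (hT : ∀ x ≤ p.p.top, p.p.T.t x = q.p.T.t x) (hA : ∀ x ≤ p.p.top, p.p.A x = q.p.A x)
    (hb : ∀ c, (c, Tag.act) ∈ p.p.F → (c, Tag.act) ∈ q.p.F → ∀ x,
      ((c, Tag.elt x) ∈ p.p.F ↔ (c, Tag.elt x) ∈ q.p.F)) : ∃ r : Cnd nm, r ≤ p ∧ r ≤ q := by
  let r : Raw J K :=
    { top := p.p.top
      T := p.p.T
      A := p.p.A
      F := p.p.F ∪ q.p.F
      small := lt_of_le_of_lt (mk_union_le _ _) (add_lt_of_lt hK p.p.small q.p.small)
      act := by
        rintro c t (h | h)
        · exact Or.inl (p.p.act c t h)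
        · exact Or.inr (q.p.act c t h)
      elt_lt := by
        rintro c b (h | h)
        · exact p.p.elt_lt c b h
        · rw [htop]
          exact q.p.elt_lt c b h
      elt_eps := by
        rintro c b (h | h)
        · obtain ⟨e, h1, h2⟩ := p.p.elt_eps c b h
          exact ⟨e, h1, Or.inl h2⟩
        · obtain ⟨e, h1, h2⟩ := q.p.elt_eps c b h
          exact ⟨e, h1, Or.inr h2⟩
      eps_le := by
        rintro c e (h | h)
        · exact p.p.eps_le c e h
        · rw [htop]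
          exact q.p.eps_le c e h
      pro_le := by
        rintro c m e (h | h)
        · exact p.p.pro_le c m e h
        · rw [htop]
          exact q.p.pro_le c m e h }
  have hep : ∀ c, (c, Tag.act) ∈ p.p.F → ∀ x, (c, Tag.elt x) ∈ r.F → (c, Tag.elt x) ∈ p.p.F := by
    rintro c hc x (h | h)
    · exact h
    · exact (hb c hc (q.p.act c _ h) x).2 h
  have heq : ∀ c, (c, Tag.act) ∈ q.p.F → ∀ x, (c, Tag.elt x) ∈ r.F → (c, Tag.elt x) ∈ q.p.F := by
    rintro c hc x (h | h)
    · exact (hb c (p.p.act c _ h) hc x).1 h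
    · exact h
  have hrp : r ≤ p.p :=
    ⟨Or.inl rfl, fun _ _ => rfl, fun _ _ => rfl, fun _ h => Or.inl h, fun c hc x _ h => hep c hc x h⟩
  have hrq : r ≤ q.p :=
    ⟨Or.inl htop.symm, fun x hx => hT x (hx.trans htop.ge), fun x hx => hA x (hx.trans htop.ge),
      fun _ h => Or.inr h, fun c hc x _ h => heq c hc x h⟩
  have hok : Ok nm r := by
    intro c hc
    refine ⟨?_, ?_, ?_, ?_⟩
    · rcases hc with hc | hc
      · exact (p.ok c hc).ls
      · exact (q.ok c hc).ls
    · rintro e (h | h)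
      · exact ((p.ok c (p.p.act c _ h)).eps e h).mono (rs_mono hrp _)
      · exact ((q.ok c (q.p.act c _ h)).eps e h).mono (rs_mono hrq _)
    · intro a ha hx
      rcases hc with hc | hc
      · exact ((p.ok c hc).lim a ha fun x hxa => by
          obtain ⟨y, h1, h2, h3⟩ := hx x hxa
          exact ⟨y, h1, h2, hep c hc y h3⟩).mono (rs_mono hrp _)
      · exact ((q.ok c hc).lim a ha fun x hxa => by
          obtain ⟨y, h1, h2, h3⟩ := hx x hxa
          exact ⟨y, h1, h2, heq c hc y h3⟩).mono (rs_mono hrq _)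
    · rintro m e (h | h)
      · have hc' := p.p.act c _ h
        obtain ⟨h1, h2⟩ := (p.ok c hc').pro m e h
        exact ⟨h1, fun b hb' heb => (h2 b (hep c hc' b hb') heb).mono (rs_mono hrp _)⟩
      · have hc' := q.p.act c _ h
        obtain ⟨h1, h2⟩ := (q.ok c hc').pro m e h
        exact ⟨h1, fun b hb' heb => (h2 b (heq c hc' b hb') heb).mono (rs_mono hrq _)⟩
  exact ⟨⟨r, hok⟩, hrp, hrq⟩

/-- The chain condition.

PROOF.  `CG.cc_abs` with `lam := #K`, index type `Option (Crd J)`, `W p := {none} ∪ some '' {c | (c, act) ∈ p.p.F}` (size `≤ #K`), and the data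
`d p none := inl (p.p.top, fun x => (p.p.T.t x, p.p.A x))`, `d p (some c) := inr {x | (c, elt x) ∈ p.p.F}` in the type
`(K × (K → Set K × Set K)) ⊕ Set K`, whose size is `≤ 2 ^ #K`.  For `p ≠ q` in `A`: they are incompatible, so by `compat` the data differ at a
common index. -/
theorem cc (H : Par nm) (A : Set (Cnd nm)) (hA : ∀ p ∈ A, ∀ q ∈ A, p ≠ q → ¬ ∃ r, r ≤ p ∧ r ≤ q) :
    #A ≤ 2 ^ #K := by
  classical
  have hK : ℵ₀ ≤ #K := H.unc.le
  have hK2 : #K ≤ (2 : Cardinal.{u}) ^ #K := (cantor _).le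
  have h0 : ℵ₀ ≤ (2 : Cardinal.{u}) ^ #K := hK.trans hK2
  have hS : #(Set K) = (2 : Cardinal.{u}) ^ #K := Cardinal.mk_set
  let d : A → Option (Crd J) → (K × (K → Set K × Set K)) ⊕ Set K := fun p j =>
    match j with
    | none => Sum.inl (p.1.p.top, fun x => if x ≤ p.1.p.top then (p.1.p.T.t x, p.1.p.A x) else (∅, ∅))
    | some c => Sum.inr {x | (c, Tag.elt x) ∈ p.1.p.F}
  let W : A → Set (Option (Crd J)) := fun p => {none} ∪ some '' {c | (c, Tag.act) ∈ p.1.p.F}
  refine CG.cc_abs hK ?_ W d (fun p => ?_) (fun p q hpq => ?_)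
  · have h1 : #(K → Set K × Set K) = (2 : Cardinal.{u}) ^ #K := by
      rw [← Cardinal.power_def, Cardinal.mk_prod, Cardinal.lift_id, hS, Cardinal.mul_eq_self h0, ← Cardinal.power_mul, Cardinal.mul_eq_self hK]
    have h2 : #(K × (K → Set K × Set K)) ≤ (2 : Cardinal.{u}) ^ #K := by
      rw [Cardinal.mk_prod, Cardinal.lift_id, Cardinal.lift_id, h1]
      calc #K * 2 ^ #K ≤ 2 ^ #K * 2 ^ #K := mul_le_mul' hK2 le_rfl
        _ = 2 ^ #K := Cardinal.mul_eq_self h0
    rw [Cardinal.mk_sum, Cardinal.lift_id, Cardinal.lift_id, hS]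
    calc #(K × (K → Set K × Set K)) + 2 ^ #K ≤ 2 ^ #K + 2 ^ #K := add_le_add h2 le_rfl
      _ = 2 ^ #K := Cardinal.add_eq_self h0
  · refine (mk_union_le _ _).trans ?_
    have h1 : #({none} : Set (Option (Crd J))) < #K := by
      rw [Cardinal.mk_singleton]
      exact Cardinal.one_lt_aleph0.trans_le hK
    have h2 : #(some '' {c : Crd J | (c, Tag.act) ∈ p.1.p.F} : Set (Option (Crd J))) < #K := by
      refine lt_of_le_of_lt mk_image_le (lt_of_le_of_lt ?_ p.1.p.small)
      refine Cardinal.mk_le_of_injective (f := fun c : {c : Crd J | (c, Tag.act) ∈ p.1.p.F} =>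
        (⟨(c.1, Tag.act), c.2⟩ : p.1.p.F)) ?_
      intro c c' h
      have h3 : ((c.1, Tag.act) : Fact J K) = (c'.1, Tag.act) := congrArg Subtype.val h
      exact Subtype.ext (Prod.ext_iff.1 h3).1
    exact (add_lt_of_lt hK h1 h2).le
  · by_contra hcon
    push Not at hcon
    have hne : p.1 ≠ q.1 := fun h => hpq (Subtype.ext h)
    refine hA p.1 p.2 q.1 q.2 hne ?_
    have h1 := hcon none (Or.inl rfl) (Or.inl rfl)
    have h2 : (p.1.p.top, fun x => if x ≤ p.1.p.top then (p.1.p.T.t x, p.1.p.A x) else (∅, ∅)) =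
        (q.1.p.top, fun x => if x ≤ q.1.p.top then (q.1.p.T.t x, q.1.p.A x) else (∅, ∅)) :=
      Sum.inl.inj h1
    obtain ⟨h3, h4⟩ := Prod.ext_iff.1 h2
    have h3' : p.1.p.top = q.1.p.top := h3
    have h5 : ∀ x ≤ p.1.p.top, (p.1.p.T.t x, p.1.p.A x) = (q.1.p.T.t x, q.1.p.A x) := by
      intro x hx
      have h6 : (if x ≤ p.1.p.top then (p.1.p.T.t x, p.1.p.A x) else (∅, ∅)) =
        (if x ≤ q.1.p.top then (q.1.p.T.t x, q.1.p.A x) else (∅, ∅)) := congrFun h4 x
      rw [if_pos hx, if_pos (hx.trans h3'.le)] at h6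
      exact h6
    refine compat hK p.1 q.1 h3' (fun x hx => (Prod.ext_iff.1 (h5 x hx)).1)
      (fun x hx => (Prod.ext_iff.1 (h5 x hx)).2) ?_
    intro c hcp hcq x
    have h7 := hcon (some c) (Or.inr ⟨c, hcp, rfl⟩) (Or.inr ⟨c, hcq, rfl⟩)
    have h8 : {x | (c, Tag.elt x) ∈ p.1.p.F} = {x | (c, Tag.elt x) ∈ q.1.p.F} := Sum.inr.inj h7
    exact Set.ext_iff.1 h8 x

/-- Every truth value is the supremum of at most `2 ^ κ` conditions.

PROOF.  Zorn: a maximal antichain `S ⊆ a.1`; `cc`; maximality gives `a ≤ cl S`; `cl S ≤ a` by `RO.mem_of_dense`, `RO.mem_lower`. -/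
theorem exists_small (H : Par nm) (a : RO (Cnd nm)) :
    ∃ S : Set (Cnd nm), #S ≤ 2 ^ #K ∧ (∀ s ∈ S, s ∈ a.1) ∧ a = RO.cl S := by
  let Z : Set (Set (Cnd nm)) := {S | (∀ s ∈ S, s ∈ a.1) ∧
    ∀ p ∈ S, ∀ q ∈ S, p ≠ q → ¬ ∃ r, r ≤ p ∧ r ≤ q}
  obtain ⟨S, hS⟩ : ∃ S, Maximal (· ∈ Z) S := by
    refine zorn_subset Z fun c hcZ hc => ⟨⋃₀ c, ⟨?_, ?_⟩, fun s hs => subset_sUnion_of_mem hs⟩
    · rintro s ⟨t, ht, hst⟩
      exact (hcZ ht).1 s hst
    · rintro p ⟨s, hs, hps⟩ q ⟨t, ht, hqt⟩ hpq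
      rcases hc.total hs ht with h | h
      · exact (hcZ ht).2 p (h hps) q hqt hpq
      · exact (hcZ hs).2 p hps q (h hqt) hpq
  refine ⟨S, cc H S hS.1.2, hS.1.1, le_antisymm ?_ ?_⟩
  · intro p hp
    rw [RO.mem_cl]
    intro q hq
    by_contra hcon
    push Not at hcon
    have hqa : q ∈ a.1 := RO.mem_lower hp hq
    have hins : insert q S ∈ Z := by
      refine ⟨?_, ?_⟩
      · rintro s (rfl | hs)
        · exact hqa
        · exact hS.1.1 s hs
      · rintro x (rfl | hx) y (rfl | hy) hxy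
        · exact absurd rfl hxy
        · rintro ⟨r, h1, h2⟩
          exact hcon r h1 y hy h2
        · rintro ⟨r, h1, h2⟩
          exact hcon r h2 x hx h1
        · exact hS.1.2 x hx y hy hxy
    have hqS : q ∈ S := hS.2 hins (subset_insert _ _) (mem_insert _ _)
    exact hcon q le_rfl q hqS le_rfl
  · intro p hp
    rw [RO.mem_cl] at hp
    refine RO.mem_of_dense fun q hq => ?_
    obtain ⟨r, h1, t, h2, h3⟩ := hp q hq
    exact ⟨r, h1, RO.mem_lower (hS.1.1 t h2) h3⟩

end SQ
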