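import Pool.Agent.W92_960bf8.RespE

/-!
# MP_960bf8_lc : closing off
-/

set_option autoImplicit false
set_option linter.unusedSectionVars false

universe u

open Cardinal Set P96 IM

namespace SQ

variable {K J : Type u} [LinearOrder K] [LinearOrder J] [WellFoundedLT J] {nm : J → K → Set (Raw J K)}

/-- Closing off.

PROOF.  Let `W := (succ (2 ^ #K)).ord.ToType`, a well-order of regular cardinality `succ (2 ^ #K) ≤ 2 ^ 2 ^ #K` (`cantor`), every proper initial segment of which has size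
`≤ 2 ^ #K`, and every subset of size `≤ 2 ^ #K` of which is bounded.  By recursion choose `g : W → J` with `g α` above `j` and above `g β`, `f (g β)` for `β < α`
(`H.Jbdd`).  Let `i` be the least element of `J` with `g α < i` for all `α` (`H.Jbdd`, `WellFounded.min`).  If `k < i` then `k ≤ g α` for some `α`.  For `s` as
in the claim choose `α k` for `k ∈ s` and `α*` above all of them; `i' := g α*`; then `k ≤ g (α k) < g α*`, `g α* < i` and `f (g α*) < g (α* + 1) < i` (use any element of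
`W` above `α*`). -/
theorem exists_closed (H : Par nm) (f : J → J) (j : J) : ∃ i, j < i ∧
    ∀ s : Set J, #s ≤ 2 ^ #K → (∀ k ∈ s, k < i) → ∃ i' < i, (∀ k ∈ s, k < i') ∧ f i' < i := by
  classical
  have hinf : ℵ₀ ≤ (2 ^ #K : Cardinal.{u}) := (H.unc.le.trans (cantor _).le)
  have hinf2 : ℵ₀ ≤ (2 ^ (2 ^ #K : Cardinal.{u}) : Cardinal.{u}) := hinf.trans (cantor _).le
  have hle2 : (2 ^ #K : Cardinal.{u}) ≤ 2 ^ (2 ^ #K : Cardinal.{u}) := (cantor _).le
  obtain ⟨bnd, hbnd⟩ : ∃ bnd : Set J → J,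
      ∀ s : Set J, #s ≤ 2 ^ (2 ^ #K : Cardinal.{u}) → ∀ i ∈ s, i < bnd s := by
    refine ⟨fun s => if h : #s ≤ 2 ^ (2 ^ #K : Cardinal.{u}) then (H.Jbdd s h).choose else j, ?_⟩
    intro s hs i hi
    simp only [dif_pos hs]
    exact (H.Jbdd s hs).choose_spec i hi
  let c : Cardinal.{u} := Order.succ (2 ^ #K)
  let W : Type u := c.ord.ToType
  have hWc : #W = c := mk_ord_toType c
  have hseg : ∀ α : W, #(Iio α) ≤ (2 ^ #K : Cardinal.{u}) := fun α =>
    Order.lt_succ_iff.mp (mk_Iio_toType_ord_lt α)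
  have hsegc : ∀ α : W, #(Iic α) ≤ (2 ^ #K : Cardinal.{u}) := by
    intro α
    have h1 : Iic α = insert α (Iio α) := by
      ext β; simp [le_iff_eq_or_lt]
    rw [h1]
    refine mk_insert_le.trans ?_
    exact add_le_of_le hinf (hseg α) (one_le_aleph0.trans hinf)
  have hWb : ∀ t : Set W, #t ≤ (2 ^ #K : Cardinal.{u}) → ∃ β : W, ∀ α ∈ t, α < β := by
    intro t ht
    by_contra hcon
    push Not at hcon
    have h1 : (univ : Set W) ⊆ ⋃ x ∈ t, Iic x := by
      intro β _
      obtain ⟨α, hα, hβ⟩ := hcon β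
      exact mem_biUnion hα hβ
    have h2 : #W ≤ (2 ^ #K : Cardinal.{u}) := by
      rw [← mk_univ]
      refine (mk_le_mk_of_subset h1).trans ((mk_biUnion_le _ _).trans ?_)
      refine (mul_le_mul' ht (ciSup_le' fun x : t => hsegc x.1)).trans ?_
      rw [mul_eq_self hinf]
    rw [hWc] at h2
    exact absurd h2 (not_le.mpr (Order.lt_succ _))
  let g : W → J := WellFounded.fix (C := fun _ : W => J) (wellFounded_lt (α := W))
    (fun α (rec : ∀ β, β < α → J) =>
      bnd (insert j (Set.range (fun β : {β // β < α} => rec β.1 β.2) ∪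
        Set.range (fun β : {β // β < α} => f (rec β.1 β.2)))))
  have hg : ∀ α, g α = bnd (insert j (Set.range (fun β : {β // β < α} => g β.1) ∪
      Set.range (fun β : {β // β < α} => f (g β.1)))) := fun α => WellFounded.fix_eq _ _ α
  have hsz : ∀ α : W, #(insert j (Set.range (fun β : {β // β < α} => g β.1) ∪
      Set.range (fun β : {β // β < α} => f (g β.1))) : Set J) ≤
        2 ^ (2 ^ #K : Cardinal.{u}) := by
    intro α
    refine mk_insert_le.trans (add_le_of_le hinf2 ?_ (one_le_aleph0.trans hinf2))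
    refine (mk_union_le _ _).trans (add_le_of_le hinf2 ?_ ?_)
    · exact (mk_range_le.trans (hseg α)).trans hle2
    · exact (mk_range_le.trans (hseg α)).trans hle2
  have hgj : ∀ α, j < g α := by
    intro α
    rw [hg α]
    exact hbnd _ (hsz α) j (mem_insert _ _)
  have hgg : ∀ α β, β < α → g β < g α := by
    intro α β hβ
    rw [hg α]
    exact hbnd _ (hsz α) (g β) (mem_insert_of_mem _ (Or.inl ⟨⟨β, hβ⟩, rfl⟩))
  have hgf : ∀ α β, β < α → f (g β) < g α := by
    intro α β hβ
    rw [hg α]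
    exact hbnd _ (hsz α) (f (g β)) (mem_insert_of_mem _ (Or.inr ⟨⟨β, hβ⟩, rfl⟩))
  have hex : ({i : J | ∀ α, g α < i}).Nonempty := by
    obtain ⟨i, hi⟩ := H.Jbdd (Set.range g) (by
      refine mk_range_le.trans ?_
      rw [hWc]
      exact Order.succ_le_of_lt (cantor _))
    exact ⟨i, fun α => hi _ ⟨α, rfl⟩⟩
  let i := (wellFounded_lt (α := J)).min {i : J | ∀ α, g α < i} hex
  have hi : ∀ α, g α < i := (wellFounded_lt (α := J)).min_mem _ hex
  have hmin : ∀ k, k < i → ∃ α, k ≤ g α := by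
    intro k hk
    by_contra hcon
    push Not at hcon
    exact (wellFounded_lt (α := J)).not_lt_min {i : J | ∀ α, g α < i} (x := k) hcon hk
  refine ⟨i, ?_, ?_⟩
  · obtain ⟨α, -⟩ := hWb ∅ (by simp)
    exact (hgj α).trans (hi α)
  · intro s hs hsi
    have h1 : ∀ k : s, ∃ α, k.1 ≤ g α := fun k => hmin k.1 (hsi k.1 k.2)
    choose al hal using h1
    obtain ⟨β, hβ⟩ := hWb (Set.range al) (mk_range_le.trans hs)
    obtain ⟨γ, hγ⟩ := hWb {β} (by
      rw [mk_singleton]; exact one_le_aleph0.trans hinf)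
    refine ⟨g β, hi β, fun k hk => ?_, ?_⟩
    · exact lt_of_le_of_lt (hal ⟨k, hk⟩) (hgg _ _ (hβ _ ⟨⟨k, hk⟩, rfl⟩))
    · exact (hgf γ β (hγ β rfl)).trans (hi γ)

end SQ
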