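import Pool.Agent.W92_960bf8.RespE

/-!
# MP_960bf8_lc : the stars do not depend on the level
-/

set_option autoImplicit false
set_option linter.unusedSectionVars false

universe u

open Cardinal Set P96 IM

namespace SQ

variable {K J : Type u} [LinearOrder K] [LinearOrder J] [WellFoundedLT J] {nm : J → K → Set (Raw J K)}

/-- PROOF.  `RR_mono`. -/
theorem LP.mono {i' i m : J} (h : LP nm i' m) (hi : i' ≤ i) : LP nm i m := by
  refine ⟨h.lt.trans_le hi, fun b => (h.nms b).trans (RR_mono hi), h.disc⟩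

variable [Nonempty (Cnd nm)] {v : (Set (Obj nm) → Set (Cnd nm) → Prop) → RO (Cnd nm)}

/-- relations which agree almost everywhere have the same truth value -/
theorem CloB_congr (hK : ℵ₀ ≤ #K) (hv : IsPM (#K) oP v)
    {Θ Φ Ψ : Set (Obj nm) → Set (Cnd nm) → Prop} (hT : v Θ = ⊤)
    (h : ∀ x y, Θ x y → (Φ x y ↔ Ψ x y)) : v Φ = v Ψ := by
  have h1 := Good_and hK hv Θ Φ
  have h2 := Good_and hK hv Θ Ψ
  rw [hT, top_inf_eq] at h1 h2
  rw [← h1, ← h2]
  congr 1
  funext x y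
  exact propext ⟨fun h3 => ⟨h3.1, (h x y h3.1).1 h3.2⟩, fun h3 => ⟨h3.1, (h x y h3.1).2 h3.2⟩⟩

/-- The truth values `av` do not depend on the level.

PROOF.  It suffices that for almost all `(x, y)`: `b ∈ Lset (lv v) i q m (zl y) (xJ x) ↔ b ∈ Lset (lv v) i' q m (zl y) (xJ x)` (if `v Θ = ⊤` and `Θ` implies `Φ ↔ Ψ` then
`v Φ = v Ψ`: `Good_and` (or `hv.all`), `hv.mono`).  Take `Θ x y := Good v x y ∧ oP q ∈ x ∧ oJ m ∈ x ∧ oJ i ∈ x ∧ oJ i' ∈ x` (`ae_good`, `hv.fine`).  We may assume `i' < i`.  As `q.In (Iio i')`, `q.lo i = q = q.lo i'`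
(`Cnd.lo_of_in`).  If `zl y` does not lead `q`, both sides are false.  Otherwise all responses exist (`exists_resp`), and `exists_Qd` gives `Q` with `Qd (lv v) i q z X = some Q` and `Q'` with
`Qd (lv v) i' q z X = some Q'` (`z = zl y`, `X = xJ x`; `#X < #K` by `Good0.card_xJ`, `htop` from the link).  `(Qd_spec _).prev i'` gives `Q''` with `(lv v i').qp (q.li i') z X = some Q''` and
`Q ≤ Q''`; `lv_qp_spec`, `QpSp.prev` and `Qd_li` give `Q'' ≤ Q'`.  Both `Q` and `Q'` decide `V (nm m b)` for `b < z.p.top` (`QSp.dec`, `LP.mono`), and `Q ≤ Q'`; so they agree. -/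
theorem av_stable (H : Par nm) (hv : IsPM (#K) oP v) {i' i m : J} (hi : i' ≤ i) {q : Cnd nm}
    (hq : q.In (Iio i')) (hm : LP nm i' m) (b : K) : av v (lv v) i q m b = av v (lv v) i' q m b := by
  have hK : ℵ₀ ≤ #K := H.unc.le
  rcases hi.eq_or_lt with rfl | hlt
  · rfl
  have hT := Good_and_top hK hv (ae_good v H hv) (Good_and_top hK hv (hv.fine (oP q))
    (Good_and_top hK hv (hv.fine (oJ m)) (Good_and_top hK hv (hv.fine (oJ i)) (hv.fine (oJ i')))))
  unfold av
  refine CloB_congr hK hv hT ?_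
  rintro x y ⟨hg, hqx, hmx, hix, hi'x⟩
  have hqi : q.lo i = q := Cnd.lo_of_in fun c t hc => (hq c t hc).trans hlt
  have hqi' : q.lo i' = q := Cnd.lo_of_in hq
  by_cases hl : Lk (lv v) (zl y) q
  · have hr := exists_resp H hv hg hqx hl
    obtain ⟨Q, hQ⟩ := exists_Qd (v := v) (i := i) H hg.toGood0.card_xJ hl.top
      (fun j hj _ => hr j hj)
    obtain ⟨Q', hQ'⟩ := exists_Qd (v := v) (i := i') H hg.toGood0.card_xJ hl.top
      (fun j hj _ => hr j hj)
    obtain ⟨Q₂, h1, h2⟩ := (Qd_spec hQ).prev i' hi'x hlt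
    obtain ⟨Q₁, h3, h4⟩ := (lv_qp_spec v h1).prev
    rw [Qd_li, hQ'] at h3
    have h5 : Q' = Q₁ := Option.some.inj h3
    subst h5
    have hle : Q ≤ Q' := h2.trans h4
    constructor
    · rintro ⟨hb, -, Q₀, hQ₀, hV⟩
      rw [hQ] at hQ₀
      have h6 : Q = Q₀ := Option.some.inj hQ₀
      subst h6
      refine ⟨hb, by rw [hqi']; exact hl, Q', hQ', ?_⟩
      rcases (Qd_spec hQ').dec m hmx hm b hb with h7 | h7
      · exact h7
      · rw [RO.mem_compl] at h7
        exact absurd hV (h7 Q hle)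
    · rintro ⟨hb, -, Q₀, hQ₀, hV⟩
      rw [hQ'] at hQ₀
      have h6 : Q' = Q₀ := Option.some.inj hQ₀
      subst h6
      exact ⟨hb, by rw [hqi]; exact hl, Q, hQ, RO.mem_lower hV hle⟩
  · constructor
    · rintro ⟨-, h1, -⟩
      rw [hqi] at h1
      exact absurd h1 hl
    · rintro ⟨-, h1, -⟩
      rw [hqi'] at h1
      exact absurd h1 hl

end SQ
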