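import Pool.Agent.W92_960bf8.CC

/-!
# MP_960bf8_lc : names of subsets of `K` and their codes
-/

set_option autoImplicit false
set_option linter.unusedSectionVars false

universe u

open Cardinal Set P96 IM

namespace SQ

variable {K J : Type u} [LinearOrder K] [LinearOrder J] [WellFoundedLT J] {nm : J → K → Set (Raw J K)}

/-- PROOF.  `exists_small`; every `s ∈ S` has only levels below some `i s` (`exists_in`); take a common bound by `H.Jbdd` (`2 ^ #K ≤ 2 ^ 2 ^ #K`).  If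
`p ∈ a = cl S` then `p.lo i ∈ cl S`: for `q ≤ p.lo i` amalgamate (`amal`) `q.lo i ≤ p.lo i`... more simply: `cl S` is `V` of the set `{s.p | s ∈ S} ⊆ RR nm i`;
use `Bsd.V`. -/
theorem exists_bsd (H : Par nm) (a : RO (Cnd nm)) : ∃ i : J, Bsd i a := by
  obtain ⟨S, hS1, hS2, hS3⟩ := exists_small H a
  choose i hi using fun s : Cnd nm => exists_in H s
  obtain ⟨j, hj⟩ := H.Jbdd (i '' S)
    (Cardinal.mk_image_le.trans (hS1.trans (Cardinal.cantor _).le))
  refine ⟨j, ?_⟩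
  have hN : Cnd.p '' S ⊆ RR nm j := by
    rintro _ ⟨s, hs, rfl⟩
    exact Cnd.mem_RR fun c t h => (Set.mem_Iio.1 (hi s c t h)).trans (hj _ ⟨s, hs, rfl⟩)
  have ha : a = (V (Cnd.p '' S) : RO (Cnd nm)) := by
    have h1 : {s : Cnd nm | s.p ∈ Cnd.p '' S} = S := by
      ext s
      constructor
      · rintro ⟨t, ht, hts⟩
        rw [← Cnd.ext' hts]
        exact ht
      · exact fun hs => ⟨s, hs, rfl⟩
    unfold V
    rw [h1]
    exact hS3
  rw [ha]
  exact Bsd.V H.unc.le hN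

/-- PROOF.  `exists_bsd`, `H.Jbdd`, `Bsd.mono`. -/
theorem exists_bsd_fam (H : Par nm) {A : Type u} (hA : #A ≤ 2 ^ (2 ^ #K : Cardinal.{u})) (a : A → RO (Cnd nm)) :
    ∃ i : J, ∀ t, Bsd i (a t) := by
  choose i hi using fun t => exists_bsd H (a t)
  obtain ⟨j, hj⟩ := H.Jbdd (Set.range i) (Cardinal.mk_range_le.trans hA)
  exact ⟨j, fun t => (hi t).mono (hj _ ⟨t, rfl⟩).le⟩

/-- Names.

PROOF.  For `b : K` take `S b` for `X b` by `exists_small` and put `N b := {(s.lo i).p | s ∈ S b}`; `(s.lo i).p ∈ RR nm i` by `rs_mem_RR`;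
`V (N b) = X b`: `≥` since `s ≤ s.lo i`; `≤` since `s.lo i ∈ (X b).1` (`Bsd`). -/
theorem exists_name (H : Par nm) {i : J} (X : K → RO (Cnd nm)) (hX : ∀ b, Bsd i (X b)) :
    ∃ N : K → Set (Raw J K), (∀ b, #(N b) ≤ 2 ^ #K) ∧ (∀ b, N b ⊆ RR nm i) ∧
      ∀ b, (V (N b) : RO (Cnd nm)) = X b := by
  choose S hS1 hS2 hS3 using fun b => exists_small H (X b)
  refine ⟨fun b => (fun s : Cnd nm => (s.lo i).p) '' S b, fun b => ?_, fun b => ?_, fun b => ?_⟩
  · exact Cardinal.mk_image_le.trans (hS1 b)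
  · rintro _ ⟨s, -, rfl⟩
    exact rs_mem_RR s.ok i
  · apply le_antisymm
    · intro p hp
      refine RO.mem_of_dense fun q hq => ?_
      obtain ⟨r, hr, t, ⟨s, hs, hst⟩, hrt⟩ := hp q hq
      have h1 : s.lo i ∈ (X b).1 := hX b s (hS2 b s hs)
      have h2 : s.lo i = t := Cnd.ext' hst
      rw [h2] at h1
      exact ⟨r, hr, RO.mem_lower h1 hrt⟩
    · intro p hp
      rw [hS3 b] at hp
      intro q hq
      obtain ⟨r, hr, t, ht, hrt⟩ := hp q hq
      exact ⟨r, hr, t.lo i, ⟨t, ht, rfl⟩, hrt.trans (t.le_lo i)⟩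

/-- Every name of a subset of `K` has a code.

PROOF.  `exists_bsd_fam` for the family `X` (`#K ≤ 2 ^ 2 ^ #K`), `exists_name`, `H.surj`. -/
theorem exists_code (H : Par nm) (X : K → RO (Cnd nm)) :
    ∃ i m : J, (∀ b, nm m b ⊆ RR nm i) ∧ ∀ b, (V (nm m b) : RO (Cnd nm)) = X b := by
  obtain ⟨i, hi⟩ := exists_bsd_fam H
    ((Cardinal.cantor _).le.trans (Cardinal.cantor _).le) X
  obtain ⟨N, h1, h2, h3⟩ := exists_name H X hi
  obtain ⟨m, hm⟩ := H.surj N h1
  refine ⟨i, m, ?_, ?_⟩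
  · rw [hm]
    exact h2
  · rw [hm]
    exact h3

end SQ
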