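import Pool.Agent.W92_960bf8.Bsd

/-!
# MP_960bf8_lc : the number of the conditions and of the names of bounded level
-/

set_option autoImplicit false
set_option linter.unusedSectionVars false

universe u

open Cardinal Set P96 IM

namespace SQ

variable {K J : Type u} [LinearOrder K] [LinearOrder J] [WellFoundedLT J] {nm : J → K → Set (Raw J K)}

theorem Crd_tree {T T' : Tree K} (h : T.t = T'.t) : T = T' := by
  cases T
  cases T'
  cases h
  rfl

/-- `θ ^ #K = θ` -/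
theorem Crd_pow (hK : ℵ₀ ≤ #K) {c : Cardinal.{u}} (hc : c ≤ 2 ^ #K) :
    (2 ^ (2 ^ #K : Cardinal.{u}) : Cardinal.{u}) ^ c ≤ 2 ^ (2 ^ #K : Cardinal.{u}) := by
  have h1 : ℵ₀ ≤ (2 ^ #K : Cardinal.{u}) := hK.trans (cantor _).le
  rw [← power_mul]
  refine power_le_power_left two_ne_zero ?_
  exact (mul_le_mul' le_rfl hc).trans (mul_eq_self h1).le

/-- There are few conditions of levels below `i`.

PROOF.  Let `θ := 2 ^ 2 ^ #K`; `θ ^ #K = θ`.  An element `p` of `RR nm i` is determined by `p.top : K`, `p.T.t : K → Set K`, `p.A : K → Set K`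
(at most `2 ^ #K` possibilities each) and the set `p.F`, of size `< #K`, all of whose elements `((j, s, m), t)` satisfy `j < i`, `s < j`, `m < j` (by
`LSr`), and `m' < j` if `t = pro m' e` (by `LPr`); so `p.F` is the range of a function from `K` to the set of these facts
(or empty), a set of size `≤ (#(Iio i)) ^ 3 * (1 + #K + #K + #(Iio i) * #K) ≤ θ` by `H.Jseg`.  So there are at most `θ ^ #K = θ` sets `p.F`. -/
theorem card_RR (H : Par nm) (i : J) : #(RR nm i) ≤ 2 ^ (2 ^ #K : Cardinal.{u}) := by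
  classical
  have hK : ℵ₀ ≤ #K := H.unc.le
  have h2K : ℵ₀ ≤ (2 ^ #K : Cardinal.{u}) := hK.trans (cantor _).le
  have hθ : ℵ₀ ≤ (2 ^ (2 ^ #K : Cardinal.{u}) : Cardinal.{u}) := h2K.trans (cantor _).le
  have hKθ : #K ≤ 2 ^ (2 ^ #K : Cardinal.{u}) := (cantor _).le.trans (cantor _).le
  have hJ := H.Jseg i
  let G : Set (Fact J K) := {f | f.1.1 < i ∧ f.1.2.1 < i ∧ f.1.2.2 < i ∧ ∀ m e, f.2 = Tag.pro m e → m < i}
  have hG : #G ≤ 2 ^ (2 ^ #K : Cardinal.{u}) := by
    let P : Type u := ((Iio i) × (Iio i) × (Iio i)) × (Option (K ⊕ (K ⊕ ((Iio i) × K))))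
    let h : P → Fact J K := fun x =>
      ((x.1.1.1, x.1.2.1.1, x.1.2.2.1),
        match x.2 with
        | none => Tag.act
        | some (Sum.inl b) => Tag.elt b
        | some (Sum.inr (Sum.inl e)) => Tag.eps e
        | some (Sum.inr (Sum.inr me)) => Tag.pro me.1.1 me.2)
    have hsub : G ⊆ range h := by
      rintro ⟨⟨c1, c2, c3⟩, t⟩ ⟨h1, h2, h3, h4⟩
      cases t with
      | act => exact ⟨((⟨c1, h1⟩, ⟨c2, h2⟩, ⟨c3, h3⟩), none), rfl⟩
      | elt b => exact ⟨((⟨c1, h1⟩, ⟨c2, h2⟩, ⟨c3, h3⟩), some (Sum.inl b)), rfl⟩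
      | eps e => exact ⟨((⟨c1, h1⟩, ⟨c2, h2⟩, ⟨c3, h3⟩), some (Sum.inr (Sum.inl e))), rfl⟩
      | pro m e =>
        exact ⟨((⟨c1, h1⟩, ⟨c2, h2⟩, ⟨c3, h3⟩), some (Sum.inr (Sum.inr (⟨m, h4 m e rfl⟩, e)))), rfl⟩
    refine ((mk_le_mk_of_subset hsub).trans mk_range_le).trans ?_
    have e1 : #(Option (K ⊕ (K ⊕ ((Iio i) × K)))) ≤ 2 ^ (2 ^ #K : Cardinal.{u}) := by
      rw [mk_option, mk_sum, mk_sum, mk_prod]
      simp only [lift_id]
      exact add_le_of_le hθ (add_le_of_le hθ hKθ (add_le_of_le hθ hKθ (mul_le_of_le hθ hJ hKθ)))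
        (one_le_aleph0.trans hθ)
    have e2 : #((Iio i) × (Iio i) × (Iio i)) ≤ 2 ^ (2 ^ #K : Cardinal.{u}) := by
      rw [mk_prod, mk_prod]
      simp only [lift_id]
      exact mul_le_of_le hθ hJ (mul_le_of_le hθ hJ hJ)
    show #(((Iio i) × (Iio i) × (Iio i)) × (Option (K ⊕ (K ⊕ ((Iio i) × K))))) ≤ _
    rw [mk_prod]
    simp only [lift_id]
    exact mul_le_of_le hθ e2 e1
  have hin : ∀ p ∈ RR nm i, p.F ⊆ G := by
    rintro p hp ⟨c, t⟩ hf
    obtain ⟨h1, h2⟩ := mem_RR.1 hp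
    have hact := p.act c t hf
    have hc := h2 c hact
    have hr := h1 c hact
    refine ⟨hc, hr.ls.s_lt.trans hc, hr.ls.m_lt.trans hc, ?_⟩
    rintro m e rfl
    exact (hr.pro m e hf).1.lt.trans hc
  let Q : Type u := K × (K → Set K) × (K → Set K) × {t : Set G // #t ≤ #K}
  let φ : RR nm i → Q := fun p => (p.1.top, p.1.T.t, p.1.A, ⟨{f | f.1 ∈ p.1.F}, by
    have e1 : #{f : G | f.1 ∈ p.1.F} ≤ #p.1.F :=
      ⟨⟨fun f => ⟨f.1.1, f.2⟩, fun f g hfg => by
        have := congrArg Subtype.val hfg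
        exact Subtype.ext (Subtype.ext this)⟩⟩
    exact e1.trans p.1.small.le⟩)
  have hφ : Function.Injective φ := by
    intro p q hpq
    have e1 : p.1.top = q.1.top := congrArg (fun x : Q => x.1) hpq
    have e2 : p.1.T.t = q.1.T.t := congrArg (fun x : Q => x.2.1) hpq
    have e3 : p.1.A = q.1.A := congrArg (fun x : Q => x.2.2.1) hpq
    have e4 : {f : G | f.1 ∈ p.1.F} = {f : G | f.1 ∈ q.1.F} := congrArg (fun x : Q => x.2.2.2.1) hpq
    refine Subtype.ext (Raw.ext' e1 (Crd_tree e2) e3 ?_)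
    ext f
    constructor
    · intro hf
      have h1 : (⟨f, hin _ p.2 hf⟩ : G) ∈ {f : G | f.1 ∈ p.1.F} := hf
      rw [e4] at h1
      exact h1
    · intro hf
      have h1 : (⟨f, hin _ q.2 hf⟩ : G) ∈ {f : G | f.1 ∈ q.1.F} := hf
      rw [← e4] at h1
      exact h1
  refine (mk_le_of_injective hφ).trans ?_
  have e1 : #(K → Set K) ≤ 2 ^ (2 ^ #K : Cardinal.{u}) := by
    rw [← power_def, mk_set]
    exact (power_le_power_right (cantor _).le).trans (Crd_pow hK (cantor _).le)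
  have e2 : #{t : Set G // #t ≤ #K} ≤ 2 ^ (2 ^ #K : Cardinal.{u}) := by
    refine (Cardinal.mk_bounded_set_le G #K).trans ?_
    exact (power_le_power_right (max_le hG hθ)).trans (Crd_pow hK (cantor _).le)
  show #(K × (K → Set K) × (K → Set K) × {t : Set G // #t ≤ #K}) ≤ _
  rw [mk_prod, mk_prod, mk_prod]
  simp only [lift_id]
  exact mul_le_of_le hθ hKθ (mul_le_of_le hθ e1 (mul_le_of_le hθ e1 e2))

/-- All names over `RR nm i` have codes below some `j`.

PROOF.  The set of the functions `N : K → Set (Raw J K)` with `N b ⊆ RR nm i`, `#(N b) ≤ 2 ^ #K` has size `≤ ((θ ^ (2 ^ #K)) ^ #K = θ` where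
`θ := 2 ^ 2 ^ #K` (every `N b` is empty or the range of a function from a type of size `2 ^ #K` into `RR nm i`; `card_RR`).  Choose a code for
each (`H.surj`) and take a bound of the set of the codes by `H.Jbdd`. -/
theorem exists_codes_bdd (H : Par nm) (i : J) : ∃ j : J, ∀ N : K → Set (Raw J K),
    (∀ b, #(N b) ≤ 2 ^ #K) → (∀ b, N b ⊆ RR nm i) → ∃ m < j, nm m = N := by
  classical
  have hK : ℵ₀ ≤ #K := H.unc.le
  have h2K : ℵ₀ ≤ (2 ^ #K : Cardinal.{u}) := hK.trans (cantor _).le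
  have hθ : ℵ₀ ≤ (2 ^ (2 ^ #K : Cardinal.{u}) : Cardinal.{u}) := h2K.trans (cantor _).le
  let NN : Type u := {N : K → Set (Raw J K) // (∀ b, #(N b) ≤ 2 ^ #K) ∧ ∀ b, N b ⊆ RR nm i}
  let φ : NN → (K → {t : Set (RR nm i) // #t ≤ 2 ^ #K}) := fun N b => ⟨{x | x.1 ∈ N.1 b}, by
    have e1 : #{x : RR nm i | x.1 ∈ N.1 b} ≤ #(N.1 b) :=
      ⟨⟨fun f => ⟨f.1.1, f.2⟩, fun f g hfg => by
        have := congrArg Subtype.val hfg
        exact Subtype.ext (Subtype.ext this)⟩⟩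
    exact e1.trans (N.2.1 b)⟩
  have hφ : Function.Injective φ := by
    intro N N' hN
    apply Subtype.ext
    funext b
    have e4 : {x : RR nm i | x.1 ∈ N.1 b} = {x : RR nm i | x.1 ∈ N'.1 b} :=
      congrArg Subtype.val (congrFun hN b)
    ext f
    constructor
    · intro hf
      have h1 : (⟨f, N.2.2 b hf⟩ : RR nm i) ∈ {x : RR nm i | x.1 ∈ N.1 b} := hf
      rw [e4] at h1
      exact h1
    · intro hf
      have h1 : (⟨f, N'.2.2 b hf⟩ : RR nm i) ∈ {x : RR nm i | x.1 ∈ N'.1 b} := hf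
      rw [← e4] at h1
      exact h1
  have hNN : #NN ≤ 2 ^ (2 ^ #K : Cardinal.{u}) := by
    refine (mk_le_of_injective hφ).trans ?_
    rw [← power_def]
    have e2 : #{t : Set (RR nm i) // #t ≤ 2 ^ #K} ≤ 2 ^ (2 ^ #K : Cardinal.{u}) := by
      refine (Cardinal.mk_bounded_set_le (RR nm i) (2 ^ #K)).trans ?_
      exact (power_le_power_right (max_le (card_RR H i) hθ)).trans (Crd_pow hK le_rfl)
    exact (power_le_power_right e2).trans (Crd_pow hK (cantor _).le)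
  have hcode : ∀ N : NN, ∃ m, nm m = N.1 := fun N => H.surj N.1 N.2.1
  choose code hcode using hcode
  obtain ⟨j, hj⟩ := H.Jbdd (range code) (mk_range_le.trans hNN)
  refine ⟨j, fun N h1 h2 => ⟨code ⟨N, h1, h2⟩, hj _ ⟨_, rfl⟩, hcode ⟨N, h1, h2⟩⟩⟩

end SQ
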