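import Pool.Agent.W92_960bf8.CloA
import Pool.Agent.W92_960bf8.CloB
import Pool.Agent.W92_960bf8.Crd
import Pool.Agent.W92_960bf8.Code

/-!
# MP_960bf8_lc : the closure points are unbounded
-/

set_option autoImplicit false
set_option linter.unusedSectionVars false

universe u

open Cardinal Set P96 IM

namespace SQ

variable {K J : Type u} [LinearOrder K] [LinearOrder J] [WellFoundedLT J] {nm : J → K → Set (Raw J K)}

/-- A small name over the levels below a closed point is a name over the levels below a smaller one.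

PROOF.  Let `s` be the set of the levels of all facts of the conditions in `⋃ b, N b` (fewer than `#K` for every condition; `#(N b) ≤ 2 ^ #K`; so `#s ≤ 2 ^ #K`).  All are `< i` (`RR_in`).  `h` gives
`i' < i` above all of them, and then `N b ⊆ RR nm i'` (`SQ.mem_RR`, `RR_ok`).  The set `t` is added for the convenience of the applications. -/
theorem name_bdd (H : Par nm) {f : J → J} {i : J}
    (h : ∀ s : Set J, #s ≤ 2 ^ #K → (∀ k ∈ s, k < i) → ∃ i' < i, (∀ k ∈ s, k < i') ∧ f i' < i)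
    (N : K → Set (Raw J K)) (hN : ∀ b, #(N b) ≤ 2 ^ #K) (hN' : ∀ b, N b ⊆ RR nm i)
    (t : Set J) (ht : #t ≤ 2 ^ #K) (hti : ∀ k ∈ t, k < i) :
    ∃ i' < i, (∀ b, N b ⊆ RR nm i') ∧ (∀ k ∈ t, k < i') ∧ f i' < i := by
  have hK : ℵ₀ ≤ #K := H.unc.le
  have h2K : ℵ₀ ≤ (2 ^ #K : Cardinal.{u}) := hK.trans (cantor _).le
  let X : Type u := Σ b : K, Σ p : N b, p.1.F
  have hX : #X ≤ 2 ^ #K := by
    show #(Σ b : K, Σ p : N b, p.1.F) ≤ 2 ^ #K
    rw [mk_sigma]
    have h1 : ∀ b : K, #(Σ p : N b, p.1.F) ≤ 2 ^ #K := by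
      intro b
      rw [mk_sigma]
      calc Cardinal.sum (fun p : N b => #p.1.F) ≤ Cardinal.sum (fun _ : N b => #K) :=
            Cardinal.sum_le_sum _ _ fun p => p.1.small.le
        _ = #(N b) * #K := Cardinal.sum_const' _ _
        _ ≤ 2 ^ #K * 2 ^ #K := mul_le_mul' (hN b) (cantor _).le
        _ = 2 ^ #K := mul_eq_self h2K
    calc Cardinal.sum (fun b : K => #(Σ p : N b, p.1.F)) ≤ Cardinal.sum (fun _ : K => 2 ^ #K) :=
          Cardinal.sum_le_sum _ _ h1
      _ = #K * 2 ^ #K := Cardinal.sum_const' _ _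
      _ ≤ 2 ^ #K * 2 ^ #K := mul_le_mul' (cantor _).le le_rfl
      _ = 2 ^ #K := mul_eq_self h2K
  let φ : X → J := fun x => x.2.2.1.1.1
  obtain ⟨i', hi', h1, h2⟩ := h (range φ ∪ t) (by
    refine (mk_union_le _ _).trans ?_
    refine (add_le_add (mk_range_le.trans hX) ht).trans ?_
    exact (add_eq_self h2K).le) (by
    rintro k (⟨⟨b, p, f⟩, rfl⟩ | hk)
    · exact RR_in (hN' b p.2) f.1.1 f.1.2 f.2
    · exact hti k hk)
  refine ⟨i', hi', ?_, fun k hk => h1 k (Or.inr hk), h2⟩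
  intro b p hp
  rw [SQ.mem_RR]
  refine ⟨RR_ok (hN' b hp), fun c hc => ?_⟩
  exact h1 _ (Or.inl ⟨⟨b, ⟨p, hp⟩, ⟨(c, Tag.act), hc⟩⟩, rfl⟩)

variable [Nonempty (Cnd nm)] {v : (Set (Obj nm) → Set (Cnd nm) → Prop) → RO (Cnd nm)}

/-- The closure points are unbounded.

PROOF.  For `k : J` let `f k` be above: the bound of `exists_codes_bdd H k`, and a level on which all `av v (lv v) k q m b`, for `q.p ∈ RR nm k`, `m < k`, `b : K`, are based (`exists_bsd_fam` for the index type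
`RR nm k × Iio k × K`, which has size `≤ 2 ^ 2 ^ #K` by `card_RR`, `H.Jseg`; for a condition in `RR nm k` use `RR_ok`).  `exists_closed` gives `i > j`.  `cl1`: by `name_bdd` `N` is a name over `RR nm i'`, and has a code
`< f i' < i`.  `cl2`: let `q.In (Iio i)`, `LP nm i m`; by `name_bdd` for `N := nm m` (`H.nsm`) and `t := {m} ∪ {levels of the facts of q}` there is `i' < i` with `q.In (Iio i')` and `LP nm i' m`; then
`av_stable` and `Bsd.mono`. -/
theorem exists_cp (H : Par nm) (hv : IsPM (#K) oP v) (j : J) : ∃ i, j < i ∧ CP v (lv v) i := by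
  have hK : ℵ₀ ≤ #K := H.unc.le
  have h2K : ℵ₀ ≤ (2 ^ #K : Cardinal.{u}) := hK.trans (cantor _).le
  have hθ : ℵ₀ ≤ (2 ^ (2 ^ #K : Cardinal.{u}) : Cardinal.{u}) := h2K.trans (cantor _).le
  have hKθ : #K ≤ 2 ^ (2 ^ #K : Cardinal.{u}) := (cantor _).le.trans (cantor _).le
  choose cb hcb using fun k : J => exists_codes_bdd H k
  have hbl : ∀ k : J, ∃ i : J, ∀ t : RR nm k × Iio k × K,
      Bsd i (av v (lv v) k ⟨t.1.1, RR_ok t.1.2⟩ t.2.1.1 t.2.2) := by
    intro k
    refine exists_bsd_fam H ?_ _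
    rw [mk_prod, mk_prod]
    simp only [lift_id]
    exact mul_le_of_le hθ (card_RR H k) (mul_le_of_le hθ (H.Jseg k) hKθ)
  choose bl hbl using hbl
  obtain ⟨i, hji, hi⟩ := exists_closed H (fun k => max (cb k) (bl k)) j
  refine ⟨i, hji, ?_, ?_⟩
  · intro N hN hN'
    obtain ⟨i', hi', h1, -, h2⟩ := name_bdd H hi N hN hN' ∅ (by simp) (by simp)
    obtain ⟨m, hm, hm'⟩ := hcb i' N hN h1
    exact ⟨m, hm.trans ((le_max_left _ _).trans_lt h2), hm'⟩
  · intro q hq m hm b
    obtain ⟨i', hi', h1, h2, h3⟩ := name_bdd H hi (nm m) (H.nsm m) hm.nms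
      ({m} ∪ Prod.fst ∘ Prod.fst '' q.p.F) (by
        have e1 : #({m} : Set J) ≤ 2 ^ #K := by
          rw [mk_singleton]
          exact one_le_aleph0.trans h2K
        have e2 : #(Prod.fst ∘ Prod.fst '' q.p.F : Set J) ≤ 2 ^ #K :=
          mk_image_le.trans (q.p.small.le.trans (cantor _).le)
        exact (mk_union_le _ _).trans ((add_le_add e1 e2).trans (add_eq_self h2K).le)) (by
        rintro k (hk | ⟨⟨c, t⟩, hf, rfl⟩)
        · rw [mem_singleton_iff.1 hk]
          exact hm.lt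
        · exact hq c t hf)
    have hq' : q.In (Iio i') := fun c t hf => h2 _ (Or.inr ⟨(c, t), hf, rfl⟩)
    have hm' : LP nm i' m := ⟨h2 m (Or.inl rfl), h1, hm.disc⟩
    rw [av_stable H hv hi'.le hq' hm' b]
    exact (hbl i' (⟨q.p, Cnd.mem_RR hq'⟩, ⟨m, hm'.lt⟩, b)).mono ((le_max_right _ _).trans h3.le)

end SQ
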