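import Pool.Agent.W_MP_960bf8_h40.Core960
import Pool.Agent.W_MP_0bf392_lc.RO

/-!
# MP_960bf8_lc : the conditions

`K` is a well-order of type `κ`, `J` is the well-order of the levels and of the codes of names.  A coordinate is a triple
`c = (i, s, m)` of elements of `J`; `i` is its level.  A base condition `p : Raw J K` consists of a top node `p.top : K`, a tree order `p.T` on
`K` (only its restriction to the nodes `≤ p.top` matters), a sequence `p.A` of sets, and a small set `p.F` of facts about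
coordinates: `(c, act)`: the coordinate `c` is active; `(c, elt b)`: `b ∈ B_c`; `(c, eps e)`: `e` belongs to the hidden club
`K_c`; `(c, pro m e)`: a promise: the elements `≥ e` of `B_c` are not in the set named by `m`.

The order does not mention names.  A name of a subset of `K` is a function `N : K → Set (Raw J K)`; a condition below an element of `N b`
forces `b ∈ N`.  `nm : J → K → Set (Raw J K)` enumerates the names.
-/

set_option autoImplicit false

universe u

open Cardinal Set P96 IM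

namespace SQ

/-- a tree order on `K`; `t x` is the set of the predecessors of the node `x` -/
structure Tree (K : Type u) [LinearOrder K] : Type u where
  t : K → Set K
  lt : ∀ x, ∀ y ∈ t x, y < x
  coh : ∀ x, ∀ y ∈ t x, t y = t x ∩ Iio y
  cl : ∀ x, ∀ y < x, Lim y → (∀ z < y, ∃ w ∈ t x, z < w ∧ w < y) → y ∈ t x
  unb : ∀ x, Lim x → ∀ z < x, ∃ w ∈ t x, z < w

/-- the kinds of facts -/
inductive Tag (J K : Type u) : Type u
  | act : Tag J K
  | elt (b : K) : Tag J K
  | eps (e : K) : Tag J K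
  | pro (m : J) (e : K) : Tag J K

/-- coordinates `(level, s, m)` -/
abbrev Crd (J : Type u) : Type u := J × J × J

/-- facts -/
abbrev Fact (J K : Type u) : Type u := Crd J × Tag J K

/-- base conditions -/
structure Raw (J K : Type u) [LinearOrder K] : Type u where
  top : K
  T : Tree K
  A : K → Set K
  F : Set (Fact J K)
  small : #F < #K
  act : ∀ c t, (c, t) ∈ F → (c, Tag.act) ∈ F
  elt_lt : ∀ c b, (c, Tag.elt b) ∈ F → b < top
  elt_eps : ∀ c b, (c, Tag.elt b) ∈ F → ∃ e, b < e ∧ (c, Tag.eps e) ∈ F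
  eps_le : ∀ c e, (c, Tag.eps e) ∈ F → e ≤ top
  pro_le : ∀ c m e, (c, Tag.pro m e) ∈ F → e ≤ top

variable {K J : Type u} [LinearOrder K]

/-- `q` is stronger than `p` -/
structure Ext (q p : Raw J K) : Prop where
  top : p.top = q.top ∨ p.top ∈ q.T.t q.top
  T : ∀ x ≤ p.top, q.T.t x = p.T.t x
  A : ∀ x ≤ p.top, q.A x = p.A x
  F : p.F ⊆ q.F
  b : ∀ c, (c, Tag.act) ∈ p.F → ∀ x < p.top, (c, Tag.elt x) ∈ q.F → (c, Tag.elt x) ∈ p.F

theorem Ext.top_le {q p : Raw J K} (h : Ext q p) : p.top ≤ q.top := by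
  rcases h.top with h1 | h1
  · exact h1.le
  · exact (q.T.lt _ _ h1).le

theorem Ext.refl (p : Raw J K) : Ext p p :=
  ⟨Or.inl rfl, fun _ _ => rfl, fun _ _ => rfl, fun _ h => h, fun _ _ _ _ h => h⟩

theorem Ext.trans {r q p : Raw J K} (h1 : Ext r q) (h2 : Ext q p) : Ext r p := by
  refine ⟨?_, fun x hx => ?_, fun x hx => ?_, h2.F.trans h1.F, fun c hc x hx hr => ?_⟩
  · rcases h2.top with h3 | h3
    · rw [h3]
      exact h1.top
    · right
      rcases h1.top with h4 | h4
      · rw [← h4, h1.T _ le_rfl]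
        exact h3
      · have h5 := r.T.coh _ _ h4
        rw [h1.T _ le_rfl] at h5
        rw [h5] at h3
        exact h3.1
  · rw [h1.T x (hx.trans h2.top_le), h2.T x hx]
  · rw [h1.A x (hx.trans h2.top_le), h2.A x hx]
  · exact h2.b c hc x hx (h1.b c (h2.F hc) x (hx.trans_le h2.top_le) hr)

instance instPreorderRaw : Preorder (Raw J K) where
  le q p := Ext q p
  le_refl := Ext.refl
  le_trans _ _ _ h1 h2 := Ext.trans h1 h2

theorem le_def {q p : Raw J K} : q ≤ p ↔ Ext q p := Iff.rfl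

/-- the restriction of a condition to the coordinates with levels in `I` -/
def Raw.rs (p : Raw J K) (I : Set J) : Raw J K where
  top := p.top
  T := p.T
  A := p.A
  F := {f | f ∈ p.F ∧ f.1.1 ∈ I}
  small := lt_of_le_of_lt (Cardinal.mk_le_mk_of_subset fun _ h => h.1) p.small
  act := fun c t h => ⟨p.act c t h.1, h.2⟩
  elt_lt := fun c b h => p.elt_lt c b h.1
  elt_eps := fun c b h => by
    obtain ⟨e, h1, h2⟩ := p.elt_eps c b h.1
    exact ⟨e, h1, h2, h.2⟩
  eps_le := fun c e h => p.eps_le c e h.1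
  pro_le := fun c m e h => p.pro_le c m e h.1

/-! ### Forcing over a class `R` of conditions -/

/-- `p` forces over `R` that the generic filter meets `N` -/
def Frc (R : Set (Raw J K)) (p : Raw J K) (N : Set (Raw J K)) : Prop :=
  ∀ q ∈ R, q ≤ p → ∃ r ∈ R, r ≤ q ∧ ∃ s ∈ N, r ≤ s

/-- `p` forces over `R` that the generic filter does not meet `N` -/
def Nfrc (R : Set (Raw J K)) (p : Raw J K) (N : Set (Raw J K)) : Prop :=
  ∀ r ∈ R, r ≤ p → ∀ s ∈ N, ¬ r ≤ s

/-- `p` forces over `R` that the set named by `N` is unbounded below `b` (and `b` is not the least element) -/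
def CofF (R : Set (Raw J K)) (p : Raw J K) (N : K → Set (Raw J K)) (b : K) : Prop :=
  (∃ x, x < b) ∧ ∀ x < b, ∀ q ∈ R, q ≤ p → ∃ r ∈ R, r ≤ q ∧ ∃ y, x < y ∧ y < b ∧ Frc R r (N y)

variable [LinearOrder J]

/-- `m` is the code, smaller than `i`, of an `R`-name of a discrete set, i.e. of a set containing none of its limit points -/
structure LPr (nm : J → K → Set (Raw J K)) (R : Set (Raw J K)) (i m : J) : Prop where
  lt : m < i
  nms : ∀ b, nm m b ⊆ R
  disc : ∀ p ∈ R, ∀ b, Frc R p (nm m b) → ¬ CofF R p (nm m) b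

/-- the legal coordinates: `c = (i, s, m)` where `s, m < i` are codes of `R`-names of sets `S_c`, `K_c`, and it is forced that `K_c` is
closed unbounded and `K_c ⊆ S_c` -/
structure LSr (nm : J → K → Set (Raw J K)) (R : Set (Raw J K)) (c : Crd J) : Prop where
  s_lt : c.2.1 < c.1
  m_lt : c.2.2 < c.1
  s_nm : ∀ b, nm c.2.1 b ⊆ R
  m_nm : ∀ b, nm c.2.2 b ⊆ R
  unb : ∀ x, ∀ p ∈ R, ∃ q ∈ R, q ≤ p ∧ ∃ y, x < y ∧ Frc R q (nm c.2.2 y)
  cl : ∀ p ∈ R, ∀ b, CofF R p (nm c.2.2) b → Frc R p (nm c.2.2 b)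
  sub : ∀ p ∈ R, ∀ b, Frc R p (nm c.2.2 b) → Frc R p (nm c.2.1 b)

/-- the requirement for the condition `p` at the active coordinate `c`; `R` is the class of the conditions of levels below the level
of `c` -/
structure Req (nm : J → K → Set (Raw J K)) (R : Set (Raw J K)) (c : Crd J) (p : Raw J K) : Prop where
  ls : LSr nm R c
  eps : ∀ e, (c, Tag.eps e) ∈ p.F → Frc R (p.rs (Iio c.1)) (nm c.2.2 e)
  lim : ∀ a, (∃ x, x < a) → (∀ x < a, ∃ y, x < y ∧ y < a ∧ (c, Tag.elt y) ∈ p.F) →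
    Frc R (p.rs (Iio c.1)) (nm c.2.1 a)
  pro : ∀ m e, (c, Tag.pro m e) ∈ p.F → LPr nm R c.1 m ∧
    ∀ b, (c, Tag.elt b) ∈ p.F → e ≤ b → Nfrc R (p.rs (Iio c.1)) (nm m b)

variable [WellFoundedLT J]

/-- the conditions all of whose active coordinates have levels below `i` -/
noncomputable def RR (nm : J → K → Set (Raw J K)) : J → Set (Raw J K) :=
  (wellFounded_lt (α := J)).fix fun i ih =>
    {p | ∀ c, (c, Tag.act) ∈ p.F → ∃ h : c.1 < i, Req nm (ih c.1 h) c p}

/-- `p` is a condition -/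
def Ok (nm : J → K → Set (Raw J K)) (p : Raw J K) : Prop :=
  ∀ c, (c, Tag.act) ∈ p.F → Req nm (RR nm c.1) c p

theorem mem_RR {nm : J → K → Set (Raw J K)} {i : J} {p : Raw J K} :
    p ∈ RR nm i ↔ Ok nm p ∧ ∀ c, (c, Tag.act) ∈ p.F → c.1 < i := by
  unfold RR
  rw [WellFounded.fix_eq]
  constructor
  · intro h
    exact ⟨fun c hc => (h c hc).2, fun c hc => (h c hc).1⟩
  · rintro ⟨h1, h2⟩ c hc
    exact ⟨h2 c hc, h1 c hc⟩

/-- the forcing -/
structure Cnd (nm : J → K → Set (Raw J K)) : Type u where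
  p : Raw J K
  ok : Ok nm p

instance instPreorderCnd {nm : J → K → Set (Raw J K)} : Preorder (Cnd nm) where
  le q p := q.p ≤ p.p
  le_refl p := le_refl p.p
  le_trans _ _ _ h1 h2 := le_trans h1 h2

/-- the truth value of: the generic filter meets `N` -/
def V {nm : J → K → Set (Raw J K)} (N : Set (Raw J K)) : RO (Cnd nm) := RO.cl {s | s.p ∈ N}

/-- all facts of `p` are about coordinates of levels in `I` -/
def Cnd.In {nm : J → K → Set (Raw J K)} (p : Cnd nm) (I : Set J) : Prop :=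
  ∀ c t, (c, t) ∈ p.p.F → c.1 ∈ I

/-- The assumptions on `K`, `J` and the enumeration `nm` of the names. -/
structure Par (nm : J → K → Set (Raw J K)) : Prop where
  wf : WellFoundedLT K
  unc : ℵ₀ < #K
  isReg : (#K).IsRegular
  seg : ∀ a : K, #(Iio a) < #K
  reg : ∀ (A : Type u) (f : A → K), #A < #K → ∃ b, ∀ a, f a < b
  Jbdd : ∀ s : Set J, #s ≤ 2 ^ (2 ^ #K : Cardinal.{u}) → ∃ j, ∀ i ∈ s, i < j
  Jseg : ∀ j : J, #(Iio j) ≤ 2 ^ (2 ^ #K : Cardinal.{u})
  surj : ∀ N : K → Set (Raw J K), (∀ b, #(N b) ≤ 2 ^ #K) → ∃ m, nm m = N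
  nsm : ∀ m b, #(nm m b) ≤ 2 ^ #K
  slim : ∀ a : K, (2 ^ #(Iio a) : Cardinal.{u}) < #K

end SQ
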