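import Pool.Agent.W92_960bf8.Good
import Pool.Agent.W92_960bf8.Code

/-!
# MP_960bf8_lc : the star names are names of discrete sets
-/

set_option autoImplicit false
set_option linter.unusedSectionVars false

universe u

open Cardinal Set P96 IM

namespace SQ

variable {K J : Type u} [LinearOrder K] [LinearOrder J] [WellFoundedLT J] {nm : J → K → Set (Raw J K)}
variable [Nonempty (Cnd nm)] {v : (Set (Obj nm) → Set (Cnd nm) → Prop) → RO (Cnd nm)}

/-- At a closure point the star name has a code.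

PROOF.  `exists_name` for `X b := av v t i q m b` (based by `hc.cl2`), and `hc.cl1`; unfold `stOf`. -/
theorem stOf_spec (H : Par nm) {t : J → Lv nm} {i : J} (hc : CP v t i) {q : Cnd nm} (hq : q.In (Iio i))
    {m : J} (hm : LP nm i m) : stOf v t i q m < i ∧ (∀ b, nm (stOf v t i q m) b ⊆ RR nm i) ∧
      ∀ b, (V (nm (stOf v t i q m) b) : RO (Cnd nm)) = av v t i q m b := by
  have h : ∃ m' < i, (∀ b, nm m' b ⊆ RR nm i) ∧
      ∀ b, (V (nm m' b) : RO (Cnd nm)) = av v t i q m b := by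
    obtain ⟨N, h1, h2, h3⟩ := exists_name H (fun b => av v t i q m b) (fun b => hc.cl2 q hq m hm b)
    obtain ⟨m', h4, h5⟩ := hc.cl1 N h1 h2
    refine ⟨m', h4, ?_, ?_⟩
    · rw [h5]; exact h2
    · rw [h5]; exact h3
  have h6 : stOf v t i q m = h.choose := by
    unfold stOf
    rw [dif_pos h]
  rw [h6]
  exact h.choose_spec

section pmlem
variable {κ : Cardinal.{u}} {P A : Type u} [Preorder P] {e : P → A}
  {w : (Set A → Set P → Prop) → RO P}

theorem IsPM.fls (hw : IsPM κ e w) : w (fun _ _ => False) = ⊥ := by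
  have h1 := hw.compl (fun _ _ => True)
  rw [hw.tru] at h1
  have h2 : w (fun _ _ => False) = w (fun _ _ => ¬ True) := by
    congr 1
    funext x y
    simp
  rw [h2, h1, compl_top]

theorem IsPM.ex (hw : IsPM κ e w) (I : Type u) (Φ : I → Set A → Set P → Prop) (hI : #I < κ) :
    w (fun x y => ∃ i, Φ i x y) = ⨆ i, w (Φ i) := by
  have h1 := hw.compl (fun x y => ∀ i, ¬ Φ i x y)
  rw [hw.all I (fun i x y => ¬ Φ i x y) hI] at h1
  have h2 : w (fun x y => ∃ i, Φ i x y) = w (fun x y => ¬ ∀ i, ¬ Φ i x y) := by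
    congr 1
    funext x y
    simp
  rw [h2, h1, compl_iInf]
  refine iSup_congr fun i => ?_
  have h3 := hw.compl (Φ i)
  rw [h3, compl_compl]

theorem IsPM.and_of_mem (hκ : ℵ₀ ≤ κ) (hw : IsPM κ e w) (Φ Ψ : Set A → Set P → Prop) :
    w Φ ⊓ w Ψ = w (fun x y => Φ x y ∧ Ψ x y) := by
  have h1 := hw.all (ULift Bool) (fun i => if i.down then Φ else Ψ)
    (lt_of_lt_of_le (Cardinal.mk_lt_aleph0) hκ)
  have h2 : (⨅ i : ULift.{u} Bool, w (if i.down then Φ else Ψ)) = w Φ ⊓ w Ψ := by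
    apply le_antisymm
    · refine le_inf ?_ ?_
      · exact (iInf_le _ (ULift.up true)).trans (by simp)
      · exact (iInf_le _ (ULift.up false)).trans (by simp)
    · refine le_iInf ?_
      rintro ⟨b⟩
      cases b
      · simp
      · simp
  rw [← h2, ← h1]
  congr 1
  funext x y
  apply propext
  constructor
  · intro h
    exact ⟨by simpa using h (ULift.up true), by simpa using h (ULift.up false)⟩
  · rintro ⟨h, h'⟩ ⟨b⟩
    cases b
    · simpa using h'
    · simpa using h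

theorem IsPM.exists_of_ne (hw : IsPM κ e w) {Φ : Set A → Set P → Prop} {p : P} (h : p ∈ (w Φ).1) :
    ∃ x y, Φ x y := by
  by_contra hcon
  push Not at hcon
  have h1 : w Φ ≤ w (fun _ _ => False) := hw.mono _ _ fun x y h => hcon x y h
  rw [hw.fls] at h1
  exact RO.mem_bot p ((RO.le_iff _ _).1 h1 p h)

end pmlem

/-- The truth values `av` are those of a discrete set.

PROOF.  Let `x' < b`, and let `p` be in `av b ⊓ unbV av b`.  `unbV av b = ⨅ x < b, ⨆ y ∈ (x, b), v (y ∈ Lset ..)`, and (`H.seg`, `hv.all`, `hv.compl`)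
`⨆ y ∈ (x, b), v (y ∈ Lset) = v (∃ y ∈ (x, b), y ∈ Lset)` and `⨅ x < b, .. = v (∀ x < b, ∃ y ∈ (x, b), y ∈ Lset)`.  So the
conjunction `b ∈ Lset ∧ ∀ x < b, ∃ y ∈ (x, b), y ∈ Lset` has a value `≠ ⊥`, and there are `x, y` with this property.  Then `Qd .. = some Q`,
`Q ∈ V (nm m b)` and for all `x < b` some `y ∈ (x, b)` has `Q ∈ V (nm m y)`; so `Q ∈ V (nm m b) ⊓ unbV (fun y => V (nm m y)) b = ⊥`
(`mem_unbV`), a contradiction. -/
theorem av_disc (H : Par nm) (hv : IsPM (#K) oP v) {t : J → Lv nm} {i : J} {q : Cnd nm} {m : J}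
    (hm : LP nm i m) {b : K} (hb : ∃ x, x < b) :
    av v t i q m b ⊓ unbV (fun y => av v t i q m y) b = ⊥ := by
  have hwf := H.wf
  rw [← le_bot_iff]
  intro p hp
  exfalso
  obtain ⟨hp1, hp2⟩ := hp
  -- the truth value of the unboundedness
  have hIio : #(Iio b) < #K := H.seg b
  have hIoo : ∀ x : K, #(Ioo x b) < #K := fun x =>
    lt_of_le_of_lt (Cardinal.mk_le_mk_of_subset fun y hy => hy.2) hIio
  have h1 : unbV (fun y => av v t i q m y) b =
      v (fun x y => ∀ a : Iio b, ∃ c : Ioo a.1 b, c.1 ∈ Lset t i q m (zl y) (xJ x)) := by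
    rw [hv.all (Iio b) (fun a x y => ∃ c : Ioo a.1 b, c.1 ∈ Lset t i q m (zl y) (xJ x)) hIio]
    unfold unbV
    refine iInf_congr fun a => ?_
    rw [hv.ex (Ioo a.1 b) (fun c x y => c.1 ∈ Lset t i q m (zl y) (xJ x)) (hIoo a.1)]
    rfl
  rw [h1] at hp2
  have h2 : p ∈ (v (fun x y => b ∈ Lset t i q m (zl y) (xJ x)) ⊓
      v (fun x y => ∀ a : Iio b, ∃ c : Ioo a.1 b, c.1 ∈ Lset t i q m (zl y) (xJ x))).1 := ⟨hp1, hp2⟩
  rw [hv.and_of_mem H.unc.le] at h2
  obtain ⟨x, y, h3, h4⟩ := hv.exists_of_ne h2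
  obtain ⟨hb1, -, Q, hQ, hQb⟩ := h3
  have h5 : Q ∈ ((V (nm m b) : RO (Cnd nm)) ⊓ unbV (fun y => (V (nm m y) : RO (Cnd nm))) b).1 := by
    refine ⟨hQb, ?_⟩
    refine mem_unbV.2 fun a ha r hr => ?_
    obtain ⟨c, -, -, Q', hQ', hQc⟩ := h4 ⟨a, ha⟩
    rw [hQ] at hQ'
    obtain rfl := Option.some.inj hQ'
    exact ⟨r, le_rfl, c.1, c.2.1, c.2.2, RO.mem_lower hQc hr⟩
  rw [hm.disc b hb] at h5
  exact RO.mem_bot Q h5

/-- PROOF.  `stOf_spec`, `av_disc`. -/
theorem st_lp (H : Par nm) (hv : IsPM (#K) oP v) {t : J → Lv nm} {i : J} (hc : CP v t i) {q : Cnd nm}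
    (hq : q.In (Iio i)) {m : J} (hm : LP nm i m) : LP nm i (stOf v t i q m) := by
  obtain ⟨h1, h2, h3⟩ := stOf_spec H hc hq hm
  refine ⟨h1, h2, fun b hb => ?_⟩
  have h4 : (fun y => (V (nm (stOf v t i q m) y) : RO (Cnd nm))) = fun y => av v t i q m y := funext h3
  rw [h4, h3 b]
  exact av_disc H hv hm hb

end SQ
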