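import Pool.Agent.W92_960bf8.RespA
import Pool.Agent.W92_960bf8.Star

/-!
# MP_960bf8_lc : the responses exist
-/

set_option autoImplicit false
set_option linter.unusedSectionVars false

universe u

open Cardinal Set P96 IM

namespace SQ

variable {K J : Type u} [LinearOrder K] [LinearOrder J] [WellFoundedLT J] {nm : J → K → Set (Raw J K)}

/-- the forcing is `<κ`-directed closed -/
theorem dirClosed_cnd (H : Par nm) : DirClosed (#K) (Cnd nm) := fun S hS hne hd => by
  obtain ⟨z, hz, -⟩ := exists_lb H ⟨hne, hd⟩ hS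
  exact ⟨z, hz⟩

variable [Nonempty (Cnd nm)] {v : (Set (Obj nm) → Set (Cnd nm) → Prop) → RO (Cnd nm)}

/-- `Q_i` exists if the responses at the levels below `i` exist.

PROOF.  `exists_bel` for `I = Iio i` gives `Q` with `Bel` and levels `< i`.  By `DirClosed.decide` for the family `(m, b) ↦ V (nm m b)`, `m ∈ X` with
`LP nm i m`, `b < z.p.top` (fewer than `κ` pairs, `mul_lt_of_lt`), there is `Q₁ ≤ Q` deciding all of them; `Q₁.lo i` has `QSp`: `Bel.mono`, `Bel.lo`;
the truth values `V (nm m b)` and their complements are based (`Bsd.V`, `Bsd.compl`), so `Q₁.lo i` decides them, too. -/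
theorem exists_Qd (H : Par nm) {i : J} {q z : Cnd nm} {X : Set J} (hXs : #X < #K)
    (htop : q.p.top ≤ z.p.top)
    (hq : ∀ j ∈ X, j < i → ∃ Q', (lv v j).qp (q.li j) z X = some Q') :
    ∃ Q, Qd (lv v) i q z X = some Q := by
  have hK := H.unc.le
  obtain ⟨Q, h1, h2⟩ := exists_bel (v := v) H (low_Iio i) hXs htop hq
  let F : {m : X // LP nm i m.1} × Iio z.p.top → RO (Cnd nm) := fun f => V (nm f.1.1.1 f.2.1)
  have hF : #({m : X // LP nm i m.1} × Iio z.p.top) < #K := by
    rw [mk_prod, lift_id, lift_id]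
    exact mul_lt_of_lt hK ((mk_subtype_le _).trans_lt hXs) (H.seg _)
  obtain ⟨Q₁, h3, h4⟩ := (dirClosed_cnd H).decide H.isReg hF F Q
  refine Qd_ex (Q := Q₁.lo i) ⟨Q₁.lo_in i, (h1.mono h3).lo.base, (h1.mono h3).lo.prev, fun m hm hlp b hb => ?_⟩
  have h5 : Bsd i (V (nm m b) : RO (Cnd nm)) := Bsd.V hK (hlp.nms b)
  rcases h4 (⟨⟨m, hm⟩, hlp⟩, ⟨b, hb⟩) with h6 | h6
  · exact Or.inl (h5 _ h6)
  · exact Or.inr ((h5.compl hK) _ h6)

/-- The follower may be restricted. -/
theorem Link.lo {z q : Cnd nm} (h : Link v z q) (i : J) : Link v z (q.lo i) := by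
  have h' : Lk (lv v) z q := h
  refine (⟨h'.top, h'.T, h'.A, fun c hc hv => h'.act c hc.1 hv, fun c hc hv x hx => ?_,
    fun c m e hc hv => ?_⟩ : Lk (lv v) z (q.lo i))
  · rw [h'.elt c hc.1 hv x hx]
    exact ⟨fun h1 => ⟨h1, hc.2⟩, fun h1 => h1.1⟩
  · rw [Cnd.lo_lo q (le_of_lt hc.2)]
    exact h'.pro c m e hc.1 hv

/-- A condition which is not in a regular open set has an extension in its complement. -/
theorem exists_compl {a : RO (Cnd nm)} {p : Cnd nm} (h : p ∉ a.1) : ∃ q ≤ p, q ∈ (aᶜ).1 := by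
  by_contra hcon
  push Not at hcon
  refine h (RO.mem_of_dense fun q hq => ?_)
  have h1 := hcon q hq
  rw [RO.mem_compl] at h1
  push Not at h1
  exact h1

/-- `Q_i⁺` exists.

PROOF.  Let `z = zl y`, `X = xJ x`, `Q = Q_i`.  Extend `Q` to `u` (levels `< i`) which forces for every visible `c` of level `i` which is active in `z` some
`e(c) ≥ z.p.top`, `e(c) ≤ u.p.top`, into `nm c.2.2` (`LS.unb`, `exists_top`, `DirClosed.dense`, `V_low`).  Then `build` with `p := q.li i`, and `G` = the facts of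
`q` of level `i` together with, for the visible `c` of level `i` active in `z`: `act`, the facts `elt b` of `z`, `eps e(c)`, and the facts
`pro (stOf v (lv v) i (z.lo i) m) z.p.top` for the facts `pro m e` of `z`. -/
theorem exists_Qp (H : Par nm) (hv : IsPM (#K) oP v) {x : Set (Obj nm)} {y : Set (Cnd nm)}
    (hg : Good v x y) {q : Cnd nm} (hq : oP q ∈ x) (hl : Link v (zl y) q) {i : J} (hi : oJ i ∈ x)
    {Q : Cnd nm} (hQ : Qd (lv v) i q (zl y) (xJ x) = some Q) :
    ∃ Q', QpSp v (lv v) i (q.li i) (zl y) (xJ x) Q' := by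
  classical
  have hK := H.unc.le
  have hz := hg.toGood0.isLim H
  have hmemK := hg.toGood0.mem_K H
  set z := zl y with hzdef
  set X := xJ x with hXdef
  have hl' : Lk (lv v) z q := hl
  have hQs := Qd_spec hQ
  have hqX : ∀ c t, (c, t) ∈ q.p.F → c.1 ∈ X := hg.plev q hq
  have hzF : ∀ {f}, f ∈ z.p.F ↔ ∃ p ∈ y, f ∈ p.p.F := by
    intro f
    rw [hz.F]
    exact mem_biU
  have hzX : ∀ c t, (c, t) ∈ z.p.F → c.1 ∈ X := by
    intro c t h
    obtain ⟨p, hp, h1⟩ := hzF.1 h
    exact hg.plev p (hg.ysub p hp) c t h1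
  -- the coordinates which are adopted
  let C : Set (Crd J) := {c | c.1 = i ∧ (c, Tag.act) ∈ z.p.F ∧ VisOf v (lv v) c}
  have hCs : #C < #K := by
    refine lt_of_le_of_lt ?_ z.p.small
    refine mk_le_of_injective (f := fun c : C => (⟨(c.1, Tag.act), c.2.2.1⟩ : z.p.F)) ?_
    intro c c' h
    exact Subtype.ext (congrArg (fun f : z.p.F => f.1.1) h)
  obtain ⟨Q₂, hQ₂, hD⟩ := (dirClosed_cnd H).dense H.isReg hCs
    (fun c => {u | ∃ e, z.p.top ≤ e ∧ e ≤ u.p.top ∧ u ∈ (V (nm c.1.2.2 e) : RO (Cnd nm)).1})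
    (fun c p => by
      obtain ⟨p₁, h1, e, h2, h3⟩ := (z.ls hK c.2.2.1).unb z.p.top p
      obtain ⟨a, ha⟩ := H.reg (ULift Bool) (fun b => if b.down then p₁.p.top else e) (by
        rw [mk_uLift]
        exact (lift_lt_aleph0.2 (lt_aleph0_of_finite Bool)).trans_le hK)
      have ha1 : p₁.p.top < a := by simpa using ha ⟨true⟩
      have ha2 : e < a := by simpa using ha ⟨false⟩
      obtain ⟨p₂, h4, h5, -⟩ := exists_top p₁ a ha1
      refine ⟨p₂, h4.trans h1, e, h2.le, ?_, RO.mem_lower h3 h4⟩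
      rw [h5]
      exact ha2.le)
    (fun c p r hp hr => by
      obtain ⟨e, h1, h2, h3⟩ := hp
      have hr' : Ext r.p p.p := hr
      exact ⟨e, h1, h2.trans hr'.top_le, RO.mem_lower h3 hr⟩) Q
  set u := Q₂.lo i with hudef
  have huin : u.In (Iio i) := Q₂.lo_in i
  have huQ : u ≤ Q := by
    have := Cnd.lo_mono hQ₂ i
    rwa [Cnd.lo_of_in hQs.lev] at this
  have hD' : ∀ c ∈ C, ∃ e, z.p.top ≤ e ∧ e ≤ u.p.top ∧ u ∈ (V (nm c.2.2 e) : RO (Cnd nm)).1 := by
    intro c hc
    obtain ⟨e, h1, h2, h3⟩ := hD ⟨c, hc⟩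
    refine ⟨e, h1, h2, (V_low hK ?_ Q₂).2 h3⟩
    have := (z.ls hK hc.2.1).m_nm e
    rwa [hc.1] at this
  have : Nonempty K := ⟨z.p.top⟩
  choose! ec hec1 hec2 hec3 using hD'
  have hBu : Bel v (Iio i) q z X u := hQs.bel.mono huQ
  have huq : u ≤ q.lo i := hBu.le_q (low_Iio i) hl hqX
  have hLu : ∀ u' ≤ u, Link v (u'.lo i) (z.lo i) := fun u' hu' =>
    (hBu.mono hu').lo.link (low_Iio i) hzX
  have hutop : z.p.top ≤ u.p.top := hBu.base.top
  have hqz : q.p.top ≤ z.p.top := hl'.top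
  let G : Set (Fact J K) := {f | (f ∈ q.p.F ∧ f.1.1 = i) ∨ (f.1 ∈ C ∧ (f.2 = Tag.act ∨
    (∃ b, f.2 = Tag.elt b ∧ f ∈ z.p.F) ∨ f.2 = Tag.eps (ec f.1) ∨
    ∃ m e, (f.1, Tag.pro m e) ∈ z.p.F ∧ f.2 = Tag.pro (stOf v (lv v) i (z.lo i) m) z.p.top))}
  have hGs : #G < #K := by
    let g : Fact J K → Fact J K := fun f =>
      match f.2 with
      | Tag.pro m _ => (f.1, Tag.pro (stOf v (lv v) i (z.lo i) m) z.p.top)
      | _ => f
    have hsub : G ⊆ q.p.F ∪ ((fun c => (c, Tag.act)) '' C) ∪ z.p.F ∪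
        ((fun c => (c, Tag.eps (ec c))) '' C) ∪ (g '' z.p.F) := by
      rintro ⟨c, t⟩ (h | ⟨hc, h | h | h | h⟩)
      · exact Or.inl (Or.inl (Or.inl (Or.inl h.1)))
      · exact Or.inl (Or.inl (Or.inl (Or.inr ⟨c, hc, Prod.ext rfl h.symm⟩)))
      · obtain ⟨b, -, h2⟩ := h
        exact Or.inl (Or.inl (Or.inr h2))
      · exact Or.inl (Or.inr ⟨c, hc, Prod.ext rfl h.symm⟩)
      · obtain ⟨m, e, h1, h2⟩ := h
        exact Or.inr ⟨_, h1, Prod.ext rfl h2.symm⟩
    refine (mk_le_mk_of_subset hsub).trans_lt ?_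
    have h1 : #((fun c => ((c, Tag.act) : Fact J K)) '' C) < #K := mk_image_le.trans_lt hCs
    have h2 : #((fun c => ((c, Tag.eps (ec c)) : Fact J K)) '' C) < #K := mk_image_le.trans_lt hCs
    have h3 : #(g '' z.p.F) < #K := mk_image_le.trans_lt z.p.small
    refine (mk_union_le _ _).trans_lt (add_lt_of_lt hK ?_ h3)
    refine (mk_union_le _ _).trans_lt (add_lt_of_lt hK ?_ h2)
    refine (mk_union_le _ _).trans_lt (add_lt_of_lt hK ?_ z.p.small)
    exact (mk_union_le _ _).trans_lt (add_lt_of_lt hK q.p.small h1)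
  have hGi : ∀ c t, (c, t) ∈ G → c.1 = i := by
    rintro c t (h | ⟨hc, -⟩)
    · exact h.2
    · exact hc.1
  have hGelt : ∀ c b, (c, Tag.elt b) ∈ G → ((c, Tag.elt b) ∈ q.p.F ∧ c.1 = i) ∨
      (c ∈ C ∧ (c, Tag.elt b) ∈ z.p.F) := by
    rintro c b (h | ⟨hc, h | h | h | h⟩)
    · exact Or.inl h
    · exact absurd h (by simp)
    · obtain ⟨b', -, h2⟩ := h
      exact Or.inr ⟨hc, h2⟩
    · exact absurd h (by simp)
    · obtain ⟨m, e, -, h2⟩ := h
      exact absurd h2 (by simp)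
  have hGeps : ∀ c e, (c, Tag.eps e) ∈ G → ((c, Tag.eps e) ∈ q.p.F ∧ c.1 = i) ∨
      (c ∈ C ∧ e = ec c) := by
    rintro c b (h | ⟨hc, h | h | h | h⟩)
    · exact Or.inl h
    · exact absurd h (by simp)
    · obtain ⟨b', h1, -⟩ := h
      exact absurd h1 (by simp)
    · exact Or.inr ⟨hc, by simpa using h⟩
    · obtain ⟨m, e, -, h2⟩ := h
      exact absurd h2 (by simp)
  have hGpro : ∀ c m e, (c, Tag.pro m e) ∈ G → ((c, Tag.pro m e) ∈ q.p.F ∧ c.1 = i) ∨
      (c ∈ C ∧ ∃ m' e', (c, Tag.pro m' e') ∈ z.p.F ∧ m = stOf v (lv v) i (z.lo i) m' ∧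
        e = z.p.top) := by
    rintro c m e (h | ⟨hc, h | h | h | h⟩)
    · exact Or.inl h
    · exact absurd h (by simp)
    · obtain ⟨b', h1, -⟩ := h
      exact absurd h1 (by simp)
    · exact absurd h (by simp)
    · obtain ⟨m', e', h1, h2⟩ := h
      have h3 : m = stOf v (lv v) i (z.lo i) m' ∧ e = z.p.top := by simpa using h2
      exact Or.inr ⟨hc, m', e', h1, h3⟩
  have hvis : ∀ c, c ∈ C → (lv v c.1).vis c := fun c hc => (lv_vis v c).2 hc.2.2
  -- an element of `z` below the top of `q` at an adopted coordinate which is active in `q`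
  have hqelt : ∀ c ∈ C, (c, Tag.act) ∈ q.p.F → ∀ b < q.p.top, (c, Tag.elt b) ∈ z.p.F →
      (c, Tag.elt b) ∈ q.p.F := fun c hc hact b hb h => (hl'.elt c hact (hvis c hc) b hb).1 h
  have hzelt : ∀ c ∈ C, ∀ b, (c, Tag.elt b) ∈ q.p.F → (c, Tag.elt b) ∈ z.p.F := by
    intro c hc b h
    exact (hl'.elt c (q.p.act c _ h) (hvis c hc) b (q.p.elt_lt c b h)).2 h
  have hlow : ∀ {N : Set (Raw J K)}, N ⊆ RR nm i → q ∈ (V N : RO (Cnd nm)).1 →
      u ∈ (V N : RO (Cnd nm)).1 := fun hN h => RO.mem_lower ((V_low hK hN q).2 h) huq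
  have hlowc : ∀ {N : Set (Raw J K)}, N ⊆ RR nm i → q ∈ ((V N : RO (Cnd nm))ᶜ).1 →
      u ∈ ((V N : RO (Cnd nm))ᶜ).1 := fun hN h =>
    RO.mem_lower (((Bsd.V hK hN).compl hK) q h) huq
  obtain ⟨Q', h1, h2, h3, -, -, h6⟩ := build hK (q.li i) u i huin
    (by rw [Cnd.li_lo q le_rfl]; exact huq) G hGs hGi
    (fun c t h h' => Or.inl ⟨h.1, h'⟩)
    (fun c t h => by
      rcases h with h | ⟨hc, -⟩
      · exact Or.inl ⟨q.p.act c t h.1, h.2⟩
      · exact Or.inr ⟨hc, Or.inl rfl⟩)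
    (fun c b h => by
      rcases hGelt c b h with h' | h'
      · exact (q.p.elt_lt c b h'.1).trans_le (hqz.trans hutop)
      · exact (z.p.elt_lt c b h'.2).trans_le hutop)
    (fun c b h => by
      rcases hGelt c b h with h' | h'
      · obtain ⟨e, h1, h2⟩ := q.p.elt_eps c b h'.1
        exact ⟨e, h1, Or.inl ⟨h2, h'.2⟩⟩
      · exact ⟨ec c, (z.p.elt_lt c b h'.2).trans_le (hec1 c h'.1),
          Or.inr ⟨h'.1, Or.inr (Or.inr (Or.inl rfl))⟩⟩)
    (fun c e h => by
      rcases hGeps c e h with h' | ⟨hc, rfl⟩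
      · exact (q.p.eps_le c e h'.1).trans (hqz.trans hutop)
      · exact hec2 c hc)
    (fun c m e h => by
      rcases hGpro c m e h with h' | ⟨hc, m', e', -, -, rfl⟩
      · exact (q.p.pro_le c m e h'.1).trans (hqz.trans hutop)
      · exact hutop)
    (fun c hc b hb h => by
      rcases hGelt c b h with h' | h'
      · exact ⟨h'.1, hc.2⟩
      · exact ⟨hqelt c h'.1 hc.1 b hb h'.2, hc.2⟩)
    (fun c h => by
      rcases h with h | ⟨hc, -⟩
      · exact q.ls hK h.1
      · exact hc.2.2.ls)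
    (fun c e h => by
      rcases hGeps c e h with h' | ⟨hc, rfl⟩
      · refine hlow ?_ (q.eps hK h'.1)
        have := (q.ls hK h'.1).m_nm e
        rwa [h'.2] at this
      · exact hec3 c hc)
    (fun c a ha h => by
      by_cases hc : c ∈ C
      · -- all elements are elements of `z`
        have hz1 : z ∈ (V (nm c.2.1 a) : RO (Cnd nm)).1 := by
          refine z.lim hK ha fun b hb => ?_
          obtain ⟨b', h1, h2, h3⟩ := h b hb
          refine ⟨b', h1, h2, ?_⟩
          rcases hGelt c b' h3 with h' | h'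
          · exact hzelt c hc b' h'.1
          · exact h'.2
        by_contra hcon
        obtain ⟨u', hu', hu'c⟩ := exists_compl hcon
        have hN : nm c.2.1 a ⊆ RR nm i := by
          have := hc.2.2.ls.s_nm a
          rwa [hc.1] at this
        have h4 := hLu u' hu'
        have h5 := (hc.2.2.ns (u'.lo i) (z.lo i) (by rw [hc.1]; exact u'.lo_in i)
          (by rw [hc.1]; exact z.lo_in i) h4 a).2
        exact h5 ⟨((Bsd.V hK hN).compl hK) u' hu'c, (V_low hK hN z).2 hz1⟩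
      · obtain ⟨b, hb⟩ := ha
        obtain ⟨b', -, -, h3⟩ := h b hb
        have hci : c.1 = i := hGi _ _ h3
        have hq1 : q ∈ (V (nm c.2.1 a) : RO (Cnd nm)).1 := by
          refine q.lim hK ⟨b, hb⟩ fun b hb => ?_
          obtain ⟨b', h1, h2, h3⟩ := h b hb
          rcases hGelt c b' h3 with h' | h'
          · exact ⟨b', h1, h2, h'.1⟩
          · exact absurd h'.1 hc
        refine hlow ?_ hq1
        have h4 : (c, Tag.act) ∈ q.p.F := by
          rcases hGelt c b' h3 with h' | h'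
          · exact q.p.act c _ h'.1
          · exact absurd h'.1 hc
        have := (q.ls hK h4).s_nm a
        rwa [hci] at this)
    (fun c m e h => by
      rcases hGpro c m e h with h' | ⟨hc, m', e', h4, h5, h6⟩
      · have hlp := q.pro_lp hK h'.1
        rw [h'.2] at hlp
        refine ⟨hlp, fun b hb heb => ?_⟩
        rcases hGelt c b hb with h'' | ⟨hc, hbz⟩
        · exact hlowc (hlp.nms b) (q.pro hK h'.1 h''.1 heb)
        · have hact := q.p.act c _ h'.1
          by_cases hbq : b < q.p.top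
          · exact hlowc (hlp.nms b) (q.pro hK h'.1 (hqelt c hc hact b hbq hbz) heb)
          · -- the leader avoids the star of the promise
            have hrec := hl'.pro c m e h'.1 (hvis c hc)
            rw [lv_st, h'.2] at hrec
            obtain ⟨p₁, hp₁, h7⟩ := hzF.1 hrec
            obtain ⟨p₂, hp₂, h8⟩ := hzF.1 hbz
            obtain ⟨p₃, hp₃, h9, h10⟩ := hg.ydir.2 p₁ hp₁ p₂ hp₂
            have h9' : Ext p₃.p p₁.p := h9
            have h10' : Ext p₃.p p₂.p := h10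
            have h11 := p₃.pro hK (h9'.F h7) (h10'.F h8) (not_lt.1 hbq)
            have hcp : CP v (lv v) i := by
              have := hc.2.2.cp
              rwa [hc.1] at this
            obtain ⟨-, -, h12⟩ := stOf_spec H hcp (q.lo_in i) hlp
            rw [h12 b] at h11
            have hmX : oJ m ∈ x := hg.ppro q hq c m e h'.1
            have hbx : oK b ∈ x := (hmemK b).2 (z.p.elt_lt c b hbz)
            have h13 := hg.los (q.lo i) m i b (hg.plo q i hq hi) hmX hi hbx ⟨p₃, hp₃, h11⟩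
            have h14 : b < z.p.top := z.p.elt_lt c b hbz
            rcases hQs.dec m hmX hlp b h14 with h15 | h15
            · exact absurd ⟨h14, by rw [Cnd.lo_lo q le_rfl]; exact hl.lo i, Q, by rw [Qd_lo]; exact hQ, h15⟩ h13
            · exact RO.mem_lower h15 huQ
      · have hcp : CP v (lv v) i := by
          have := hc.2.2.cp
          rwa [hc.1] at this
        have hlp := z.pro_lp hK h4
        rw [hc.1] at hlp
        rw [h5]
        refine ⟨st_lp H hv hcp (z.lo_in i) hlp, fun b hb heb => ?_⟩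
        exfalso
        rw [h6] at heb
        rcases hGelt c b hb with h7 | h7
        · exact absurd ((q.p.elt_lt c b h7.1).trans_le hqz) (not_lt.2 heb)
        · exact absurd (z.p.elt_lt c b h7.2) (not_lt.2 heb))
  refine ⟨Q', ?_, ⟨Q, by rw [Qd_li]; exact hQ, h2.trans huQ⟩, h1, fun c hci hc hcv => ?_,
    fun c hci hc hcv b hb => ?_, fun c m e hci hc hcv => ?_⟩
  · intro c t hc
    rw [h6] at hc
    rcases hc with (h | h) | h
    · exact le_of_lt (huin c t h)
    · exact (hGi c t h).le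
    · exact h.1.2
  · rw [h6]
    exact Or.inl (Or.inr (Or.inr ⟨⟨hci, hc, hcv⟩, Or.inl rfl⟩))
  · rw [h6]
    have hcC : c ∈ C := ⟨hci, hc, hcv⟩
    constructor
    · rintro ((h | h) | h)
      · exact absurd (huin _ _ h) (by rw [hci]; exact lt_irrefl i)
      · rcases hGelt c b h with h' | h'
        · exact hzelt c hcC b h'.1
        · exact h'.2
      · exact absurd h.2 (by rw [hci]; exact lt_irrefl i)
    · intro h
      exact Or.inl (Or.inr (Or.inr ⟨hcC, Or.inr (Or.inl ⟨b, rfl, h⟩)⟩))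
  · rw [h6]
    exact Or.inl (Or.inr (Or.inr ⟨⟨hci, z.p.act c _ hc, hcv⟩, Or.inr (Or.inr (Or.inr
      ⟨m, e, hc, rfl⟩))⟩))

/-- All responses exist.  PROOF.  Induction on `i`: `exists_Qd`, `exists_Qp`, `lv_qp_ex`. -/
theorem exists_resp (H : Par nm) (hv : IsPM (#K) oP v) {x : Set (Obj nm)} {y : Set (Cnd nm)}
    (hg : Good v x y) {q : Cnd nm} (hq : oP q ∈ x) (hl : Link v (zl y) q) :
    ∀ i, oJ i ∈ x → ∃ Q', (lv v i).qp (q.li i) (zl y) (xJ x) = some Q' := by
  intro i
  induction i using WellFoundedLT.induction with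
  | ind i ih =>
    intro hi
    obtain ⟨Q, hQ⟩ := exists_Qd (v := v) H (hg.toGood0.card_xJ) hl.top (fun j hj hji => ih j hji hj)
    obtain ⟨Q', hQ'⟩ := exists_Qp H hv hg hq hl hi hQ
    exact lv_qp_ex v hQ'

/-- If `z` leads `q` then both can be extended such that the roles are exchanged.

PROOF.  `exists_good`, for `z` and the object `oP q`; `zl y ≤ z` leads `q` (`Link.mono`); `exists_resp`, `exists_bel` for `I = univ`, `Bel.le_q`,
`Bel.link`. -/
theorem swap (H : Par nm) (hv : IsPM (#K) oP v) {z q : Cnd nm} (h : Link v z q) :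
    ∃ z' ≤ z, ∃ q' ≤ q, Link v q' z' := by
  obtain ⟨x, y, hg, hz, hq⟩ := exists_good H hv z (oP q)
  have hlim := hg.toGood0.isLim H
  have hl : Link v (zl y) q := h.mono v (hlim.le z hz)
  have huniv : ∀ i ∈ (univ : Set J), ∀ j < i, j ∈ (univ : Set J) := fun _ _ _ _ => mem_univ _
  obtain ⟨Q, h1, -⟩ := exists_bel (v := v) H huniv hg.toGood0.card_xJ hl.top
    (fun j hj _ => exists_resp H hv hg hq hl j hj)
  have hu : ∀ p : Cnd nm, p.rsI univ huniv = p := fun p =>
    Cnd.ext' (rs_of_in _ _ fun _ _ _ => mem_univ _)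
  refine ⟨zl y, hlim.le z hz, Q, ?_, ?_⟩
  · have := h1.le_q huniv hl (hg.plev q hq)
    rwa [hu] at this
  · have := h1.link huniv (fun c t hc => by
      rw [hlim.F] at hc
      obtain ⟨p, hp, h2⟩ := mem_biU.1 hc
      exact hg.plev p (hg.ysub p hp) c t h2)
    rwa [hu] at this

end SQ
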