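import Pool.Agent.W92_960bf8.Omega
import Pool.Agent.W92_960bf8.RespE

/-!
# MP_960bf8_lc : density arguments
-/

set_option autoImplicit false
set_option linter.unusedSectionVars false

universe u

open Cardinal Set P96 IM

namespace SQ

variable {K J : Type u} [LinearOrder K] [LinearOrder J] [WellFoundedLT J] {nm : J → K → Set (Raw J K)}

/-- PROOF.  `H.reg` gives an element above `a` and `p.p.top`; `exists_top`. -/
theorem exists_high (H : Par nm) (p : Cnd nm) (a : K) : ∃ q ≤ p, a < q.p.top ∧ p.p.top < q.p.top := by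
  obtain ⟨b, hb⟩ := H.reg (ULift Bool) (fun b => if b.down then p.p.top else a) (by
    rw [mk_uLift]
    exact (lift_lt_aleph0.2 (lt_aleph0_of_finite Bool)).trans_le H.unc.le)
  have hb1 : p.p.top < b := by simpa using hb ⟨true⟩
  have hb2 : a < b := by simpa using hb ⟨false⟩
  obtain ⟨q, h1, h2, -⟩ := exists_top p b hb1
  exact ⟨q, h1, by rw [h2]; exact hb2, by rw [h2]; exact hb1⟩

/-- Every legal coordinate can be made active.  PROOF.  `add_pro` with `C = {c}`, `G = ∅`. -/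
theorem add_act (H : Par nm) (p : Cnd nm) {c : Crd J} (hc : LS nm c) :
    ∃ q ≤ p, (c, Tag.act) ∈ q.p.F := by
  have hK := H.unc.le
  obtain ⟨q, h1, -, -, -, h2⟩ := add_pro hK p {c}
    (by rw [mk_singleton]; exact one_lt_aleph0.trans_le hK)
    (fun c' hc' => by rw [mem_singleton_iff.1 hc']; exact hc) ∅
    (by rw [mk_eq_zero]; exact aleph0_pos.trans_le hK)
    (fun g hg => absurd hg (notMem_empty g)) (fun g hg => absurd hg (notMem_empty g))
    (fun g hg => absurd hg (notMem_empty g)) (fun g hg => absurd hg (notMem_empty g))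
  refine ⟨q, h1, ?_⟩
  rw [h2]
  exact Or.inl (Or.inr ⟨rfl, rfl⟩)

/-- Promises can be made.  PROOF.  `add_pro` with `C = {c}`, `G = {(c, m, p.p.top)}` (`p.p.elt_lt`). -/
theorem add_prom (H : Par nm) (p : Cnd nm) {c : Crd J} (hc : LS nm c) {m : J} (hm : LP nm c.1 m) :
    ∃ q ≤ p, ∃ e, (c, Tag.pro m e) ∈ q.p.F := by
  have hK := H.unc.le
  have h1K : (1 : Cardinal.{u}) < #K := one_lt_aleph0.trans_le hK
  obtain ⟨q, h1, -, -, -, h2⟩ := add_pro hK p {c}
    (by rw [mk_singleton]; exact h1K)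
    (fun c' hc' => by rw [mem_singleton_iff.1 hc']; exact hc) {(c, m, p.p.top)}
    (by rw [mk_singleton]; exact h1K)
    (fun g hg => by rw [mem_singleton_iff.1 hg]; exact Or.inl rfl)
    (fun g hg => by rw [mem_singleton_iff.1 hg]; exact hm)
    (fun g hg => by rw [mem_singleton_iff.1 hg])
    (fun g hg b hb => by
      rw [mem_singleton_iff.1 hg] at hb ⊢
      exact p.p.elt_lt c b hb)
  refine ⟨q, h1, p.p.top, ?_⟩
  rw [h2]
  exact Or.inr ⟨_, rfl, rfl⟩

/-- deciding names above the top -/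
theorem add_step (H : Par nm) (M : Set J) (hM : #M < #K) (q : Cnd nm) :
    ∃ r ≤ q, q.p.top < r.p.top ∧ ∀ m ∈ M,
      (∃ y, q.p.top < y ∧ y < r.p.top ∧ r ∈ (V (nm m y) : RO (Cnd nm)).1) ∨
        ∀ y, q.p.top < y → r ∈ ((V (nm m y) : RO (Cnd nm))ᶜ).1 := by
  have hmono : ∀ (m : J) (r r' : Cnd nm), r' ≤ r →
      ((∃ y, q.p.top < y ∧ y < r.p.top ∧ r ∈ (V (nm m y) : RO (Cnd nm)).1) ∨
        ∀ y, q.p.top < y → r ∈ ((V (nm m y) : RO (Cnd nm))ᶜ).1) →
      ((∃ y, q.p.top < y ∧ y < r'.p.top ∧ r' ∈ (V (nm m y) : RO (Cnd nm)).1) ∨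
        ∀ y, q.p.top < y → r' ∈ ((V (nm m y) : RO (Cnd nm))ᶜ).1) := by
    intro m r r' hr h
    have hr' : Ext r'.p r.p := hr
    rcases h with ⟨y, h1, h2, h3⟩ | h
    · exact Or.inl ⟨y, h1, h2.trans_le hr'.top_le, RO.mem_lower h3 hr⟩
    · exact Or.inr fun y hy => RO.mem_lower (h y hy) hr
  obtain ⟨r₁, h1, h2⟩ := (dirClosed_cnd H).dense H.isReg hM
    (fun m => {r | (∃ y, q.p.top < y ∧ y < r.p.top ∧ r ∈ (V (nm m.1 y) : RO (Cnd nm)).1) ∨
        ∀ y, q.p.top < y → r ∈ ((V (nm m.1 y) : RO (Cnd nm))ᶜ).1})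
    (fun m r => by
      by_cases h : ∃ r' ≤ r, ∃ y, q.p.top < y ∧ r' ∈ (V (nm m.1 y) : RO (Cnd nm)).1
      · obtain ⟨r', h1, y, h2, h3⟩ := h
        obtain ⟨r'', h4, h5, -⟩ := exists_high H r' y
        exact ⟨r'', h4.trans h1, Or.inl ⟨y, h2, h5, RO.mem_lower h3 h4⟩⟩
      · refine ⟨r, le_rfl, Or.inr fun y hy => (RO.mem_compl _ _).2 fun r' hr' hV => ?_⟩
        exact h ⟨r', hr', y, hy, hV⟩)
    (fun m r r' hr hr' => hmono m.1 r r' hr' hr) q
  obtain ⟨r, h3, -, h4⟩ := exists_high H r₁ r₁.p.top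
  have h1' : Ext r₁.p q.p := h1
  exact ⟨r, h3.trans h1, h1'.top_le.trans_lt h4, fun m hm => hmono m r₁ r h3 (h2 ⟨m, hm⟩)⟩

/-- The generic sets are unbounded.

PROOF.  Let `i = c.1`, `M = {m | ∃ e, (c, pro m e) ∈ p.p.F}` (`#M < #K` by `p.p.small`; `LP nm i m` for `m ∈ M` by `Cnd.pro_lp`).  Take `p₀ ≤ p.lo i` with top above `a`
and above `p.p.top` (`exists_high`).  Apply `exists_omega` to `p₀` and
`S q r := ∀ m ∈ M, (∃ y, q.p.top < y ∧ y < r.p.top ∧ r ∈ (V (nm m y)).1) ∨ ∀ y, q.p.top < y → r ∈ ((V (nm m y))ᶜ).1`.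
The step: `(dirClosed_cnd H).dense` for the family `M` and these sets (with `q` fixed), then `exists_high`; they are open (downward closed), and dense: given `r`, either some `r' ≤ r`
forces some `y > q.p.top` into `nm m` (then raise the top above `y`), or `r ∈ ((V (nm m y))ᶜ).1` for all `y > q.p.top` (`RO.mem_compl`).  Let `z` be
the limit, `d = z.p.top`.  For `m ∈ M`: `z ∈ ((V (nm m d))ᶜ).1`: if the second alternative holds at some `n` then clear; otherwise
`z ∈ (unbV (fun y => V (nm m y)) d).1` (`mem_unbV`) and `LP.disc` gives it (no extension of `z` is in `V (nm m d)`).  By `(p.ls hK hc).unb d` there are `q₁ ≤ z` and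
`e > d` with `q₁ ∈ V (nm c.2.2 e)`; raise the top above `e`; let `u := q₁.lo i`; `u ≤ p.lo i` (`Cnd.lo_mono`, `Cnd.lo_lo`); `u` forces the same (`V_low`, `Bsd.V`,
`Bsd.compl`, as `nm m y ⊆ RR nm i`).  Apply `build` to `p`, `u`, `i` and `G := {f ∈ p.p.F | f.1.1 = i} ∪ {(c, elt d), (c, eps e)}`.  The conditions: elements: `d < e ≤ u.p.top`, old elements are
`< p.p.top < d`; limit points `a'` of the elements at `c'`: if `d < a'` then there is an element `> d`, impossible; so `a' ≤ d` and the elements below `a'` are old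
elements, use `Cnd.lim` for `p` and restrict to `p.lo i` (`V_low`); promises: for old elements `Cnd.pro` for `p` (restrict: `Bsd.V`, `Bsd.compl`), for `d` see above. -/
theorem add_elt (H : Par nm) (p : Cnd nm) {c : Crd J} (hc : (c, Tag.act) ∈ p.p.F) (a : K) :
    ∃ q ≤ p, ∃ b, a < b ∧ (c, Tag.elt b) ∈ q.p.F := by
  have hK := H.unc.le
  have hls : LS nm c := p.ls hK hc
  let M : Set J := {m | ∃ e, (c, Tag.pro m e) ∈ p.p.F}
  have hlpM : ∀ m ∈ M, LP nm c.1 m := fun m ⟨e, he⟩ => p.pro_lp hK he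
  have hM : #M < #K := by
    have hch : ∀ m : M, ∃ e, (c, Tag.pro m.1 e) ∈ p.p.F := fun m => m.2
    choose ef hef using hch
    refine lt_of_le_of_lt ?_ p.p.small
    refine mk_le_of_injective (f := fun m : M => (⟨(c, Tag.pro m.1 (ef m)), hef m⟩ : p.p.F)) ?_
    intro m m' h
    have h1 : (c, Tag.pro m.1 (ef m)) = (c, Tag.pro m'.1 (ef m')) := congrArg Subtype.val h
    have h2 := congrArg Prod.snd h1
    simp only [Tag.pro.injEq] at h2
    exact Subtype.ext h2.1
  obtain ⟨p₀, hp₀, htop₀, -⟩ := exists_high H (p.lo c.1) (max a p.p.top)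
  obtain ⟨s, z, hs0, -, -, hS, -, -, hz, hzx, hztop, -, -, -⟩ := exists_omega H
    (fun q r => ∀ m ∈ M, (∃ y, q.p.top < y ∧ y < r.p.top ∧ r ∈ (V (nm m y) : RO (Cnd nm)).1) ∨
        ∀ y, q.p.top < y → r ∈ ((V (nm m y) : RO (Cnd nm))ᶜ).1) p₀
    (fun q _ => add_step H M hM q) (fun _ _ => ∅)
  have hdtop : max a p.p.top < z.p.top := by
    have := hztop 0
    rw [hs0] at this
    exact htop₀.trans this
  have had : a < z.p.top := (le_max_left _ _).trans_lt hdtop
  have hpd : p.p.top < z.p.top := (le_max_right _ _).trans_lt hdtop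
  -- the limit is not in the promised sets
  have hzM : ∀ m ∈ M, z ∈ ((V (nm m z.p.top) : RO (Cnd nm))ᶜ).1 := by
    intro m hm
    by_cases h : ∃ n, ∀ y, (s n).p.top < y → s (n + 1) ∈ ((V (nm m y) : RO (Cnd nm))ᶜ).1
    · obtain ⟨n, hn⟩ := h
      exact RO.mem_lower (hn _ (hztop n)) (hz (n + 1))
    · have h' : ∀ n, ∃ y, (s n).p.top < y ∧ y < (s (n + 1)).p.top ∧
          s (n + 1) ∈ (V (nm m y) : RO (Cnd nm)).1 := by
        intro n
        rcases hS n m hm with h1 | h1
        · exact h1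
        · exact absurd ⟨n, h1⟩ h
      have hunb : z ∈ (unbV (fun y => (V (nm m y) : RO (Cnd nm))) z.p.top).1 := by
        rw [mem_unbV]
        intro x hx q hq
        obtain ⟨n, hn⟩ := hzx x hx
        obtain ⟨y, h1, h2, h3⟩ := h' n
        exact ⟨q, le_rfl, y, hn.trans h1, h2.trans (hztop (n + 1)),
          RO.mem_lower h3 (hq.trans (hz (n + 1)))⟩
      rw [RO.mem_compl]
      intro q hq hqV
      have h5 : q ∈ (⊥ : RO (Cnd nm)).1 := by
        rw [← (hlpM m hm).disc z.p.top ⟨a, had⟩]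
        exact ⟨hqV, RO.mem_lower hunb hq⟩
      exact RO.mem_bot _ h5
  obtain ⟨q₁, hq₁, e, hde, hq₁e⟩ := hls.unb z.p.top z
  obtain ⟨q₂, hq₂, heq₂, -⟩ := exists_high H q₁ e
  have hq₂z : q₂ ≤ z := hq₂.trans hq₁
  have hq₂p : q₂ ≤ p.lo c.1 := by
    have h1 : z ≤ p₀ := by
      have := hz 0
      rwa [hs0] at this
    exact (hq₂z.trans h1).trans hp₀
  have huin : (q₂.lo c.1).In (Iio c.1) := q₂.lo_in c.1
  have hup : q₂.lo c.1 ≤ p.lo c.1 := by
    have := Cnd.lo_mono hq₂p c.1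
    rwa [Cnd.lo_lo _ le_rfl] at this
  have hutop : (q₂.lo c.1).p.top = q₂.p.top := rfl
  have hpu : p.p.top ≤ q₂.p.top := (hpd.trans (hde.trans heq₂)).le
  have hlow : ∀ {N : Set (Raw J K)}, N ⊆ RR nm c.1 → p ∈ (V N : RO (Cnd nm)).1 →
      q₂.lo c.1 ∈ (V N : RO (Cnd nm)).1 := fun hN h => RO.mem_lower ((V_low hK hN p).2 h) hup
  have hlowc : ∀ {N : Set (Raw J K)}, N ⊆ RR nm c.1 → p ∈ ((V N : RO (Cnd nm))ᶜ).1 →
      q₂.lo c.1 ∈ ((V N : RO (Cnd nm))ᶜ).1 := fun hN h =>
    RO.mem_lower (((Bsd.V hK hN).compl hK) p h) hup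
  let G : Set (Fact J K) := {f | (f ∈ p.p.F ∧ f.1.1 = c.1) ∨ f = (c, Tag.elt z.p.top) ∨
    f = (c, Tag.eps e)}
  have hGs : #G < #K := by
    have hsub : G ⊆ p.p.F ∪ {(c, Tag.elt z.p.top)} ∪ {(c, Tag.eps e)} := by
      rintro f (h | h | h)
      · exact Or.inl (Or.inl h.1)
      · exact Or.inl (Or.inr h)
      · exact Or.inr h
    have h1K : (1 : Cardinal.{u}) < #K := one_lt_aleph0.trans_le hK
    refine (mk_le_mk_of_subset hsub).trans_lt ?_
    refine (mk_union_le _ _).trans_lt (add_lt_of_lt hK ?_ (by rw [mk_singleton]; exact h1K))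
    exact (mk_union_le _ _).trans_lt (add_lt_of_lt hK p.p.small (by rw [mk_singleton]; exact h1K))
  have hGelt : ∀ c' b, (c', Tag.elt b) ∈ G → ((c', Tag.elt b) ∈ p.p.F ∧ c'.1 = c.1) ∨
      (c' = c ∧ b = z.p.top) := by
    rintro c' b (h | h | h)
    · exact Or.inl h
    · have h1 : c' = c := congrArg Prod.fst h
      have h2 := congrArg Prod.snd h
      simp only [Tag.elt.injEq] at h2
      exact Or.inr ⟨h1, h2⟩
    · exact absurd (congrArg Prod.snd h) (by simp)
  have hGeps : ∀ c' b, (c', Tag.eps b) ∈ G → ((c', Tag.eps b) ∈ p.p.F ∧ c'.1 = c.1) ∨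
      (c' = c ∧ b = e) := by
    rintro c' b (h | h | h)
    · exact Or.inl h
    · exact absurd (congrArg Prod.snd h) (by simp)
    · have h1 : c' = c := congrArg Prod.fst h
      have h2 := congrArg Prod.snd h
      simp only [Tag.eps.injEq] at h2
      exact Or.inr ⟨h1, h2⟩
  have hGpro : ∀ c' m b, (c', Tag.pro m b) ∈ G → (c', Tag.pro m b) ∈ p.p.F ∧ c'.1 = c.1 := by
    rintro c' m b (h | h | h)
    · exact h
    · exact absurd (congrArg Prod.snd h) (by simp)
    · exact absurd (congrArg Prod.snd h) (by simp)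
  have hGact : ∀ c', (c', Tag.act) ∈ G → (c', Tag.act) ∈ p.p.F ∧ c'.1 = c.1 := by
    rintro c' (h | h | h)
    · exact h
    · exact absurd (congrArg Prod.snd h) (by simp)
    · exact absurd (congrArg Prod.snd h) (by simp)
  obtain ⟨q, h1, -, -, -, -, h6⟩ := build hK p (q₂.lo c.1) c.1 huin hup G hGs
    (fun c' t h => by
      rcases h with h | h | h
      · exact h.2
      · rw [show c' = c from congrArg Prod.fst h]
      · rw [show c' = c from congrArg Prod.fst h])
    (fun c' t h h' => Or.inl ⟨h, h'⟩)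
    (fun c' t h => by
      rcases h with h | h | h
      · exact Or.inl ⟨p.p.act c' t h.1, h.2⟩
      · rw [show c' = c from congrArg Prod.fst h]
        exact Or.inl ⟨hc, rfl⟩
      · rw [show c' = c from congrArg Prod.fst h]
        exact Or.inl ⟨hc, rfl⟩)
    (fun c' b h => by
      rcases hGelt c' b h with h' | h'
      · exact (p.p.elt_lt c' b h'.1).trans_le hpu
      · rw [h'.2]
        exact hde.trans heq₂)
    (fun c' b h => by
      rcases hGelt c' b h with h' | h'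
      · obtain ⟨e', h1, h2⟩ := p.p.elt_eps c' b h'.1
        exact ⟨e', h1, Or.inl ⟨h2, h'.2⟩⟩
      · refine ⟨e, by rw [h'.2]; exact hde, Or.inr (Or.inr ?_)⟩
        rw [h'.1])
    (fun c' b h => by
      rcases hGeps c' b h with h' | h'
      · exact (p.p.eps_le c' b h'.1).trans hpu
      · rw [h'.2]
        exact heq₂.le)
    (fun c' m b h => (p.p.pro_le c' m b (hGpro c' m b h).1).trans hpu)
    (fun c' _ x hx h => by
      rcases hGelt c' x h with h' | h'
      · exact h'.1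
      · rw [h'.2] at hx
        exact absurd hx (not_lt.2 hpd.le))
    (fun c' h => p.ls hK (hGact c' h).1)
    (fun c' b h => by
      rcases hGeps c' b h with h' | h'
      · refine hlow ?_ (p.eps hK h'.1)
        have := (p.ls hK h'.1).m_nm b
        rwa [h'.2] at this
      · rw [h'.1, h'.2]
        exact (V_low hK (hls.m_nm e) q₂).2 (RO.mem_lower hq₁e hq₂))
    (fun c' a' ha' h => by
      have hold : ∀ x < a', ∃ y, x < y ∧ y < a' ∧ (c', Tag.elt y) ∈ p.p.F := by
        intro x hx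
        obtain ⟨y, h1, h2, h3⟩ := h x hx
        rcases hGelt c' y h3 with h' | h'
        · exact ⟨y, h1, h2, h'.1⟩
        · exfalso
          obtain ⟨y', h4, -, h5⟩ := h y h2
          rcases hGelt c' y' h5 with h'' | h''
          · have := p.p.elt_lt c' y' h''.1
            rw [h'.2] at h4
            exact absurd (h4.trans this) (not_lt.2 hpd.le)
          · rw [h''.2, h'.2] at h4
            exact lt_irrefl _ h4
      obtain ⟨x, hx⟩ := ha'
      obtain ⟨y, -, -, hy⟩ := hold x hx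
      obtain ⟨y', -, -, hy'⟩ := h x hx
      have hci : c'.1 = c.1 := by
        rcases hGelt c' y' hy' with h' | h'
        · exact h'.2
        · rw [h'.1]
      refine hlow ?_ (p.lim hK ⟨x, hx⟩ hold)
      have := (p.ls hK hy).s_nm a'
      rwa [hci] at this)
    (fun c' m b h => by
      obtain ⟨hold, hci⟩ := hGpro c' m b h
      have hlp := p.pro_lp hK hold
      rw [hci] at hlp
      refine ⟨hlp, fun b' hb' hbb' => ?_⟩
      rcases hGelt c' b' hb' with h' | h'
      · exact hlowc (hlp.nms b') (p.pro hK hold h'.1 hbb')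
      · rw [h'.2]
        rw [h'.1] at hold
        exact ((Bsd.V hK (hlp.nms _)).compl hK) q₂ (RO.mem_lower (hzM m ⟨b, hold⟩) hq₂z))
  refine ⟨q, h1, z.p.top, had, ?_⟩
  rw [h6]
  exact Or.inl (Or.inr (Or.inr (Or.inl rfl)))

end SQ
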