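import Pool.Agent.W92_960bf8.SqA

/-!
# MP_960bf8_lc : the generic sequence guesses
-/

set_option autoImplicit false
set_option linter.unusedSectionVars false

universe u

open Cardinal Set P96 IM

namespace SQ

variable {K J : Type u} [LinearOrder K] [LinearOrder J] [WellFoundedLT J] {nm : J → K → Set (Raw J K)}

theorem exists_mem {P : Type u} [Preorder P] {c : RO P} (hc : c ≠ ⊥) : ∃ p, p ∈ c.1 := by
  by_contra hcon
  push Not at hcon
  exact hc (le_bot_iff.1 ((RO.le_iff _ _).2 fun p hp => absurd hp (hcon p)))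

/-- `p` decides `a` -/
def Dec {P : Type u} [Preorder P] (a : RO P) (p : P) : Prop := p ∈ a.1 ∨ p ∈ (aᶜ).1

theorem dia_V (H : Par nm) {X e : K → RO (Cnd nm)} {c : RO (Cnd nm)} (hc : c ≠ ⊥)
    (hce : c ≤ clubT e) : ∃ (p : Cnd nm) (a : K), p ∈ c.1 ∧ p ∈ (e a).1 ∧
      ∀ x < a, (p ∈ (X x).1 ∧ p ∈ (aV a x : RO (Cnd nm)).1) ∨
        (p ∈ ((X x)ᶜ).1 ∧ p ∈ ((aV a x : RO (Cnd nm))ᶜ).1) := by
  have hK := H.unc.le
  obtain ⟨p, hp⟩ := exists_mem hc
  obtain ⟨s, z, h0, h1, h2, h3, h4, h5, h6, h7, h8, -, h9, h10⟩ := exists_omega H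
    (fun q r => (∃ y, q.p.top < y ∧ y < r.p.top ∧ r ∈ (e y).1) ∧ ∀ x ≤ q.p.top, Dec (X x) r) p
    (fun r hr => by
      have h1 : r ∈ (cofT e).1 :=
        (RO.le_iff _ _).1 (hce.trans inf_le_left) r (RO.mem_lower hp hr)
      unfold cofT at h1
      rw [RO.mem_iInf] at h1
      obtain ⟨t, ht, y, hy⟩ := (RO.mem_iSup _ _).1 (h1 r.p.top) r le_rfl
      obtain ⟨t', ht', h2, h3⟩ := exists_high H t y.1
      have ht'' : Ext t.p r.p := ht
      have hIic : #(Iic r.p.top) < #K := by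
        have h4 : (Iic r.p.top : Set K) = insert r.p.top (Iio r.p.top) := by
          ext x
          rw [mem_Iic, mem_insert_iff, mem_Iio, le_iff_eq_or_lt]
        rw [h4]
        exact (mk_insert_le).trans_lt (add_lt_of_lt hK (H.seg _) (one_lt_aleph0.trans_le hK))
      obtain ⟨w, hw, h4⟩ := (dirClosed_cnd H).decide H.isReg hIic (fun x : Iic r.p.top => X x.1) t'
      have hw' : Ext w.p t'.p := hw
      exact ⟨w, (hw.trans ht').trans ht, (ht''.top_le.trans_lt h3).trans_le hw'.top_le,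
        ⟨y.1, y.2, h2.trans_le hw'.top_le, RO.mem_lower hy (hw.trans ht')⟩,
        fun x hx => h4 ⟨x, hx⟩⟩)
    (fun s _ => {x | ∃ n, s n ∈ (X x).1})
  have hzp : z ≤ p := by rw [← h0]; exact h6 0
  have hub : z ∈ (unbV e z.p.top).1 := by
    rw [mem_unbV]
    intro x hx r hr
    obtain ⟨n, hn⟩ := h7 x hx
    obtain ⟨⟨y, h10, h11, h12⟩, -⟩ := h3 n
    exact ⟨r, le_rfl, y, hn.trans h10, h11.trans (h8 _), RO.mem_lower h12 (hr.trans (h6 _))⟩
  refine ⟨z, z.p.top, RO.mem_lower hp hzp, ?_, fun x hx => ?_⟩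
  · have h11 : z ∈ (clubT e).1 := (RO.le_iff _ _).1 hce z (RO.mem_lower hp hzp)
    have h12 := (RO.mem_iInf _ _).1 h11.2 ⟨z.p.top, h10⟩
    have h13 : z ∈ (unbV e z.p.top ⊓ ((unbV e z.p.top)ᶜ ⊔ e z.p.top)).1 := ⟨hub, h12⟩
    rw [inf_sup_left, inf_compl_self, bot_sup_eq] at h13
    exact h13.2
  · have h11 := dec_aV (p := z) (a := z.p.top) (x := x) le_rfl
    rw [h11.1, h11.2, h9]
    obtain ⟨n, hn⟩ := h7 x hx
    rcases (h3 n).2 x hn.le with h12 | h12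
    · exact Or.inl ⟨RO.mem_lower h12 (h6 _), n + 1, h12⟩
    · refine Or.inr ⟨RO.mem_lower h12 (h6 _), ?_⟩
      rintro ⟨m, hm⟩
      rcases le_total m (n + 1) with h13 | h13
      · exact (RO.mem_compl _ _).1 h12 _ le_rfl (RO.mem_lower hm (h5 _ _ h13))
      · exact (RO.mem_compl _ _).1 h12 _ (h5 _ _ h13) hm

end SQ
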