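import Pool.Agent.W92_960bf8.Ind

/-!
# MP_960bf8_lc : distributivity of `<κ`-directed closed preorders
-/

set_option autoImplicit false
set_option linter.unusedSectionVars false

universe u

open Cardinal Set IM

namespace SQ

section dist
variable {P : Type u} [Preorder P] {κ : Cardinal.{u}}

theorem DirC_lb (h : DirClosed κ P) (hκ : κ.IsRegular) {A : Type u} [LinearOrder A] (hA : #A < κ)
    (B : Set A) (s : A → P) (p : P) (hs : ∀ a ∈ B, s a ≤ p)
    (hs' : ∀ a ∈ B, ∀ a' ∈ B, a ≤ a' → s a' ≤ s a) : ∃ q ≤ p, ∀ a ∈ B, q ≤ s a := by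
  have hcard : #(insert p (s '' B) : Set P) < κ := by
    refine lt_of_le_of_lt (Cardinal.mk_insert_le) ?_
    refine Cardinal.add_lt_of_lt hκ.aleph0_le ?_ (lt_of_lt_of_le Cardinal.one_lt_aleph0 hκ.aleph0_le)
    exact lt_of_le_of_lt (Cardinal.mk_image_le.trans (Cardinal.mk_set_le B)) hA
  obtain ⟨q, hq⟩ := h (insert p (s '' B)) hcard ⟨p, Or.inl rfl⟩ (by
    rintro x (rfl | ⟨a, ha, rfl⟩) y (rfl | ⟨a', ha', rfl⟩)
    · exact ⟨_, Or.inl rfl, le_rfl, le_rfl⟩
    · exact ⟨s a', Or.inr ⟨a', ha', rfl⟩, hs a' ha', le_rfl⟩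
    · exact ⟨s a, Or.inr ⟨a, ha, rfl⟩, le_rfl, hs a ha⟩
    · rcases le_total a a' with haa | haa
      · exact ⟨s a', Or.inr ⟨a', ha', rfl⟩, hs' a ha a' ha' haa, le_rfl⟩
      · exact ⟨s a, Or.inr ⟨a, ha, rfl⟩, le_rfl, hs' a' ha' a ha haa⟩)
  exact ⟨q, hq p (Or.inl rfl), fun a ha => hq (s a) (Or.inr ⟨a, ha, rfl⟩)⟩

/-- Fewer than `κ` dense open sets have a dense intersection.

PROOF.  Well-order `A` (`A` has a well-order; let `r` be one, e.g. `WellOrderingRel`).  By well-founded recursion / Zorn construct conditions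
`f a ≤ p` (`a : A`), decreasing in `a`, with `f a ∈ D a`: given the `f a'`, `a' < a`, which form a chain of size `< κ` together with `p`, take
a lower bound and extend it into `D a`.  In the end take a lower bound of all `f a` and `p`.  A convenient way to avoid the dependent recursion:
let `g : Set P → P` be a choice function of lower bounds (`g S ≤ s` for all `s ∈ S` if `S` has a lower bound), `h a : P → P` with
`h a q ≤ q`, `h a q ∈ D a`; put `f a := h a (g (insert p {f a' | a' < a}))` by `WellFounded.fix`, and prove by well-founded induction on `a`: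
`f a ≤ p`, `f a ≤ f a'` for `a' < a`, `f a ∈ D a`. -/
theorem DirClosed.dense (h : DirClosed κ P) (hκ : κ.IsRegular) {A : Type u} (hA : #A < κ)
    (D : A → Set P) (hD : ∀ a p, ∃ q ≤ p, q ∈ D a) (hD' : ∀ a p q, p ∈ D a → q ≤ p → q ∈ D a) (p : P) :
    ∃ q ≤ p, ∀ a, q ∈ D a := by
  classical
  obtain ⟨hlin, hwf⟩ := exists_wellFoundedLT A
  have wf : WellFounded (fun a b : A => a < b) := wellFounded_lt
  let F : (j : A) → ((i : A) → i < j → P) → P := fun j ih =>
    if h : ∃ q, q ∈ D j ∧ q ≤ p ∧ ∀ i (hi : i < j), q ≤ ih i hi then h.choose else p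
  let s : A → P := wf.fix F
  have hs : ∀ j, s j = F j (fun i _ => s i) := fun j => wf.fix_eq F j
  have key : ∀ j, s j ∈ D j ∧ s j ≤ p ∧ ∀ i, i < j → s j ≤ s i := by
    intro j
    refine wf.induction (C := fun j => s j ∈ D j ∧ s j ≤ p ∧ ∀ i, i < j → s j ≤ s i) j ?_
    intro j ih
    obtain ⟨d, hdp, hd⟩ := DirC_lb h hκ hA (Iio j) s p (fun i hi => (ih i hi).2.1) (by
      intro i hi i' hi' hii
      rcases hii.eq_or_lt with h | h
      · rw [h]
      · exact (ih i' hi').2.2 i h)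
    obtain ⟨q, hqd, hqD⟩ := hD j d
    have hex : ∃ q, q ∈ D j ∧ q ≤ p ∧ ∀ i (_ : i < j), q ≤ s i :=
      ⟨q, hqD, hqd.trans hdp, fun i hi => hqd.trans (hd i hi)⟩
    have hsj : s j = hex.choose := by
      rw [hs]
      exact dif_pos hex
    rw [hsj]
    exact hex.choose_spec
  obtain ⟨q, hqp, hq⟩ := DirC_lb h hκ hA Set.univ s p (fun i _ => (key i).2.1) (by
    intro i _ i' _ hii
    rcases hii.eq_or_lt with h | h
    · rw [h]
    · exact (key i').2.2 i h)
  exact ⟨q, hqp, fun a => hD' a _ _ (key a).1 (hq a (Set.mem_univ a))⟩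

/-- Fewer than `κ` truth values are decided by a condition.

PROOF.  `DirClosed.dense` for the sets `D a := {q | q ∈ (f a).1 ∨ q ∈ ((f a)ᶜ).1}`: dense by `RO.mem_compl`, open by `RO.mem_lower`. -/
theorem DirClosed.decide (h : DirClosed κ P) (hκ : κ.IsRegular) {A : Type u} (hA : #A < κ)
    (f : A → RO P) (p : P) : ∃ q ≤ p, ∀ a, q ∈ (f a).1 ∨ q ∈ ((f a)ᶜ).1 := by
  refine h.dense hκ hA (fun a => {q | q ∈ (f a).1 ∨ q ∈ ((f a)ᶜ).1}) ?_ ?_ p
  · intro a q
    by_cases hc : ∃ r ≤ q, r ∈ (f a).1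
    · obtain ⟨r, hr, hr'⟩ := hc
      exact ⟨r, hr, Or.inl hr'⟩
    · exact ⟨q, le_rfl, Or.inr fun r hr hr' => hc ⟨r, hr, hr'⟩⟩
  · rintro a q r (hq | hq) hr
    · exact Or.inl (RO.mem_lower hq hr)
    · exact Or.inr (RO.mem_lower hq hr)

/-- Distributivity.

PROOF.  `DirClosed.dense` for the sets `D a := {q | ∃ x, q ∈ (f a x).1}`, then choose `g`. -/
theorem DirClosed.dist (h : DirClosed κ P) (hκ : κ.IsRegular) {A X : Type u} (hA : #A < κ)
    (f : A → X → RO P) (hf : ∀ a, (⨆ x, f a x) = ⊤) (p : P) :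
    ∃ q ≤ p, ∃ g : A → X, ∀ a, q ∈ (f a (g a)).1 := by
  obtain ⟨q, hq, hq'⟩ := h.dense hκ hA (fun a => {q | ∃ x, q ∈ (f a x).1}) (by
    intro a q
    have h1 : q ∈ (⨆ x, f a x).1 := by
      rw [hf a]
      exact RO.mem_top q
    obtain ⟨r, hr, x, hx⟩ := (RO.mem_iSup _ _).1 h1 q le_rfl
    exact ⟨r, hr, x, hx⟩) (by
    rintro a q r ⟨x, hx⟩ hr
    exact ⟨x, RO.mem_lower hx hr⟩) p
  choose g hg using hq'
  exact ⟨q, hq, g, hg⟩

end dist

end SQ
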