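import Pool.Agent.W92_960bf8.Base

/-!
# MP_960bf8_lc : the requirements in terms of truth values in `RO (Cnd nm)`
-/

set_option autoImplicit false
set_option linter.unusedSectionVars false

universe u

open Cardinal Set P96 IM

namespace SQ

variable {K J : Type u} [LinearOrder K] [LinearOrder J] [WellFoundedLT J] {nm : J → K → Set (Raw J K)}

/-- legal coordinates, in terms of truth values -/
structure LS (nm : J → K → Set (Raw J K)) (c : Crd J) : Prop where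
  s_lt : c.2.1 < c.1
  m_lt : c.2.2 < c.1
  s_nm : ∀ b, nm c.2.1 b ⊆ RR nm c.1
  m_nm : ∀ b, nm c.2.2 b ⊆ RR nm c.1
  unb : ∀ x, ∀ p : Cnd nm, ∃ q ≤ p, ∃ y, x < y ∧ q ∈ (V (nm c.2.2 y) : RO (Cnd nm)).1
  cl : ∀ b, (∃ x, x < b) →
    unbV (fun y => (V (nm c.2.2 y) : RO (Cnd nm))) b ≤ V (nm c.2.2 b)
  sub : ∀ b, (V (nm c.2.2 b) : RO (Cnd nm)) ≤ V (nm c.2.1 b)

/-- codes of names of discrete sets, in terms of truth values -/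
structure LP (nm : J → K → Set (Raw J K)) (i m : J) : Prop where
  lt : m < i
  nms : ∀ b, nm m b ⊆ RR nm i
  disc : ∀ b, (∃ x, x < b) →
    (V (nm m b) : RO (Cnd nm)) ⊓ unbV (fun y => (V (nm m y) : RO (Cnd nm))) b = ⊥

theorem mem_unbV {e : K → RO (Cnd nm)} {b : K} {p : Cnd nm} :
    p ∈ (unbV e b).1 ↔ ∀ x < b, ∀ q ≤ p, ∃ r ≤ q, ∃ y, x < y ∧ y < b ∧ r ∈ (e y).1 := by
  unfold unbV
  rw [RO.mem_iInf]
  constructor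
  · intro h x hx q hq
    obtain ⟨r, hr, y, hy⟩ := (RO.mem_iSup _ _).1 (h ⟨x, hx⟩) q hq
    exact ⟨r, hr, y.1, y.2.1, y.2.2, hy⟩
  · intro h x
    refine (RO.mem_iSup _ _).2 fun q hq => ?_
    obtain ⟨r, hr, y, h1, h2, h3⟩ := h x.1 x.2 q hq
    exact ⟨r, hr, ⟨y, h1, h2⟩, h3⟩

theorem cof_iff (hK : ℵ₀ ≤ #K) {N : K → Set (Raw J K)} {i : J} (hN : ∀ b, N b ⊆ RR nm i)
    (p : Cnd nm) (b : K) : CofF (RR nm i) (p.p.rs (Iio i)) N b ↔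
      (∃ x, x < b) ∧ p ∈ (unbV (fun y => (V (N y) : RO (Cnd nm))) b).1 := by
  rw [mem_unbV]
  constructor
  · rintro ⟨h0, h⟩
    refine ⟨h0, fun x hx q hq => ?_⟩
    have hq' : q.p ≤ p.p := hq
    obtain ⟨r, h1, h2, y, h3, h4, h5⟩ := h x hx _ (rs_mem_RR q.ok i) (rs_mono hq' (Iio i))
    obtain ⟨t, h6, h7, -⟩ := amal hK q ⟨r, RR_ok h1⟩ i (RR_in h1) h2
    refine ⟨t, h6, y, h3, h4, (fr_iff hK (hN y) t).2 (h5.mono ?_)⟩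
    have h7' : t.p ≤ r := h7
    have := rs_mono h7' (Iio i)
    rwa [rs_of_in r _ (RR_in h1)] at this
  · rintro ⟨h0, h⟩
    refine ⟨h0, fun x hx q hq hqp => ?_⟩
    obtain ⟨q', h1, h2, -⟩ := amal hK p ⟨q, RR_ok hq⟩ i (RR_in hq) hqp
    obtain ⟨r, h3, y, h4, h5, h6⟩ := h x hx q' h1
    refine ⟨r.p.rs (Iio i), rs_mem_RR r.ok i, ?_, y, h4, h5, ?_⟩
    · have h7 : r.p ≤ q := (h3.trans h2 : r ≤ ⟨q, RR_ok hq⟩)
      have := rs_mono h7 (Iio i)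
      rwa [rs_of_in q _ (RR_in hq)] at this
    · exact (fr_iff hK (hN y) r).1 h6

/-- a condition of `RR nm i` as an element of `Cnd nm` -/
theorem RR_rs {p : Raw J K} {i : J} (h : p ∈ RR nm i) : p.rs (Iio i) = p := rs_of_in _ _ (RR_in h)

theorem fr_RR (hK : ℵ₀ ≤ #K) {N : Set (Raw J K)} {i : J} (hN : N ⊆ RR nm i) {p : Raw J K}
    (hp : p ∈ RR nm i) : Frc (RR nm i) p N ↔ (⟨p, RR_ok hp⟩ : Cnd nm) ∈ (V N : RO (Cnd nm)).1 := by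
  rw [fr_iff hK hN, RR_rs hp]

theorem V_low (hK : ℵ₀ ≤ #K) {N : Set (Raw J K)} {i : J} (hN : N ⊆ RR nm i) (p : Cnd nm) :
    p.lo i ∈ (V N : RO (Cnd nm)).1 ↔ p ∈ (V N : RO (Cnd nm)).1 := by
  rw [fr_iff hK hN, fr_iff hK hN]
  show Frc (RR nm i) ((p.p.rs (Iio i)).rs (Iio i)) N ↔ _
  rw [rs_rs, inter_self]

theorem ls_iff (hK : ℵ₀ ≤ #K) {c : Crd J} : LSr nm (RR nm c.1) c ↔ LS nm c := by
  constructor
  · intro h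
    refine ⟨h.s_lt, h.m_lt, h.s_nm, h.m_nm, fun x p => ?_, fun b hb p hp => ?_, fun b p hp => ?_⟩
    · obtain ⟨q, h1, h2, y, h3, h4⟩ := h.unb x _ (rs_mem_RR p.ok c.1)
      obtain ⟨t, h5, h6, -⟩ := amal hK p ⟨q, RR_ok h1⟩ c.1 (RR_in h1) h2
      refine ⟨t, h5, y, h3, (fr_iff hK (h.m_nm y) t).2 (h4.mono ?_)⟩
      have h6' : t.p ≤ q := h6
      have := rs_mono h6' (Iio c.1)
      rwa [RR_rs h1] at this
    · refine (fr_iff hK (h.m_nm b) p).2 (h.cl _ (rs_mem_RR p.ok c.1) b ?_)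
      exact (cof_iff hK h.m_nm p b).2 ⟨hb, hp⟩
    · refine (fr_iff hK (h.s_nm b) p).2 (h.sub _ (rs_mem_RR p.ok c.1) b ?_)
      exact (fr_iff hK (h.m_nm b) p).1 hp
  · intro h
    refine ⟨h.s_lt, h.m_lt, h.s_nm, h.m_nm, fun x p hp => ?_, fun p hp b hb => ?_, fun p hp b hb => ?_⟩
    · obtain ⟨q, h1, y, h2, h3⟩ := h.unb x ⟨p, RR_ok hp⟩
      refine ⟨q.p.rs (Iio c.1), rs_mem_RR q.ok _, ?_, y, h2, (fr_iff hK (h.m_nm y) q).1 h3⟩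
      have h1' : q.p ≤ p := h1
      have := rs_mono h1' (Iio c.1)
      rwa [RR_rs hp] at this
    · rw [← RR_rs hp] at hb ⊢
      obtain ⟨h1, h2⟩ := (cof_iff hK h.m_nm ⟨p, RR_ok hp⟩ b).1 hb
      exact (fr_iff hK (h.m_nm b) ⟨p, RR_ok hp⟩).1 (h.cl b h1 h2)
    · rw [← RR_rs hp] at hb ⊢
      exact (fr_iff hK (h.s_nm b) ⟨p, RR_ok hp⟩).1 (h.sub b ((fr_iff hK (h.m_nm b) ⟨p, RR_ok hp⟩).2 hb))

theorem lp_iff (hK : ℵ₀ ≤ #K) {i m : J} : LPr nm (RR nm i) i m ↔ LP nm i m := by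
  constructor
  · intro h
    refine ⟨h.lt, h.nms, fun b hb => ?_⟩
    rw [← le_bot_iff]
    intro p hp
    exfalso
    refine h.disc _ (rs_mem_RR p.ok i) b ((fr_iff hK (h.nms b) p).1 hp.1) ?_
    exact (cof_iff hK h.nms p b).2 ⟨hb, hp.2⟩
  · intro h
    refine ⟨h.lt, h.nms, fun p hp b h1 h2 => ?_⟩
    rw [← RR_rs hp] at h1 h2
    obtain ⟨h3, h4⟩ := (cof_iff hK h.nms ⟨p, RR_ok hp⟩ b).1 h2
    have h5 : (⟨p, RR_ok hp⟩ : Cnd nm) ∈ (⊥ : RO (Cnd nm)).1 := by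
      rw [← h.disc b h3]
      exact ⟨(fr_iff hK (h.nms b) ⟨p, RR_ok hp⟩).2 h1, h4⟩
    exact RO.mem_bot _ h5

/-! ### the requirements -/

theorem Cnd.ls (hK : ℵ₀ ≤ #K) (p : Cnd nm) {c : Crd J} {t : Tag J K} (h : (c, t) ∈ p.p.F) :
    LS nm c := (ls_iff hK).1 (p.ok c (p.p.act c t h)).ls

theorem Cnd.eps (hK : ℵ₀ ≤ #K) (p : Cnd nm) {c : Crd J} {e : K} (h : (c, Tag.eps e) ∈ p.p.F) :
    p ∈ (V (nm c.2.2 e) : RO (Cnd nm)).1 := by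
  have h1 := p.ok c (p.p.act c _ h)
  exact (fr_iff hK (h1.ls.m_nm e) p).2 (h1.eps e h)

theorem Cnd.lim (hK : ℵ₀ ≤ #K) (p : Cnd nm) {c : Crd J} {a : K} (ha : ∃ x, x < a)
    (h : ∀ x < a, ∃ y, x < y ∧ y < a ∧ (c, Tag.elt y) ∈ p.p.F) :
    p ∈ (V (nm c.2.1 a) : RO (Cnd nm)).1 := by
  obtain ⟨x, hx⟩ := ha
  obtain ⟨y, -, -, hy⟩ := h x hx
  have h1 := p.ok c (p.p.act c _ hy)
  exact (fr_iff hK (h1.ls.s_nm a) p).2 (h1.lim a ⟨x, hx⟩ h)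

theorem Cnd.pro_lp (hK : ℵ₀ ≤ #K) (p : Cnd nm) {c : Crd J} {m : J} {e : K}
    (h : (c, Tag.pro m e) ∈ p.p.F) : LP nm c.1 m :=
  (lp_iff hK).1 ((p.ok c (p.p.act c _ h)).pro m e h).1

theorem Cnd.pro (hK : ℵ₀ ≤ #K) (p : Cnd nm) {c : Crd J} {m : J} {e : K}
    (h : (c, Tag.pro m e) ∈ p.p.F) {b : K} (hb : (c, Tag.elt b) ∈ p.p.F) (heb : e ≤ b) :
    p ∈ ((V (nm m b) : RO (Cnd nm))ᶜ).1 := by
  obtain ⟨h1, h2⟩ := (p.ok c (p.p.act c _ h)).pro m e h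
  exact (nfr_iff hK (h1.nms b) p).2 (h2 b hb heb)

/-- The general extension lemma. -/
theorem build (hK : ℵ₀ ≤ #K) (p u : Cnd nm) (i : J) (hu : u.In (Iio i)) (hup : u ≤ p.lo i)
    (G : Set (Fact J K)) (hGs : #G < #K) (hGi : ∀ c t, (c, t) ∈ G → c.1 = i)
    (hGp : ∀ c t, (c, t) ∈ p.p.F → c.1 = i → (c, t) ∈ G)
    (hact : ∀ c t, (c, t) ∈ G → (c, Tag.act) ∈ G)
    (helt : ∀ c b, (c, Tag.elt b) ∈ G → b < u.p.top)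
    (heps : ∀ c b, (c, Tag.elt b) ∈ G → ∃ e, b < e ∧ (c, Tag.eps e) ∈ G)
    (heps' : ∀ c e, (c, Tag.eps e) ∈ G → e ≤ u.p.top)
    (hpro : ∀ c m e, (c, Tag.pro m e) ∈ G → e ≤ u.p.top)
    (hb : ∀ c, (c, Tag.act) ∈ p.p.F → ∀ x < p.p.top, (c, Tag.elt x) ∈ G → (c, Tag.elt x) ∈ p.p.F)
    (hLS : ∀ c, (c, Tag.act) ∈ G → LS nm c)
    (h1 : ∀ c e, (c, Tag.eps e) ∈ G → u ∈ (V (nm c.2.2 e) : RO (Cnd nm)).1)
    (h2 : ∀ c : Crd J, ∀ a, (∃ x, x < a) →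
      (∀ x < a, ∃ y, x < y ∧ y < a ∧ (c, Tag.elt y) ∈ G) → u ∈ (V (nm c.2.1 a) : RO (Cnd nm)).1)
    (h3 : ∀ c m e, (c, Tag.pro m e) ∈ G → LP nm i m ∧
      ∀ b, (c, Tag.elt b) ∈ G → e ≤ b → u ∈ ((V (nm m b) : RO (Cnd nm))ᶜ).1) :
    ∃ q : Cnd nm, q ≤ p ∧ q ≤ u ∧ q.p.top = u.p.top ∧ q.p.T = u.p.T ∧ q.p.A = u.p.A ∧
      q.p.F = u.p.F ∪ G ∪ {f | f ∈ p.p.F ∧ i < f.1.1} := by
  have huu : u.p.rs (Iio i) = u.p := rs_of_in _ _ hu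
  have hLS' : ∀ c, (c, Tag.act) ∈ G → LSr nm (RR nm i) c := by
    intro c hc
    have := (ls_iff hK).2 (hLS c hc)
    rwa [hGi c _ hc] at this
  refine build0 hK p u i hu hup G hGs hGi hGp hact helt heps heps' hpro hb hLS' ?_ ?_ ?_
  · intro c e hc
    have := (fr_iff hK ((hLS' c (hact c _ hc)).m_nm e) u).1 (h1 c e hc)
    rwa [huu] at this
  · intro c hci a ha hx
    obtain ⟨x, hxa⟩ := ha
    obtain ⟨y, -, -, hy⟩ := hx x hxa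
    have := (fr_iff hK ((hLS' c (hact c _ hy)).s_nm a) u).1 (h2 c a ⟨x, hxa⟩ hx)
    rwa [huu] at this
  · intro c m e hc
    obtain ⟨h4, h5⟩ := h3 c m e hc
    refine ⟨(lp_iff hK).2 h4, fun b hb heb => ?_⟩
    have := (nfr_iff hK (h4.nms b) u).1 (h5 b hb heb)
    rwa [huu] at this

end SQ
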