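import Pool.Agent.W92_960bf8.FinA

/-!
# MP_960bf8_lc : the parameters
-/

set_option autoImplicit false
set_option linter.unusedSectionVars false

universe u

open Cardinal Set P96 IM

namespace SQ

/-- a well-order of inaccessible type.

PROOF.  `K := κ.ord.ToType`.  `κ.IsInaccessible`: `ℵ₀ < κ`, `κ` is regular and a strong limit.  `seg`: `mk_Iio_ord_toType`.  `reg`: a function from a type of size `< κ = cof κ.ord` is bounded
(otherwise its range is cofinal; `Ordinal.cof`-lemmas, or see other files of the team with the statement `∃ b, ∀ a, f a < b`). -/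
theorem exists_K {κ : Cardinal.{u}} (hκ : κ.IsInaccessible) :
    ∃ (K : Type u) (_ : LinearOrder K), #K = κ ∧ WellFoundedLT K ∧ ℵ₀ < #K ∧ (#K).IsRegular ∧
      (∀ a : K, #(Iio a) < #K) ∧ (∀ (A : Type u) (f : A → K), #A < #K → ∃ b, ∀ a, f a < b) ∧
      ∀ a : K, (2 ^ #(Iio a) : Cardinal.{u}) < #K := by
  have hr : κ.IsRegular := ⟨hκ.aleph0_lt.le, hκ.le_cof_ord⟩
  have hK : #κ.ord.ToType = κ := by simp
  refine ⟨κ.ord.ToType, inferInstance, hK, inferInstance, ?_, ?_, ?_, ?_, ?_⟩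
  · rw [hK]
    exact hκ.aleph0_lt
  · rw [hK]
    exact hr
  · intro a
    rw [hK]
    exact mk_Iio_toType_ord_lt a
  · intro A f hA
    rw [hK] at hA
    exact FinB_bdd hr hA f
  · intro a
    rw [hK]
    exact hκ.isStrongPrelimit (mk_Iio_toType_ord_lt a)

/-- a well-order of successor type.

PROOF.  `J := (succ θ).ord.ToType`; `succ θ` is regular; `#(Iio j) < succ θ`; a set of size `≤ θ < succ θ` is bounded. -/
theorem exists_J {θ : Cardinal.{u}} (hθ : ℵ₀ ≤ θ) :
    ∃ (J : Type u) (_ : LinearOrder J), #J = Order.succ θ ∧ WellFoundedLT J ∧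
      (∀ s : Set J, #s ≤ θ → ∃ j, ∀ i ∈ s, i < j) ∧ ∀ j : J, #(Iio j) ≤ θ := by
  refine ⟨(Order.succ θ).ord.ToType, inferInstance, by simp, inferInstance, fun s hs => ?_, fun j => ?_⟩
  · obtain ⟨b, hb⟩ := FinB_bdd (isRegular_succ hθ) (A := s) (Order.lt_succ_of_le hs) Subtype.val
    exact ⟨b, fun i hi => hb ⟨i, hi⟩⟩
  · exact Order.lt_succ_iff.1 (mk_Iio_toType_ord_lt j)

/-- The parameters exist. -/
theorem exists_par {κ : Cardinal.{u}} (hκ : κ.IsInaccessible) :
    ∃ (K J : Type u) (_ : LinearOrder K) (_ : LinearOrder J) (_ : WellFoundedLT J)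
      (nm : J → K → Set (Raw J K)), #K = κ ∧ Par nm := by
  obtain ⟨K, iK, h1, h2, h3, h4, h5, h6, h7⟩ := exists_K hκ
  obtain ⟨J, iJ, h8, h9, h10, h11⟩ := exists_J (θ := 2 ^ (2 ^ #K : Cardinal.{u}))
    ((h3.le.trans (cantor _).le).trans (cantor _).le)
  obtain ⟨nm, h12, h13⟩ := exists_nm (K := K) (J := J) h3.le h8
  exact ⟨K, J, iK, iJ, h9, nm, h1, h2, h3, h4, h5, h6, h10, h11, h13, h12, h7⟩

end SQ
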