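import Pool.Agent.W92_960bf8.KilB
import Pool.Agent.W92_960bf8.FinB
import Pool.Agent.W_MP_960bf8_h40.Model

/-!
# MP_960bf8_lc : the model
-/

set_option autoImplicit false
set_option linter.unusedSectionVars false

universe u

open Cardinal Set P96 IM

namespace SQ

/-- the linear tree order -/
def linT (K : Type u) [LinearOrder K] : Tree K where
  t := Iio
  lt := fun _ _ h => h
  coh := fun x y h => by
    rw [inter_eq_right.2 (Iio_subset_Iio (mem_Iio.1 h).le)]
  cl := fun _ _ h _ _ => h
  unb := fun _ h z hz => by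
    obtain ⟨w, h1, h2⟩ := h.2 z hz
    exact ⟨w, h2, h1⟩

/-- If there is an indestructibly supercompact cardinal then there is a countable well-founded model with an inaccessible cardinal `κ` such
that `□(κ)` and `◇(κ)` hold and `P⁻(κ,κ,⊑,1,{κ},κ)` fails. -/
theorem model_of_ind {κ : Cardinal.{u}} (hκ : IsIndSC κ) :
    ∃ (M : Type (u + 1)) (E : M → M → Prop), Countable M ∧ WellFounded E ∧ HESR.IsZFC E ∧
      PXY.SqDiaNotPrx E := by
  obtain ⟨K, J, iK, iJ, wJ, nm, hK, H⟩ := exists_par hκ.1
  have wK := H.wf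
  have hne : Nonempty (Cnd nm) := by
    obtain ⟨a⟩ := H.kpar.nonempty
    exact ⟨emptyC H.unc.le a (linT K) fun _ => ∅⟩
  have hdc : DirClosed κ (Cnd nm) := by
    rw [← hK]
    exact dirClosed_cnd H
  obtain ⟨U, hU⟩ := hκ.2 (Cnd nm) hdc (Obj nm)
  rw [← hK] at hU
  have hv : IsPM (#K) oP (pm oP U) :=
    isPM_pm H.isReg (dirClosed_cnd H) oP (fun _ _ h => Sum.inl_injective h) hU
  exact P96M.model_of_core960 (core_VA H hv hU (swp_link H hv))

end SQ
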