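import Mathlib

/-!
# MP_960bf8_lc : a case of the Hausdorff formula
-/

set_option autoImplicit false

universe u

open Cardinal Set

namespace SQ

/-- bounded functions into a regular cardinal -/
theorem FinB_bdd {c : Cardinal.{u}} (hc : c.IsRegular) {A : Type u} (hA : #A < c) (f : A → c.ord.ToType) :
    ∃ b, ∀ a, f a < b := by
  have hno : ¬ IsCofinal (range f) := by
    intro h
    have h1 := Order.cof_le h
    rw [Ordinal.cof_toType, hc.cof_ord] at h1
    exact absurd ((h1.trans mk_range_le).trans_lt hA) (lt_irrefl _)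
  unfold IsCofinal at hno
  push Not at hno
  obtain ⟨x, hx⟩ := hno
  exact ⟨x, fun a => hx _ ⟨a, rfl⟩⟩

/-- `(θ⁺) ^ μ = θ⁺` for `θ = 2 ^ μ`.

PROOF.  Let `W := (succ θ).ord.ToType`; `#W = succ θ` is regular and `> μ` (`cantor`), so every function `A → W` with `#A = μ` is bounded (strictly) by some `w : W`.  Hence
the functions `A → W` are covered by the sets `A → Iio w`, `w : W`, each of size `≤ θ ^ μ = 2 ^ (μ * μ) = θ` (`#(Iio w) ≤ θ`).  So `(succ θ) ^ μ ≤ succ θ * θ = succ θ`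
(`mk_iUnion_le_sum_mk`, `sum_const`, `mul_eq_left` or `mul_le_max`). -/
theorem succ_pow {μ : Cardinal.{u}} (hμ : ℵ₀ ≤ μ) :
    (Order.succ (2 ^ μ : Cardinal.{u})) ^ μ ≤ Order.succ (2 ^ μ : Cardinal.{u}) := by
  have hθ : ℵ₀ ≤ (2 ^ μ : Cardinal.{u}) := hμ.trans (cantor μ).le
  obtain ⟨A, rfl⟩ : ∃ A : Type u, #A = μ := ⟨μ.out, mk_out μ⟩
  set θ : Cardinal.{u} := 2 ^ #A with hθdef
  let W := (Order.succ θ).ord.ToType
  have hW : #W = Order.succ θ := by simp [W]
  have hr := isRegular_succ hθ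
  have hAW : #A < Order.succ θ := (cantor _).trans_le (Order.le_succ θ)
  have hcov : (univ : Set (A → W)) ⊆ ⋃ w : W, {f | ∀ a, f a < w} := by
    intro f _
    obtain ⟨b, hb⟩ := FinB_bdd hr hAW f
    exact mem_iUnion.2 ⟨b, hb⟩
  have h1 : ∀ w : W, #{f : A → W | ∀ a, f a < w} ≤ θ := by
    intro w
    have h2 : #{f : A → W | ∀ a, f a < w} ≤ #(A → Iio w) := by
      refine mk_le_of_injective (f := fun f a => (⟨f.1 a, f.2 a⟩ : Iio w)) ?_
      intro f g h
      refine Subtype.ext (funext fun a => ?_)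
      exact congrArg Subtype.val (congrFun h a)
    refine h2.trans ?_
    rw [mk_pi, Cardinal.prod_const, lift_id, lift_id]
    have h3 : #(Iio w) ≤ θ := Order.lt_succ_iff.1 (mk_Iio_toType_ord_lt w)
    refine (power_le_power_right h3).trans ?_
    rw [hθdef, ← power_mul, mul_eq_self hμ]
  have h2 : #(A → W) ≤ Order.succ θ * θ := by
    rw [← mk_univ]
    refine (mk_le_mk_of_subset hcov).trans (mk_iUnion_le_sum_mk.trans ?_)
    refine (sum_le_sum _ _ h1).trans ?_
    rw [sum_const, lift_id, lift_id, hW]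
  have h3 : #(A → W) = Order.succ θ ^ #A := by
    rw [mk_pi, Cardinal.prod_const, lift_id, lift_id, hW]
  rw [← h3]
  refine h2.trans ?_
  rw [mul_eq_left (hθ.trans (Order.le_succ θ)) (Order.le_succ θ) (aleph0_pos.trans_le hθ).ne']

end SQ
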