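import Pool.Agent.W92_960bf8.Crd
import Pool.Agent.W92_960bf8.FinP

/-!
# MP_960bf8_lc : the number of the conditions and of the names
-/

set_option autoImplicit false
set_option linter.unusedSectionVars false

universe u

open Cardinal Set P96 IM

namespace SQ

variable {K J : Type u} [LinearOrder K] [LinearOrder J]

/-- The number of the conditions.

PROOF.  `p ↦ (p.top, p.T.t, p.A, ⟨p.F, p.small⟩)` is injective (`Raw.ext'`, `Crd_tree`).  `#(K → Set K) = 2 ^ (#K * #K) = 2 ^ #K ≤ #J`.  `#(Fact J K) ≤ #J` (`Fact J K = (J × J × J) × Tag J K`, and `Tag J K` injects into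
`Unit ⊕ K ⊕ K ⊕ J × K`).  The number of the subsets `F` of `Fact J K` with `#F < #K` is at most the number of the subsets of size `≤ #K`, which is at most `(#J) ^ #K` (images of functions
`K → Option (Fact J K)`; see `mk_bounded_set_le` or `mk_bounded_subset_le`), and `(#J) ^ #K ≤ (#J) ^ (2 ^ #K) ≤ #J` by `succ_pow` for `μ = 2 ^ #K`. -/
theorem card_raw (hK : ℵ₀ ≤ #K) (hJ : #J = Order.succ (2 ^ (2 ^ #K : Cardinal.{u}) : Cardinal.{u})) :
    #(Raw J K) ≤ #J := by
  classical
  have h2K : ℵ₀ ≤ (2 ^ #K : Cardinal.{u}) := hK.trans (cantor _).le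
  have hpow : (#J) ^ (2 ^ #K : Cardinal.{u}) ≤ #J := by
    have h := succ_pow h2K
    rwa [← hJ] at h
  have hθ : (2 ^ (2 ^ #K : Cardinal.{u}) : Cardinal.{u}) ≤ #J := by
    rw [hJ]
    exact Order.le_succ _
  have hJ0 : ℵ₀ ≤ #J := (h2K.trans (cantor _).le).trans hθ
  have hKJ : #K ≤ #J := ((cantor _).le.trans (cantor _).le).trans hθ
  have hFact : #(Fact J K) ≤ #J := by
    let P : Type u := (J × J × J) × (Option (K ⊕ (K ⊕ (J × K))))
    let h : P → Fact J K := fun x =>
      (x.1,
        match x.2 with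
        | none => Tag.act
        | some (Sum.inl b) => Tag.elt b
        | some (Sum.inr (Sum.inl e)) => Tag.eps e
        | some (Sum.inr (Sum.inr me)) => Tag.pro me.1 me.2)
    have hsurj : Function.Surjective h := by
      rintro ⟨c, t⟩
      cases t with
      | act => exact ⟨(c, none), rfl⟩
      | elt b => exact ⟨(c, some (Sum.inl b)), rfl⟩
      | eps e => exact ⟨(c, some (Sum.inr (Sum.inl e))), rfl⟩
      | pro m e => exact ⟨(c, some (Sum.inr (Sum.inr (m, e)))), rfl⟩
    refine (mk_le_of_surjective hsurj).trans ?_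
    have e1 : #(Option (K ⊕ (K ⊕ (J × K)))) ≤ #J := by
      rw [mk_option, mk_sum, mk_sum, mk_prod]
      simp only [lift_id]
      exact add_le_of_le hJ0 (add_le_of_le hJ0 hKJ (add_le_of_le hJ0 hKJ (mul_le_of_le hJ0 le_rfl hKJ)))
        (one_le_aleph0.trans hJ0)
    have e2 : #(J × J × J) ≤ #J := by
      rw [mk_prod, mk_prod]
      simp only [lift_id]
      exact mul_le_of_le hJ0 le_rfl (mul_le_of_le hJ0 le_rfl le_rfl)
    show #((J × J × J) × (Option (K ⊕ (K ⊕ (J × K))))) ≤ _
    rw [mk_prod]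
    simp only [lift_id]
    exact mul_le_of_le hJ0 e2 e1
  let Q : Type u := K × (K → Set K) × (K → Set K) × {t : Set (Fact J K) // #t ≤ #K}
  let φ : Raw J K → Q := fun p => (p.top, p.T.t, p.A, ⟨p.F, p.small.le⟩)
  have hφ : Function.Injective φ := by
    intro p q hpq
    have e1 : p.top = q.top := congrArg (fun x : Q => x.1) hpq
    have e2 : p.T.t = q.T.t := congrArg (fun x : Q => x.2.1) hpq
    have e3 : p.A = q.A := congrArg (fun x : Q => x.2.2.1) hpq
    have e4 : p.F = q.F := congrArg (fun x : Q => x.2.2.2.1) hpq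
    exact Raw.ext' e1 (Crd_tree e2) e3 e4
  refine (mk_le_of_injective hφ).trans ?_
  have e1 : #(K → Set K) ≤ #J := by
    rw [← power_def, mk_set]
    exact ((power_le_power_right (cantor _).le).trans (Crd_pow hK (cantor _).le)).trans hθ
  have e2 : #{t : Set (Fact J K) // #t ≤ #K} ≤ #J := by
    refine (Cardinal.mk_bounded_set_le (Fact J K) #K).trans ?_
    refine (power_le_power_right (max_le hFact hJ0)).trans ?_
    refine le_trans ?_ hpow
    exact power_le_power_left (aleph0_pos.trans_le hJ0).ne' (cantor _).le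
  show #(K × (K → Set K) × (K → Set K) × {t : Set (Fact J K) // #t ≤ #K}) ≤ _
  rw [mk_prod, mk_prod, mk_prod]
  simp only [lift_id]
  exact mul_le_of_le hJ0 hKJ (mul_le_of_le hJ0 e1 (mul_le_of_le hJ0 e1 e2))

/-- The number of the names.

PROOF.  A set `N b` with `#(N b) ≤ 2 ^ #K` is the range of a function from a type of size `2 ^ #K` to `Option (Raw J K)` (intersected with `some`), so there are at most `(#J) ^ (2 ^ #K) ≤ #J` such sets
(`mk_bounded_set_le`, `succ_pow`), and at most `(#J) ^ #K ≤ #J` functions `K → ..`. -/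
theorem card_names (hK : ℵ₀ ≤ #K) (hJ : #J = Order.succ (2 ^ (2 ^ #K : Cardinal.{u}) : Cardinal.{u})) :
    #{N : K → Set (Raw J K) // ∀ b, #(N b) ≤ 2 ^ #K} ≤ #J := by
  classical
  have h2K : ℵ₀ ≤ (2 ^ #K : Cardinal.{u}) := hK.trans (cantor _).le
  have hpow : (#J) ^ (2 ^ #K : Cardinal.{u}) ≤ #J := by
    have h := succ_pow h2K
    rwa [← hJ] at h
  have hθ : (2 ^ (2 ^ #K : Cardinal.{u}) : Cardinal.{u}) ≤ #J := by
    rw [hJ]
    exact Order.le_succ _
  have hJ0 : ℵ₀ ≤ #J := (h2K.trans (cantor _).le).trans hθ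
  let φ : {N : K → Set (Raw J K) // ∀ b, #(N b) ≤ 2 ^ #K} → (K → {t : Set (Raw J K) // #t ≤ 2 ^ #K}) :=
    fun N b => ⟨N.1 b, N.2 b⟩
  have hφ : Function.Injective φ := by
    intro N N' hN
    apply Subtype.ext
    funext b
    exact congrArg Subtype.val (congrFun hN b)
  refine (mk_le_of_injective hφ).trans ?_
  rw [← power_def]
  have e2 : #{t : Set (Raw J K) // #t ≤ 2 ^ #K} ≤ #J := by
    refine (Cardinal.mk_bounded_set_le (Raw J K) (2 ^ #K)).trans ?_
    exact (power_le_power_right (max_le (card_raw hK hJ) hJ0)).trans hpow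
  refine (power_le_power_right e2).trans (le_trans ?_ hpow)
  exact power_le_power_left (aleph0_pos.trans_le hJ0).ne' (cantor _).le

/-- The enumeration of the names.

PROOF.  `card_names`; the type of the names is not empty (`fun _ => ∅`); take the inverse of an injection (`Function.invFun`). -/
theorem exists_nm (hK : ℵ₀ ≤ #K) (hJ : #J = Order.succ (2 ^ (2 ^ #K : Cardinal.{u}) : Cardinal.{u})) :
    ∃ nm : J → K → Set (Raw J K), (∀ m b, #(nm m b) ≤ 2 ^ #K) ∧
      ∀ N : K → Set (Raw J K), (∀ b, #(N b) ≤ 2 ^ #K) → ∃ m, nm m = N := by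
  classical
  obtain ⟨e⟩ := (Cardinal.le_def _ _).1 (card_names hK hJ)
  let d : {N : K → Set (Raw J K) // ∀ b, #(N b) ≤ 2 ^ #K} := ⟨fun _ => ∅, fun b => by
    rw [mk_eq_zero]
    exact bot_le⟩
  have : Nonempty {N : K → Set (Raw J K) // ∀ b, #(N b) ≤ 2 ^ #K} := ⟨d⟩
  refine ⟨fun m => (Function.invFun e m).1, fun m b => (Function.invFun e m).2 b, fun N hN => ?_⟩
  refine ⟨e ⟨N, hN⟩, ?_⟩
  show (Function.invFun e (e ⟨N, hN⟩)).1 = N
  rw [Function.leftInverse_invFun e.injective]

end SQ
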