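import Pool.Agent.W92_960bf8.VAlg
import Pool.Agent.W92_960bf8.DirC

/-!
# MP_960bf8_lc : general properties of the visible algebra of a `<κ`-directed closed preorder
-/

set_option autoImplicit false

universe u

open Cardinal Set P96 IM

namespace SQ

/-- the assumptions on the well-order `K` -/
structure KPar (K : Type u) [LinearOrder K] : Prop where
  unc : ℵ₀ < #K
  isReg : (#K).IsRegular
  seg : ∀ a : K, #(Iio a) < #K
  reg : ∀ (A : Type u) (f : A → K), #A < #K → ∃ b, ∀ a, f a < b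
  slim : ∀ a : K, (2 ^ #(Iio a) : Cardinal.{u}) < #K

section K
variable {K : Type u} [LinearOrder K] (H : KPar K)
include H

theorem KPar.one_lt : (1 : Cardinal.{u}) < #K := lt_of_lt_of_le one_lt_aleph0 H.isReg.aleph0_le

theorem KPar.exists_gt (a : K) : ∃ b, a < b := by
  obtain ⟨b, hb⟩ := H.reg PUnit (fun _ => a) (by rw [mk_punit]; exact H.one_lt)
  exact ⟨b, hb PUnit.unit⟩

theorem KPar.nonempty : Nonempty K := by
  rw [← mk_ne_zero_iff]
  intro h0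
  have h1 := H.one_lt
  rw [h0] at h1
  exact absurd h1 (not_lt.2 zero_le_one)

theorem KPar.seq (f : ℕ → K) : ∃ b, ∀ n, f n < b := by
  obtain ⟨b, hb⟩ := H.reg (ULift.{u} ℕ) (fun n => f n.down) (by
    rw [mk_uLift, mk_nat, lift_aleph0]
    exact H.unc)
  exact ⟨b, fun n => hb ⟨n⟩⟩

/-- the supremum of a strictly increasing sequence -/
theorem KPar.sup [WellFoundedLT K] {f : ℕ → K} (hf : ∀ n, f n < f (n + 1)) :
    ∃ a, Lim a ∧ (∀ n, f n < a) ∧ ∀ x < a, ∃ n, x < f n := by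
  obtain ⟨b, hb⟩ := H.seq f
  have hmin := wellFounded_lt.has_min {a : K | ∀ n, f n < a} ⟨b, hb⟩
  obtain ⟨a, ha, hmin⟩ := hmin
  have h1 : ∀ x < a, ∃ n, x < f n := by
    intro x hx
    by_contra hc
    push Not at hc
    refine hmin x (fun n => ?_) hx
    exact (hf n).trans_le (hc (n + 1))
  refine ⟨a, ⟨⟨f 0, ha 0⟩, fun x hx => ?_⟩, ha, h1⟩
  obtain ⟨n, hn⟩ := h1 x hx
  exact ⟨f n, hn, ha n⟩

end K

section
variable {K : Type u} [LinearOrder K] {P : Type u} [Preorder P]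

/-- an `ω`-chain has a lower bound -/
theorem exists_lb_seq (H : KPar K) (hP : DirClosed (#K) P) {s : ℕ → P} (hs : ∀ n, s (n + 1) ≤ s n) :
    ∃ r, ∀ n, r ≤ s n := by
  have hanti : ∀ m n, m ≤ n → s n ≤ s m := by
    intro m n hmn
    induction n, hmn using Nat.le_induction with
    | base => exact le_rfl
    | succ n _ ih => exact (hs n).trans ih
  obtain ⟨r, hr⟩ := hP (range s) ((Set.countable_range s).le_aleph0.trans_lt H.unc) ⟨s 0, 0, rfl⟩ (by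
    rintro _ ⟨m, rfl⟩ _ ⟨n, rfl⟩
    exact ⟨s (max m n), ⟨_, rfl⟩, hanti _ _ (le_max_left _ _), hanti _ _ (le_max_right _ _)⟩)
  exact ⟨r, fun n => hr _ ⟨n, rfl⟩⟩

theorem mem_unbG {X : K → RO P} {a : K} {p : P} :
    p ∈ (unbV X a).1 ↔ ∀ x < a, ∀ q ≤ p, ∃ r ≤ q, ∃ y, x < y ∧ y < a ∧ r ∈ (X y).1 := by
  unfold unbV
  rw [RO.mem_iInf]
  constructor
  · intro h x hx q hq
    obtain ⟨r, hr, y, hy⟩ := (RO.mem_iSup _ _).1 (h ⟨x, hx⟩) q hq
    exact ⟨r, hr, y.1, y.2.1, y.2.2, hy⟩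
  · rintro h ⟨x, hx⟩
    rw [RO.mem_iSup]
    intro q hq
    obtain ⟨r, hr, y, hy1, hy2, hy3⟩ := h x hx q hq
    exact ⟨r, hr, ⟨y, hy1, hy2⟩, hy3⟩

theorem mem_cofG {X : K → RO P} {p : P} :
    p ∈ (cofT X).1 ↔ ∀ x, ∀ q ≤ p, ∃ r ≤ q, ∃ y, x < y ∧ r ∈ (X y).1 := by
  unfold cofT
  rw [RO.mem_iInf]
  constructor
  · intro h x q hq
    obtain ⟨r, hr, y, hy⟩ := (RO.mem_iSup _ _).1 (h x) q hq
    exact ⟨r, hr, y.1, y.2, hy⟩
  · rintro h x
    rw [RO.mem_iSup]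
    intro q hq
    obtain ⟨r, hr, y, hy1, hy3⟩ := h x q hq
    exact ⟨r, hr, ⟨y, hy1⟩, hy3⟩

/-- A cofinal set has limit points. -/
theorem acc_cof [WellFoundedLT K] (H : KPar K) (hP : DirClosed (#K) P) (X : K → RO P) (x : K) :
    cofT X ≤ ⨆ a : {a : K // x < a ∧ Lim a}, unbV X a.1 := by
  intro p hp
  rw [RO.mem_iSup]
  intro q hq
  have hq' := RO.mem_lower hp hq
  -- the `ω`-chain
  have step : ∀ t : {t : P × K // t.1 ≤ q}, ∃ t' : {t : P × K // t.1 ≤ q},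
      t'.1.1 ≤ t.1.1 ∧ t.1.2 < t'.1.2 ∧ t'.1.1 ∈ (X t'.1.2).1 := by
    intro t
    obtain ⟨r, hr, y, hy, hry⟩ := mem_cofG.1 hq' t.1.2 t.1.1 t.2
    exact ⟨⟨(r, y), hr.trans t.2⟩, hr, hy, hry⟩
  choose g hg1 hg2 hg3 using step
  let s : ℕ → {t : P × K // t.1 ≤ q} := fun n => g^[n] (g ⟨(q, x), le_rfl⟩)
  have hs : ∀ n, s (n + 1) = g (s n) := fun n => Function.iterate_succ_apply' _ _ _
  obtain ⟨r, hr⟩ := exists_lb_seq H hP (s := fun n => (s n).1.1) (fun n => by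
    rw [hs]
    exact hg1 _)
  obtain ⟨a, ha, h1, h2⟩ := H.sup (f := fun n => (s n).1.2) (fun n => by
    rw [hs]
    exact hg2 _)
  refine ⟨r, (hr 0).trans (s 0).2, ⟨a, (hg2 ⟨(q, x), le_rfl⟩).trans (h1 0), ha⟩, ?_⟩
  rw [mem_unbG]
  intro x' hx' q' hq'
  obtain ⟨n, hn⟩ := h2 x' hx'
  refine ⟨q', le_rfl, (s (n + 1)).1.2, ?_, h1 _, ?_⟩
  · rw [hs]
    exact hn.trans (hg2 _)
  · rw [hs]
    refine RO.mem_lower (hg3 (s n)) ?_
    have h3 := hr (n + 1)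
    rw [hs] at h3
    exact hq'.trans h3

variable {L : P → P → Prop} {h : Swp L}

/-- `κ` is uncountable -/
theorem VA.unc (H : KPar K) : ∃ (f : ℕ → K) (x : K), (∀ n, f n < f (n + 1)) ∧ ∀ n, f n < x := by
  choose s hs using H.exists_gt
  obtain ⟨x0⟩ := H.nonempty
  obtain ⟨x, hx⟩ := H.seq fun n => s^[n] x0
  refine ⟨fun n => s^[n] x0, x, fun n => ?_, hx⟩
  beta_reduce
  rw [Function.iterate_succ_apply']
  exact hs _

/-- functions of the extension from a proper initial segment of `K` to `K` are bounded -/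
theorem VA.reg (H : KPar K) (hP : DirClosed (#K) P) (i : K) (F : K → K → VA h)
    (hF : ∀ a x y, x ≠ y → F a x ⊓ F a y = ⊥) (c : VA h) (hc : c ≠ ⊥) :
    ∃ (b : VA h) (z : K), b ≠ ⊥ ∧ b ≤ c ∧ ∀ a < i, ∀ x, z ≤ x → b ⊓ F a x = ⊥ := by
  obtain ⟨p, hp⟩ := VA.exists_mem hc
  let G : Iio i → Option K → RO P := fun a x => match x with
    | some x => (F a.1 x).val
    | none => (⨆ x, (F a.1 x).val)ᶜ
  have hG : ∀ a, (⨆ x, G a x) = ⊤ := by
    intro a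
    rw [iSup_option]
    change (⨆ x, (F a.1 x).val)ᶜ ⊔ (⨆ x, (F a.1 x).val) = ⊤
    exact compl_sup_eq_top
  obtain ⟨q, hqp, g, hg⟩ := hP.dist H.isReg (H.seg i) G hG p
  obtain ⟨x0⟩ := H.nonempty
  obtain ⟨z, hz⟩ := H.reg (Iio i) (fun a => (g a).getD x0) (H.seg i)
  let b : VA h := c ⊓ ⨅ a : Iio i, ⨅ x : Ici z, (F a.1 x.1)ᶜ
  have hqb : q ∈ b.val.1 := by
    change q ∈ ((c ⊓ ⨅ a : Iio i, ⨅ x : Ici z, (F a.1 x.1)ᶜ : VA h).val).1
    rw [VA.val_inf, RO.mem_inf, VA.val_iInf, RO.mem_iInf]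
    refine ⟨RO.mem_lower hp hqp, fun a => ?_⟩
    rw [VA.val_iInf, RO.mem_iInf]
    intro x
    rw [VA.val_compl, RO.mem_compl]
    intro r hr hrx
    have hga := hg a
    rcases hgx : g a with _ | y
    · rw [hgx] at hga
      have h1 := (RO.mem_compl _ _).1 hga r hr
      exact h1 ((RO.mem_iSup _ _).2 fun r' hr' => ⟨r', le_rfl, x.1, RO.mem_lower hrx hr'⟩)
    · rw [hgx] at hga
      have h1 : y < z := by
        have h2 := hz a
        rw [hgx] at h2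
        exact h2
      have h3 := hF a.1 x.1 y (ne_of_gt (h1.trans_le x.2))
      have h4 : r ∈ ((F a.1 x.1 ⊓ F a.1 y : VA h).val).1 := by
        rw [VA.val_inf, RO.mem_inf]
        exact ⟨hrx, RO.mem_lower hga hr⟩
      rw [h3] at h4
      exact RO.mem_bot _ h4
  refine ⟨b, z, VA.ne_bot hqb, inf_le_left, fun a ha x hx => ?_⟩
  rw [eq_bot_iff]
  calc b ⊓ F a x ≤ (F a x)ᶜ ⊓ F a x := by
        refine inf_le_inf_right _ (inf_le_right.trans ?_)
        exact (iInf_le _ (⟨a, ha⟩ : Iio i)).trans (iInf_le _ (⟨x, hx⟩ : Ici z))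
    _ = ⊥ := compl_inf_eq_bot
    _ ≤ ⊥ := le_rfl

/-- the subsets in the extension of a proper initial segment of `K` are enumerated by a proper initial segment of `K` -/
theorem VA.pow (H : KPar K) (hP : DirClosed (#K) P) (i : K) :
    ∃ (j : K) (F : K → K → VA h), ∀ (g : K → VA h) (c : VA h), c ≠ ⊥ →
      ∃ (b : VA h) (y : K), b ≠ ⊥ ∧ b ≤ c ∧ y < j ∧ ∀ a < i, b ⊓ g a = b ⊓ F y a := by
  classical
  have hcard : #(Set (Iio i)) < #K := by
    rw [mk_set]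
    exact H.slim i
  obtain ⟨e⟩ : Nonempty (Set (Iio i) ↪ K) := by
    rw [← Cardinal.le_def]
    exact hcard.le
  obtain ⟨j, hj⟩ := H.reg (Set (Iio i)) e hcard
  refine ⟨j, fun y a => if ∃ s, e s = y ∧ ∃ ha : a < i, (⟨a, ha⟩ : Iio i) ∈ s then ⊤ else ⊥,
    fun g c hc => ?_⟩
  obtain ⟨p, hp⟩ := VA.exists_mem hc
  obtain ⟨q, hqp, hq⟩ := hP.decide H.isReg (H.seg i) (fun a : Iio i => (g a.1).val) p
  let s : Set (Iio i) := {a | q ∈ (g a.1).val.1}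
  let b : VA h := c ⊓ ⨅ a : Iio i, if a ∈ s then g a.1 else (g a.1)ᶜ
  have hqb : q ∈ b.val.1 := by
    change q ∈ ((c ⊓ ⨅ a : Iio i, if a ∈ s then g a.1 else (g a.1)ᶜ : VA h).val).1
    rw [VA.val_inf, RO.mem_inf, VA.val_iInf, RO.mem_iInf]
    refine ⟨RO.mem_lower hp hqp, fun a => ?_⟩
    split_ifs with ha
    · exact ha
    · rcases hq a with h1 | h1
      · exact (ha h1).elim
      · exact h1
  refine ⟨b, e s, VA.ne_bot hqb, inf_le_left, hj s, fun a ha => ?_⟩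
  have h1 : b ≤ if (⟨a, ha⟩ : Iio i) ∈ s then g a else (g a)ᶜ :=
    inf_le_right.trans (iInf_le _ (⟨a, ha⟩ : Iio i))
  by_cases has : (⟨a, ha⟩ : Iio i) ∈ s
  · rw [if_pos has] at h1
    beta_reduce
    rw [if_pos ⟨s, rfl, ha, has⟩, inf_top_eq, inf_eq_left.2 h1]
  · rw [if_neg has] at h1
    beta_reduce
    rw [if_neg, inf_bot_eq, eq_bot_iff]
    · calc b ⊓ g a ≤ (g a)ᶜ ⊓ g a := inf_le_inf_right _ h1
        _ ≤ ⊥ := compl_inf_eq_bot.le
    · rintro ⟨s', hs', ha', has'⟩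
      rw [e.injective hs'] at has'
      exact has has'

end

end SQ
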