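import Pool.Agent.W92_960bf8.Resp

/-!
# MP_960bf8_lc : good pairs
-/

set_option autoImplicit false
set_option linter.unusedSectionVars false

universe u

open Cardinal Set P96 IM

namespace SQ

variable {K J : Type u} [LinearOrder K] [LinearOrder J] [WellFoundedLT J] {nm : J → K → Set (Raw J K)}

/-- structural properties of almost all pairs `(x, y)` -/
structure Good0 (x : Set (Obj nm)) (y : Set (Cnd nm)) : Prop where
  small : #x < #K
  seg : ∃ d : K, ∀ b, oK b ∈ x ↔ b < d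
  ysub : ∀ p ∈ y, oP p ∈ x
  ydir : Dir y
  yh : ∀ b, oK b ∈ x → ∃ p ∈ y, b < p.p.top
  ph : ∀ p : Cnd nm, oP p ∈ x → oK p.p.top ∈ x
  plev : ∀ p : Cnd nm, oP p ∈ x → ∀ c t, (c, t) ∈ p.p.F → oJ c.1 ∈ x
  ppro : ∀ p : Cnd nm, oP p ∈ x → ∀ c m e, (c, Tag.pro m e) ∈ p.p.F → oJ m ∈ x
  plo : ∀ (p : Cnd nm) (i : J), oP p ∈ x → oJ i ∈ x → oP (p.lo i) ∈ x

theorem Good0.card_y {x : Set (Obj nm)} {y : Set (Cnd nm)} (h : Good0 x y) : #y < #K := by
  refine lt_of_le_of_lt ?_ h.small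
  refine mk_le_of_injective (f := fun p : y => (⟨oP p.1, h.ysub p.1 p.2⟩ : x)) ?_
  intro p q hpq
  have h1 : oP p.1 = oP q.1 := congrArg Subtype.val hpq
  exact Subtype.ext (Sum.inl_injective h1)

theorem Good0.card_xJ {x : Set (Obj nm)} {y : Set (Cnd nm)} (h : Good0 x y) : #(xJ x) < #K := by
  refine lt_of_le_of_lt ?_ h.small
  refine mk_le_of_injective (f := fun i : xJ x => (⟨oJ i.1, i.2⟩ : x)) ?_
  intro i j hij
  have h1 : (oJ i.1 : Obj nm) = oJ j.1 := congrArg Subtype.val hij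
  exact Subtype.ext (Sum.inl_injective (Sum.inr_injective h1))

/-- PROOF.  By `seg` and `yh`, `ph`, `ysub` the tops of the elements of `y` are `< d` and cofinal in `d`; `exists_lim` gives `z` with
`IsLimC y z`; `Classical.epsilon_spec`. -/
theorem Good0.isLim [Nonempty (Cnd nm)] (H : Par nm) {x : Set (Obj nm)} {y : Set (Cnd nm)}
    (h : Good0 x y) : IsLimC y (zl y) := by
  obtain ⟨d, hd⟩ := h.seg
  obtain ⟨z, hz, -, -⟩ := exists_lim H h.ydir h.card_y d (fun p hp => (hd _).1 (h.ph p (h.ysub p hp)))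
    (fun b hb => h.yh b ((hd b).2 hb)) ∅
  exact Classical.epsilon_spec (⟨z, hz⟩ : ∃ z, IsLimC y z)

/-- PROOF.  `zl y` has the top `d`: both are the least strict upper bound of the tops of the elements of `y`. -/
theorem Good0.mem_K [Nonempty (Cnd nm)] (H : Par nm) {x : Set (Obj nm)} {y : Set (Cnd nm)}
    (h : Good0 x y) (b : K) : oK b ∈ x ↔ b < (zl y).p.top := by
  obtain ⟨d, hd⟩ := h.seg
  have hz := h.isLim H
  have h1 : (zl y).p.top = d := by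
    rcases lt_trichotomy (zl y).p.top d with h2 | h2 | h2
    · obtain ⟨p, hp, h3⟩ := h.yh _ ((hd _).2 h2)
      exact absurd (hz.lt p hp) (not_lt.2 h3.le)
    · exact h2
    · obtain ⟨p, hp, h3⟩ := hz.cof d h2
      exact absurd ((hd _).1 (h.ph p (h.ysub p hp))) (not_lt.2 h3.le)
  rw [h1]
  exact hd b

theorem Good_mono {v : (Set (Obj nm) → Set (Cnd nm) → Prop) → RO (Cnd nm)} (hv : IsPM (#K) oP v)
    {Φ Ψ : Set (Obj nm) → Set (Cnd nm) → Prop} (h : v Φ = ⊤) (hm : ∀ x y, Φ x y → Ψ x y) : v Ψ = ⊤ := by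
  have h1 := hv.mono Φ Ψ hm
  rw [h] at h1
  exact top_le_iff.1 h1

theorem Good_bot {v : (Set (Obj nm) → Set (Cnd nm) → Prop) → RO (Cnd nm)} (hv : IsPM (#K) oP v)
    {Φ : Set (Obj nm) → Set (Cnd nm) → Prop} (h : ∀ x y, ¬ Φ x y) : v Φ = ⊥ := by
  have h1 := hv.mono Φ (fun _ _ => ¬ True) fun x y h2 => absurd h2 (h x y)
  rw [hv.compl, hv.tru, compl_top] at h1
  exact le_bot_iff.1 h1

theorem Good_and (hK : ℵ₀ ≤ #K) {v : (Set (Obj nm) → Set (Cnd nm) → Prop) → RO (Cnd nm)}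
    (hv : IsPM (#K) oP v) (Φ Ψ : Set (Obj nm) → Set (Cnd nm) → Prop) :
    v (fun x y => Φ x y ∧ Ψ x y) = v Φ ⊓ v Ψ := by
  have h1 := hv.all (ULift.{u} Bool) (fun b => if b.down then Φ else Ψ)
    ((lt_aleph0_of_finite _).trans_le hK)
  have h2 : (fun x y => ∀ b : ULift.{u} Bool, (if b.down then Φ else Ψ) x y) =
      fun x y => Φ x y ∧ Ψ x y := by
    funext x y
    refine propext ⟨fun h => ⟨?_, ?_⟩, fun h b => ?_⟩
    · simpa using h ⟨true⟩
    · simpa using h ⟨false⟩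
    · rcases b with ⟨_ | _⟩
      · simpa using h.2
      · simpa using h.1
  rw [h2] at h1
  rw [h1]
  refine le_antisymm (le_inf ?_ ?_) (le_iInf ?_)
  · exact (iInf_le _ ⟨true⟩).trans (le_of_eq (by simp))
  · exact (iInf_le _ ⟨false⟩).trans (le_of_eq (by simp))
  · rintro ⟨_ | _⟩
    · exact inf_le_right.trans (le_of_eq (by simp))
    · exact inf_le_left.trans (le_of_eq (by simp))

theorem Good_and_top (hK : ℵ₀ ≤ #K) {v : (Set (Obj nm) → Set (Cnd nm) → Prop) → RO (Cnd nm)}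
    (hv : IsPM (#K) oP v) {Φ Ψ : Set (Obj nm) → Set (Cnd nm) → Prop} (h1 : v Φ = ⊤) (h2 : v Ψ = ⊤) :
    v (fun x y => Φ x y ∧ Ψ x y) = ⊤ := by
  rw [Good_and hK hv, h1, h2, inf_top_eq]

theorem Good_imp (hK : ℵ₀ ≤ #K) {v : (Set (Obj nm) → Set (Cnd nm) → Prop) → RO (Cnd nm)}
    (hv : IsPM (#K) oP v) {Φ Ψ : Set (Obj nm) → Set (Cnd nm) → Prop} (h : v Φ ≤ v Ψ) :
    v (fun x y => Φ x y → Ψ x y) = ⊤ := by
  have h1 : (fun x y => Φ x y → Ψ x y) = fun x y => ¬ (Φ x y ∧ ¬ Ψ x y) := by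
    funext x y
    refine propext ⟨fun h2 h3 => h3.2 (h2 h3.1), fun h2 h3 => ?_⟩
    by_contra h4
    exact h2 ⟨h3, h4⟩
  rw [h1, hv.compl, Good_and hK hv, hv.compl, compl_eq_top]
  exact disjoint_iff.1 (disjoint_compl_right.mono_left h)

theorem Good_all {v : (Set (Obj nm) → Set (Cnd nm) → Prop) → RO (Cnd nm)} (hv : IsPM (#K) oP v)
    {I : Type u} (hI : #I < #K) {Φ : I → Set (Obj nm) → Set (Cnd nm) → Prop} (h : ∀ i, v (Φ i) = ⊤) :
    v (fun x y => ∀ i, Φ i x y) = ⊤ := by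
  rw [hv.all I Φ hI]
  exact iInf_eq_top.2 h

theorem Good_norm {v : (Set (Obj nm) → Set (Cnd nm) → Prop) → RO (Cnd nm)} (hv : IsPM (#K) oP v)
    {Φ : Obj nm → Set (Obj nm) → Set (Cnd nm) → Prop} (h : ∀ a, v (Φ a) = ⊤) :
    v (fun x y => ∀ a ∈ x, Φ a x y) = ⊤ := by
  have h1 := hv.normal Φ
  rw [iInf_eq_top.2 h] at h1
  exact top_le_iff.1 h1

theorem Good_P {v : (Set (Obj nm) → Set (Cnd nm) → Prop) → RO (Cnd nm)} (hv : IsPM (#K) oP v)
    {ψ : Cnd nm → Set (Obj nm) → Set (Cnd nm) → Prop} (h : ∀ p, v (ψ p) = ⊤) :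
    v (fun x y => ∀ p, oP p ∈ x → ψ p x y) = ⊤ := by
  refine Good_mono hv (Good_norm hv (Φ := fun a x y => ∀ p, a = oP p → ψ p x y) fun a => ?_)
    fun x y h1 p hp => h1 (oP p) hp p rfl
  by_cases ha : ∃ p, a = oP p
  · obtain ⟨p, rfl⟩ := ha
    refine Good_mono hv (h p) fun x y h1 q hq => ?_
    have h2 : p = q := Sum.inl_injective hq
    rw [← h2]
    exact h1
  · exact Good_mono hv hv.tru fun x y _ p hp => absurd ⟨p, hp⟩ ha

theorem Good_J {v : (Set (Obj nm) → Set (Cnd nm) → Prop) → RO (Cnd nm)} (hv : IsPM (#K) oP v)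
    {ψ : J → Set (Obj nm) → Set (Cnd nm) → Prop} (h : ∀ p, v (ψ p) = ⊤) :
    v (fun x y => ∀ p, oJ p ∈ x → ψ p x y) = ⊤ := by
  refine Good_mono hv (Good_norm hv (Φ := fun a x y => ∀ p, a = oJ p → ψ p x y) fun a => ?_)
    fun x y h1 p hp => h1 (oJ p) hp p rfl
  by_cases ha : ∃ p, a = oJ p
  · obtain ⟨p, rfl⟩ := ha
    refine Good_mono hv (h p) fun x y h1 q hq => ?_
    have h2 : p = q := Sum.inl_injective (Sum.inr_injective hq)
    rw [← h2]
    exact h1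
  · exact Good_mono hv hv.tru fun x y _ p hp => absurd ⟨p, hp⟩ ha

theorem Good_K {v : (Set (Obj nm) → Set (Cnd nm) → Prop) → RO (Cnd nm)} (hv : IsPM (#K) oP v)
    {ψ : K → Set (Obj nm) → Set (Cnd nm) → Prop} (h : ∀ p, v (ψ p) = ⊤) :
    v (fun x y => ∀ p, oK p ∈ x → ψ p x y) = ⊤ := by
  refine Good_mono hv (Good_norm hv (Φ := fun a x y => ∀ p, a = oK p → ψ p x y) fun a => ?_)
    fun x y h1 p hp => h1 (oK p) hp p rfl
  by_cases ha : ∃ p, a = oK p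
  · obtain ⟨p, rfl⟩ := ha
    refine Good_mono hv (h p) fun x y h1 q hq => ?_
    have h2 : p = q := Sum.inr_injective (Sum.inr_injective hq)
    rw [← h2]
    exact h1
  · exact Good_mono hv hv.tru fun x y _ p hp => absurd ⟨p, hp⟩ ha

/-- `v Φ = ⊤` if below every condition there is some `t` such that `t ∈ y` implies `Φ` -/
theorem Good_dense {v : (Set (Obj nm) → Set (Cnd nm) → Prop) → RO (Cnd nm)} (hv : IsPM (#K) oP v)
    {Φ : Set (Obj nm) → Set (Cnd nm) → Prop} {u : RO (Cnd nm)}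
    (h : ∀ s ∈ u.1, ∃ t ≤ s, ∀ x y, t ∈ y → Φ x y) : u ≤ v Φ := by
  rw [RO.le_iff]
  intro s hs
  refine RO.mem_of_dense fun s' hs' => ?_
  obtain ⟨t, ht, h1⟩ := h s' (RO.mem_lower hs hs')
  refine ⟨t, ht, ?_⟩
  have h2 := hv.mono (fun _ y => t ∈ y) Φ h1
  rw [hv.gen] at h2
  exact (RO.le_iff _ _).1 h2 t (RO.mem_cl.2 fun q hq => ⟨q, le_rfl, t, rfl, hq⟩)

theorem Good_ex {v : (Set (Obj nm) → Set (Cnd nm) → Prop) → RO (Cnd nm)} (hv : IsPM (#K) oP v)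
    (Φ : Obj nm → Set (Obj nm) → Set (Cnd nm) → Prop) :
    v (fun x y => ∃ a ∈ x, Φ a x y) ≤ ⨆ a, v (Φ a) := by
  have h1 := hv.normal fun a x y => ¬ Φ a x y
  have h2 : (fun x y => ∃ a ∈ x, Φ a x y) = fun x y => ¬ ∀ a ∈ x, ¬ Φ a x y := by
    funext x y
    refine propext ⟨fun h => ?_, fun h => ?_⟩
    · obtain ⟨a, ha, h⟩ := h
      exact fun h3 => h3 a ha h
    · by_contra h3
      push Not at h3
      exact h h3
  rw [h2, hv.compl]
  have h3 : (⨆ a, v (Φ a))ᶜ ≤ v fun x y => ∀ a ∈ x, ¬ Φ a x y := by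
    refine le_trans (le_of_eq ?_) h1
    rw [compl_iSup]
    refine iInf_congr fun a => ?_
    rw [hv.compl]
  exact compl_le_of_compl_le h3

/-- Almost all pairs are good.

PROOF.  `v` is monotone, and `v` of a conjunction of finitely many / fewer than `κ` / (by `normal`) 'for all objects in `x`' statements of
value `⊤` is `⊤`.  Clauses: `small`: `hv.small`.  `seg`: for every `b : K`, a.e. all `b' < b` and the next element after `b` are in `x` (there is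
no largest element: `H.reg` for a one-element type; `hv.all` for `Iio b`, `H.seg`); by `normal` this holds a.e. for all `b ∈ x`; the set
`{b | oK b ∈ x}` has size `≤ #x < #K`, so it is bounded (`H.reg`), and it is an initial segment; take for `d` its least strict upper bound.
`ysub`: `hv.sub`.  `ydir`: nonempty: `v (∃ p, p ∈ y) ≥ ⨆ p, cl {p} = ⊤`; for all `p, q`: `v (p ∈ y → q ∈ y → ∃ r ∈ y, r ≤ p ∧ r ≤ q) = ⊤`, as
`cl {p} ⊓ cl {q} ≤ ⨆ r ≤ p, q, cl {r} ≤ v (∃ r ∈ y, r ≤ p ∧ r ≤ q)`; then `normal` twice (`p, q ∈ y` are in `x`).  `yh`: for `b : K`,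
`v (∃ p ∈ y, b < p.p.top) ≥ ⨆ (p : b < top), cl {p} = ⊤` by `exists_top`; `normal`.  `ph`, `plev`, `ppro`, `plo`: for fixed `p` (and `i`) the
statement says that fewer than `κ` given objects are in `x` (`hv.fine`, `hv.all`, `p.p.small`); `normal`. -/
theorem ae_good0 (H : Par nm) {v : (Set (Obj nm) → Set (Cnd nm) → Prop) → RO (Cnd nm)}
    (hv : IsPM (#K) oP v) : v Good0 = ⊤ := by
  have hK : ℵ₀ ≤ #K := H.unc.le
  have hwf : WellFoundedLT K := H.wf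
  -- directedness
  have e1 : v (fun x y => ∀ p ∈ y, oP p ∈ x) = ⊤ := hv.sub
  have e2 : v (fun x _ => #x < #K) = ⊤ := hv.small
  have e3 : v (fun x _ => ∀ b, oK b ∈ x → ∀ b' : Iio b, oK b'.1 ∈ x) = ⊤ :=
    Good_K hv fun b => Good_all hv (H.seg b) fun b' => hv.fine _
  have e4 : v (fun _ y => y.Nonempty) = ⊤ := by
    refine top_le_iff.1 (Good_dense hv fun s _ => ⟨s, le_rfl, fun x y h => ⟨s, h⟩⟩)
  have e5 : v (fun x y => ∀ p, oP p ∈ x → ∀ q, oP q ∈ x → ((p ∈ y ∧ q ∈ y) → ∃ r ∈ y, r ≤ p ∧ r ≤ q)) =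
      ⊤ := by
    refine Good_P hv fun p => Good_P hv fun q => Good_imp hK hv ?_
    rw [Good_and hK hv, hv.gen, hv.gen]
    refine Good_dense hv fun s hs => ?_
    obtain ⟨hs1, hs2⟩ := (RO.mem_inf _ _ _).1 hs
    obtain ⟨r, hr, t, ht, hrt⟩ := RO.mem_cl.1 hs1 s le_rfl
    obtain ⟨r', hr', t', ht', hrt'⟩ := RO.mem_cl.1 hs2 r hr
    rw [mem_singleton_iff] at ht ht'
    subst ht ht'
    exact ⟨r', hr'.trans hr, fun x y h => ⟨r', h, hr'.trans hrt, hrt'⟩⟩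
  have hnm : ∀ a b : K, ∃ c, a < c ∧ b < c := by
    intro a b
    obtain ⟨c, hc⟩ := H.reg (ULift.{u} Bool) (fun i => if i.down then a else b)
      ((lt_aleph0_of_finite _).trans_le hK)
    exact ⟨c, by simpa using hc ⟨true⟩, by simpa using hc ⟨false⟩⟩
  have e6 : v (fun x y => ∀ b, oK b ∈ x → ∃ p ∈ y, b < p.p.top) = ⊤ := by
    refine Good_K hv fun b => top_le_iff.1 (Good_dense hv fun s _ => ?_)
    obtain ⟨c, h1, h2⟩ := hnm s.p.top b
    obtain ⟨t, ht, h3, -⟩ := exists_top s c h1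
    exact ⟨t, ht, fun x y h => ⟨t, h, by rw [h3]; exact h2⟩⟩
  have e7 : v (fun x _ => ∀ p : Cnd nm, oP p ∈ x → oK p.p.top ∈ x) = ⊤ :=
    Good_P hv fun p => hv.fine _
  have e8 : v (fun x _ => ∀ p : Cnd nm, oP p ∈ x → ∀ f : p.p.F, oJ f.1.1.1 ∈ x) = ⊤ :=
    Good_P hv fun p => Good_all hv p.p.small fun f => hv.fine _
  have e9 : v (fun x _ => ∀ p : Cnd nm, oP p ∈ x → ∀ f : p.p.F, ∀ m e, f.1.2 = Tag.pro m e → oJ m ∈ x) =
      ⊤ := by
    refine Good_P hv fun p => Good_all hv p.p.small fun f => ?_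
    by_cases hf : ∃ m e, f.1.2 = Tag.pro m e
    · obtain ⟨m, e, hf⟩ := hf
      refine Good_mono hv (hv.fine (oJ m)) fun x y h m' e' h' => ?_
      rw [hf] at h'
      cases h'
      exact h
    · exact Good_mono hv hv.tru fun x y _ m e h => absurd ⟨m, e, h⟩ hf
  have e10 : v (fun x _ => ∀ p : Cnd nm, oP p ∈ x → ∀ i, oJ i ∈ x → oP (p.lo i) ∈ x) = ⊤ :=
    Good_P hv fun p => Good_J hv fun i => hv.fine _
  have hall := Good_and_top hK hv e1 (Good_and_top hK hv e2 (Good_and_top hK hv e3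
    (Good_and_top hK hv e4 (Good_and_top hK hv e5 (Good_and_top hK hv e6 (Good_and_top hK hv e7
    (Good_and_top hK hv e8 (Good_and_top hK hv e9 e10))))))))
  refine Good_mono hv hall ?_
  rintro x y ⟨h1, h2, h3, h4, h5, h6, h7, h8, h9, h10⟩
  refine ⟨h2, ?_, h1, ⟨h4, fun p hp q hq => h5 p (h1 p hp) q (h1 q hq) ⟨hp, hq⟩⟩, h6, h7,
    fun p hp c t hc => h8 p hp ⟨(c, t), hc⟩, fun p hp c m e hc => h9 p hp ⟨(c, Tag.pro m e), hc⟩ m e rfl,
    fun p i hp hi => h10 p hp i hi⟩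
  have hsm : #{b : K // oK b ∈ x} < #K := by
    refine lt_of_le_of_lt ?_ h2
    refine mk_le_of_injective (f := fun b : {b : K // oK b ∈ x} => (⟨oK b.1, b.2⟩ : x)) ?_
    intro a b hab
    have h11 : (oK a.1 : Obj nm) = oK b.1 := congrArg Subtype.val hab
    exact Subtype.ext (Sum.inr_injective (Sum.inr_injective h11))
  obtain ⟨b0, hb0⟩ := H.reg {b : K // oK b ∈ x} (fun b => b.1) hsm
  set D : Set K := {d | ∀ b, oK b ∈ x → b < d} with hD
  have hne : D.Nonempty := ⟨b0, fun b hb => hb0 ⟨b, hb⟩⟩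
  refine ⟨WellFounded.min (wellFounded_lt (α := K)) D hne, fun b => ⟨fun hb => ?_, fun hb => ?_⟩⟩
  · exact WellFounded.min_mem (wellFounded_lt (α := K)) D hne b hb
  · have h11 : b ∉ D := fun h => WellFounded.not_lt_min (wellFounded_lt (α := K)) D h hb
    have h12 : ∃ b', oK b' ∈ x ∧ b ≤ b' := by
      by_contra hc
      push Not at hc
      exact h11 hc
    obtain ⟨b', hb', hbb⟩ := h12
    rcases hbb.eq_or_lt with h | h
    · rw [h]
      exact hb'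
    · exact h3 b' hb' ⟨b, h⟩

variable [Nonempty (Cnd nm)] (v : (Set (Obj nm) → Set (Cnd nm) → Prop) → RO (Cnd nm))

/-- good pairs: moreover the truth values `av` of the star names are decided correctly -/
structure Good (x : Set (Obj nm)) (y : Set (Cnd nm)) : Prop extends Good0 x y where
  los : ∀ (q : Cnd nm) (m i : J) (b : K), oP q ∈ x → oJ m ∈ x → oJ i ∈ x → oK b ∈ x →
    (∃ p ∈ y, p ∈ ((av v (lv v) i q m b)ᶜ).1) → b ∉ Lset (lv v) i q m (zl y) (xJ x)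

/-- PROOF.  `ae_good0`; and for fixed `q, m, i, b` let `a := av v (lv v) i q m b`.  `v (b ∈ Lset ..) = a` by definition, and `v (∃ p ∈ y, p ∈ aᶜ) = aᶜ`:
`v (∃ p ∈ y, p ∈ aᶜ) ≤ ⨆ p ∈ aᶜ, cl {p} ≤ aᶜ` (by `normal` in the form `v (∃ o ∈ x, Ψ o) ≤ ⨆ o, v (Ψ o)`, using `sub`).  So the value of the
conjunction is `⊥`, and the value of its negation is `⊤`; then `normal` four times. -/
theorem ae_good (H : Par nm) (hv : IsPM (#K) oP v) : v (Good v) = ⊤ := by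
  have hK : ℵ₀ ≤ #K := H.unc.le
  have e1 : v (fun x y => ∀ q : Cnd nm, oP q ∈ x → ∀ m, oJ m ∈ x → ∀ i, oJ i ∈ x → ∀ b, oK b ∈ x →
      ((∃ p ∈ y, p ∈ ((av v (lv v) i q m b)ᶜ).1) → b ∉ Lset (lv v) i q m (zl y) (xJ x))) = ⊤ := by
    refine Good_P hv fun q => Good_J hv fun m => Good_J hv fun i => Good_K hv fun b =>
      Good_imp hK hv ?_
    have h1 : v (fun x y => b ∉ Lset (lv v) i q m (zl y) (xJ x)) = (av v (lv v) i q m b)ᶜ :=
      hv.compl _
    rw [h1]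
    set a := av v (lv v) i q m b with ha
    have h2 : v (fun _ y => ∃ p ∈ y, p ∈ (aᶜ).1) =
        v (fun x y => (∃ p ∈ y, p ∈ (aᶜ).1) ∧ ∀ p ∈ y, oP p ∈ x) := by
      rw [Good_and hK hv, hv.sub, inf_top_eq]
    rw [h2]
    refine le_trans (hv.mono _ (fun x y => ∃ o ∈ x, ∃ p : Cnd nm, o = oP p ∧ p ∈ y ∧ p ∈ (aᶜ).1) ?_)
      (le_trans (Good_ex hv _) (iSup_le fun o => ?_))
    · rintro x y ⟨⟨p, hp, hpa⟩, h3⟩
      exact ⟨oP p, h3 p hp, p, rfl, hp, hpa⟩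
    · by_cases ho : ∃ p : Cnd nm, o = oP p ∧ p ∈ (aᶜ).1
      · obtain ⟨p, rfl, hpa⟩ := ho
        refine le_trans (hv.mono _ (fun _ y => p ∈ y) ?_) ?_
        · rintro x y ⟨p', hp', h3, -⟩
          have h4 : p = p' := Sum.inl_injective hp'
          rw [h4]
          exact h3
        · rw [hv.gen, RO.le_iff]
          intro s hs
          refine RO.mem_of_dense fun s' hs' => ?_
          obtain ⟨r, hr, t, ht, hrt⟩ := RO.mem_cl.1 hs s' hs'
          rw [mem_singleton_iff] at ht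
          subst ht
          exact ⟨r, hr, RO.mem_lower hpa hrt⟩
      · rw [Good_bot hv]
        · exact bot_le
        · rintro x y ⟨p, h3, -, h4⟩
          exact ho ⟨p, h3, h4⟩
  refine Good_mono hv (Good_and_top hK hv (ae_good0 H hv) e1) ?_
  rintro x y ⟨h1, h2⟩
  exact ⟨h1, fun q m i b hq hm hi hb => h2 q hq m hm i hi b hb⟩

variable {v}

/-- PROOF.  `v (Φ ∧ p ∈ y) = v Φ ⊓ cl {p} ≠ ⊥` (`all` for a two-element type, `gen`), and `v False = ⊥` (`compl`, `tru`). -/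
theorem exists_of_ae (hK : ℵ₀ ≤ #K) (hv : IsPM (#K) oP v) {Φ : Set (Obj nm) → Set (Cnd nm) → Prop} (h : v Φ = ⊤)
    (p : Cnd nm) : ∃ x y, Φ x y ∧ p ∈ y := by
  by_contra hc
  push Not at hc
  have h1 : v (fun x y => Φ x y ∧ p ∈ y) = ⊥ := Good_bot hv fun x y h2 => hc x y h2.1 h2.2
  rw [Good_and hK hv, h, top_inf_eq, hv.gen] at h1
  have h2 : p ∈ (RO.cl {p} : RO (Cnd nm)).1 := RO.mem_cl.2 fun q hq => ⟨q, le_rfl, p, rfl, hq⟩
  rw [h1] at h2
  exact RO.mem_bot _ h2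

/-- PROOF.  As `exists_of_ae`, with `fine`. -/
theorem exists_good (H : Par nm) (hv : IsPM (#K) oP v) (p : Cnd nm) (o : Obj nm) :
    ∃ x y, Good v x y ∧ p ∈ y ∧ o ∈ x := by
  have hK : ℵ₀ ≤ #K := H.unc.le
  obtain ⟨x, y, h1, h2⟩ := exists_of_ae hK hv
    (Good_and_top hK hv (ae_good v H hv) (hv.fine o)) p
  exact ⟨x, y, h1.1, h2, h1.2⟩

end SQ
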