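import Pool.Agent.W_MP_0bf392_lc.RO

/-!
# MP_960bf8_lc : indestructibly supercompact cardinals

`RO P` (`Pool/Agent/W_MP_0bf392_lc/RO.lean`) is the complete Boolean algebra of the regular open subsets of the preorder `P` (`q ≤ p`: `q` is
stronger); it is the algebra of the truth values for the forcing extension by `P`.
-/

set_option autoImplicit false

universe u

open Cardinal Set IM

namespace SQ

/-- The preorder `P` is `<κ`-directed closed: every nonempty directed subset of size `< κ` has a lower bound. -/
def DirClosed (κ : Cardinal.{u}) (P : Type u) [Preorder P] : Prop :=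
  ∀ S : Set P, #S < κ → S.Nonempty → (∀ p ∈ S, ∀ q ∈ S, ∃ r ∈ S, r ≤ p ∧ r ≤ q) → ∃ q, ∀ p ∈ S, q ≤ p

/-- the truth value of a statement of the ground model -/
noncomputable def tv {P : Type u} [Preorder P] (φ : Prop) : RO P := ⨆ _ : φ, ⊤

/-- `U` is the truth-value function of a name of a fine normal `κ`-complete ultrafilter on the set of the subsets of `A` of size
`< κ`: a name of a family of subsets of `A` is a function `f : Set A → RO P` (`f x` is the truth value of: `x` belongs to the
family), and `U f` is the truth value of: this family is in the ultrafilter.  (`A` is a type of the ground model; if `P` is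
`<κ`-directed closed then the forcing adds no subsets of `A` of size `< κ`.) -/
structure IsFNUName (κ : Cardinal.{u}) {P : Type u} [Preorder P] {A : Type u}
    (U : (Set A → RO P) → RO P) : Prop where
  /-- a family which is everything with truth value `b` and empty otherwise -/
  const : ∀ b : RO P, U (fun _ => b) = b
  /-- ultrafilter -/
  compl : ∀ f : Set A → RO P, U (fun x => (f x)ᶜ) = (U f)ᶜ
  /-- `κ`-complete -/
  complete : ∀ (I : Type u) (f : I → Set A → RO P), #I < κ → U (fun x => ⨅ i, f i x) = ⨅ i, U (f i)
  /-- the sets of size `< κ` form a set in the ultrafilter -/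
  small : U (fun x => tv (#x < κ)) = ⊤
  /-- fine -/
  fine : ∀ a : A, U (fun x => tv (a ∈ x)) = ⊤
  /-- normal: closed under diagonal intersections -/
  normal : ∀ f : A → Set A → RO P, (⨅ a, U (f a)) ≤ U (fun x => ⨅ a : x, f a.1 x)

/-- `κ` is inaccessible, and every `<κ`-directed closed forcing forces that `κ` is supercompact
(`κ` is indestructibly supercompact in the sense of Laver). -/
def IsIndSC (κ : Cardinal.{u}) : Prop :=
  κ.IsInaccessible ∧ ∀ (P : Type u) [Preorder P], DirClosed κ P →
    ∀ A : Type u, ∃ U : (Set A → RO P) → RO P, IsFNUName κ U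

end SQ
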