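import Pool.Agent.W92_960bf8.DiaA
import Pool.Agent.W92_960bf8.CloC
import Pool.Agent.W92_960bf8.Code

/-!
# MP_960bf8_lc : the coordinates which kill a candidate
-/

set_option autoImplicit false
set_option linter.unusedSectionVars false

universe u

open Cardinal Set P96 IM

namespace SQ

variable {K J : Type u} [LinearOrder K] [LinearOrder J] [WellFoundedLT J] {nm : J → K → Set (Raw J K)}

theorem mem_cofT {X : K → RO (Cnd nm)} {p : Cnd nm} :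
    p ∈ (cofT X).1 ↔ ∀ x, ∀ q ≤ p, ∃ r ≤ q, ∃ y, x < y ∧ r ∈ (X y).1 := by
  unfold cofT
  rw [RO.mem_iInf]
  constructor
  · intro h x q hq
    obtain ⟨r, hr, y, hy⟩ := (RO.mem_iSup _ _).1 (h x) q hq
    exact ⟨r, hr, y.1, y.2, hy⟩
  · intro h x
    refine (RO.mem_iSup _ _).2 fun q hq => ?_
    obtain ⟨r, hr, y, h1, h2⟩ := h x q hq
    exact ⟨r, hr, ⟨y, h1⟩, h2⟩

theorem eq_top_of {a : RO (Cnd nm)} (h : ∀ p : Cnd nm, ∃ q ≤ p, q ∈ a.1) : a = ⊤ :=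
  eq_top_iff.2 ((RO.le_iff _ _).2 fun _ _ => RO.mem_of_dense fun q _ => h q)

/-- if `p` is in `aᶜ ⊔ b` and in `a` then it is in `b` -/
theorem mp_ro {a b : RO (Cnd nm)} {p : Cnd nm} (h : p ∈ (aᶜ ⊔ b).1) (ha : p ∈ a.1) : p ∈ b.1 := by
  have h1 : p ∈ (a ⊓ (aᶜ ⊔ b)).1 := ⟨ha, h⟩
  rw [inf_sup_left, inf_compl_self, bot_sup_eq] at h1
  exact h1.2

theorem mem_sup_of {a b : RO (Cnd nm)} {p : Cnd nm} (h : ∀ q ≤ p, q ∈ a.1 → q ∈ b.1) : p ∈ (aᶜ ⊔ b).1 := by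
  refine RO.mem_of_dense fun q hq => ?_
  by_cases h1 : q ∈ (aᶜ).1
  · exact ⟨q, le_rfl, (RO.le_iff _ _).1 le_sup_left q h1⟩
  · rw [RO.mem_compl] at h1
    push Not at h1
    obtain ⟨r, hr, h2⟩ := h1
    exact ⟨r, hr, (RO.le_iff _ _).1 le_sup_right r (h r (hr.trans hq) h2)⟩

/-- The limit points of a cofinal set are cofinal. -/
theorem acc_cof_cnd (H : Par nm) {X : K → RO (Cnd nm)} {p : Cnd nm} (hp : p ∈ (cofT X).1) (a : K) :
    ∃ z ≤ p, ∃ d, a < d ∧ Lim d ∧ z ∈ (unbV X d).1 := by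
  obtain ⟨p₀, hp₀, ha, -⟩ := exists_high H p a
  obtain ⟨s, z, h0, h1, h2, h3, h4, h5, h6, h7, h8, -, -, h9⟩ := exists_omega H
    (fun q r => ∃ y, q.p.top < y ∧ y < r.p.top ∧ r ∈ (X y).1) p₀ (fun r hr => by
      obtain ⟨t, ht, y, hy, h1⟩ := mem_cofT.1 hp r.p.top r (hr.trans hp₀)
      obtain ⟨t', ht', h2, h3⟩ := exists_high H t y
      have ht'' : Ext t.p r.p := ht
      exact ⟨t', ht'.trans ht, ht''.top_le.trans_lt h3, y, hy, h2, RO.mem_lower h1 ht'⟩) (fun _ _ => ∅)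
  have hz : z ≤ p₀ := by rw [← h0]; exact h6 0
  refine ⟨z, hz.trans hp₀, z.p.top, ?_, h9, ?_⟩
  · have := h8 0
    rw [h0] at this
    exact ha.trans this
  · rw [mem_unbV]
    intro x hx r hr
    obtain ⟨n, hn⟩ := h7 x hx
    obtain ⟨y, h10, h11, h12⟩ := h3 n
    exact ⟨r, le_rfl, y, hn.trans h10, h11.trans (h8 _), RO.mem_lower h12 (hr.trans (h6 _))⟩

/-- a truth value of unboundedness at an element which is not a limit -/
theorem unbV_not_lim {X : K → RO (Cnd nm)} {b : K} (hb : ∃ x, x < b) (hl : ¬ Lim b) : unbV X b = ⊥ := by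
  have h1 : ∃ x < b, ∀ y, x < y → ¬ y < b := by
    by_contra hcon
    push Not at hcon
    exact hl ⟨hb, fun x hx => hcon x hx⟩
  obtain ⟨x, hx, h2⟩ := h1
  rw [← le_bot_iff, RO.le_iff]
  intro p hp
  obtain ⟨r, -, y, h3, h4, -⟩ := mem_unbV.1 hp x hx p le_rfl
  exact absurd h4 (h2 y h3)

/-- the elements of `E` which are not limit points, below `c` -/
noncomputable def naccV (E : K → RO (Cnd nm)) (c : RO (Cnd nm)) (b : K) : RO (Cnd nm) := c ⊓ E b ⊓ (unbV E b)ᶜ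

theorem disc_nacc (E : K → RO (Cnd nm)) (c : RO (Cnd nm)) (b : K) :
    naccV E c b ⊓ unbV (naccV E c) b = ⊥ := by
  rw [← le_bot_iff, RO.le_iff]
  rintro p ⟨h1, h2⟩
  exfalso
  refine (RO.mem_compl _ _).1 h1.2 p le_rfl (mem_unbV.2 fun x hx q hq => ?_)
  obtain ⟨r, hr, y, h3, h4, h5⟩ := mem_unbV.1 h2 x hx q hq
  exact ⟨r, hr, y, h3, h4, h5.1.2⟩

/-- the truth value of: `B` is disjoint from `N` above some `e < a` -/
noncomputable def epsV (N B : K → RO (Cnd nm)) (a : K) : RO (Cnd nm) :=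
  ⨆ e : Iio a, ⨅ b : Ici e.1, (N b.1 ⊓ B b.1)ᶜ

theorem epsV_mono {N B : K → RO (Cnd nm)} {a b : K} (h : a ≤ b) : epsV N B a ≤ epsV N B b :=
  iSup_le fun e => le_iSup (fun e : Iio b => ⨅ b : Ici e.1, (N b.1 ⊓ B b.1)ᶜ) ⟨e.1, (mem_Iio.1 e.2).trans_le h⟩

variable [Nonempty (Cnd nm)] {v : (Set (Obj nm) → Set (Cnd nm) → Prop) → RO (Cnd nm)}

/-- Visible coordinates. -/
theorem exists_vis (H : Par nm) (hv : IsPM (#K) oP v) {S Kc : K → RO (Cnd nm)}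
    (hS : ∀ b, NonSep (Link v) (S b)) (hunb : cofT Kc = ⊤) (hcl : ∀ b, Lim b → unbV Kc b ≤ Kc b)
    (hsub : ∀ b, Kc b ≤ S b) (j : J) : ∃ c : Crd J, j < c.1 ∧ Vis v c ∧
      (∀ b, (V (nm c.2.1 b) : RO (Cnd nm)) = S b) ∧ ∀ b, (V (nm c.2.2 b) : RO (Cnd nm)) = Kc b := by
  obtain ⟨i₁, s, h1, h2⟩ := exists_code H S
  obtain ⟨i₂, m, h3, h4⟩ := exists_code H Kc
  obtain ⟨i, hi, hcp⟩ := exists_cp H hv (max j (max (max i₁ s) (max i₂ m)))
  have hj : j < i := (le_max_left _ _).trans_lt hi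
  have hi' := (le_max_right j (max (max i₁ s) (max i₂ m))).trans_lt hi
  have hi₁ : i₁ < i := ((le_max_left _ _).trans (le_max_left _ _)).trans_lt hi'
  have hs : s < i := ((le_max_right _ _).trans (le_max_left _ _)).trans_lt hi'
  have hi₂ : i₂ < i := ((le_max_left _ _).trans (le_max_right _ _)).trans_lt hi'
  have hm : m < i := ((le_max_right _ _).trans (le_max_right _ _)).trans_lt hi'
  refine ⟨(i, s, m), hj, ⟨⟨hs, hm, fun b => (h1 b).trans (RR_mono hi₁.le), fun b => (h3 b).trans (RR_mono hi₂.le),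
    fun x p => ?_, fun b hb => ?_, fun b => ?_⟩, hcp, fun z q _ _ hl b => ?_⟩, h2, h4⟩
  · have h5 : p ∈ (cofT Kc).1 := by
      rw [hunb]
      exact RO.mem_top p
    obtain ⟨q, hq, y, hy, h6⟩ := mem_cofT.1 h5 x p le_rfl
    exact ⟨q, hq, y, hy, by
      show q ∈ (V (nm m y) : RO (Cnd nm)).1
      rw [h4]
      exact h6⟩
  · show unbV (fun y => (V (nm m y) : RO (Cnd nm))) b ≤ V (nm m b)
    rw [show (fun y => (V (nm m y) : RO (Cnd nm))) = Kc from funext h4, h4 b]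
    by_cases hl : Lim b
    · exact hcl b hl
    · rw [unbV_not_lim hb hl]
      exact bot_le
  · show (V (nm m b) : RO (Cnd nm)) ≤ V (nm s b)
    rw [h4, h2]
    exact hsub b
  · show ¬ (z ∈ (V (nm s b) : RO (Cnd nm)).1 ∧ q ∈ ((V (nm s b) : RO (Cnd nm))ᶜ).1) ∧
      ¬ (z ∈ ((V (nm s b) : RO (Cnd nm))ᶜ).1 ∧ q ∈ (V (nm s b) : RO (Cnd nm)).1)
    rw [h2]
    exact hS b z q hl

theorem nonSep_top : NonSep (Link v) (⊤ : RO (Cnd nm)) := fun z q _ =>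
  ⟨fun h => (RO.mem_compl _ _).1 h.2 q le_rfl (RO.mem_top q),
    fun h => (RO.mem_compl _ _).1 h.1 z le_rfl (RO.mem_top z)⟩

theorem cof_bV (H : Par nm) {c : Crd J} (hc : LS nm c) : cofT (bV c : K → RO (Cnd nm)) = ⊤ := by
  refine eq_top_of fun p => ?_
  refine ⟨p, le_rfl, mem_cofT.2 fun x q hq => ?_⟩
  obtain ⟨r, hr, h1⟩ := add_act H q hc
  obtain ⟨t, ht, b, hb, h2⟩ := add_elt H r h1 x
  exact ⟨t, ht.trans hr, b, hb, elt_bV h2⟩

/-- The first coordinate. -/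
theorem exists_c1 (H : Par nm) (hv : IsPM (#K) oP v) {N : K → RO (Cnd nm)}
    (hN : ∀ b, (∃ x, x < b) → N b ⊓ unbV N b = ⊥) : ∃ c : Crd J, Vis v c ∧
      ∀ p : Cnd nm, ∃ q ≤ p, ∃ e : K, ∀ b, e ≤ b → q ∈ ((N b ⊓ bV c b)ᶜ : RO (Cnd nm)).1 := by
  obtain ⟨i, m, h1, h2⟩ := exists_code H N
  obtain ⟨c, h3, h4, -, -⟩ := exists_vis H hv (S := fun _ => ⊤) (Kc := fun _ => ⊤)
    (fun _ => nonSep_top) (by
      refine eq_top_of fun p => ⟨p, le_rfl, mem_cofT.2 fun x q hq => ?_⟩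
      obtain ⟨r, hr, h5, -⟩ := exists_high H q x
      exact ⟨r, hr, r.p.top, h5, RO.mem_top r⟩) (fun _ _ => le_top) (fun _ => le_rfl) (max i m)
  have hlp : LP nm c.1 m := by
    refine ⟨(le_max_right _ _).trans_lt h3, fun b => (h1 b).trans (RR_mono ((le_max_left _ _).trans_lt h3).le), fun b hb => ?_⟩
    rw [show (fun y => (V (nm m y) : RO (Cnd nm))) = N from funext h2, h2 b]
    exact hN b hb
  refine ⟨c, h4, fun p => ?_⟩
  obtain ⟨q, hq, e, he⟩ := add_prom H p h4.ls hlp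
  refine ⟨q, hq, e, fun b heb => ?_⟩
  rw [RO.mem_compl]
  rintro r hr ⟨h5, h6⟩
  obtain ⟨s, hs, h7⟩ := bV_elt h6
  have hsq : Ext s.p q.p := hs.trans hr
  have h8 := s.pro H.unc.le (hsq.F he) h7 heb
  rw [h2 b] at h8
  exact (RO.mem_compl _ _).1 h8 s le_rfl (RO.mem_lower h5 hs)

/-- The second coordinate. -/
theorem exists_c2 (H : Par nm) (hv : IsPM (#K) oP v) {c : RO (Cnd nm)}
    {σ : K → RO (Cnd nm)} (hσ : ∀ a, NonSep (Link v) (cᶜ ⊔ σ a)) {E N B : K → RO (Cnd nm)} (hE : c ≤ clubT E)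
    (hNB : ∀ p : Cnd nm, ∃ q ≤ p, ∃ e : K, ∀ b, e ≤ b → q ∈ ((N b ⊓ B b)ᶜ : RO (Cnd nm)).1)
    (hsub : ∀ a, Lim a → c ⊓ (E a ⊓ unbV E a ⊓ epsV N B a) ≤ σ a) :
    ∃ c' : Crd J, Vis v c' ∧ ∀ a, Lim a → c ⊓ unbV (bV c') a ≤ σ a := by
  classical
  let S : K → RO (Cnd nm) := fun a => if Lim a then cᶜ ⊔ σ a else ⊤
  let Kc : K → RO (Cnd nm) := fun a => if Lim a then cᶜ ⊔ (E a ⊓ unbV E a ⊓ epsV N B a) else ⊥
  have hS1 : ∀ {a}, Lim a → S a = cᶜ ⊔ σ a := fun h => if_pos h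
  have hS2 : ∀ {a}, ¬ Lim a → S a = ⊤ := fun h => if_neg h
  have hK1 : ∀ {a}, Lim a → Kc a = cᶜ ⊔ (E a ⊓ unbV E a ⊓ epsV N B a) := fun h => if_pos h
  have hK2 : ∀ {a}, ¬ Lim a → Kc a = ⊥ := fun h => if_neg h
  have hEcof : ∀ {p : Cnd nm}, p ∈ c.1 → p ∈ (cofT E).1 := fun h =>
    (RO.le_iff _ _).1 (hE.trans inf_le_left) _ h
  have hEcl : ∀ {p : Cnd nm} {a : K}, p ∈ c.1 → Lim a → p ∈ (unbV E a).1 → p ∈ (E a).1 := by
    intro p a h1 h2 h3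
    have h4 : p ∈ (clubT E).1 := (RO.le_iff _ _).1 hE p h1
    exact mp_ro ((RO.mem_iInf _ _).1 h4.2 ⟨a, h2⟩) h3
  have hcofK : cofT Kc = ⊤ := by
    refine eq_top_of fun p => ⟨p, le_rfl, mem_cofT.2 fun x q hq => ?_⟩
    by_cases h1 : q ∈ (cᶜ).1
    · obtain ⟨z, hz, d, h2, h3, -⟩ := acc_cof_cnd H (X := fun _ => ⊤) (p := q) (mem_cofT.2 fun x q hq => by
        obtain ⟨r, hr, h5, -⟩ := exists_high H q x
        exact ⟨r, hr, r.p.top, h5, RO.mem_top r⟩) x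
      refine ⟨z, hz, d, h2, ?_⟩
      rw [hK1 h3]
      exact (RO.le_iff _ _).1 le_sup_left z (RO.mem_lower h1 hz)
    · rw [RO.mem_compl] at h1
      push Not at h1
      obtain ⟨r, hr, h2⟩ := h1
      obtain ⟨s, hs, e, he⟩ := hNB r
      obtain ⟨z, hz, d, h3, h4, h5⟩ := acc_cof_cnd H (hEcof (RO.mem_lower h2 hs)) (max x e)
      refine ⟨z, (hz.trans hs).trans hr, d, (le_max_left _ _).trans_lt h3, ?_⟩
      rw [hK1 h4]
      refine (RO.le_iff _ _).1 le_sup_right z ⟨⟨hEcl (RO.mem_lower h2 (hz.trans hs)) h4 h5, h5⟩, ?_⟩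
      refine (RO.le_iff _ _).1 (le_iSup (fun e : Iio d => ⨅ b : Ici e.1, (N b.1 ⊓ B b.1)ᶜ)
        ⟨e, (le_max_right _ _).trans_lt h3⟩) z ((RO.mem_iInf _ _).2 fun b => ?_)
      exact RO.mem_lower (he b.1 b.2) hz
  have hclK : ∀ b, Lim b → unbV Kc b ≤ Kc b := by
    intro b hb
    rw [RO.le_iff]
    intro p hp
    rw [hK1 hb]
    refine mem_sup_of fun q hq hqc => ?_
    have h1 : ∀ x < b, ∀ r ≤ q, ∃ s ≤ r, ∃ y, x < y ∧ y < b ∧ s ∈ (E y ⊓ unbV E y ⊓ epsV N B y).1 := by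
      intro x hx r hr
      obtain ⟨s, hs, y, h2, h3, h4⟩ := mem_unbV.1 hp x hx r (hr.trans hq)
      refine ⟨s, hs, y, h2, h3, ?_⟩
      by_cases hy : Lim y
      · rw [hK1 hy] at h4
        exact mp_ro h4 (RO.mem_lower hqc (hs.trans hr))
      · rw [hK2 hy] at h4
        exact absurd h4 (RO.mem_bot s)
    have h2 : q ∈ (unbV E b).1 := mem_unbV.2 fun x hx r hr => by
      obtain ⟨s, hs, y, h3, h4, h5⟩ := h1 x hx r hr
      exact ⟨s, hs, y, h3, h4, h5.1.1⟩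
    refine ⟨⟨hEcl hqc hb h2, h2⟩, RO.mem_of_dense fun r hr => ?_⟩
    obtain ⟨x, hx⟩ := hb.1
    obtain ⟨s, hs, y, h3, h4, h5⟩ := h1 x hx r hr
    exact ⟨s, hs, (RO.le_iff _ _).1 (epsV_mono h4.le) s h5.2⟩
  have hsub' : ∀ b, Kc b ≤ S b := by
    intro b
    by_cases hb : Lim b
    · rw [hK1 hb, hS1 hb, RO.le_iff]
      intro p hp
      refine mem_sup_of fun q hq hqc => ?_
      exact (RO.le_iff _ _).1 (hsub b hb) q ⟨hqc, mp_ro (RO.mem_lower hp hq) hqc⟩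
    · rw [hK2 hb]
      exact bot_le
  have hSv : ∀ b, NonSep (Link v) (S b) := by
    intro b
    by_cases hb : Lim b
    · rw [hS1 hb]
      exact hσ b
    · rw [hS2 hb]
      exact nonSep_top
  obtain ⟨j₀⟩ : Nonempty J := ⟨(H.Jbdd ∅ (by rw [mk_eq_zero]; exact zero_le)).choose⟩
  obtain ⟨c', -, h1, h2, -⟩ := exists_vis H hv hSv hcofK hclK hsub' j₀
  refine ⟨c', h1, fun a ha => ?_⟩
  rw [RO.le_iff]
  rintro p ⟨hpc, hpa⟩
  refine RO.mem_of_dense fun q hq => ?_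
  obtain ⟨r, hr, h3⟩ := (dirClosed_cnd H).dense H.isReg (H.seg a)
    (fun x => {s : Cnd nm | (∃ y, x.1 < y ∧ y < a ∧ (c', Tag.elt y) ∈ s.p.F) ∨ s ∈ ((unbV (bV c') a)ᶜ).1})
    (fun x s => by
      by_cases h4 : s ∈ ((unbV (bV c') a)ᶜ).1
      · exact ⟨s, le_rfl, Or.inr h4⟩
      · rw [RO.mem_compl] at h4
        push Not at h4
        obtain ⟨t₀, ht₀, h9⟩ := h4
        obtain ⟨t, ht, y, h5, h6, h7⟩ := mem_unbV.1 h9 x.1 x.2 t₀ le_rfl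
        obtain ⟨w, hw, h8⟩ := bV_elt h7
        exact ⟨w, (hw.trans ht).trans ht₀, Or.inl ⟨y, h5, h6, h8⟩⟩)
    (fun x s t hs hts => by
      have hts' : Ext t.p s.p := hts
      rcases hs with ⟨y, h5, h6, h7⟩ | hs
      · exact Or.inl ⟨y, h5, h6, hts'.F h7⟩
      · exact Or.inr (RO.mem_lower hs hts)) q
  have h4 : r ∈ (unbV (bV c') a).1 := RO.mem_lower hpa (hr.trans hq)
  have h5 := r.lim H.unc.le ha.1 (fun x hx => by
    rcases h3 ⟨x, hx⟩ with h6 | h6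
    · exact h6
    · exact absurd h4 ((RO.mem_compl _ _).1 h6 r le_rfl))
  rw [h2 a, hS1 ha] at h5
  exact ⟨r, hr, mp_ro h5 (RO.mem_lower hpc (hr.trans hq))⟩

end SQ
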