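import Pool.Agent.W92_960bf8.SqA

/-!
# MP_960bf8_lc : a club thread through the generic tree order is the hidden one, and is not visible
-/

set_option autoImplicit false
set_option linter.unusedSectionVars false

universe u

open Cardinal Set P96 IM

namespace SQ

variable {K J : Type u} [LinearOrder K] [LinearOrder J] [WellFoundedLT J] {nm : J → K → Set (Raw J K)}

theorem top_iff {p q : Cnd nm} (h : q ≤ p) {b : K} (hb : b ≤ p.p.top) :
    (b ∈ q.p.T.t q.p.top ∨ b = q.p.top) ↔ (b ∈ p.p.T.t p.p.top ∨ b = p.p.top) := by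
  have h' : Ext q.p p.p := h
  rcases h'.top with h1 | h1
  · rw [← h1, h'.T _ le_rfl]
  · have h2 := q.p.T.coh _ _ h1
    rw [h'.T _ le_rfl] at h2
    have h3 := q.p.T.lt _ _ h1
    rcases hb.eq_or_lt with h4 | h4
    · subst h4
      exact ⟨fun _ => Or.inr rfl, fun _ => Or.inl h1⟩
    · rw [h2]
      constructor
      · rintro (h5 | h5)
        · exact Or.inl ⟨h5, h4⟩
        · rw [h5] at h4
          exact absurd h4 (not_lt.2 h3.le)
      · rintro (h5 | h5)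
        · exact Or.inl h5.1
        · exact absurd h4 (by rw [h5]; exact lt_irrefl _)

/-- A thread is the hidden one. -/
theorem thread_dec (H : Par nm) {e : K → RO (Cnd nm)} {c : RO (Cnd nm)} (hce : c ≤ clubT e)
    (hth : ∀ a, Lim a → ∀ x < a, c ⊓ unbV e a ⊓ e x = c ⊓ unbV e a ⊓ tV a x) {p : Cnd nm}
    (hp : p ∈ c.1) {b : K} (hb : b ≤ p.p.top) :
    (b ∈ p.p.T.t p.p.top ∨ b = p.p.top → p ∈ (e b).1) ∧
      (¬ (b ∈ p.p.T.t p.p.top ∨ b = p.p.top) → p ∈ ((e b)ᶜ).1) := by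
  have key : ∀ q ≤ p, ∃ z ≤ q, ∃ d, b < d ∧ Lim d ∧ z.p.top = d ∧ z ∈ (unbV e d).1 := by
    intro q hq
    have hq' : Ext q.p p.p := hq
    obtain ⟨s, z, h0, h1, h2, h3, h4, h5, h6, h7, h8, -, -, h9⟩ := exists_omega H
      (fun q r => ∃ y, q.p.top < y ∧ y < r.p.top ∧ r ∈ (e y).1) q (fun r hr => by
        have h1 : r ∈ (cofT e).1 :=
          (RO.le_iff _ _).1 (hce.trans inf_le_left) r (RO.mem_lower hp (hr.trans hq))
        unfold cofT at h1
        rw [RO.mem_iInf] at h1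
        obtain ⟨t, ht, y, hy⟩ := (RO.mem_iSup _ _).1 (h1 r.p.top) r le_rfl
        obtain ⟨t', ht', h2, h3⟩ := exists_high H t y.1
        have ht'' : Ext t.p r.p := ht
        exact ⟨t', ht'.trans ht, ht''.top_le.trans_lt h3, y.1, y.2, h2, RO.mem_lower hy ht'⟩) (fun _ _ => ∅)
    refine ⟨z, by rw [← h0]; exact h6 0, z.p.top, ?_, h9, rfl, ?_⟩
    · have := h8 0
      rw [h0] at this
      exact (hb.trans hq'.top_le).trans_lt this
    · rw [mem_unbV]
      intro x hx r hr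
      obtain ⟨n, hn⟩ := h7 x hx
      obtain ⟨y, h10, h11, h12⟩ := h3 n
      exact ⟨r, le_rfl, y, hn.trans h10, h11.trans (h8 _), RO.mem_lower h12 (hr.trans (h6 _))⟩
  have hz : ∀ {q z : Cnd nm}, q ≤ p → z ≤ q → ∀ {d : K}, b < d → z.p.top = d →
      (b ∈ z.p.T.t d ↔ (b ∈ p.p.T.t p.p.top ∨ b = p.p.top)) := by
    intro q z hq hz d hd hzd
    rw [← top_iff (hz.trans hq) hb, hzd]
    exact ⟨Or.inl, fun h => h.resolve_right hd.ne⟩
  constructor
  · intro h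
    refine RO.mem_of_dense fun q hq => ?_
    obtain ⟨z, hzq, d, h1, h2, h3, h4⟩ := key q hq
    have h5 : z ∈ (c ⊓ unbV e d ⊓ tV d b).1 :=
      ⟨⟨RO.mem_lower hp (hzq.trans hq), h4⟩, (dec_tV h3.ge).1.2 ((hz hq hzq h1 h3).2 h)⟩
    rw [← hth d h2 b h1] at h5
    exact ⟨z, hzq, h5.2⟩
  · intro h
    refine RO.mem_of_dense fun q hq => ?_
    obtain ⟨z, hzq, d, h1, h2, h3, h4⟩ := key q hq
    refine ⟨z, hzq, ?_⟩
    rw [RO.mem_compl]
    intro w hw hwe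
    have h5 : w ∈ (c ⊓ unbV e d ⊓ e b).1 :=
      ⟨⟨RO.mem_lower hp ((hw.trans hzq).trans hq), RO.mem_lower h4 hw⟩, hwe⟩
    rw [hth d h2 b h1] at h5
    have h6 : z ∈ ((tV d b : RO (Cnd nm))ᶜ).1 := (dec_tV h3.ge).2.2 fun h7 => h ((hz hq hzq h1 h3).1 h7)
    exact (RO.mem_compl _ _).1 h6 w hw h5.2

variable [Nonempty (Cnd nm)] {v : (Set (Obj nm) → Set (Cnd nm) → Prop) → RO (Cnd nm)}

/-- For every condition there are two extensions and a node `a₁` such that one leads the other one and `a₁` is on the hidden branch of the follower but not on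
the hidden branch of the leader. -/
theorem exists_split (H : Par nm) (hv : IsPM (#K) oP v) (p : Cnd nm) :
    ∃ p₁ ≤ p, ∃ p₂ ≤ p, Link v p₂ p₁ ∧ p₁.p.top ≤ p₂.p.top ∧
      ¬ (p₁.p.top ∈ p₂.p.T.t p₂.p.top ∨ p₁.p.top = p₂.p.top) := by
  have hK := H.unc.le
  have hex : ∀ a : K, ∃ b, a < b := by
    intro a
    obtain ⟨b, hb⟩ := H.reg PUnit (fun _ => a) (by
      rw [mk_punit]
      exact one_lt_aleph0.trans_le hK)
    exact ⟨b, hb PUnit.unit⟩
  obtain ⟨a₁, ha₁⟩ := hex p.p.top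
  obtain ⟨a₂, ha₂⟩ := hex a₁
  let T₁ := p.p.T.graft p.p.top p.p.top le_rfl
  let T₂ := T₁.graft a₁ p.p.top ha₁.le
  have hT₁ : ∀ x ≤ p.p.top, T₁.t x = p.p.T.t x := fun x hx => graft_le hx
  have hT₂ : ∀ x ≤ a₁, T₂.t x = T₁.t x := fun x hx => graft_le hx
  have hT₂' : T₂.t a₂ = T₁.t p.p.top ∪ {p.p.top} ∪ Ioo a₁ a₂ := graft_gt ha₂
  obtain ⟨p₁, h1, h2, h3, h4, h5⟩ := exists_wT p a₁ ha₁ T₁ p.p.A hT₁ (fun _ _ => rfl) (by
    rw [show T₁.t a₁ = _ from graft_gt ha₁]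
    exact Or.inl (Or.inr rfl))
  obtain ⟨p₀, h6, h7, h8, h9, h10⟩ := exists_wT p a₂ (ha₁.trans ha₂) T₂ p.p.A
    (fun x hx => (hT₂ x (hx.trans ha₁.le)).trans (hT₁ x hx)) (fun _ _ => rfl) (by
    rw [hT₂']
    exact Or.inl (Or.inr rfl))
  let G : Set (Crd J × J × K) := {g | ∃ m e, (g.1, Tag.pro m e) ∈ p₁.p.F ∧ Vis v g.1 ∧
    g.2.1 = stOf v (lv v) g.1.1 (p₁.lo g.1.1) m ∧ g.2.2 = a₁}
  have hG : #G < #K := by
    let φ : Fact J K → Crd J × J × K := fun f => match f.2 with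
      | Tag.pro m _ => (f.1, stOf v (lv v) f.1.1 (p₁.lo f.1.1) m, a₁)
      | _ => (f.1, f.1.1, a₁)
    have hsub : G ⊆ φ '' p₁.p.F := by
      rintro ⟨c, m', e'⟩ ⟨m, e, h1, -, h2, h3⟩
      refine ⟨_, h1, ?_⟩
      show (c, stOf v (lv v) c.1 (p₁.lo c.1) m, a₁) = (c, m', e')
      rw [show m' = _ from h2, show e' = a₁ from h3]
    exact (mk_le_mk_of_subset hsub).trans_lt (mk_image_le.trans_lt p₁.p.small)
  obtain ⟨p₂, h11, h12, h13, h14, h15⟩ := add_pro hK p₀ ∅ (by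
      rw [mk_eq_zero]
      exact aleph0_pos.trans_le hK) (fun c hc => absurd hc (notMem_empty c)) G hG
    (by
      rintro ⟨c, m', e'⟩ ⟨m, e, h, -⟩
      right
      show (c, Tag.act) ∈ p₀.p.F
      rw [h10, ← h5]
      exact p₁.p.act c _ h)
    (by
      rintro ⟨c, m', e'⟩ ⟨m, e, h, hc, h16, -⟩
      show LP nm c.1 m'
      rw [show m' = _ from h16]
      exact st_lp H hv hc.cp (p₁.lo_in c.1) (p₁.pro_lp hK h))
    (by
      rintro ⟨c, m', e'⟩ ⟨m, e, -, -, -, h16⟩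
      show e' ≤ p₀.p.top
      rw [show e' = a₁ from h16, h7]
      exact ha₂.le)
    (by
      rintro ⟨c, m', e'⟩ ⟨m, e, -, -, -, h16⟩ b hb
      show b < e'
      rw [show e' = a₁ from h16]
      have hb' : (c, Tag.elt b) ∈ p₀.p.F := hb
      rw [h10] at hb'
      exact (p.p.elt_lt c b hb').trans ha₁)
  have hF : p₀.p.F = p₁.p.F := by rw [h10, h5]
  refine ⟨p₁, h1, p₂, h11.trans h6, ?_, ?_, ?_⟩
  · refine (⟨?_, fun x hx => ?_, fun x hx => ?_, fun c hc hcv => ?_, fun c hc hcv x hx => ?_,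
      fun c m e hc hcv => ?_⟩ : Lk (lv v) p₂ p₁)
    · rw [h12, h7, h2]
      exact ha₂.le
    · rw [h13, h8, h3]
      rw [h2] at hx
      exact hT₂ x hx
    · rw [h14, h9, h4]
    · rw [h15, hF]
      exact Or.inl (Or.inl hc)
    · rw [h15, hF]
      constructor
      · rintro ((h | h) | ⟨g, -, h⟩)
        · exact h
        · exact absurd h.2 (by simp)
        · exact absurd (congrArg Prod.snd h) (by simp)
      · exact fun h => Or.inl (Or.inl h)
    · rw [h15, lv_st, h2]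
      exact Or.inr ⟨(c, _, a₁), ⟨m, e, hc, (lv_vis v c).1 hcv, rfl, rfl⟩, rfl⟩
  · rw [h12, h7, h2]
    exact ha₂.le
  · rw [h2, h12, h13, h7, h8, hT₂']
    rintro (((h | h) | h) | h)
    · rw [hT₁ _ le_rfl] at h
      exact absurd (p.p.T.lt _ _ h) (not_lt.2 ha₁.le)
    · rw [mem_singleton_iff.1 h] at ha₁
      exact absurd ha₁ (lt_irrefl _)
    · exact absurd h.1 (lt_irrefl _)
    · exact absurd h ha₂.ne

/-- There is no visible thread. -/
theorem no_thread (H : Par nm) (hv : IsPM (#K) oP v) {e : K → RO (Cnd nm)}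
    (he : ∀ b, NonSep (Link v) (e b)) {c : RO (Cnd nm)} (hc : c ≠ ⊥) (hce : c ≤ clubT e) :
    ¬ ∀ a, Lim a → ∀ x < a, c ⊓ unbV e a ⊓ e x = c ⊓ unbV e a ⊓ tV a x := by
  intro hth
  have hne : ∃ p, p ∈ c.1 := by
    by_contra hcon
    push Not at hcon
    exact hc (le_bot_iff.1 ((RO.le_iff _ _).2 fun p hp => absurd hp (hcon p)))
  obtain ⟨p, hp⟩ := hne
  obtain ⟨p₁, h1, p₂, h2, h3, h4, h5⟩ := exists_split H hv p
  have h6 := (thread_dec H hce hth (RO.mem_lower hp h1) le_rfl).1 (Or.inr rfl)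
  have h7 := (thread_dec H hce hth (RO.mem_lower hp h2) h4).2 h5
  exact (he _ _ _ h3).2 ⟨h7, h6⟩

end SQ
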