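import Pool.Agent.W92_960bf8.DirC

/-!
# MP_960bf8_lc : properties of the name of a fine normal ultrafilter
-/

set_option autoImplicit false
set_option linter.unusedSectionVars false

universe u

open Cardinal Set IM

namespace SQ

section tv
variable {P : Type u} [Preorder P]

theorem tv_true {φ : Prop} (h : φ) : (tv φ : RO P) = ⊤ := by
  unfold tv
  rw [iSup_pos h]

theorem tv_false {φ : Prop} (h : ¬ φ) : (tv φ : RO P) = ⊥ := by
  unfold tv
  rw [iSup_neg h]

theorem mem_tv {φ : Prop} {p : P} : p ∈ (tv φ : RO P).1 ↔ φ := by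
  by_cases h : φ
  · rw [tv_true h]
    exact ⟨fun _ => h, fun _ => RO.mem_top p⟩
  · rw [tv_false h]
    exact ⟨fun h1 => absurd h1 (RO.mem_bot p), fun h1 => absurd h1 h⟩

end tv

variable {κ : Cardinal.{u}} {P : Type u} [Preorder P] {A : Type u} {U : (Set A → RO P) → RO P}

/-- PROOF.  `hU.complete` for a two-element index type (`ULift Bool`, of size `< κ` since `κ` is infinite). -/
theorem IsFNUName.inf (hκ : κ.IsRegular) (hU : IsFNUName κ U) (f g : Set A → RO P) :
    U (fun x => f x ⊓ g x) = U f ⊓ U g := by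
  have hcard : #(ULift.{u} Bool) < κ := by
    have h1 : #(ULift.{u} Bool) = 2 := by simp
    rw [h1]
    exact lt_of_lt_of_le (Cardinal.natCast_lt_aleph0 (n := 2)) hκ.aleph0_le
  have h := hU.complete (ULift.{u} Bool) (fun i => if i.down = true then f else g) hcard
  have e : ∀ v w : RO P, (⨅ i : ULift.{u} Bool, if i.down = true then v else w) = v ⊓ w := by
    intro v w
    apply le_antisymm
    · refine le_inf ?_ ?_
      · exact (iInf_le _ (ULift.up true)).trans (by simp)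
      · exact (iInf_le _ (ULift.up false)).trans (by simp)
    · refine le_iInf fun i => ?_
      split_ifs
      · exact inf_le_left
      · exact inf_le_right
  have h1 : (fun x => ⨅ i : ULift.{u} Bool, (fun i : ULift.{u} Bool =>
      if i.down = true then f else g) i x) = fun x => f x ⊓ g x := by
    funext x
    rw [← e (f x) (g x)]
    refine iInf_congr fun i => ?_
    show (if i.down = true then f else g) x = _
    split_ifs <;> rfl
  have h2 : (⨅ i : ULift.{u} Bool, U ((fun i : ULift.{u} Bool =>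
      if i.down = true then f else g) i)) = U f ⊓ U g := by
    rw [← e (U f) (U g)]
    refine iInf_congr fun i => ?_
    show U (if i.down = true then f else g) = _
    split_ifs <;> rfl
  rw [h1, h2] at h
  exact h

/-- PROOF.  `f = f ⊓ g` and `IsFNUName.inf`. -/
theorem IsFNUName.mono (hκ : κ.IsRegular) (hU : IsFNUName κ U) {f g : Set A → RO P} (h : ∀ x, f x ≤ g x) :
    U f ≤ U g := by
  have h1 : (fun x => f x ⊓ g x) = f := by
    funext x
    exact inf_eq_left.2 (h x)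
  have h2 := hU.inf hκ f g
  rw [h1] at h2
  rw [h2]
  exact inf_le_right

/-- PROOF.  `compl` and `inf`: `f ⊔ g = (fᶜ ⊓ gᶜ)ᶜ`. -/
theorem IsFNUName.sup (hκ : κ.IsRegular) (hU : IsFNUName κ U) (f g : Set A → RO P) :
    U (fun x => f x ⊔ g x) = U f ⊔ U g := by
  have h1 := hU.compl (fun x => (f x)ᶜ ⊓ (g x)ᶜ)
  have h2 : (fun x => ((f x)ᶜ ⊓ (g x)ᶜ)ᶜ) = fun x => f x ⊔ g x := by
    funext x
    rw [compl_inf, compl_compl, compl_compl]
  rw [h2, hU.inf hκ (fun x => (f x)ᶜ) (fun x => (g x)ᶜ), hU.compl, hU.compl, compl_inf,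
    compl_compl, compl_compl] at h1
  exact h1

/-- PROOF.  `compl` and `complete`. -/
theorem IsFNUName.iSup (hκ : κ.IsRegular) (hU : IsFNUName κ U) (I : Type u) (f : I → Set A → RO P)
    (hI : #I < κ) : U (fun x => ⨆ i, f i x) = ⨆ i, U (f i) := by
  have h1 := hU.compl (fun x => ⨅ i, (f i x)ᶜ)
  have h2 : (fun x => (⨅ i, (f i x)ᶜ)ᶜ) = fun x => ⨆ i, f i x := by
    funext x
    rw [compl_iInf]
    exact iSup_congr fun i => compl_compl _
  rw [h2, hU.complete I (fun i x => (f i x)ᶜ) hI, compl_iInf] at h1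
  rw [h1]
  refine iSup_congr fun i => ?_
  rw [hU.compl, compl_compl]

/-- Normality for suprema.  PROOF.  `compl` and `normal`. -/
theorem IsFNUName.normal_sup (hU : IsFNUName κ U) (f : A → Set A → RO P) :
    U (fun x => ⨆ a : x, f a.1 x) ≤ ⨆ a, U (f a) := by
  have h1 := hU.normal (fun a x => (f a x)ᶜ)
  have h2 := hU.compl (fun x => ⨆ a : x, f a.1 x)
  have h3 : (fun x : Set A => (⨆ a : x, f a.1 x)ᶜ) = fun x : Set A => ⨅ a : x, (f a.1 x)ᶜ := by
    funext x
    rw [compl_iSup]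
  rw [h3] at h2
  rw [h2] at h1
  have h4 : (⨅ a, U (fun x => (f a x)ᶜ)) = (⨆ a, U (f a))ᶜ := by
    rw [compl_iSup]
    exact iInf_congr fun a => hU.compl _
  rw [h4] at h1
  exact compl_le_compl_iff_le.1 h1

/-- Only the sets `x` with a property `φ` which holds almost everywhere matter.

PROOF.  `U f = U f ⊓ U (tv φ) = U (f ⊓ tv φ) ≤ U g` by `inf`, `mono`. -/
theorem IsFNUName.mono_ae (hκ : κ.IsRegular) (hU : IsFNUName κ U) {f g : Set A → RO P}
    {φ : Set A → Prop} (hφ : U (fun x => tv (φ x)) = ⊤) (h : ∀ x, φ x → f x ≤ g x) : U f ≤ U g := by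
  have h1 := hU.inf hκ f (fun x => tv (φ x))
  rw [hφ, inf_top_eq] at h1
  rw [← h1]
  refine hU.mono hκ fun x => ?_
  by_cases hx : φ x
  · exact inf_le_left.trans (h x hx)
  · rw [tv_false hx, inf_bot_eq]
    exact bot_le

/-- PROOF.  `mono_ae` twice. -/
theorem IsFNUName.congr_ae (hκ : κ.IsRegular) (hU : IsFNUName κ U) {f g : Set A → RO P}
    {φ : Set A → Prop} (hφ : U (fun x => tv (φ x)) = ⊤) (h : ∀ x, φ x → f x = g x) : U f = U g := by
  exact le_antisymm (hU.mono_ae hκ hφ fun x hx => (h x hx).le)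
    (hU.mono_ae hκ hφ fun x hx => (h x hx).ge)

/-- PROOF.  `tv (φ ∧ ψ) = tv φ ⊓ tv ψ`. -/
theorem IsFNUName.ae_and (hκ : κ.IsRegular) (hU : IsFNUName κ U) {φ ψ : Set A → Prop}
    (hφ : U (fun x => tv (φ x)) = ⊤) (hψ : U (fun x => tv (ψ x)) = ⊤) : U (fun x => tv (φ x ∧ ψ x)) = ⊤ := by
  have h1 := hU.inf hκ (fun x => tv (φ x)) (fun x => tv (ψ x))
  rw [hφ, hψ, inf_top_eq] at h1
  rw [← h1]
  congr 1
  funext x
  by_cases hx : φ x
  · by_cases hy : ψ x
    · rw [tv_true hx, tv_true hy, tv_true ⟨hx, hy⟩, inf_top_eq]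
    · rw [tv_false hy, tv_false fun h => hy h.2, inf_bot_eq]
  · rw [tv_false hx, tv_false fun h => hx h.1, bot_inf_eq]

/-- PROOF.  `tv (∀ i, φ i) = ⨅ i, tv (φ i)`, `complete`. -/
theorem IsFNUName.ae_all (hU : IsFNUName κ U) (I : Type u) (hI : #I < κ) {φ : I → Set A → Prop}
    (hφ : ∀ i, U (fun x => tv (φ i x)) = ⊤) : U (fun x => tv (∀ i, φ i x)) = ⊤ := by
  have h1 := hU.complete I (fun i x => tv (φ i x)) hI
  have h2 : (⨅ i, U (fun x => tv (φ i x))) = ⊤ := by
    rw [iInf_eq_top]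
    exact hφ
  rw [h2] at h1
  rw [← h1]
  congr 1
  funext x
  by_cases hx : ∀ i, φ i x
  · rw [tv_true hx]
    symm
    rw [iInf_eq_top]
    exact fun i => tv_true (hx i)
  · rw [tv_false hx]
    obtain ⟨i, hi⟩ := not_forall.1 hx
    symm
    rw [eq_bot_iff, ← tv_false (P := P) hi]
    exact iInf_le _ i

/-- PROOF.  `tv (∀ a ∈ x, φ a x) = ⨅ a : x, tv (φ a x)`, `normal`. -/
theorem IsFNUName.ae_normal (hU : IsFNUName κ U) {φ : A → Set A → Prop}
    (hφ : ∀ a, U (fun x => tv (φ a x)) = ⊤) : U (fun x => tv (∀ a ∈ x, φ a x)) = ⊤ := by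
  have h1 := hU.normal (fun a x => tv (φ a x))
  have h2 : (⨅ a, U (fun x => tv (φ a x))) = ⊤ := by
    rw [iInf_eq_top]
    exact hφ
  rw [h2, top_le_iff] at h1
  rw [← h1]
  congr 1
  funext x
  by_cases hx : ∀ a ∈ x, φ a x
  · rw [tv_true hx]
    symm
    rw [iInf_eq_top]
    exact fun a => tv_true (hx a.1 a.2)
  · rw [tv_false hx]
    push Not at hx
    obtain ⟨a, ha, hi⟩ := hx
    symm
    rw [eq_bot_iff, ← tv_false (P := P) hi]
    exact iInf_le (fun a : x => (tv (φ a.1 x) : RO P)) ⟨a, ha⟩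

end SQ
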