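import Pool.Agent.W92_960bf8.Gen
import Pool.Agent.W92_960bf8.Uf

/-!
# MP_960bf8_lc : the thread of a candidate in the full extension

Let `C` be a candidate in the model of the visible truth values.  In the full extension there is a fine normal ultrafilter on the
small subsets of `A`, and it gives a club `E` in `κ` such that `E ∩ a` is one of the candidates at `a` for all limit points `a` of `E`.
-/

set_option autoImplicit false
set_option linter.unusedSectionVars false

universe u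

open Cardinal Set P96 IM

namespace SQ

/-! ### The mixture -/

section mix
variable {K D : Type u} [LinearOrder K] [CompleteBooleanAlgebra D]

/-- One candidate at `a`, by mixing. -/
theorem exists_mix {Cn : K → (K → D) → D} {c : D} (hC : CandV Cn c) (a : K) (ha : Lim a) :
    ∃ X : K → D, c ≤ Cn a X := by
  classical
  let r : (K → D) → (K → D) → Prop := WellOrderingRel
  let w : (K → D) → D := fun X => Cn a X ⊓ (⨆ Y : {Y // r Y X}, Cn a Y.1)ᶜ
  have hdis : ∀ X Y, X ≠ Y → w X ⊓ w Y = ⊥ := by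
    have key : ∀ X Y, r Y X → w X ⊓ w Y = ⊥ := by
      intro X Y hYX
      rw [eq_bot_iff]
      calc w X ⊓ w Y ≤ (⨆ Y : {Y // r Y X}, Cn a Y.1)ᶜ ⊓ Cn a Y := inf_le_inf inf_le_right inf_le_left
        _ ≤ (Cn a Y)ᶜ ⊓ Cn a Y := by
            refine inf_le_inf_right _ (compl_le_compl ?_)
            exact le_iSup (fun Y : {Y // r Y X} => Cn a Y.1) ⟨Y, hYX⟩
        _ ≤ ⊥ := compl_inf_eq_bot.le
    intro X Y hXY
    rcases trichotomous_of r X Y with h1 | h1 | h1
    · rw [inf_comm]
      exact key Y X h1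
    · exact (hXY h1).elim
    · exact key X Y h1
  have hsup : (⨆ X, Cn a X) ≤ ⨆ X, w X := by
    refine iSup_le fun X => ?_
    have wf : WellFounded r := IsWellFounded.wf
    refine wf.induction (C := fun X => Cn a X ≤ ⨆ X, w X) X ?_
    intro X ih
    have h1 : Cn a X ≤ w X ⊔ ⨆ Y : {Y // r Y X}, Cn a Y.1 := by
      have h2 : w X ⊔ (⨆ Y : {Y // r Y X}, Cn a Y.1) = Cn a X ⊔ ⨆ Y : {Y // r Y X}, Cn a Y.1 := by
        change Cn a X ⊓ (⨆ Y : {Y // r Y X}, Cn a Y.1)ᶜ ⊔ (⨆ Y : {Y // r Y X}, Cn a Y.1) = _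
        rw [sup_inf_right, compl_sup_eq_top, inf_top_eq]
      rw [h2]
      exact le_sup_left
    exact h1.trans (sup_le (le_iSup w X) (iSup_le fun Y => ih Y.1 Y.2))
  let X0 : K → D := fun b => ⨆ X, w X ⊓ X b
  have hX0 : ∀ X b, w X ⊓ X0 b = w X ⊓ X b := by
    intro X b
    apply le_antisymm
    · change w X ⊓ (⨆ X, w X ⊓ X b) ≤ _
      rw [inf_iSup_eq]
      refine iSup_le fun Y => ?_
      by_cases hXY : X = Y
      · subst hXY
        exact le_inf inf_le_left (inf_le_right.trans inf_le_right)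
      · rw [← inf_assoc, hdis X Y hXY, bot_inf_eq]
        exact bot_le
    · exact le_inf inf_le_left (le_iSup (fun X => w X ⊓ X b) X)
  refine ⟨X0, ((hC.ne a ha).trans hsup).trans (iSup_le fun X => ?_)⟩
  have h1 := hC.ext a X X0 (w X) (fun x _ => (hX0 X x).symm)
  refine le_trans (le_inf le_rfl ?_) h1
  exact inf_le_left

end mix

/-! ### The trace of a small set on `K` -/

section trace
variable {K A : Type u} [LinearOrder K] [WellFoundedLT K] (k : K → A)

/-- the trace of `x` is the initial segment below `d` -/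
def Tra (x : Set A) (d : K) : Prop := ∀ b, k b ∈ x ↔ b < d

variable {k} {P : Type u} [Preorder P] {U : (Set A → RO P) → RO P}

theorem Tra.uniq {x : Set A} {d d' : K} (h : Tra k x d) (h' : Tra k x d') : d = d' := by
  rcases lt_trichotomy d d' with h1 | h1 | h1
  · exact (lt_irrefl d ((h d).1 ((h' d).2 h1))).elim
  · exact h1
  · exact (lt_irrefl d' ((h' d').1 ((h d').2 h1))).elim

/-- almost all sets have as trace an initial segment given by a limit -/
theorem ae_tra (H : KPar K) (hk : Function.Injective k) (hU : IsFNUName (#K) U) :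
    U (fun x => tv (∃ d, Lim d ∧ Tra k x d)) = ⊤ := by
  choose s hs using H.exists_gt
  obtain ⟨x0⟩ := H.nonempty
  have h1 : U (fun x => tv (∀ a ∈ x, ∀ b, k b = a → (∀ b' < b, k b' ∈ x) ∧ k (s b) ∈ x)) = ⊤ := by
    refine hU.ae_normal (φ := fun a x => ∀ b, k b = a → (∀ b' < b, k b' ∈ x) ∧ k (s b) ∈ x) fun a => ?_
    by_cases ha : ∃ b, k b = a
    · obtain ⟨b, rfl⟩ := ha
      have h2 : U (fun x => tv (∀ b' : Iio b, k b'.1 ∈ x)) = ⊤ :=
        hU.ae_all (Iio b) (H.seg b) fun b' => hU.fine (k b'.1)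
      have h3 := hU.ae_and H.isReg h2 (hU.fine (k (s b)))
      rw [← h3]
      refine congrArg U (funext fun x => ?_)
      refine congrArg tv (propext ⟨fun h4 => ?_, fun h4 b' hb' => ?_⟩)
      · exact ⟨fun b' => (h4 b rfl).1 b'.1 b'.2, (h4 b rfl).2⟩
      · obtain rfl := hk hb'
        exact ⟨fun b'' hb'' => h4.1 ⟨b'', hb''⟩, h4.2⟩
    · rw [← hU.const ⊤]
      refine congrArg U (funext fun x => ?_)
      refine tv_true fun b hb => ?_
      exact (ha ⟨b, hb⟩).elim
  have h2 := hU.ae_and H.isReg (hU.ae_and H.isReg h1 hU.small) (hU.fine (k x0))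
  rw [eq_top_iff, ← h2]
  refine hU.mono H.isReg fun x => ?_
  by_cases hx : ((∀ a ∈ x, ∀ b, k b = a → (∀ b' < b, k b' ∈ x) ∧ k (s b) ∈ x) ∧ #x < #K) ∧ k x0 ∈ x
  · refine le_trans le_top (tv_true ?_).ge
    obtain ⟨⟨h3, h4⟩, h5⟩ := hx
    have h6 : ∃ d, k d ∉ x := by
      by_contra hc
      push Not at hc
      refine absurd h4 (not_lt.2 ?_)
      exact Cardinal.mk_le_of_injective (f := fun b : K => (⟨k b, hc b⟩ : x)) fun b b' hbb =>
        hk (congrArg Subtype.val hbb)
    obtain ⟨d, hd, hmin⟩ := wellFounded_lt.has_min {d : K | k d ∉ x} h6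
    have h7 : ∀ b, k b ∈ x ↔ b < d := by
      intro b
      constructor
      · intro hb
        by_contra hbd
        rcases (not_lt.1 hbd).eq_or_lt with h8 | h8
        · exact hd (h8 ▸ hb)
        · exact hd ((h3 _ hb b rfl).1 d h8)
      · intro hbd
        by_contra hb
        exact hmin b hb hbd
    refine ⟨d, ⟨⟨x0, (h7 x0).1 h5⟩, fun b hb => ⟨s b, hs b, ?_⟩⟩, h7⟩
    exact (h7 _).1 (h3 _ ((h7 b).2 hb) b rfl).2
  · rw [tv_false hx]
    exact bot_le

end trace

/-! ### The thread -/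

section thread
variable {K A P : Type u} [LinearOrder K] [WellFoundedLT K] [Preorder P] {L : P → P → Prop} {h : Swp L}
  {k : K → A} {U : (Set A → RO P) → RO P}

/-- The thread. -/
theorem exists_thread (H : KPar K) (hP : DirClosed (#K) P) (hk : Function.Injective k)
    (hU : IsFNUName (#K) U) {Cn : K → (K → VA h) → VA h} {c : VA h} (hC : CandV Cn c) :
    ∃ E : K → RO P, c.val ≤ clubT E ∧ ∀ a, Lim a → ∀ p ∈ (c.val ⊓ unbV E a).1,
      ∃ r ≤ p, ∃ X : K → VA h, r ∈ (Cn a X).val.1 ∧ ∀ b < a,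
        (r ∈ (E b).1 ∧ r ∈ (X b).val.1) ∨ (r ∈ ((E b)ᶜ).1 ∧ r ∈ ((X b)ᶜ).val.1) := by
  classical
  -- the mixtures
  have h1 : ∀ a : K, ∃ X : K → VA h, Lim a → c ≤ Cn a X := by
    intro a
    by_cases ha : Lim a
    · obtain ⟨X, hX⟩ := exists_mix hC a ha
      exact ⟨X, fun _ => hX⟩
    · exact ⟨fun _ => ⊤, fun h => (ha h).elim⟩
  choose C hCn using h1
  obtain ⟨x0⟩ := H.nonempty
  let δ : Set A → K := fun x => if hx : ∃ d, Lim d ∧ Tra k x d then hx.choose else x0
  let φ : Set A → Prop := fun x => Lim (δ x) ∧ Tra k x (δ x)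
  have hφ : U (fun x => tv (φ x)) = ⊤ := by
    rw [eq_top_iff, ← ae_tra H hk hU]
    refine hU.mono H.isReg fun x => ?_
    by_cases hx : ∃ d, Lim d ∧ Tra k x d
    · refine le_trans le_top (tv_true ?_).ge
      have h2 : δ x = hx.choose := dif_pos hx
      change Lim (δ x) ∧ Tra k x (δ x)
      rw [h2]
      exact hx.choose_spec
    · rw [tv_false hx]
      exact bot_le
  have hδ : ∀ b : K, U (fun x => tv (φ x ∧ b < δ x)) = ⊤ := by
    intro b
    have h2 := hU.ae_and H.isReg hφ (hU.fine (k b))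
    rw [← h2]
    refine congrArg U (funext fun x => congrArg tv (propext ?_))
    exact and_congr_right fun h3 => (h3.2 b).symm
  -- the thread
  let E : K → RO P := fun b => U (fun x => (C (δ x) b).val)
  -- the set is club in `δ x`
  have hclub : c.val ≤ U (fun x => (clubV (C (δ x)) (δ x)).val) := by
    rw [← hU.const c.val]
    refine hU.mono_ae H.isReg hφ fun x hx => ?_
    rw [← VA.le_iff]
    exact (le_inf le_rfl (hCn (δ x) hx.1)).trans (hC.club (δ x) (C (δ x)) hx.1)
  -- the truth value of `E ∩ b` is unbounded in `b`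
  have hunb : ∀ b, unbV E b = U (fun x => (unbV (C (δ x)) b).val) := by
    intro b
    have h2 : (fun x : Set A => (unbV (C (δ x)) b).val) = fun x => ⨅ z : Iio b, ⨆ y : Ioo z.1 b,
        (C (δ x) y.1).val := by
      funext x
      rw [VA.val_unbV]
      rfl
    rw [h2, hU.complete (Iio b) (fun z x => ⨆ y : Ioo z.1 b, (C (δ x) y.1).val) (H.seg b)]
    change (⨅ z : Iio b, ⨆ y : Ioo z.1 b, E y.1) = _
    refine iInf_congr fun z => ?_
    rw [hU.iSup H.isReg (Ioo z.1 b) (fun y x => (C (δ x) y.1).val)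
      (lt_of_le_of_lt (mk_le_mk_of_subset fun y hy => hy.2) (H.seg b))]
  refine ⟨E, le_inf ?_ ?_, ?_⟩
  · -- cofinal
    change c.val ≤ ⨅ z : K, ⨆ y : Ioi z, E y.1
    refine le_iInf fun z => ?_
    have h2 : c.val ≤ U (fun x => ⨆ a : x, (⨆ y : {y : K // z < y ∧ k y = a.1}, (C (δ x) y.1).val)) := by
      refine hclub.trans (hU.mono_ae H.isReg (hδ z) fun x hx => ?_)
      rw [VA.val_clubV]
      refine inf_le_left.trans ?_
      refine (iInf_le _ (⟨z, hx.2⟩ : Iio (δ x))).trans (iSup_le fun y => ?_)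
      refine le_trans ?_ (le_iSup (fun a : x => ⨆ y : {y : K // z < y ∧ k y = a.1}, (C (δ x) y.1).val)
        ⟨k y.1, (hx.1.2 y.1).2 y.2.2⟩)
      exact le_iSup (fun y' : {y' : K // z < y' ∧ k y' = k y.1} => (C (δ x) y'.1).val) ⟨y.1, y.2.1, rfl⟩
    refine h2.trans ((hU.normal_sup (fun a x => ⨆ y : {y : K // z < y ∧ k y = a}, (C (δ x) y.1).val)).trans
      (iSup_le fun a => ?_))
    by_cases ha : ∃ y, z < y ∧ k y = a
    · obtain ⟨y, hy, rfl⟩ := ha
      refine le_trans ?_ (le_iSup (fun y : Ioi z => E y.1) ⟨y, hy⟩)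
      refine hU.mono H.isReg fun x => iSup_le fun y' => ?_
      rw [hk y'.2.2]
    · have h3 : (fun x : Set A => ⨆ y : {y : K // z < y ∧ k y = a}, (C (δ x) y.1).val) = fun _ => ⊥ := by
        funext x
        rw [iSup_eq_bot]
        exact fun y => (ha ⟨y.1, y.2⟩).elim
      rw [h3, hU.const]
      exact bot_le
  · -- closed
    refine le_iInf fun b => ?_
    have h2 : c.val ⊓ unbV E b.1 ≤ E b.1 := by
      rw [hunb b.1]
      calc c.val ⊓ U (fun x => (unbV (C (δ x)) b.1).val)
          ≤ U (fun x => (clubV (C (δ x)) (δ x)).val) ⊓ U (fun x => (unbV (C (δ x)) b.1).val) :=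
            inf_le_inf_right _ hclub
        _ = U (fun x => (clubV (C (δ x)) (δ x)).val ⊓ (unbV (C (δ x)) b.1).val) := (hU.inf H.isReg _ _).symm
        _ ≤ U (fun x => (C (δ x) b.1).val) := by
            refine hU.mono_ae H.isReg (hδ b.1) fun x hx => ?_
            rw [← VA.val_inf, ← VA.le_iff]
            have h3 : clubV (C (δ x)) (δ x) ≤ (unbV (C (δ x)) b.1)ᶜ ⊔ C (δ x) b.1 :=
              inf_le_right.trans (iInf_le _ (⟨b.1, hx.2, b.2⟩ : {b : K // b < δ x ∧ Lim b}))
            calc clubV (C (δ x)) (δ x) ⊓ unbV (C (δ x)) b.1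
                ≤ ((unbV (C (δ x)) b.1)ᶜ ⊔ C (δ x) b.1) ⊓ unbV (C (δ x)) b.1 := inf_le_inf_right _ h3
              _ ≤ C (δ x) b.1 := by
                  rw [inf_sup_right, compl_inf_eq_bot, bot_sup_eq]
                  exact inf_le_left
    calc c.val ≤ (unbV E b.1)ᶜ ⊔ (c.val ⊓ unbV E b.1) := by
          rw [sup_inf_left, compl_sup_eq_top, inf_top_eq]
          exact le_sup_right
      _ ≤ (unbV E b.1)ᶜ ⊔ E b.1 := sup_le_sup_left h2 _
  · -- the candidates
    intro a ha p hp
    obtain ⟨q, hqp, hq⟩ := hP.decide H.isReg (H.seg a) (fun b : Iio a => E b.1) p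
    have hq' := RO.mem_lower hp hqp
    -- the truth value of: `C (δ x)` is a candidate at `a` and agrees with the decided part of `E`
    let f : Set A → RO P := fun x => (Cn a (C (δ x))).val
    let g : Iio a → Set A → RO P := fun b x =>
      if q ∈ (E b.1).1 then (C (δ x) b.1).val else ((C (δ x) b.1).val)ᶜ
    have h2 : q ∈ (U f).1 := by
      have h3 : c.val ⊓ unbV E a ≤ U f := by
        rw [hunb a]
        calc c.val ⊓ U (fun x => (unbV (C (δ x)) a).val)
            = U (fun _ => c.val) ⊓ U (fun x => (unbV (C (δ x)) a).val) := by rw [hU.const]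
          _ = U (fun x => c.val ⊓ (unbV (C (δ x)) a).val) := (hU.inf H.isReg _ _).symm
          _ ≤ U f := by
              refine hU.mono_ae H.isReg (hδ a) fun x hx => ?_
              change _ ≤ (Cn a (C (δ x))).val
              rw [← VA.val_inf, ← VA.le_iff]
              refine le_trans ?_ (hC.coh (δ x) a (C (δ x)) hx.1.1 ha hx.2)
              exact inf_le_inf_right _ (le_inf le_rfl (hCn (δ x) hx.1.1))
      exact (RO.le_iff _ _).1 h3 q hq'
    have h3 : q ∈ (U (fun x => ⨅ b, g b x)).1 := by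
      rw [hU.complete (Iio a) g (H.seg a), RO.mem_iInf]
      intro b
      by_cases hb : q ∈ (E b.1).1
      · have h4 : g b = fun x => (C (δ x) b.1).val := funext fun x => if_pos hb
        rw [h4]
        exact hb
      · have h4 : g b = fun x => ((C (δ x) b.1).val)ᶜ := funext fun x => if_neg hb
        rw [h4, hU.compl]
        exact (hq b).resolve_left hb
    have h4 : q ∈ (U (fun x => f x ⊓ ⨅ b, g b x)).1 := by
      rw [hU.inf H.isReg, RO.mem_inf]
      exact ⟨h2, h3⟩
    -- some `x` is compatible with `q`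
    obtain ⟨x, r, hr, hrx⟩ : ∃ x, ∃ r ≤ q, r ∈ (f x ⊓ ⨅ b, g b x).1 := by
      by_contra hc
      push Not at hc
      have h5 : U (fun x => RO.cl {q} ⊓ (f x ⊓ ⨅ b, g b x)) = ⊥ := by
        rw [← hU.const ⊥]
        refine congrArg U (funext fun x => ?_)
        rw [eq_bot_iff]
        intro s hs
        rw [RO.mem_inf] at hs
        obtain ⟨r, hr, t, ht, hrt⟩ := RO.mem_cl.1 hs.1 s le_rfl
        rw [mem_singleton_iff.1 ht] at hrt
        exact (hc x r hrt (RO.mem_lower hs.2 hr)).elim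
      rw [hU.inf H.isReg, hU.const] at h5
      have h6 : q ∈ (RO.cl {q} ⊓ U (fun x => f x ⊓ ⨅ b, g b x)).1 := by
        rw [RO.mem_inf]
        exact ⟨RO.mem_cl.2 fun s hs => ⟨s, le_rfl, q, rfl, hs⟩, h4⟩
      rw [h5] at h6
      exact RO.mem_bot _ h6
    rw [RO.mem_inf, RO.mem_iInf] at hrx
    refine ⟨r, hr.trans hqp, C (δ x), hrx.1, fun b hb => ?_⟩
    have h5 := hrx.2 ⟨b, hb⟩
    by_cases hqb : q ∈ (E b).1
    · left
      have h6 : g ⟨b, hb⟩ x = (C (δ x) b).val := if_pos hqb
      rw [h6] at h5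
      exact ⟨RO.mem_lower hqb hr, h5⟩
    · right
      have h6 : g ⟨b, hb⟩ x = ((C (δ x) b).val)ᶜ := if_neg hqb
      rw [h6] at h5
      exact ⟨RO.mem_lower ((hq ⟨b, hb⟩).resolve_left hqb) hr, h5⟩

end thread

end SQ
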