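import Pool.Agent.W92_960bf8.KilA
import Pool.Agent.W92_960bf8.SqB
import Pool.Agent.W92_960bf8.Thr

/-!
# MP_960bf8_lc : the visible algebra has the properties `Core960`
-/

set_option autoImplicit false
set_option linter.unusedSectionVars false

universe u

open Cardinal Set P96 IM

namespace SQ

variable {K J : Type u} [LinearOrder K] [LinearOrder J] [WellFoundedLT J] {nm : J → K → Set (Raw J K)}

theorem Par.kpar (H : Par nm) : KPar K := ⟨H.unc, H.isReg, H.seg, H.reg, H.slim⟩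

variable [Nonempty (Cnd nm)] {v : (Set (Obj nm) → Set (Cnd nm) → Prop) → RO (Cnd nm)}

theorem oK_inj : Function.Injective (oK : K → Obj nm) :=
  fun _ _ h => Sum.inr_injective (Sum.inr_injective h)

/-- Every candidate is killed. -/
theorem kill_VA (H : Par nm) (hv : IsPM (#K) oP v) {U : (Set (Obj nm) → RO (Cnd nm)) → RO (Cnd nm)}
    (hU : IsFNUName (#K) U) {h : Swp (Link v)} (Cn : K → (K → VA h) → VA h) (c : VA h) (hc : c ≠ ⊥)
    (hC : CandV Cn c) : ∃ (b : VA h) (B e : K → VA h), b ≠ ⊥ ∧ b ≤ c ∧ b ≤ cofT B ∧ b ≤ clubT e ∧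
      ∀ a, Lim a → b ⊓ e a ≤ ⨆ X : K → VA h, Cn a X ⊓ badV X B a := by
  classical
  have := H.wf
  obtain ⟨E, hE, hE2⟩ := exists_thread H.kpar (dirClosed_cnd H) (oK_inj (nm := nm)) hU hC
  obtain ⟨c₁, hc₁, hNB⟩ := exists_c1 H hv (N := naccV E c.val) (fun b _ => disc_nacc E c.val b)
  let B : K → VA h := fun b => ⟨bV c₁ b, nonSep_bV H hv hc₁ b⟩
  let σ : K → VA h := fun a => ⨆ X : K → VA h, Cn a X ⊓ badV X B a
  have hsub : ∀ a, Lim a → c.val ⊓ (E a ⊓ unbV E a ⊓ epsV (naccV E c.val) (bV c₁) a) ≤ (σ a).val := by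
    intro a ha
    rw [RO.le_iff]
    rintro p ⟨hpc, ⟨hpE, hpu⟩, hpe⟩
    refine RO.mem_of_dense fun q hq => ?_
    obtain ⟨r, hr, X, hX, hdec⟩ := hE2 a ha q ⟨RO.mem_lower hpc hq, RO.mem_lower hpu hq⟩
    obtain ⟨r', hr', e, he⟩ := (RO.mem_iSup _ _).1 (RO.mem_lower hpe (hr.trans hq)) r le_rfl
    refine ⟨r', hr'.trans hr, ?_⟩
    have h1 : (Cn a X ⊓ badV X B a).val ≤ (σ a).val := le_iSup (fun X : K → VA h => Cn a X ⊓ badV X B a) X
    refine (RO.le_iff _ _).1 h1 r' ⟨RO.mem_lower hX hr', ?_⟩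
    show r' ∈ ((badV X B a).val).1
    rw [VA.val_badV]
    refine (RO.le_iff _ _).1 (le_iSup (fun s : Iio a => ⨅ p : {p : K × K // s.1 < p.1 ∧ p.1 < p.2 ∧ p.2 < a},
      (nxt (fun x => (X x).val) p.1.1 p.1.2 ⊓ (B p.1.2).val)ᶜ) e) r' ((RO.mem_iInf _ _).2 fun xy => ?_)
    obtain ⟨⟨x, y⟩, h2, h3, h4⟩ := xy
    rw [RO.mem_compl]
    rintro t ht ⟨⟨⟨h5, h6⟩, h7⟩, h8⟩
    have htr : t ≤ r := ht.trans hr'
    have h9 : t ∈ (E y).1 := by
      rcases hdec y h4 with h10 | h10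
      · exact RO.mem_lower h10.1 htr
      · exact absurd h6 ((RO.mem_compl _ _).1 h10.2 t htr)
    have h10 : t ∈ ((unbV E y)ᶜ).1 := by
      rw [RO.mem_compl]
      intro w hw h11
      obtain ⟨s, hs, z, h12, h13, h14⟩ := mem_unbG.1 h11 x h3 w le_rfl
      have h15 := (RO.mem_iInf _ _).1 h7 ⟨z, h12, h13⟩
      have hst : s ≤ t := hs.trans hw
      rcases hdec z (h13.trans h4) with h16 | h16
      · exact (RO.mem_compl _ _).1 h15 s hst (RO.mem_lower h16.2 (hst.trans htr))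
      · exact (RO.mem_compl _ _).1 h16.1 s (hst.trans htr) h14
    have h11 : t ∈ (naccV E c.val y).1 := ⟨⟨RO.mem_lower hpc ((htr.trans hr).trans hq), h9⟩, h10⟩
    have h12 := (RO.mem_iInf _ _).1 he ⟨y, (h2.trans h3).le⟩
    exact (RO.mem_compl _ _).1 h12 t ht ⟨h11, h8⟩
  obtain ⟨c₂, hc₂, hfin⟩ := exists_c2 H hv (c := c.val) (σ := fun a => (σ a).val)
    (fun a => NonSep.sup h c.2.compl (σ a).2) hE hNB hsub
  let B₂ : K → VA h := fun b => ⟨bV c₂ b, nonSep_bV H hv hc₂ b⟩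
  let e : K → VA h := fun a => if Lim a then unbV B₂ a else ⊥
  have he1 : ∀ {a}, Lim a → e a = unbV B₂ a := fun h => if_pos h
  have he2 : ∀ {a}, ¬ Lim a → e a = ⊥ := fun h => if_neg h
  have hub : ∀ a, (unbV B₂ a).val = unbV (bV c₂) a := fun a => VA.val_unbV B₂ a
  refine ⟨c, B, e, hc, le_rfl, ?_, ?_, fun a ha => ?_⟩
  · rw [VA.le_iff, VA.val_cofT]
    exact le_top.trans (cof_bV H hc₁.ls).ge
  · refine le_trans le_top (le_of_eq ?_)
    refine (VA.ext' ?_).symm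
    rw [VA.val_clubT, VA.val_top]
    have h1 : cofT (fun x => (e x).val) = ⊤ := by
      refine eq_top_of fun p => ⟨p, le_rfl, mem_cofT.2 fun x q hq => ?_⟩
      have h2 : q ∈ (cofT (bV c₂ : K → RO (Cnd nm))).1 := by
        rw [cof_bV H hc₂.ls]
        exact RO.mem_top q
      obtain ⟨z, hz, d, h3, h4, h5⟩ := acc_cof_cnd H h2 x
      refine ⟨z, hz, d, h3, ?_⟩
      rw [he1 h4, hub]
      exact h5
    refine le_antisymm le_top (le_inf h1.ge (le_iInf fun b => ?_))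
    rw [RO.le_iff]
    intro p _
    refine mem_sup_of fun q _ h2 => ?_
    show q ∈ ((e b.1).val).1
    rw [he1 b.2, hub]
    refine mem_unbG.2 fun x hx r hr => ?_
    obtain ⟨s, hs, y, h3, h4, h5⟩ := mem_unbG.1 h2 x hx r hr
    by_cases hy : Lim y
    · rw [he1 hy, hub] at h5
      obtain ⟨x', hx'⟩ := hy.1
      obtain ⟨t, ht, w, h6, h7, h8⟩ := mem_unbG.1 h5 (max x x') (max_lt h3 hx') s le_rfl
      exact ⟨t, ht.trans hs, w, (le_max_left _ _).trans_lt h6, h7.trans h4, h8⟩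
    · rw [he2 hy] at h5
      exact absurd h5 (RO.mem_bot s)
  · rw [VA.le_iff, VA.val_inf, he1 ha, hub]
    exact hfin a ha

/-- The visible algebra has all the properties. -/
theorem core_VA (H : Par nm) (hv : IsPM (#K) oP v) {U : (Set (Obj nm) → RO (Cnd nm)) → RO (Cnd nm)}
    (hU : IsFNUName (#K) U) (h : Swp (Link v)) : Core960 K (VA h) where
  unc := VA.unc H.kpar
  reg := VA.reg H.kpar (dirClosed_cnd H)
  pow := VA.pow H.kpar (dirClosed_cnd H)
  sq := by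
    let T : K → K → VA h := fun a x => ⟨tV a x, nonSep_tV H hv a x⟩
    have hub : ∀ a b, (unbV (T a) b).val = unbV (fun x => (tV a x : RO (Cnd nm))) b := fun a b => VA.val_unbV (T a) b
    refine ⟨T, fun a ha => ?_, fun a b ha hb hba x hx => ?_, fun e c hc hce hth => ?_⟩
    · refine VA.ext' ?_
      rw [VA.val_clubV]
      exact club_tV H ha
    · refine VA.ext' ?_
      rw [VA.val_inf, VA.val_inf, hub]
      exact coh_tV H hb hba hx
    · refine no_thread H hv (e := fun x => (e x).val) (fun b => (e b).2) (c := c.val) ?_ ?_ fun a ha x hx => ?_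
      · intro h1
        exact hc (VA.bot_iff.2 h1)
      · rw [← VA.val_clubT]
        exact hce
      · have h1 := congrArg VA.val (hth a ha x hx)
        rw [VA.val_inf, VA.val_inf, VA.val_inf, VA.val_inf, VA.val_unbV] at h1
        exact h1
  dia := by
    let A : K → K → VA h := fun a x => ⟨aV a x, nonSep_aV H hv a x⟩
    refine ⟨A, fun X e c hc hce => ?_⟩
    obtain ⟨p, a, h1, h2, h3⟩ := dia_V H (X := fun x => (X x).val) (e := fun x => (e x).val) (c := c.val)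
      (fun h1 => hc (VA.bot_iff.2 h1)) (by rw [← VA.val_clubT]; exact hce)
    let b : VA h := c ⊓ e a ⊓ ⨅ x : Iio a, ((X x.1 ⊓ A a x.1) ⊔ ((X x.1)ᶜ ⊓ (A a x.1)ᶜ))
    have hpb : p ∈ b.val.1 := by
      have h4 : p ∈ ((⨅ x : Iio a, ((X x.1 ⊓ A a x.1) ⊔ ((X x.1)ᶜ ⊓ (A a x.1)ᶜ)) : VA h).val).1 := by
        rw [VA.val_iInf, RO.mem_iInf]
        intro x
        rcases h3 x.1 x.2 with h5 | h5
        · exact (RO.le_iff _ _).1 (le_sup_left (a := (X x.1).val ⊓ aV a x.1)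
            (b := ((X x.1).val)ᶜ ⊓ (aV a x.1)ᶜ)) p h5
        · exact (RO.le_iff _ _).1 (le_sup_right (a := (X x.1).val ⊓ aV a x.1)
            (b := ((X x.1).val)ᶜ ⊓ (aV a x.1)ᶜ)) p h5
      exact ⟨⟨h1, h2⟩, h4⟩
    refine ⟨b, a, VA.ne_bot hpb, inf_le_left.trans inf_le_left, inf_le_left.trans inf_le_right, fun x hx => ?_⟩
    have h4 : b ≤ (X x ⊓ A a x) ⊔ ((X x)ᶜ ⊓ (A a x)ᶜ) := inf_le_right.trans (iInf_le _ (⟨x, hx⟩ : Iio a))
    have h5 : ∀ {s t : VA h}, b ≤ (s ⊓ t) ⊔ (sᶜ ⊓ tᶜ) → b ⊓ s ≤ b ⊓ t := by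
      intro s t h6
      refine le_inf inf_le_left ?_
      calc b ⊓ s ≤ ((s ⊓ t) ⊔ (sᶜ ⊓ tᶜ)) ⊓ s := inf_le_inf_right _ h6
        _ ≤ t := by
          rw [inf_sup_right]
          refine sup_le (inf_le_left.trans inf_le_right) ?_
          rw [inf_right_comm, compl_inf_eq_bot, bot_inf_eq]
          exact bot_le
    refine le_antisymm (h5 h4) (h5 ?_)
    rwa [inf_comm (A a x), inf_comm (A a x)ᶜ]
  kill := fun Cn c hc hC => kill_VA H hv hU Cn c hc hC

end SQ
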