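import Pool.Agent.W92_960bf8.TreeOp

/-!
# MP_960bf8_lc : lower bounds of directed sets
-/

set_option autoImplicit false
set_option linter.unusedSectionVars false

universe u

open Cardinal Set P96 IM

namespace SQ

variable {K J : Type u} [LinearOrder K] [LinearOrder J] [WellFoundedLT J] {nm : J → K → Set (Raw J K)}

/-- `Y` is directed -/
def Dir (Y : Set (Cnd nm)) : Prop := Y.Nonempty ∧ ∀ p ∈ Y, ∀ q ∈ Y, ∃ r ∈ Y, r ≤ p ∧ r ≤ q

/-- If `Y` is directed and `q` is in `Y` then `q` agrees with all elements of `Y` up to the smaller top. -/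
theorem dir_T {Y : Set (Cnd nm)} (hY : Dir Y) {p q : Cnd nm} (hp : p ∈ Y) (hq : q ∈ Y) {x : K}
    (h1 : x ≤ p.p.top) (h2 : x ≤ q.p.top) : p.p.T.t x = q.p.T.t x := by
  obtain ⟨r, -, h3, h4⟩ := hY.2 p hp q hq
  have h3' : Ext r.p p.p := h3
  have h4' : Ext r.p q.p := h4
  rw [← h3'.T x h1, h4'.T x h2]

theorem dir_A {Y : Set (Cnd nm)} (hY : Dir Y) {p q : Cnd nm} (hp : p ∈ Y) (hq : q ∈ Y) {x : K}
    (h1 : x ≤ p.p.top) (h2 : x ≤ q.p.top) : p.p.A x = q.p.A x := by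
  obtain ⟨r, -, h3, h4⟩ := hY.2 p hp q hq
  have h3' : Ext r.p p.p := h3
  have h4' : Ext r.p q.p := h4
  rw [← h3'.A x h1, h4'.A x h2]

/-- the tops of the elements of a directed set are comparable in the tree -/
theorem dir_top {Y : Set (Cnd nm)} (hY : Dir Y) {p q : Cnd nm} (hp : p ∈ Y) (hq : q ∈ Y)
    (h : p.p.top < q.p.top) : p.p.top ∈ q.p.T.t q.p.top := by
  obtain ⟨r, -, h3, h4⟩ := hY.2 p hp q hq
  have h3' : Ext r.p p.p := h3
  have h4' : Ext r.p q.p := h4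
  rcases h4'.top with h5 | h5
  · rcases h3'.top with h6 | h6
    · rw [h6, h5] at h
      exact absurd h (lt_irrefl _)
    · rw [← h5, h4'.T _ le_rfl] at h6
      exact h6
  · rw [← h4'.T _ le_rfl, r.p.T.coh _ _ h5]
    refine ⟨?_, h⟩
    rcases h3'.top with h6 | h6
    · rw [← h6] at h5
      exact absurd (r.p.T.lt _ _ h5) (not_lt.2 h.le)
    · exact h6

theorem dir_elt {Y : Set (Cnd nm)} (hY : Dir Y) {p q : Cnd nm} (hp : p ∈ Y) (hq : q ∈ Y) {c : Crd J}
    {x : K} (hc : (c, Tag.act) ∈ p.p.F) (hx : x < p.p.top) (h : (c, Tag.elt x) ∈ q.p.F) :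
    (c, Tag.elt x) ∈ p.p.F := by
  obtain ⟨r, -, h3, h4⟩ := hY.2 p hp q hq
  have h3' : Ext r.p p.p := h3
  have h4' : Ext r.p q.p := h4
  exact h3'.b c hc x hx (h4'.F h)

/-- the set of the hidden predecessors given by `Y` -/
def hid (Y : Set (Cnd nm)) : Set K := {x | ∃ p ∈ Y, x ∈ p.p.T.t p.p.top ∨ x = p.p.top}

theorem hid_iff {Y : Set (Cnd nm)} (hY : Dir Y) {p : Cnd nm} (hp : p ∈ Y) {x : K}
    (hx : x < p.p.top) : x ∈ hid Y ↔ x ∈ p.p.T.t p.p.top := by
  constructor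
  · rintro ⟨q, hq, h⟩
    rcases lt_trichotomy p.p.top q.p.top with h1 | h1 | h1
    · have h2 := dir_top hY hp hq h1
      have h3 := q.p.T.coh _ _ h2
      rw [dir_T hY hp hq le_rfl h1.le, h3]
      refine ⟨h.resolve_right fun h4 => ?_, hx⟩
      rw [h4] at hx
      exact absurd hx (not_lt.2 h1.le)
    · rw [dir_T hY hp hq le_rfl h1.le, h1]
      refine h.resolve_right fun h4 => ?_
      rw [h4, h1] at hx
      exact absurd hx (lt_irrefl _)
    · have h2 := dir_top hY hq hp h1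
      rcases h with h | h
      · rw [← dir_T hY hp hq h1.le le_rfl, p.p.T.coh _ _ h2] at h
        exact h.1
      · rw [h]
        exact h2
  · exact fun h => ⟨p, hp, Or.inl h⟩

open Classical in
/-- the tree order of the limit of `Y`, with top `d` -/
noncomputable def limT (Y : Set (Cnd nm)) (hY : Dir Y) (d : K) (h1 : ∀ p ∈ Y, p.p.top < d)
    (h2 : ∀ x < d, ∃ p ∈ Y, x < p.p.top) : Tree K where
  t x := if h : x < d then (h2 x h).choose.p.T.t x else hid Y ∪ Ico d x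
  lt := by
    intro x y hy
    by_cases h : x < d
    · rw [dif_pos h] at hy
      exact Tree.lt _ x y hy
    · rw [dif_neg h] at hy
      have h' := not_lt.1 h
      rcases hy with ⟨p, hp, hy | hy⟩ | hy
      · exact ((p.p.T.lt _ _ hy).trans (h1 p hp)).trans_le h'
      · rw [hy]
        exact (h1 p hp).trans_le h'
      · exact hy.2
  coh := by
    intro x y hy
    by_cases h : x < d
    · rw [dif_pos h] at hy ⊢
      have hyx := Tree.lt _ x y hy
      rw [dif_pos (hyx.trans h)]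
      have h3 := (h2 x h).choose_spec
      have h4 := (h2 y (hyx.trans h)).choose_spec
      rw [dir_T hY h4.1 h3.1 h4.2.le (hyx.trans h3.2).le]
      exact Tree.coh _ x y hy
    · rw [dif_neg h] at hy ⊢
      have h' := not_lt.1 h
      rcases hy with hy | hy
      · have hyd : y < d := by
          obtain ⟨p, hp, hy | hy⟩ := hy
          · exact (p.p.T.lt _ _ hy).trans (h1 p hp)
          · rw [hy]
            exact h1 p hp
        rw [dif_pos hyd]
        have h4 := (h2 y hyd).choose_spec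
        set p := (h2 y hyd).choose with hpdef
        have h5 : y ∈ p.p.T.t p.p.top := (hid_iff hY h4.1 h4.2).1 hy
        rw [p.p.T.coh _ _ h5]
        ext z
        constructor
        · rintro ⟨h6, h7⟩
          exact ⟨Or.inl ⟨p, h4.1, Or.inl h6⟩, h7⟩
        · rintro ⟨h6 | h6, h7⟩
          · exact ⟨(hid_iff hY h4.1 ((mem_Iio.1 h7).trans h4.2)).1 h6, h7⟩
          · exact absurd (h6.1.trans_lt (mem_Iio.1 h7)) (not_lt.2 hyd.le)
      · rw [dif_neg (not_lt.2 hy.1)]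
        ext z
        constructor
        · rintro (h6 | h6)
          · refine ⟨Or.inl h6, ?_⟩
            obtain ⟨p, hp, h7 | h7⟩ := h6
            · exact ((p.p.T.lt _ _ h7).trans (h1 p hp)).trans_le hy.1
            · rw [h7]
              exact (h1 p hp).trans_le hy.1
          · exact ⟨Or.inr ⟨h6.1, h6.2.trans hy.2⟩, h6.2⟩
        · rintro ⟨h6 | h6, h7⟩
          · exact Or.inl h6
          · exact Or.inr ⟨h6.1, h7⟩
  cl := by
    intro x y hyx hy hc
    by_cases h : x < d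
    · rw [dif_pos h] at hc ⊢
      exact Tree.cl _ x y hyx hy hc
    · rw [dif_neg h] at hc ⊢
      by_cases hyd : d ≤ y
      · exact Or.inr ⟨hyd, hyx⟩
      have hyd' := not_le.1 hyd
      obtain ⟨p, hp, hyp⟩ := h2 y hyd'
      refine Or.inl ((hid_iff hY hp hyp).2 (p.p.T.cl _ _ hyp hy fun z hz => ?_))
      obtain ⟨w, h3 | h3, h4, h5⟩ := hc z hz
      · exact ⟨w, (hid_iff hY hp (h5.trans hyp)).1 h3, h4, h5⟩
      · exact absurd (h3.1.trans_lt h5) (not_lt.2 hyd'.le)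
  unb := by
    intro x hx z hz
    by_cases h : x < d
    · rw [dif_pos h]
      exact Tree.unb _ x hx z hz
    · rw [dif_neg h]
      have h' := not_lt.1 h
      by_cases hzd : z < d
      · obtain ⟨p, hp, hzp⟩ := h2 z hzd
        exact ⟨p.p.top, Or.inl ⟨p, hp, Or.inr rfl⟩, hzp⟩
      · obtain ⟨w, h3, h4⟩ := hx.2 z hz
        exact ⟨w, Or.inr ⟨((not_lt.1 hzd).trans_lt h3).le, h4⟩, h3⟩

theorem limT_lt {Y : Set (Cnd nm)} {hY : Dir Y} {d : K} {h1 : ∀ p ∈ Y, p.p.top < d}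
    {h2 : ∀ x < d, ∃ p ∈ Y, x < p.p.top} {p : Cnd nm} (hp : p ∈ Y) {x : K} (hx : x ≤ p.p.top) :
    (limT Y hY d h1 h2).t x = p.p.T.t x := by
  have hxd : x < d := hx.trans_lt (h1 p hp)
  have h3 : (limT Y hY d h1 h2).t x = (h2 x hxd).choose.p.T.t x := dif_pos hxd
  rw [h3]
  have h4 := (h2 x hxd).choose_spec
  exact dir_T hY h4.1 hp h4.2.le hx

theorem limT_top {Y : Set (Cnd nm)} {hY : Dir Y} {d : K} {h1 : ∀ p ∈ Y, p.p.top < d}
    {h2 : ∀ x < d, ∃ p ∈ Y, x < p.p.top} : (limT Y hY d h1 h2).t d = hid Y := by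
  have h3 : (limT Y hY d h1 h2).t d = hid Y ∪ Ico d d := dif_neg (lt_irrefl d)
  rw [h3, Ico_self, union_empty]

/-- `z` is a canonical lower bound of `Y`, with a new top node -/
structure IsLimC (Y : Set (Cnd nm)) (z : Cnd nm) : Prop where
  le : ∀ p ∈ Y, z ≤ p
  cof : ∀ x < z.p.top, ∃ p ∈ Y, x < p.p.top
  lt : ∀ p ∈ Y, p.p.top < z.p.top
  F : z.p.F = ⋃ p ∈ Y, p.p.F

theorem Par.iUnion_lt (H : Par nm) {A X : Type u} (hA : #A < #K) {S : A → Set X}
    (hS : ∀ a, #(S a) < #K) : #(⋃ a, S a) < #K := by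
  refine lt_of_le_of_lt (mk_iUnion_le_sum_mk) ?_
  exact Cardinal.sum_lt_of_isRegular H.isReg hA hS

/-- the raw lower bound -/
noncomputable def Raw.lim (H : Par nm) (Y : Set (Cnd nm)) (hs : #Y < #K) (a : K)
    (ha : ∀ p ∈ Y, p.p.top ≤ a) (T : Tree K) (A : K → Set K) : Raw J K where
  top := a
  T := T
  A := A
  F := ⋃ p ∈ Y, p.p.F
  small := by
    rw [biUnion_eq_iUnion]
    exact H.iUnion_lt hs fun p => p.1.p.small
  act := by
    intro c t h
    obtain ⟨p, hp, h1⟩ := mem_iUnion₂.1 h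
    exact mem_iUnion₂.2 ⟨p, hp, p.p.act c t h1⟩
  elt_lt := by
    intro c b h
    obtain ⟨p, hp, h1⟩ := mem_iUnion₂.1 h
    exact (p.p.elt_lt c b h1).trans_le (ha p hp)
  elt_eps := by
    intro c b h
    obtain ⟨p, hp, h1⟩ := mem_iUnion₂.1 h
    obtain ⟨e, h2, h3⟩ := p.p.elt_eps c b h1
    exact ⟨e, h2, mem_iUnion₂.2 ⟨p, hp, h3⟩⟩
  eps_le := by
    intro c e h
    obtain ⟨p, hp, h1⟩ := mem_iUnion₂.1 h
    exact (p.p.eps_le c e h1).trans (ha p hp)
  pro_le := by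
    intro c m e h
    obtain ⟨p, hp, h1⟩ := mem_iUnion₂.1 h
    exact (p.p.pro_le c m e h1).trans (ha p hp)

theorem mem_biU {Y : Set (Cnd nm)} {f : Fact J K} :
    f ∈ (⋃ p ∈ Y, p.p.F) ↔ ∃ p ∈ Y, f ∈ p.p.F := by
  simp only [mem_iUnion, exists_prop]

/-- The raw lower bound is a condition. -/
theorem ok_lim {Y : Set (Cnd nm)} (hY : Dir Y) {r : Raw J K} (hr : ∀ p ∈ Y, r ≤ p.p)
    (hF : r.F = ⋃ p ∈ Y, p.p.F)
    (hcase : ∀ a ≤ r.top, (∃ p ∈ Y, a ≤ p.p.top) ∨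
      (∀ x < a, ∃ p ∈ Y, x < p.p.top) ∧ ∀ p ∈ Y, p.p.top < a) : Ok nm r := by
  have hrF : ∀ {f}, f ∈ r.F ↔ ∃ p ∈ Y, f ∈ p.p.F := by
    intro f
    rw [hF]
    exact mem_biU
  have key : ∀ i : J, ∀ c : Crd J, c.1 = i → (c, Tag.act) ∈ r.F → Req nm (RR nm c.1) c r := by
    intro i
    induction i using WellFoundedLT.induction with
    | ind i ih =>
      rintro c rfl hc
      have hmem : r.rs (Iio c.1) ∈ RR nm c.1 := by
        refine SQ.mem_RR.2 ⟨fun c' hc' => ?_, fun c' hc' => hc'.2⟩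
        refine (ih c'.1 hc'.2 c' rfl hc'.1).congr (fun t => ⟨fun h => h.1, fun h => ⟨h, hc'.2⟩⟩) ?_
        rw [rs_Iio_rs r (low_Iio c.1) hc'.2]
      obtain ⟨p, hp, hcp⟩ := hrF.1 hc
      have hls := (p.ok c hcp).ls
      refine ⟨hls, fun e he => ?_, fun a ha hx => ?_, fun m e he => ?_⟩
      · obtain ⟨q, hq, h1⟩ := hrF.1 he
        exact ((q.ok c (q.p.act c _ h1)).eps e h1).mono (rs_mono (hr q hq) _)
      · have har : a ≤ r.top := by
          by_contra hcon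
          obtain ⟨y, h1, h2, h3⟩ := hx _ (not_le.1 hcon)
          exact absurd (r.elt_lt c y h3) (not_lt.2 h1.le)
        rcases hcase a har with ⟨q, hq, haq⟩ | ⟨h1, h2⟩
        · obtain ⟨s, hs, h3, h4⟩ := hY.2 p hp q hq
          have h3' : Ext s.p p.p := h3
          have h4' : Ext s.p q.p := h4
          have hcs : (c, Tag.act) ∈ s.p.F := h3'.F hcp
          refine ((s.ok c hcs).lim a ha fun x hxa => ?_).mono (rs_mono (hr s hs) _)
          obtain ⟨y, h5, h6, h7⟩ := hx x hxa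
          obtain ⟨t, ht, h8⟩ := hrF.1 h7
          exact ⟨y, h5, h6, dir_elt hY hs ht hcs (h6.trans_le (haq.trans h4'.top_le)) h8⟩
        · refine hls.sub _ hmem a (hls.cl _ hmem a ⟨ha, fun x hxa q hq hqr => ?_⟩)
          obtain ⟨y, h3, h4, h5⟩ := hx x hxa
          obtain ⟨t, ht, h6⟩ := hrF.1 h5
          obtain ⟨e, h7, h8⟩ := t.p.elt_eps c y h6
          refine ⟨q, hq, le_rfl, e, h3.trans h7, (t.p.eps_le c e h8).trans_lt (h2 t ht), ?_⟩
          exact (((t.ok c (t.p.act c _ h8)).eps e h8).mono (rs_mono (hr t ht) _)).mono hqr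
      · obtain ⟨q, hq, h1⟩ := hrF.1 he
        obtain ⟨h2, -⟩ := (q.ok c (q.p.act c _ h1)).pro m e h1
        refine ⟨h2, fun b hb heb => ?_⟩
        obtain ⟨t, ht, h3⟩ := hrF.1 hb
        obtain ⟨s, hs, h4, h5⟩ := hY.2 q hq t ht
        have h4' : Ext s.p q.p := h4
        have h5' : Ext s.p t.p := h5
        exact (((s.ok c (s.p.act c _ (h4'.F h1))).pro m e (h4'.F h1)).2 b (h5'.F h3) heb).mono
          (rs_mono (hr s hs) _)
  exact fun c hc => key c.1 c rfl hc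

/-- The canonical lower bound with a new top node `d`; the value of `A` at `d` is arbitrary. -/
theorem exists_lim (H : Par nm) {Y : Set (Cnd nm)} (hY : Dir Y) (hs : #Y < #K) (d : K)
    (h1 : ∀ p ∈ Y, p.p.top < d) (h2 : ∀ x < d, ∃ p ∈ Y, x < p.p.top) (X : Set K) :
    ∃ z : Cnd nm, IsLimC Y z ∧ z.p.top = d ∧ z.p.A d = X := by
  classical
  let A : K → Set K := fun x => if h : x < d then (h2 x h).choose.p.A x else X
  have hA : ∀ p ∈ Y, ∀ x ≤ p.p.top, A x = p.p.A x := by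
    intro p hp x hx
    have hxd : x < d := hx.trans_lt (h1 p hp)
    have h3 : A x = (h2 x hxd).choose.p.A x := dif_pos hxd
    rw [h3]
    have h4 := (h2 x hxd).choose_spec
    exact dir_A hY h4.1 hp h4.2.le hx
  let r : Raw J K := Raw.lim H Y hs d (fun p hp => (h1 p hp).le) (limT Y hY d h1 h2) A
  have hr : ∀ p ∈ Y, r ≤ p.p := by
    intro p hp
    refine ⟨Or.inr ?_, fun x hx => limT_lt (hY := hY) (h1 := h1) (h2 := h2) hp hx, hA p hp, fun f hf => mem_biU.2 ⟨p, hp, hf⟩, ?_⟩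
    · show p.p.top ∈ (limT Y hY d h1 h2).t d
      rw [limT_top]
      exact ⟨p, hp, Or.inr rfl⟩
    · intro c hc x hx hcx
      obtain ⟨q, hq, h3⟩ := mem_biU.1 hcx
      exact dir_elt hY hp hq hc hx h3
  have hok : Ok nm r := by
    refine ok_lim hY hr rfl fun a ha => ?_
    rcases (show a ≤ d from ha).eq_or_lt with h3 | h3
    · subst h3
      exact Or.inr ⟨h2, h1⟩
    · obtain ⟨p, hp, h4⟩ := h2 a h3
      exact Or.inl ⟨p, hp, h4.le⟩
  exact ⟨⟨r, hok⟩, ⟨hr, h2, h1, rfl⟩, rfl, dif_neg (lt_irrefl d)⟩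

/-- Directed sets of fewer than `κ` conditions have lower bounds. -/
theorem exists_lb (H : Par nm) {Y : Set (Cnd nm)} (hY : Dir Y) (hs : #Y < #K) :
    ∃ z : Cnd nm, (∀ p ∈ Y, z ≤ p) ∧ z.p.F = ⋃ p ∈ Y, p.p.F := by
  have := H.wf
  by_cases hmax : ∃ p ∈ Y, ∀ q ∈ Y, q.p.top ≤ p.p.top
  · obtain ⟨p₀, hp₀, hm⟩ := hmax
    let r : Raw J K := Raw.lim H Y hs p₀.p.top hm p₀.p.T p₀.p.A
    have hr : ∀ p ∈ Y, r ≤ p.p := by
      intro p hp
      refine ⟨?_, fun x hx => dir_T hY hp₀ hp (hx.trans (hm p hp)) hx,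
        fun x hx => dir_A hY hp₀ hp (hx.trans (hm p hp)) hx, fun f hf => mem_biU.2 ⟨p, hp, hf⟩, ?_⟩
      · rcases (hm p hp).eq_or_lt with h1 | h1
        · exact Or.inl h1
        · exact Or.inr (dir_top hY hp hp₀ h1)
      · intro c hc x hx hcx
        obtain ⟨q, hq, h3⟩ := mem_biU.1 hcx
        exact dir_elt hY hp hq hc hx h3
    have hok : Ok nm r := ok_lim hY hr rfl fun a ha => Or.inl ⟨p₀, hp₀, ha⟩
    exact ⟨⟨r, hok⟩, hr, rfl⟩
  · push Not at hmax
    obtain ⟨b, hb⟩ := H.reg Y (fun p => p.1.p.top) hs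
    have hne : {d : K | ∀ p ∈ Y, p.p.top < d}.Nonempty := ⟨b, fun p hp => hb ⟨p, hp⟩⟩
    have hwf : WellFounded (fun a b : K => a < b) := wellFounded_lt
    obtain ⟨d, h1, hd⟩ : ∃ d : K, (∀ p ∈ Y, p.p.top < d) ∧ ∀ x < d, ∃ p ∈ Y, x ≤ p.p.top := by
      refine ⟨hwf.min _ hne, hwf.min_mem _ hne, fun x hx => ?_⟩
      by_contra hcon
      push Not at hcon
      exact hwf.not_lt_min {d : K | ∀ p ∈ Y, p.p.top < d} hcon hx
    have h2 : ∀ x < d, ∃ p ∈ Y, x < p.p.top := by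
      intro x hx
      obtain ⟨p, hp, h3⟩ := hd x hx
      obtain ⟨q, hq, h4⟩ := hmax p hp
      exact ⟨q, hq, h3.trans_lt h4⟩
    obtain ⟨z, hz, -, -⟩ := exists_lim H hY hs d h1 h2 ∅
    exact ⟨z, hz.le, hz.F⟩

end SQ
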