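import Pool.Agent.W92_960bf8.Lim

/-!
# MP_960bf8_lc : descending omega-sequences of conditions and their limits
-/

set_option autoImplicit false
set_option linter.unusedSectionVars false

universe u

open Cardinal Set P96 IM

namespace SQ

variable {K J : Type u} [LinearOrder K] [LinearOrder J] [WellFoundedLT J] {nm : J → K → Set (Raw J K)}

/-- Omega-sequences of conditions.

PROOF.  Choose a function `f` on the conditions below `p` with `f q ≤ q`, `q.p.top < (f q).p.top`, `S q (f q)`; let `s n` be the `n`-th iterate at `p`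
(a sequence in `{q // q ≤ p}`).  `s` is descending, so `Y := Set.range s` is directed (`Dir`) and countable, hence `#Y < #K` (`H.unc`).  By
`H.reg` (for `A := ULift ℕ` or for `Y`) the tops of the `s n` are bounded; let `d` be the least strict upper bound (as in `exists_lb`,
`Lim.lean`; `H.wf`): every `x < d` is `< (s n).p.top` for some `n` (the tops are strictly increasing).  `exists_lim` with `X s d` gives `z`.
`Lim d`: `(s 0).p.top < d`, and for `x < d` take `n` with `x < (s n).p.top < d`. -/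
theorem exists_omega (H : Par nm) (S : Cnd nm → Cnd nm → Prop) (p : Cnd nm)
    (hS : ∀ q ≤ p, ∃ r ≤ q, q.p.top < r.p.top ∧ S q r) (X : (ℕ → Cnd nm) → K → Set K) :
    ∃ (s : ℕ → Cnd nm) (z : Cnd nm), s 0 = p ∧ (∀ n, s (n + 1) ≤ s n) ∧
      (∀ n, (s n).p.top < (s (n + 1)).p.top) ∧ (∀ n, S (s n) (s (n + 1))) ∧ (∀ n, s n ≤ p) ∧
      (∀ n m, n ≤ m → s m ≤ s n) ∧ (∀ n, z ≤ s n) ∧ (∀ x < z.p.top, ∃ n, x < (s n).p.top) ∧
      (∀ n, (s n).p.top < z.p.top) ∧ (∀ f, f ∈ z.p.F ↔ ∃ n, f ∈ (s n).p.F) ∧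
      z.p.A z.p.top = X s z.p.top ∧ Lim z.p.top := by
  classical
  have hwfK := H.wf
  have hne : Nonempty (Cnd nm) := ⟨p⟩
  choose! f hf using hS
  let s : ℕ → Cnd nm := fun n => Nat.rec p (fun _ q => f q) n
  have hss : ∀ n, s (n + 1) = f (s n) := fun n => rfl
  have hle : ∀ n, s n ≤ p := by
    intro n
    induction n with
    | zero => exact le_rfl
    | succ n ih => exact ((hf (s n) ih).1).trans ih
  have hstep : ∀ n, s (n + 1) ≤ s n := fun n => (hf (s n) (hle n)).1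
  have htop : ∀ n, (s n).p.top < (s (n + 1)).p.top := fun n => (hf (s n) (hle n)).2.1
  have hSS : ∀ n, S (s n) (s (n + 1)) := fun n => (hf (s n) (hle n)).2.2
  have hanti : ∀ n m, n ≤ m → s m ≤ s n := by
    intro n m hnm
    induction m, hnm using Nat.le_induction with
    | base => exact le_rfl
    | succ m _ ih => exact (hstep m).trans ih
  have hY : Dir (Set.range s) := by
    refine ⟨⟨s 0, ⟨0, rfl⟩⟩, ?_⟩
    rintro _ ⟨n, rfl⟩ _ ⟨m, rfl⟩
    exact ⟨s (max n m), ⟨_, rfl⟩, hanti _ _ (le_max_left _ _), hanti _ _ (le_max_right _ _)⟩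
  have hsm : #(Set.range s) < #K := (Set.countable_range s).le_aleph0.trans_lt H.unc
  obtain ⟨b, hb⟩ := H.reg (Set.range s) (fun p => p.1.p.top) hsm
  have hne' : {d : K | ∀ p ∈ Set.range s, p.p.top < d}.Nonempty := ⟨b, fun p hp => hb ⟨p, hp⟩⟩
  have hwf : WellFounded (fun a b : K => a < b) := wellFounded_lt
  obtain ⟨d, h1, hd⟩ : ∃ d : K, (∀ p ∈ Set.range s, p.p.top < d) ∧
      ∀ x < d, ∃ p ∈ Set.range s, x ≤ p.p.top := by
    refine ⟨hwf.min _ hne', hwf.min_mem _ hne', fun x hx => ?_⟩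
    by_contra hcon
    push Not at hcon
    exact hwf.not_lt_min {d : K | ∀ p ∈ Set.range s, p.p.top < d} hcon hx
  have h2' : ∀ x < d, ∃ n, x < (s n).p.top := by
    intro x hx
    obtain ⟨_, ⟨n, rfl⟩, h3⟩ := hd x hx
    exact ⟨n + 1, h3.trans_lt (htop n)⟩
  have h2 : ∀ x < d, ∃ p ∈ Set.range s, x < p.p.top := by
    intro x hx
    obtain ⟨n, hn⟩ := h2' x hx
    exact ⟨s n, ⟨n, rfl⟩, hn⟩
  obtain ⟨z, hz, hzd, hzA⟩ := exists_lim H hY hsm d h1 h2 (X s d)
  have hlt : ∀ n, (s n).p.top < d := fun n => h1 _ ⟨n, rfl⟩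
  refine ⟨s, z, rfl, hstep, htop, hSS, hle, hanti, fun n => hz.le _ ⟨n, rfl⟩, ?_, ?_, ?_, ?_, ?_⟩
  · rw [hzd]
    exact h2'
  · rw [hzd]
    exact hlt
  · intro g
    rw [hz.F, mem_biU]
    constructor
    · rintro ⟨_, ⟨n, rfl⟩, hg⟩
      exact ⟨n, hg⟩
    · rintro ⟨n, hg⟩
      exact ⟨s n, ⟨n, rfl⟩, hg⟩
  · rw [hzd]
    exact hzA
  · rw [hzd]
    refine ⟨⟨_, hlt 0⟩, fun x hx => ?_⟩
    obtain ⟨n, hn⟩ := h2' x hx
    exact ⟨_, hn, hlt n⟩

end SQ
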