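import Pool.Agent.W92_960bf8.Uf

/-!
# MP_960bf8_lc : the measure on pairs `(x, G ∩ x)`

`P` is a `<κ`-directed closed preorder and `e : P → A` is injective.  From the name `U` of a fine normal ultrafilter on the subsets of `A` of
size `< κ` we get a function `v` which assigns to every relation `Φ` between sets `x : Set A` and sets `y : Set P` the truth
value of: for almost all `x`, `Φ x (G ∩ e⁻¹ x)` holds, where `G` is the generic filter.
-/

set_option autoImplicit false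
set_option linter.unusedSectionVars false

universe u

open Cardinal Set IM

namespace SQ

/-- `v` is a measure on pairs. -/
structure IsPM (κ : Cardinal.{u}) {P A : Type u} [Preorder P] (e : P → A)
    (v : (Set A → Set P → Prop) → RO P) : Prop where
  mono : ∀ Φ Ψ : Set A → Set P → Prop, (∀ x y, Φ x y → Ψ x y) → v Φ ≤ v Ψ
  tru : v (fun _ _ => True) = ⊤
  compl : ∀ Φ : Set A → Set P → Prop, v (fun x y => ¬ Φ x y) = (v Φ)ᶜ
  all : ∀ (I : Type u) (Φ : I → Set A → Set P → Prop), #I < κ → v (fun x y => ∀ i, Φ i x y) = ⨅ i, v (Φ i)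
  gen : ∀ p : P, v (fun _ y => p ∈ y) = RO.cl {p}
  sub : v (fun x y => ∀ p ∈ y, e p ∈ x) = ⊤
  small : v (fun x _ => #x < κ) = ⊤
  fine : ∀ a : A, v (fun x _ => a ∈ x) = ⊤
  normal : ∀ Φ : A → Set A → Set P → Prop, (⨅ a, v (Φ a)) ≤ v (fun x y => ∀ a ∈ x, Φ a x y)

section pm
variable {P A : Type u} [Preorder P] {κ : Cardinal.{u}}

/-- the truth value of `G ∩ e⁻¹ x = y` -/
noncomputable def gv (e : P → A) (x : Set A) (y : Set P) : RO P :=
  tv (∀ p ∈ y, e p ∈ x) ⊓ (⨅ p : y, RO.cl {p.1}) ⊓ ⨅ p : {p : P // e p ∈ x ∧ p ∉ y}, (RO.cl {p.1})ᶜ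

/-- the measure on pairs given by `U` -/
noncomputable def pm (e : P → A) (U : (Set A → RO P) → RO P) (Φ : Set A → Set P → Prop) : RO P :=
  U fun x => ⨆ y : {y : Set P // Φ x y}, gv e x y.1

theorem pm_mem_gv {e : P → A} {x : Set A} {y : Set P} {q : P} : q ∈ (gv e x y).1 ↔
    (∀ p ∈ y, e p ∈ x) ∧ (∀ p ∈ y, q ∈ (RO.cl {p}).1) ∧
      ∀ p, e p ∈ x → p ∉ y → q ∈ ((RO.cl {p})ᶜ : RO P).1 := by
  unfold gv
  rw [RO.mem_inf, RO.mem_inf, mem_tv, RO.mem_iInf, RO.mem_iInf]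
  constructor
  · rintro ⟨⟨h1, h2⟩, h3⟩
    exact ⟨h1, fun p hp => h2 ⟨p, hp⟩, fun p hp hp' => h3 ⟨p, hp, hp'⟩⟩
  · rintro ⟨h1, h2, h3⟩
    exact ⟨⟨h1, fun p => h2 p.1 p.2⟩, fun p => h3 p.1 p.2.1 p.2.2⟩

theorem pm_uniq {e : P → A} {x : Set A} {y y' : Set P} {q : P} (h : q ∈ (gv e x y).1)
    (h' : q ∈ (gv e x y').1) : y = y' := by
  have key : ∀ y y' : Set P, q ∈ (gv e x y).1 → q ∈ (gv e x y').1 → y ⊆ y' := by
    intro y y' h h' p hp
    rw [pm_mem_gv] at h h'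
    by_contra hp'
    exact (RO.mem_compl _ _).1 (h'.2.2 p (h.1 p hp) hp') q le_rfl (h.2.1 p hp)
  exact Set.Subset.antisymm (key y y' h h') (key y' y h' h)

theorem pm_exists (hκ : κ.IsRegular) (hP : DirClosed κ P) {e : P → A} (he : Function.Injective e)
    {x : Set A} (hx : #x < κ) (p : P) : ∃ q ≤ p, ∃ y, q ∈ (gv e x y).1 := by
  have h1 : #{p : P // e p ∈ x} < κ := by
    refine lt_of_le_of_lt ?_ hx
    refine ⟨⟨fun p => ⟨e p.1, p.2⟩, ?_⟩⟩
    intro a b hab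
    exact Subtype.ext (he (congrArg Subtype.val hab))
  obtain ⟨q, hq, hd⟩ := hP.decide hκ h1 (fun p => RO.cl {p.1}) p
  refine ⟨q, hq, {p | e p ∈ x ∧ q ∈ (RO.cl {p} : RO P).1}, ?_⟩
  rw [pm_mem_gv]
  refine ⟨fun p hp => hp.1, fun p hp => hp.2, fun p hp hp' => ?_⟩
  rcases hd ⟨p, hp⟩ with h2 | h2
  · exact absurd ⟨hp, h2⟩ hp'
  · exact h2

/-- the pointwise value -/
noncomputable def pmS (e : P → A) (Φ : Set A → Set P → Prop) (x : Set A) : RO P :=
  ⨆ y : {y : Set P // Φ x y}, gv e x y.1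

theorem pm_mem_S {e : P → A} {x : Set A} {y : Set P} {q : P} (h : q ∈ (gv e x y).1)
    (Φ : Set A → Set P → Prop) : q ∈ (pmS e Φ x).1 ↔ Φ x y := by
  unfold pmS
  constructor
  · intro h1
    obtain ⟨t, ht, y', hy'⟩ := (RO.mem_iSup _ _).1 h1 q le_rfl
    have h2 : y = y'.1 := pm_uniq (RO.mem_lower h ht) hy'
    rw [h2]
    exact y'.2
  · intro h1
    exact (le_iSup (fun y : {y : Set P // Φ x y} => gv e x y.1) ⟨y, h1⟩) h

theorem pm_le (hκ : κ.IsRegular) (hP : DirClosed κ P) {e : P → A} (he : Function.Injective e)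
    {x : Set A} (hx : #x < κ) {u v : RO P}
    (h : ∀ y q, q ∈ (gv e x y).1 → q ∈ u.1 → q ∈ v.1) : u ≤ v := by
  intro p hp
  refine RO.mem_of_dense fun r hr => ?_
  obtain ⟨q, hq, y, hy⟩ := pm_exists hκ hP he hx r
  exact ⟨q, hq, h y q hy (RO.mem_lower hp (hq.trans hr))⟩

theorem pm_eq (hκ : κ.IsRegular) (hP : DirClosed κ P) {e : P → A} (he : Function.Injective e)
    {x : Set A} (hx : #x < κ) {u v : RO P}
    (h : ∀ y q, q ∈ (gv e x y).1 → (q ∈ u.1 ↔ q ∈ v.1)) : u = v :=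
  le_antisymm (pm_le hκ hP he hx fun y q hq => (h y q hq).1)
    (pm_le hκ hP he hx fun y q hq => (h y q hq).2)

/-- PROOF.  Write `s Φ x := ⨆ y : {y // Φ x y}, gv e x y`.  (0) `U` is monotone: `f ≤ g` pointwise implies `U f ≤ U g` (from `complete` for a
two-element index type, as `f = f ⊓ g`).  (1) `gv e x y ⊓ gv e x y' = ⊥` for `y ≠ y'`: some `p` is in exactly one of them, say `p ∈ y`,
`p ∉ y'`; if `e p ∉ x` then `gv e x y = ⊥`, otherwise `gv e x y ≤ cl {p}` and `gv e x y' ≤ (cl {p})ᶜ`.  (2) if `#x < κ` then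
`⨆ y, gv e x y = ⊤`: by `DirClosed.decide` for the family `cl {p}`, `p ∈ e⁻¹ x` (size `< κ` as `e` is injective), below every condition there is `q`
which decides all of them; then `q ∈ gv e x {p | e p ∈ x ∧ q ∈ cl {p}}`.  Hence, for `#x < κ`: `s (¬Φ) x = (s Φ x)ᶜ` and
`s (∀ i, Φ i) x = ⨅ i, s (Φ i) x` (`≤` by monotonicity; `≥`: `⨅ i, s (Φ i) x = ⨆ y, (gv y ⊓ ⨅ i, s (Φ i) x)` and
`gv y ⊓ s (Φ i) x = ⊥` if `¬ Φ i x y`), for every index type.  Two functions which agree on all `x` with `#x < κ` have the same value under `U`: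
`U f = U (f ⊓ tv (#x < κ))`, by `complete` and `small`.  `gen`: for `e p ∈ x`, `#x < κ`: `s (p ∈ y) x = cl {p}`; use `fine`, `const`.
`sub`: `gv e x y = ⊥` unless `∀ p ∈ y, e p ∈ x`.  `small`, `fine`: for `#x < κ`, `s (fun x _ => φ x) x = tv (φ x)`.  `normal`: for `#x < κ`,
`s (∀ a ∈ x, Φ a) x = ⨅ a : x, s (Φ a) x`; use `normal` of `U`. -/
theorem isPM_pm (hκ : κ.IsRegular) (hP : DirClosed κ P) (e : P → A) (he : Function.Injective e)
    {U : (Set A → RO P) → RO P} (hU : IsFNUName κ U) : IsPM κ e (pm e U) := by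
  have hpm : ∀ Φ : Set A → Set P → Prop, pm e U Φ = U (pmS e Φ) := fun Φ => rfl
  have hS := hU.small
  have htop : ∀ (Φ : Set A → Set P → Prop) (φ : Set A → Prop),
      U (fun x => tv (φ x)) = ⊤ → (∀ x, φ x → #x < κ ∧ ∀ y q, q ∈ (gv e x y).1 → Φ x y) →
      pm e U Φ = ⊤ := by
    intro Φ φ hφ h
    rw [hpm, hU.congr_ae hκ hφ (f := pmS e Φ) (g := fun _ => ⊤) ?_, hU.const]
    intro x hx
    exact pm_eq hκ hP he (h x hx).1 fun y q hq =>
      ⟨fun _ => RO.mem_top q, fun _ => (pm_mem_S hq Φ).2 ((h x hx).2 y q hq)⟩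
  refine ⟨?_, ?_, ?_, ?_, ?_, ?_, ?_, ?_, ?_⟩
  · intro Φ Ψ h
    refine hU.mono hκ fun x => ?_
    refine iSup_le fun y => ?_
    exact le_iSup (fun y : {y : Set P // Ψ x y} => gv e x y.1) ⟨y.1, h x y.1 y.2⟩
  · exact htop _ _ hS fun x hx => ⟨hx, fun _ _ _ => trivial⟩
  · intro Φ
    rw [hpm, hpm, ← hU.compl]
    refine hU.congr_ae hκ hS fun x hx => ?_
    refine pm_eq hκ hP he hx fun y q hq => ?_
    rw [pm_mem_S hq, RO.mem_compl]
    constructor
    · intro h r hr hr'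
      exact h ((pm_mem_S (RO.mem_lower hq hr) Φ).1 hr')
    · intro h h'
      exact h q le_rfl ((pm_mem_S hq Φ).2 h')
  · intro I Φ hI
    have h1 : (⨅ i, pm e U (Φ i)) = U (fun x => ⨅ i, pmS e (Φ i) x) :=
      (hU.complete I (fun i => pmS e (Φ i)) hI).symm
    rw [h1, hpm]
    refine hU.congr_ae hκ hS fun x hx => ?_
    refine pm_eq hκ hP he hx fun y q hq => ?_
    rw [pm_mem_S hq, RO.mem_iInf]
    exact forall_congr' fun i => (pm_mem_S hq (Φ i)).symm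
  · intro p
    rw [hpm, ← hU.const (RO.cl {p})]
    refine hU.congr_ae hκ (hU.ae_and hκ hS (hU.fine (e p))) fun x hx => ?_
    refine pm_eq hκ hP he hx.1 fun y q hq => ?_
    rw [pm_mem_S hq]
    have hq' := pm_mem_gv.1 hq
    constructor
    · intro h
      exact hq'.2.1 p h
    · intro h
      by_contra hp
      exact (RO.mem_compl _ _).1 (hq'.2.2 p hx.2 hp) q le_rfl h
  · exact htop _ _ hS fun x hx => ⟨hx, fun y q hq => (pm_mem_gv.1 hq).1⟩
  · exact htop _ _ hS fun x hx => ⟨hx, fun y q hq => hx⟩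
  · intro a
    exact htop _ _ (hU.ae_and hκ hS (hU.fine a)) fun x hx => ⟨hx.1, fun y q hq => hx.2⟩
  · intro Φ
    refine (hU.normal fun a => pmS e (Φ a)).trans (le_of_eq ?_)
    rw [hpm]
    refine hU.congr_ae hκ hS fun x hx => ?_
    refine pm_eq hκ hP he hx fun y q hq => ?_
    rw [pm_mem_S hq, RO.mem_iInf]
    constructor
    · intro h a ha
      exact (pm_mem_S hq (Φ a)).1 (h ⟨a, ha⟩)
    · intro h a
      exact (pm_mem_S hq (Φ a.1)).2 (h a.1 a.2)

end pm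

end SQ
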