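import Pool.Agent.W92_960bf8.Bsd
import Pool.Agent.W92_960bf8.Pm

/-!
# MP_960bf8_lc : the link relation, responses, star names, visible coordinates

`v` is the measure on pairs `(x, y)`, `x` a set of objects (conditions, elements of `J`, elements of `K`), `y` a set of conditions (think of
`y = G ∩ x`).  `zl y` is the canonical lower bound of `y` (the leader).  Given a follower `q`, a leader `z`, and the set `X` of the elements of
`J` which are in `x`, the response at level `i` is a condition `Q_i` with levels below `i` which decides everything relevant of level `i`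
(`Qd`), and a condition `Q_i⁺` with levels `≤ i` which adopts the sets `B_c` of the leader at the visible coordinates of level `i` (`qp`).
The recursion is along `i : J`; a table `t : J → Lv nm` contains the results at the levels below `i`.
-/

set_option autoImplicit false
set_option linter.unusedSectionVars false

universe u

open Cardinal Set P96 IM

namespace SQ

variable {K J : Type u} [LinearOrder K] [LinearOrder J] [WellFoundedLT J]

/-- the objects -/
abbrev Obj (nm : J → K → Set (Raw J K)) : Type u := Cnd nm ⊕ (J ⊕ K)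

variable {nm : J → K → Set (Raw J K)}

/-- conditions as objects -/
def oP (p : Cnd nm) : Obj nm := Sum.inl p

/-- levels as objects -/
def oJ (i : J) : Obj nm := Sum.inr (Sum.inl i)

/-- elements of `K` as objects -/
def oK (b : K) : Obj nm := Sum.inr (Sum.inr b)

/-- the set of the elements of `J` in `x` -/
def xJ (x : Set (Obj nm)) : Set J := {i | oJ i ∈ x}

/-- The results of the recursion at a level `i`: the response `qp q z X` of the follower `q` to the leader `z`; the star names `st q m`; the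
visible coordinates. -/
structure Lv (nm : J → K → Set (Raw J K)) : Type u where
  qp : Cnd nm → Cnd nm → Set J → Option (Cnd nm)
  st : Cnd nm → J → J
  vis : Crd J → Prop

instance : Inhabited (Lv nm) := ⟨⟨fun _ _ _ => none, fun _ m => m, fun _ => False⟩⟩

/-- `z` leads `q` -/
structure Lk (t : J → Lv nm) (z q : Cnd nm) : Prop where
  top : q.p.top ≤ z.p.top
  T : ∀ x ≤ q.p.top, z.p.T.t x = q.p.T.t x
  A : ∀ x ≤ q.p.top, z.p.A x = q.p.A x
  act : ∀ c, (c, Tag.act) ∈ q.p.F → (t c.1).vis c → (c, Tag.act) ∈ z.p.F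
  elt : ∀ c, (c, Tag.act) ∈ q.p.F → (t c.1).vis c → ∀ x < q.p.top,
    ((c, Tag.elt x) ∈ z.p.F ↔ (c, Tag.elt x) ∈ q.p.F)
  pro : ∀ c m e, (c, Tag.pro m e) ∈ q.p.F → (t c.1).vis c →
    (c, Tag.pro ((t c.1).st (q.lo c.1) m) q.p.top) ∈ z.p.F

/-- `Q` extends the tree part of the follower `q` and the visible tree of the leader `z` -/
structure BaseR (z q Q : Cnd nm) : Prop where
  top : z.p.top ≤ Q.p.top
  T : ∀ x ≤ z.p.top, Q.p.T.t x = z.p.T.t x
  A : ∀ x ≤ z.p.top, Q.p.A x = z.p.A x
  mem : q.p.top ∈ Q.p.T.t Q.p.top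

/-- the requirements for `Q_i` -/
structure QSp (t : J → Lv nm) (i : J) (q z : Cnd nm) (X : Set J) (Q : Cnd nm) : Prop where
  lev : Q.In (Iio i)
  base : BaseR z q Q
  prev : ∀ j ∈ X, j < i → ∃ Q', (t j).qp (q.li j) z X = some Q' ∧ Q ≤ Q'
  dec : ∀ m ∈ X, LP nm i m → ∀ b < z.p.top,
    Q ∈ (V (nm m b) : RO (Cnd nm)).1 ∨ Q ∈ ((V (nm m b) : RO (Cnd nm))ᶜ).1

open Classical in
/-- the condition `Q_i` -/
noncomputable def Qd (t : J → Lv nm) (i : J) (q z : Cnd nm) (X : Set J) : Option (Cnd nm) :=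
  if h : ∃ Q, QSp t i q z X Q then some h.choose else none

/-- the set (an initial segment of) `nm m` as decided by the follower (provided that `z` leads `q`) -/
def Lset (t : J → Lv nm) (i : J) (q : Cnd nm) (m : J) (z : Cnd nm) (X : Set J) : Set K :=
  {b | b < z.p.top ∧ Lk t z (q.lo i) ∧ ∃ Q, Qd t i q z X = some Q ∧ Q ∈ (V (nm m b) : RO (Cnd nm)).1}

/-- `z` is a canonical lower bound of `y`; see `IsLimC` -/
noncomputable def zl [Nonempty (Cnd nm)] (y : Set (Cnd nm)) : Cnd nm := Classical.epsilon (IsLimC y)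

variable [Nonempty (Cnd nm)] (v : (Set (Obj nm) → Set (Cnd nm) → Prop) → RO (Cnd nm))

/-- the truth value of: `b` belongs to the star of `nm m` -/
noncomputable def av (t : J → Lv nm) (i : J) (q : Cnd nm) (m : J) (b : K) : RO (Cnd nm) :=
  v fun x y => b ∈ Lset t i q m (zl y) (xJ x)

open Classical in
/-- the code of the star of `nm m` -/
noncomputable def stOf (t : J → Lv nm) (i : J) (q : Cnd nm) (m : J) : J :=
  if h : ∃ m' < i, (∀ b, nm m' b ⊆ RR nm i) ∧ ∀ b, (V (nm m' b) : RO (Cnd nm)) = av v t i q m b then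
    h.choose else m

/-- `i` is a closure point -/
structure CP (t : J → Lv nm) (i : J) : Prop where
  cl1 : ∀ N : K → Set (Raw J K), (∀ b, #(N b) ≤ 2 ^ #K) → (∀ b, N b ⊆ RR nm i) → ∃ m < i, nm m = N
  cl2 : ∀ q : Cnd nm, q.In (Iio i) → ∀ m, LP nm i m → ∀ b, Bsd i (av v t i q m b)

/-- `c` is visible -/
structure VisOf (t : J → Lv nm) (c : Crd J) : Prop where
  ls : LS nm c
  cp : CP v t c.1
  ns : ∀ z q : Cnd nm, z.In (Iio c.1) → q.In (Iio c.1) → Lk t z q → ∀ b,
    ¬ (z ∈ (V (nm c.2.1 b) : RO (Cnd nm)).1 ∧ q ∈ ((V (nm c.2.1 b) : RO (Cnd nm))ᶜ).1) ∧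
    ¬ (z ∈ ((V (nm c.2.1 b) : RO (Cnd nm))ᶜ).1 ∧ q ∈ (V (nm c.2.1 b) : RO (Cnd nm)).1)

/-- the requirements for `Q_i⁺` -/
structure QpSp (t : J → Lv nm) (i : J) (q z : Cnd nm) (X : Set J) (Q' : Cnd nm) : Prop where
  lev : Q'.In (Iic i)
  prev : ∃ Q, Qd t i q z X = some Q ∧ Q' ≤ Q
  q : Q' ≤ q
  act : ∀ c : Crd J, c.1 = i → (c, Tag.act) ∈ z.p.F → VisOf v t c → (c, Tag.act) ∈ Q'.p.F
  elt : ∀ c : Crd J, c.1 = i → (c, Tag.act) ∈ z.p.F → VisOf v t c → ∀ x < z.p.top,
    ((c, Tag.elt x) ∈ Q'.p.F ↔ (c, Tag.elt x) ∈ z.p.F)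
  pro : ∀ (c : Crd J) m e, c.1 = i → (c, Tag.pro m e) ∈ z.p.F → VisOf v t c →
    (c, Tag.pro (stOf v t i (z.lo i) m) z.p.top) ∈ Q'.p.F

open Classical in
/-- the recursion step -/
noncomputable def lvStep (t : J → Lv nm) (i : J) : Lv nm where
  qp := fun q z X => if h : ∃ Q', QpSp v t i q z X Q' then some h.choose else none
  st := stOf v t i
  vis := VisOf v t

open Classical in
/-- the table -/
noncomputable def lv : J → Lv nm :=
  (wellFounded_lt (α := J)).fix fun i ih => lvStep v (fun j => if h : j < i then ih j h else default) i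

/-! ### the recursion equations -/

section congr
variable {v} {t t' : J → Lv nm} {i : J}

/-- PROOF.  Both sides only use `t j` for `j < i`. -/
theorem QSp.congr (h : ∀ j < i, t j = t' j) {q z : Cnd nm} {X : Set J} {Q : Cnd nm}
    (hQ : QSp t i q z X Q) : QSp t' i q z X Q :=
  ⟨hQ.lev, hQ.base, fun j hj hji => by rw [← h j hji]; exact hQ.prev j hj hji, hQ.dec⟩

theorem Qd_congr (h : ∀ j < i, t j = t' j) (q z : Cnd nm) (X : Set J) : Qd t i q z X = Qd t' i q z X := by
  have : QSp t i q z X = QSp t' i q z X := by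
    funext Q
    exact propext ⟨QSp.congr h, QSp.congr fun j hj => (h j hj).symm⟩
  unfold Qd
  rw [this]

theorem Lk.congr' {t t' : J → Lv nm} {z q : Cnd nm} (h : ∀ c s, (c, s) ∈ q.p.F → t c.1 = t' c.1)
    (hk : Lk t z q) : Lk t' z q :=
  ⟨hk.top, hk.T, hk.A, fun c hc hv => hk.act c hc (by rw [h c _ hc]; exact hv),
    fun c hc hv => hk.elt c hc (by rw [h c _ hc]; exact hv),
    fun c m e hc hv => by
      have := hk.pro c m e hc (by rw [h c _ hc]; exact hv)
      rwa [h c _ hc] at this⟩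

theorem Lset_congr (h : ∀ j < i, t j = t' j) (q : Cnd nm) (m : J) (z : Cnd nm) (X : Set J) :
    Lset t i q m z X = Lset t' i q m z X := by
  have h1 : Lk t z (q.lo i) ↔ Lk t' z (q.lo i) :=
    ⟨Lk.congr' fun c s hc => h _ (q.lo_in i c s hc), Lk.congr' fun c s hc => (h _ (q.lo_in i c s hc)).symm⟩
  unfold Lset
  rw [Qd_congr h, h1]

theorem av_congr (h : ∀ j < i, t j = t' j) (q : Cnd nm) (m : J) (b : K) :
    av v t i q m b = av v t' i q m b := by
  unfold av
  congr 1
  funext x y
  rw [Lset_congr h]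

theorem stOf_congr (h : ∀ j < i, t j = t' j) : stOf v t i = stOf v t' i := by
  funext q m
  have h1 : av v t i q m = av v t' i q m := funext fun b => av_congr h q m b
  unfold stOf
  rw [h1]

theorem CP.congr (h : ∀ j < i, t j = t' j) (hc : CP v t i) : CP v t' i :=
  ⟨hc.cl1, fun q hq m hm b => by rw [← av_congr h]; exact hc.cl2 q hq m hm b⟩

theorem VisOf.congr {c : Crd J} (h : ∀ j < c.1, t j = t' j) (hv : VisOf v t c) : VisOf v t' c :=
  ⟨hv.ls, hv.cp.congr h, fun z q hz hq hk => hv.ns z q hz hq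
    (hk.congr' fun c' s hc' => (h _ (hq c' s hc')).symm)⟩

theorem QpSp.congr (h : ∀ j < i, t j = t' j) {q z : Cnd nm} {X : Set J} {Q' : Cnd nm}
    (hQ : QpSp v t i q z X Q') : QpSp v t' i q z X Q' := by
  have hvis : ∀ c : Crd J, c.1 = i → VisOf v t' c → VisOf v t c := by
    rintro c rfl hv
    exact hv.congr fun j hj => (h j hj).symm
  refine ⟨hQ.lev, ?_, hQ.q, fun c hc h1 h2 => hQ.act c hc h1 (hvis c hc h2),
    fun c hc h1 h2 => hQ.elt c hc h1 (hvis c hc h2), fun c m e hc h1 h2 => ?_⟩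
  · rw [← Qd_congr h]
    exact hQ.prev
  · rw [← stOf_congr h]
    exact hQ.pro c m e hc h1 (hvis c hc h2)

end congr

section eqs

theorem lv_eq (i : J) : lv v i = lvStep v (fun j => if j < i then lv v j else default) i := by
  conv_lhs => unfold lv
  rw [WellFounded.fix_eq]
  rfl

theorem tr_eq {i : J} : ∀ j < i, (fun j => if j < i then lv v j else default) j = lv v j := by
  intro j hj
  exact if_pos hj

/-- PROOF.  `lv_eq` and `stOf_congr`. -/
theorem lv_st (i : J) : (lv v i).st = stOf v (lv v) i := by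
  rw [lv_eq]
  exact stOf_congr (tr_eq v)

theorem lv_vis (c : Crd J) : (lv v c.1).vis c ↔ VisOf v (lv v) c := by
  rw [lv_eq]
  exact ⟨VisOf.congr (tr_eq v), VisOf.congr fun j hj => (tr_eq v j hj).symm⟩

/-- If the response is defined then it has the required properties. -/
theorem lv_qp_spec {i : J} {q z : Cnd nm} {X : Set J} {Q' : Cnd nm} (h : (lv v i).qp q z X = some Q') :
    QpSp v (lv v) i q z X Q' := by
  classical
  rw [lv_eq] at h
  simp only [lvStep] at h
  split_ifs at h with h1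
  rw [← Option.some.inj h]
  exact h1.choose_spec.congr (tr_eq v)

/-- The response is defined if there is a condition with the required properties. -/
theorem lv_qp_ex {i : J} {q z : Cnd nm} {X : Set J} {Q' : Cnd nm} (h : QpSp v (lv v) i q z X Q') :
    ∃ Q'', (lv v i).qp q z X = some Q'' := by
  classical
  rw [lv_eq]
  simp only [lvStep]
  have h1 : ∃ Q', QpSp v (fun j => if j < i then lv v j else default) i q z X Q' :=
    ⟨Q', h.congr fun j hj => (tr_eq v j hj).symm⟩
  rw [dif_pos h1]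
  exact ⟨_, rfl⟩

theorem Qd_spec {t : J → Lv nm} {i : J} {q z : Cnd nm} {X : Set J} {Q : Cnd nm}
    (h : Qd t i q z X = some Q) : QSp t i q z X Q := by
  classical
  unfold Qd at h
  split_ifs at h with h1
  rw [← Option.some.inj h]
  exact h1.choose_spec

theorem Qd_ex {t : J → Lv nm} {i : J} {q z : Cnd nm} {X : Set J} {Q : Cnd nm}
    (h : QSp t i q z X Q) : ∃ Q', Qd t i q z X = some Q' := by
  classical
  unfold Qd
  rw [dif_pos ⟨Q, h⟩]
  exact ⟨_, rfl⟩

/-- The condition `Q_i` depends only on the part of `q` of the levels below `i`. -/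
theorem Qd_lo (t : J → Lv nm) (i : J) (q z : Cnd nm) (X : Set J) :
    Qd t i (q.lo i) z X = Qd t i q z X := by
  have : QSp t i (q.lo i) z X = QSp t i q z X := by
    funext Q
    refine propext ⟨fun h => ⟨h.lev, ⟨h.base.top, h.base.T, h.base.A, h.base.mem⟩, fun j hj hji => ?_, h.dec⟩,
      fun h => ⟨h.lev, ⟨h.base.top, h.base.T, h.base.A, h.base.mem⟩, fun j hj hji => ?_, h.dec⟩⟩
    · have := h.prev j hj hji
      rwa [Cnd.lo_li q hji] at this
    · rw [Cnd.lo_li q hji]
      exact h.prev j hj hji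
  unfold Qd
  rw [this]

theorem Qd_li (t : J → Lv nm) (i : J) (q z : Cnd nm) (X : Set J) :
    Qd t i (q.li i) z X = Qd t i q z X := by
  rw [← Qd_lo, ← Qd_lo t i q, Cnd.li_lo q le_rfl]

end eqs

/-- `z` leads `q` (all levels) -/
def Link (z q : Cnd nm) : Prop := Lk (lv v) z q

/-- `c` is visible -/
def Vis (c : Crd J) : Prop := VisOf v (lv v) c

/-- The leader may be extended. -/
theorem Link.mono {z z' q : Cnd nm} (h : Link v z q) (hz : z' ≤ z) : Link v z' q := by
  have hz' : Ext z'.p z.p := hz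
  have h' : Lk (lv v) z q := h
  refine ⟨h'.top.trans hz'.top_le, fun x hx => ?_, fun x hx => ?_, fun c hc hv => hz'.F (h'.act c hc hv),
    fun c hc hv x hx => ?_, fun c m e hc hv => hz'.F (h'.pro c m e hc hv)⟩
  · rw [hz'.T x (hx.trans h'.top), h'.T x hx]
  · rw [hz'.A x (hx.trans h'.top), h'.A x hx]
  · rw [← h'.elt c hc hv x hx]
    exact ⟨fun h1 => hz'.b c (h'.act c hc hv) x (hx.trans_le h'.top) h1, fun h1 => hz'.F h1⟩

end SQ
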