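import Pool.Agent.W92_960bf8.Good

/-!
# MP_960bf8_lc : properties of conditions below the responses
-/

set_option autoImplicit false
set_option linter.unusedSectionVars false

universe u

open Cardinal Set P96 IM

namespace SQ

variable {K J : Type u} [LinearOrder K] [LinearOrder J] [WellFoundedLT J] {nm : J → K → Set (Raw J K)}
variable [Nonempty (Cnd nm)] {v : (Set (Obj nm) → Set (Cnd nm) → Prop) → RO (Cnd nm)}

/-- `Q` is below the responses of `q` to `z` at all levels `j ∈ X ∩ I` -/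
structure Bel (v : (Set (Obj nm) → Set (Cnd nm) → Prop) → RO (Cnd nm)) (I : Set J) (q z : Cnd nm)
    (X : Set J) (Q : Cnd nm) : Prop where
  base : BaseR z q Q
  prev : ∀ j ∈ X, j ∈ I → ∃ Q', (lv v j).qp (q.li j) z X = some Q' ∧ Q ≤ Q'

theorem BaseR.mono {z q Q Q' : Cnd nm} (h : BaseR z q Q) (hQ : Q' ≤ Q) : BaseR z q Q' := by
  have hQ' : Ext Q'.p Q.p := hQ
  refine ⟨h.top.trans hQ'.top_le, fun x hx => ?_, fun x hx => ?_, ?_⟩
  · rw [hQ'.T x (hx.trans h.top), h.T x hx]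
  · rw [hQ'.A x (hx.trans h.top), h.A x hx]
  · rcases hQ'.top with h1 | h1
    · rw [← h1, hQ'.T _ le_rfl]
      exact h.mem
    · have h2 := Q'.p.T.coh _ _ h1
      rw [hQ'.T _ le_rfl] at h2
      have h3 := h.mem
      rw [h2] at h3
      exact h3.1

theorem Bel.mono {I : Set J} {q z : Cnd nm} {X : Set J} {Q Q' : Cnd nm} (h : Bel v I q z X Q)
    (hQ : Q' ≤ Q) : Bel v I q z X Q' :=
  ⟨h.base.mono hQ, fun j hj hjI => by
    obtain ⟨R, h1, h2⟩ := h.prev j hj hjI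
    exact ⟨R, h1, hQ.trans h2⟩⟩

/-- the response at a level `j` has only levels `≤ j` -/
theorem qp_in {j : J} {q z : Cnd nm} {X : Set J} {Q' : Cnd nm} (h : (lv v j).qp q z X = some Q') :
    Q'.In (Iic j) := (lv_qp_spec v h).lev

theorem Bel.lo {i : J} {q z : Cnd nm} {X : Set J} {Q : Cnd nm} (h : Bel v (Iio i) q z X Q) :
    Bel v (Iio i) q z X (Q.lo i) := by
  refine ⟨⟨h.base.top, h.base.T, h.base.A, h.base.mem⟩, fun j hj hji => ?_⟩
  obtain ⟨R, h1, h2⟩ := h.prev j hj hji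
  refine ⟨R, h1, ?_⟩
  have h3 := Cnd.lo_mono h2 i
  have h4 : R.lo i = R := Cnd.lo_of_in fun c t hc => lt_of_le_of_lt (qp_in h1 c t hc) hji
  rwa [h4] at h3

theorem QSp.bel {i : J} {q z : Cnd nm} {X : Set J} {Q : Cnd nm} (h : QSp (lv v) i q z X Q) :
    Bel v (Iio i) q z X Q := ⟨h.base, fun j hj hji => h.prev j hj hji⟩

/-- the restriction of a condition to an initial segment of levels -/
def Cnd.rsI (p : Cnd nm) (I : Set J) (hI : ∀ i ∈ I, ∀ j < i, j ∈ I) : Cnd nm :=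
  ⟨p.p.rs I, ok_rs p.ok hI⟩

/-- A condition below the responses at the levels in `I` extends the part of `q` of the levels in `I`.

PROOF.  `Ext Q.p (q.p.rs I)`: `top`: `h.base.mem`; `T`, `A`: `h.base` and `hl`; `F`: for `(c, t) ∈ q.p.F`, `c.1 ∈ I`, also `c.1 ∈ X` by `hX`, so
`Q ≤ Q'` for the response `Q' ≤ q.li c.1` (`lv_qp_spec`, `QpSp.q`) and `(c, t) ∈ (q.li c.1).p.F`.  `b`: the same with `Ext.b`. -/
theorem Bel.le_q {I : Set J} (hI : ∀ i ∈ I, ∀ j < i, j ∈ I) {q z : Cnd nm} {X : Set J} {Q : Cnd nm}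
    (h : Bel v I q z X Q) (hl : Link v z q) (hX : ∀ c t, (c, t) ∈ q.p.F → c.1 ∈ X) :
    Q ≤ q.rsI I hI := by
  have hl' : Lk (lv v) z q := hl
  have key : ∀ c t, (c, t) ∈ q.p.F → c.1 ∈ I → Q ≤ q.li c.1 := by
    intro c t hc hcI
    obtain ⟨Q', h1, h2⟩ := h.prev c.1 (hX c t hc) hcI
    exact h2.trans (lv_qp_spec v h1).q
  refine (⟨Or.inr h.base.mem, fun x hx => ?_, fun x hx => ?_, fun f hf => ?_, fun c hc x hx hcx => ?_⟩ :
    Ext Q.p (q.p.rs I))
  · have hx' : x ≤ q.p.top := hx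
    rw [h.base.T x (hx'.trans hl'.top), hl'.T x hx']
    rfl
  · have hx' : x ≤ q.p.top := hx
    rw [h.base.A x (hx'.trans hl'.top), hl'.A x hx']
    rfl
  · have h1 : Ext Q.p (q.li f.1.1).p := key f.1 f.2 hf.1 hf.2
    exact h1.F ⟨hf.1, le_refl _⟩
  · have h1 : Ext Q.p (q.li c.1).p := key c _ hc.1 hc.2
    have h2 := h1.b c ⟨hc.1, le_refl _⟩ x hx hcx
    exact ⟨h2.1, hc.2⟩

/-- A condition below the responses at the levels in `I` leads the part of `z` of the levels in `I`.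

PROOF.  `top`, `T`, `A`: `h.base`.  For `c` active in `z` with `c.1 ∈ I` and `c` visible (`lv_vis`): `c.1 ∈ X` by `hX`, so `Q ≤ Q'` for the
response `Q'` with `QpSp` (`lv_qp_spec`); `QpSp.act`, `QpSp.elt` (and `Ext.b` for `Q ≤ Q'`, as `x < z.p.top ≤ Q'.p.top` by `QpSp.prev`, `QSp.base`), and
`QpSp.pro` with `lv_st`; `(z.rsI I hI).lo c.1 = z.lo c.1`. -/
theorem Bel.link {I : Set J} (hI : ∀ i ∈ I, ∀ j < i, j ∈ I) {q z : Cnd nm} {X : Set J} {Q : Cnd nm}
    (h : Bel v I q z X Q) (hX : ∀ c t, (c, t) ∈ z.p.F → c.1 ∈ X) : Link v Q (z.rsI I hI) := by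
  have key : ∀ c, (c, Tag.act) ∈ z.p.F → c.1 ∈ I → ∃ Q', QpSp v (lv v) c.1 (q.li c.1) z X Q' ∧ Q ≤ Q' ∧
      z.p.top ≤ Q'.p.top := by
    intro c hc hcI
    obtain ⟨Q', h1, h2⟩ := h.prev c.1 (hX c _ hc) hcI
    have h3 := lv_qp_spec v h1
    obtain ⟨R, h4, h5⟩ := h3.prev
    have h5' : Ext Q'.p R.p := h5
    exact ⟨Q', h3, h2, (Qd_spec h4).base.top.trans h5'.top_le⟩
  refine (⟨h.base.top, h.base.T, h.base.A, fun c hc hv => ?_, fun c hc hv x hx => ?_, fun c m e hc hv => ?_⟩ :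
    Lk (lv v) Q (z.rsI I hI))
  · obtain ⟨Q', h1, h2, -⟩ := key c hc.1 hc.2
    have h2' : Ext Q.p Q'.p := h2
    exact h2'.F (h1.act c rfl hc.1 ((lv_vis v c).1 hv))
  · obtain ⟨Q', h1, h2, h3⟩ := key c hc.1 hc.2
    have h2' : Ext Q.p Q'.p := h2
    have hv' := (lv_vis v c).1 hv
    have h4 : x < z.p.top := hx
    have h5 := h1.elt c rfl hc.1 hv' x h4
    constructor
    · intro h6
      exact ⟨h5.1 (h2'.b c (h1.act c rfl hc.1 hv') x (h4.trans_le h3) h6), hc.2⟩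
    · intro h6
      exact h2'.F (h5.2 h6.1)
  · obtain ⟨Q', h1, h2, -⟩ := key c (z.p.act c _ hc.1) hc.2
    have h2' : Ext Q.p Q'.p := h2
    have h3 := h2'.F (h1.pro c m e rfl hc.1 ((lv_vis v c).1 hv))
    rw [lv_st]
    have h4 : (z.rsI I hI).lo c.1 = z.lo c.1 := Cnd.ext' (rs_Iio_rs z.p hI hc.2)
    rw [h4]
    exact h3

/-- a condition without facts -/
def emptyC (hK : ℵ₀ ≤ #K) (a : K) (T : Tree K) (A : K → Set K) : Cnd nm where
  p :=
    { top := a
      T := T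
      A := A
      F := ∅
      small := by
        rw [mk_eq_zero]
        exact aleph0_pos.trans_le hK
      act := fun _ _ h => absurd h (notMem_empty _)
      elt_lt := fun _ _ h => absurd h (notMem_empty _)
      elt_eps := fun _ _ h => absurd h (notMem_empty _)
      eps_le := fun _ _ h => absurd h (notMem_empty _)
      pro_le := fun _ _ _ h => absurd h (notMem_empty _) }
  ok := fun _ h => absurd h (notMem_empty _)

/-- There is a condition below the responses at the levels in `X ∩ I`, if these are all defined.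

PROOF.  If `X ∩ I = ∅` take `emptyC` with a top above `z.p.top` and the tree `z.p.T.graft z.p.top q.p.top`.  Otherwise the responses `Q'_j`,
`j ∈ X ∩ I`, form a chain: `Q'_j ≤ Q'_i` for `i < j`, as `Q'_j ≤ Qd j ≤ Q'_i` (`QpSp.prev`, `QSp.prev`; `(q.li j).li i = q.li i`).  Take a lower
bound by `exists_lb`; its facts are facts of the `Q'_j`. -/
theorem exists_bel (H : Par nm) {I : Set J} (hI : ∀ i ∈ I, ∀ j < i, j ∈ I) {q z : Cnd nm} {X : Set J}
    (hXs : #X < #K) (htop : q.p.top ≤ z.p.top)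
    (hq : ∀ j ∈ X, j ∈ I → ∃ Q', (lv v j).qp (q.li j) z X = some Q') :
    ∃ Q, Bel v I q z X Q ∧ Q.In I := by
  have hK := H.unc.le
  by_cases hne : ∃ j ∈ X, j ∈ I
  · classical
    choose! f hf using hq
    let Y : Set (Cnd nm) := {Q' | ∃ j ∈ X, j ∈ I ∧ Q' = f j}
    have hmono : ∀ i ∈ X, i ∈ I → ∀ j ∈ X, j ∈ I → i ≤ j → f j ≤ f i := by
      intro i hi hiI j hj hjI hij
      rcases hij.eq_or_lt with h | h
      · rw [h]
      · obtain ⟨R, h1, h2⟩ := (lv_qp_spec v (hf j hj hjI)).prev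
        obtain ⟨Q', h3, h4⟩ := (Qd_spec h1).prev i hi h
        rw [Cnd.li_li q hij, hf i hi hiI] at h3
        rw [Option.some.inj h3]
        exact h2.trans h4
    have hY : Dir Y := by
      refine ⟨?_, ?_⟩
      · obtain ⟨j, hj, hjI⟩ := hne
        exact ⟨f j, j, hj, hjI, rfl⟩
      · rintro _ ⟨i, hi, hiI, rfl⟩ _ ⟨j, hj, hjI, rfl⟩
        rcases le_total i j with h | h
        · exact ⟨f j, ⟨j, hj, hjI, rfl⟩, hmono i hi hiI j hj hjI h, le_refl _⟩
        · exact ⟨f i, ⟨i, hi, hiI, rfl⟩, le_refl _, hmono j hj hjI i hi hiI h⟩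
    have hYs : #Y < #K := by
      refine lt_of_le_of_lt ?_ hXs
      refine mk_le_of_surjective (α := {j : X // j.1 ∈ I}) (f := fun j => ⟨f j.1.1, j.1.1, j.1.2, j.2, rfl⟩) ?_ |>.trans ?_
      · rintro ⟨_, j, hj, hjI, rfl⟩
        exact ⟨⟨⟨j, hj⟩, hjI⟩, rfl⟩
      · exact mk_subtype_le _
    obtain ⟨Q, h1, h2⟩ := exists_lb H hY hYs
    refine ⟨Q, ⟨?_, fun j hj hjI => ⟨f j, hf j hj hjI, h1 _ ⟨j, hj, hjI, rfl⟩⟩⟩, ?_⟩
    · obtain ⟨j, hj, hjI⟩ := hne
      obtain ⟨R, h3, h4⟩ := (lv_qp_spec v (hf j hj hjI)).prev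
      have h5 : BaseR z q R := ⟨(Qd_spec h3).base.top, (Qd_spec h3).base.T, (Qd_spec h3).base.A,
        (Qd_spec h3).base.mem⟩
      exact (h5.mono h4).mono (h1 _ ⟨j, hj, hjI, rfl⟩)
    · intro c t hc
      rw [h2] at hc
      obtain ⟨_, ⟨j, hj, hjI, rfl⟩, h3⟩ := mem_biU.1 hc
      rcases (show c.1 ≤ j from qp_in (hf j hj hjI) c t h3).eq_or_lt with h4 | h4
      · rw [h4]
        exact hjI
      · exact hI j hjI _ h4
  · push Not at hne
    obtain ⟨a, ha⟩ := H.reg PUnit (fun _ => z.p.top) (by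
      rw [mk_punit]
      exact one_lt_aleph0.trans_le hK)
    have ha' := ha PUnit.unit
    refine ⟨emptyC hK a (z.p.T.graft z.p.top q.p.top htop) z.p.A, ⟨⟨ha'.le, fun x hx => graft_le (h := htop) hx,
      fun x _ => rfl, ?_⟩, fun j hj hjI => absurd hjI (hne j hj)⟩, fun c t h => absurd h (notMem_empty _)⟩
    show q.p.top ∈ (z.p.T.graft z.p.top q.p.top htop).t a
    rw [graft_gt ha']
    exact Or.inl (Or.inr rfl)

end SQ
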