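import Pool.Agent.W92_960bf8.VCon

/-!
# MP_960bf8_lc : the generic tree order is a coherent sequence of clubs
-/

set_option autoImplicit false
set_option linter.unusedSectionVars false

universe u

open Cardinal Set P96 IM

namespace SQ

variable {K J : Type u} [LinearOrder K] [LinearOrder J] [WellFoundedLT J] {nm : J → K → Set (Raw J K)}

/-- two regular open sets which agree on a dense set are equal -/
theorem eq_of_dense {P : Type u} [Preorder P] {a b : RO P} (h : ∀ p : P, ∃ q ≤ p, ∀ r ≤ q, (r ∈ a.1 ↔ r ∈ b.1)) :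
    a = b := by
  refine le_antisymm ?_ ?_ <;> intro p hp <;> refine RO.mem_of_dense fun q hq => ?_
  · obtain ⟨r, hr, h1⟩ := h q
    exact ⟨r, hr, (h1 r le_rfl).1 (RO.mem_lower hp (hr.trans hq))⟩
  · obtain ⟨r, hr, h1⟩ := h q
    exact ⟨r, hr, (h1 r le_rfl).2 (RO.mem_lower hp (hr.trans hq))⟩

/-- the truth value of: `b` is a limit of the set below `a` -/
theorem mem_unb_tV {p : Cnd nm} {a b : K} (ha : a ≤ p.p.top) :
    p ∈ (unbV (fun x => (tV a x : RO (Cnd nm))) b).1 ↔ ∀ x < b, ∃ y ∈ p.p.T.t a, x < y ∧ y < b := by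
  rw [mem_unbV]
  constructor
  · intro h x hx
    obtain ⟨r, hr, y, h1, h2, h3⟩ := h x hx p le_rfl
    have hr' : Ext r.p p.p := hr
    have h4 := (dec_tV (ha.trans hr'.top_le)).1.1 h3
    rw [hr'.T a ha] at h4
    exact ⟨y, h4, h1, h2⟩
  · intro h x hx q hq
    have hq' : Ext q.p p.p := hq
    obtain ⟨y, h1, h2, h3⟩ := h x hx
    refine ⟨q, le_rfl, y, h2, h3, (dec_tV (ha.trans hq'.top_le)).1.2 ?_⟩
    rw [hq'.T a ha]
    exact h1

theorem club_tV (H : Par nm) {a : K} (ha : Lim a) : clubV (fun x => (tV a x : RO (Cnd nm))) a = ⊤ := by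
  refine eq_of_dense fun p => ?_
  obtain ⟨q, hq, h1, -⟩ := exists_high H p a
  refine ⟨q, hq, fun r hr => ⟨fun _ => RO.mem_top r, fun _ => ?_⟩⟩
  have hr' : Ext r.p q.p := hr
  have hra : a ≤ r.p.top := h1.le.trans hr'.top_le
  refine (RO.mem_inf _ _ _).2 ⟨(mem_unb_tV hra).2 fun x hx => ?_, (RO.mem_iInf _ _).2 fun b => ?_⟩
  · obtain ⟨w, h2, h3⟩ := r.p.T.unb a ha x hx
    exact ⟨w, h2, h3, r.p.T.lt a w h2⟩
  · by_cases h2 : b.1 ∈ r.p.T.t a
    · have h3 : r ∈ (tV a b.1 : RO (Cnd nm)).1 := (dec_tV hra).1.2 h2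
      exact (RO.le_iff _ _).1 le_sup_right r h3
    · refine (RO.le_iff _ _).1 le_sup_left r ?_
      rw [RO.mem_compl]
      intro s hs h3
      have hs' : Ext s.p r.p := hs
      rw [mem_unb_tV (hra.trans hs'.top_le), hs'.T a hra] at h3
      refine h2 (r.p.T.cl a b.1 b.2.1 b.2.2 fun z hz => ?_)
      obtain ⟨y, h4, h5, h6⟩ := h3 z hz
      exact ⟨y, h4, h5, h6⟩

theorem coh_tV (H : Par nm) {a b : K} (hb : Lim b) (hba : b < a) {x : K} (hx : x < b) :
    unbV (fun x => (tV a x : RO (Cnd nm))) b ⊓ tV a x = unbV (fun x => (tV a x : RO (Cnd nm))) b ⊓ tV b x := by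
  refine eq_of_dense fun p => ?_
  obtain ⟨q, hq, h1, -⟩ := exists_high H p a
  refine ⟨q, hq, fun r hr => ?_⟩
  have hr' : Ext r.p q.p := hr
  have hra : a ≤ r.p.top := h1.le.trans hr'.top_le
  have hrb : b ≤ r.p.top := hba.le.trans hra
  rw [RO.mem_inf, RO.mem_inf, mem_unb_tV hra, (dec_tV hra).1, (dec_tV hrb).1]
  refine and_congr_right fun h2 => ?_
  have h3 : b ∈ r.p.T.t a := r.p.T.cl a b hba hb fun z hz => by
    obtain ⟨y, h4, h5, h6⟩ := h2 z hz
    exact ⟨y, h4, h5, h6⟩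
  rw [r.p.T.coh a b h3]
  exact ⟨fun h4 => ⟨h4, hx⟩, fun h4 => h4.1⟩

end SQ
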