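import Pool.Agent.W92_960bf8.Facts

/-!
# MP_960bf8_lc : operations on the tree order and higher top nodes
-/

set_option autoImplicit false
set_option linter.unusedSectionVars false

universe u

open Cardinal Set P96 IM

namespace SQ

variable {K J : Type u} [LinearOrder K]

/-- the predecessors of the nodes above `d` after grafting at `n ≤ d` -/
def gset (T : Tree K) (d n x : K) : Set K := T.t n ∪ {n} ∪ Ioo d x

open Classical in
/-- the tree order which agrees with `T` up to `d`, and in which the nodes above `d` are a chain above `n ≤ d` -/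
noncomputable def Tree.graft (T : Tree K) (d n : K) (h : n ≤ d) : Tree K where
  t x := if x ≤ d then T.t x else gset T d n x
  lt := by
    intro x y hy
    by_cases hx : x ≤ d
    · rw [if_pos hx] at hy
      exact T.lt x y hy
    · rw [if_neg hx] at hy
      have hdx := not_le.1 hx
      rcases hy with (hy | hy) | hy
      · exact (T.lt n y hy).trans (h.trans_lt hdx)
      · rw [mem_singleton_iff.1 hy]
        exact h.trans_lt hdx
      · exact hy.2
  coh := by
    intro x y hy
    by_cases hx : x ≤ d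
    · rw [if_pos hx] at hy ⊢
      rw [if_pos ((T.lt x y hy).le.trans hx)]
      exact T.coh x y hy
    · rw [if_neg hx] at hy ⊢
      have hdx := not_le.1 hx
      rcases hy with (hy | hy) | hy
      · have hyn := T.lt n y hy
        rw [if_pos (hyn.le.trans h), T.coh n y hy]
        ext z
        constructor
        · rintro ⟨h1, h2⟩
          exact ⟨Or.inl (Or.inl h1), h2⟩
        · rintro ⟨(h1 | h1) | h1, h2⟩
          · exact ⟨h1, h2⟩
          · rw [mem_singleton_iff.1 h1] at h2
            exact absurd h2 (not_lt.2 hyn.le)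
          · exact absurd (h1.1.trans (mem_Iio.1 h2)) (not_lt.2 (hyn.le.trans h))
      · rw [mem_singleton_iff.1 hy, if_pos h]
        ext z
        constructor
        · exact fun h1 => ⟨Or.inl (Or.inl h1), T.lt n z h1⟩
        · rintro ⟨(h1 | h1) | h1, h2⟩
          · exact h1
          · rw [mem_singleton_iff.1 h1] at h2
            exact absurd h2 (lt_irrefl _)
          · exact absurd (h1.1.trans (mem_Iio.1 h2)) (not_lt.2 h)
      · rw [if_neg (not_le.2 hy.1)]
        ext z
        constructor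
        · rintro ((h1 | h1) | h1)
          · exact ⟨Or.inl (Or.inl h1), ((T.lt n z h1).trans_le h).trans hy.1⟩
          · exact ⟨Or.inl (Or.inr h1), by rw [mem_singleton_iff.1 h1]; exact h.trans_lt hy.1⟩
          · exact ⟨Or.inr ⟨h1.1, h1.2.trans hy.2⟩, h1.2⟩
        · rintro ⟨(h1 | h1) | h1, h2⟩
          · exact Or.inl (Or.inl h1)
          · exact Or.inl (Or.inr h1)
          · exact Or.inr ⟨h1.1, h2⟩
  cl := by
    intro x y hyx hy hc
    by_cases hx : x ≤ d
    · rw [if_pos hx] at hc ⊢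
      exact T.cl x y hyx hy hc
    · rw [if_neg hx] at hc ⊢
      by_cases hyd : d < y
      · exact Or.inr ⟨hyd, hyx⟩
      have hyd' := not_lt.1 hyd
      have hc' : ∀ z < y, ∃ w, (w ∈ T.t n ∨ w = n) ∧ z < w ∧ w < y := by
        intro z hz
        obtain ⟨w, (h1 | h1) | h1, h2, h3⟩ := hc z hz
        · exact ⟨w, Or.inl h1, h2, h3⟩
        · exact ⟨w, Or.inr h1, h2, h3⟩
        · exact absurd (h1.1.trans h3) hyd
      rcases lt_trichotomy y n with h1 | h1 | h1
      · refine Or.inl (Or.inl (T.cl n y h1 hy fun z hz => ?_))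
        obtain ⟨w, h2 | h2, h3, h4⟩ := hc' z hz
        · exact ⟨w, h2, h3, h4⟩
        · rw [h2] at h4
          exact absurd (h4.trans h1) (lt_irrefl _)
      · exact Or.inl (Or.inr h1)
      · obtain ⟨w, h2, h3, h4⟩ := hc' n h1
        rcases h2 with h2 | h2
        · exact absurd (h3.trans (T.lt n w h2)) (lt_irrefl _)
        · rw [h2] at h3
          exact absurd h3 (lt_irrefl _)
  unb := by
    intro x hx z hz
    by_cases hxd : x ≤ d
    · rw [if_pos hxd]
      exact T.unb x hx z hz
    · rw [if_neg hxd]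
      obtain ⟨w, h1, h2⟩ := hx.2 (max z d) (max_lt hz (not_le.1 hxd))
      exact ⟨w, Or.inr ⟨(le_max_right _ _).trans_lt h1, h2⟩, (le_max_left _ _).trans_lt h1⟩

theorem graft_le {T : Tree K} {d n : K} {h : n ≤ d} {x : K} (hx : x ≤ d) :
    (T.graft d n h).t x = T.t x := if_pos hx

theorem graft_gt {T : Tree K} {d n : K} {h : n ≤ d} {x : K} (hx : d < x) :
    (T.graft d n h).t x = T.t n ∪ {n} ∪ Ioo d x := if_neg (not_le.2 hx)

variable [LinearOrder J] [WellFoundedLT J] {nm : J → K → Set (Raw J K)}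

/-- The raw condition with top `a`, tree order `T`, sequence `A`, and the facts of `p`. -/
def Raw.wT (p : Raw J K) (a : K) (h : p.top ≤ a) (T : Tree K) (A : K → Set K) : Raw J K where
  top := a
  T := T
  A := A
  F := p.F
  small := p.small
  act := p.act
  elt_lt := fun c b hb => (p.elt_lt c b hb).trans_le h
  elt_eps := p.elt_eps
  eps_le := fun c e he => (p.eps_le c e he).trans h
  pro_le := fun c m e he => (p.pro_le c m e he).trans h

/-- Extension of the top with the same facts: the new top is above the old one. -/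
theorem exists_wT (p : Cnd nm) (a : K) (h : p.p.top < a) (T : Tree K) (A : K → Set K)
    (hT : ∀ x ≤ p.p.top, T.t x = p.p.T.t x) (hA : ∀ x ≤ p.p.top, A x = p.p.A x)
    (ha : p.p.top ∈ T.t a) :
    ∃ q : Cnd nm, q ≤ p ∧ q.p.top = a ∧ q.p.T = T ∧ q.p.A = A ∧ q.p.F = p.p.F := by
  have hle : p.p.wT a h.le T A ≤ p.p := by
    refine ⟨Or.inr ha, hT, hA, fun f hf => hf, fun c _ x _ hx => hx⟩
  exact ⟨⟨p.p.wT a h.le T A, ok_of_le p.ok hle rfl⟩, hle, rfl, rfl, rfl, rfl⟩

/-- Linear extension to the height `a`. -/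
theorem exists_top (p : Cnd nm) (a : K) (h : p.p.top < a) :
    ∃ q : Cnd nm, q ≤ p ∧ q.p.top = a ∧ q.p.F = p.p.F := by
  obtain ⟨q, h1, h2, -, -, h3⟩ := exists_wT p a h (p.p.T.graft p.p.top p.p.top le_rfl) p.p.A
    (fun x hx => graft_le hx) (fun x _ => rfl) (by
      rw [graft_gt h]
      exact Or.inl (Or.inr rfl))
  exact ⟨q, h1, h2, h3⟩

/-- Adding active coordinates and promises which are vacuous. -/
theorem add_pro (hK : ℵ₀ ≤ #K) (p : Cnd nm) (C : Set (Crd J)) (hC : #C < #K) (hLS : ∀ c ∈ C, LS nm c)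
    (G : Set (Crd J × J × K)) (hG : #G < #K)
    (hG1 : ∀ g ∈ G, g.1 ∈ C ∨ (g.1, Tag.act) ∈ p.p.F) (hG2 : ∀ g ∈ G, LP nm g.1.1 g.2.1)
    (hG3 : ∀ g ∈ G, g.2.2 ≤ p.p.top)
    (hG4 : ∀ g ∈ G, ∀ b, (g.1, Tag.elt b) ∈ p.p.F → b < g.2.2) :
    ∃ q : Cnd nm, q ≤ p ∧ q.p.top = p.p.top ∧ q.p.T = p.p.T ∧ q.p.A = p.p.A ∧
      q.p.F = p.p.F ∪ {f | f.1 ∈ C ∧ f.2 = Tag.act} ∪
        {f | ∃ g ∈ G, f = (g.1, Tag.pro g.2.1 g.2.2)} := by
  let r : Raw J K :=
    { top := p.p.top
      T := p.p.T
      A := p.p.A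
      F := p.p.F ∪ {f | f.1 ∈ C ∧ f.2 = Tag.act} ∪ {f | ∃ g ∈ G, f = (g.1, Tag.pro g.2.1 g.2.2)}
      small := by
        refine lt_of_le_of_lt (mk_union_le _ _) (add_lt_of_lt hK ?_ ?_)
        · refine lt_of_le_of_lt (mk_union_le _ _) (add_lt_of_lt hK p.p.small ?_)
          refine lt_of_le_of_lt ?_ hC
          refine mk_le_of_injective (f := fun f => ⟨f.1.1, f.2.1⟩) ?_
          rintro ⟨⟨c, t⟩, h1, h2⟩ ⟨⟨c', t'⟩, h1', h2'⟩ h
          have h3 : c = c' := congrArg Subtype.val h
          have h4 : t = Tag.act := h2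
          have h5 : t' = Tag.act := h2'
          subst h3 h4 h5
          rfl
        · refine lt_of_le_of_lt ?_ hG
          refine mk_le_of_surjective (f := fun g : G =>
            ⟨(g.1.1, Tag.pro g.1.2.1 g.1.2.2), g.1, g.2, rfl⟩) ?_
          rintro ⟨f, g, hg, rfl⟩
          exact ⟨⟨g, hg⟩, rfl⟩
      act := by
        rintro c t ((h | h) | ⟨g, hg, h⟩)
        · exact Or.inl (Or.inl (p.p.act c t h))
        · exact Or.inl (Or.inr ⟨h.1, rfl⟩)
        · have hc : c = g.1 := congrArg Prod.fst h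
          rcases hG1 g hg with h1 | h1
          · exact Or.inl (Or.inr ⟨by rw [hc]; exact h1, rfl⟩)
          · exact Or.inl (Or.inl (by rw [hc]; exact h1))
      elt_lt := by
        rintro c b ((h | h) | ⟨g, hg, h⟩)
        · exact p.p.elt_lt c b h
        · exact absurd h.2 (by simp)
        · exact absurd (congrArg Prod.snd h) (by simp)
      elt_eps := by
        rintro c b ((h | h) | ⟨g, hg, h⟩)
        · obtain ⟨e, h1, h2⟩ := p.p.elt_eps c b h
          exact ⟨e, h1, Or.inl (Or.inl h2)⟩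
        · exact absurd h.2 (by simp)
        · exact absurd (congrArg Prod.snd h) (by simp)
      eps_le := by
        rintro c e ((h | h) | ⟨g, hg, h⟩)
        · exact p.p.eps_le c e h
        · exact absurd h.2 (by simp)
        · exact absurd (congrArg Prod.snd h) (by simp)
      pro_le := by
        rintro c m e ((h | h) | ⟨g, hg, h⟩)
        · exact p.p.pro_le c m e h
        · exact absurd h.2 (by simp)
        · have h1 := congrArg Prod.snd h
          simp only [Tag.pro.injEq] at h1
          rw [h1.2]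
          exact hG3 g hg }
  have helt : ∀ c b, (c, Tag.elt b) ∈ r.F → (c, Tag.elt b) ∈ p.p.F := by
    rintro c b ((h | h) | ⟨g, hg, h⟩)
    · exact h
    · exact absurd h.2 (by simp)
    · exact absurd (congrArg Prod.snd h) (by simp)
  have heps : ∀ c b, (c, Tag.eps b) ∈ r.F → (c, Tag.eps b) ∈ p.p.F := by
    rintro c b ((h | h) | ⟨g, hg, h⟩)
    · exact h
    · exact absurd h.2 (by simp)
    · exact absurd (congrArg Prod.snd h) (by simp)
  have hrp : r ≤ p.p :=
    ⟨Or.inl rfl, fun _ _ => rfl, fun _ _ => rfl, fun f hf => Or.inl (Or.inl hf),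
      fun c _ x _ h => helt c x h⟩
  have hok : Ok nm r := by
    intro c hc
    have hls : LSr nm (RR nm c.1) c := by
      rcases hc with (h | h) | ⟨g, hg, h⟩
      · exact (p.ok c h).ls
      · exact (ls_iff hK).2 (hLS c h.1)
      · exact absurd (congrArg Prod.snd h) (by simp)
    have hle := rs_mono hrp (Iio c.1)
    refine ⟨hls, fun e he => ?_, fun a ha hx => ?_, fun m e he => ?_⟩
    · have h1 := heps c e he
      exact ((p.ok c (p.p.act c _ h1)).eps e h1).mono hle
    · obtain ⟨x, hxa⟩ := ha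
      obtain ⟨y, -, -, hy⟩ := hx x hxa
      refine ((p.ok c (p.p.act c _ (helt c y hy))).lim a ⟨x, hxa⟩ fun x hxa => ?_).mono hle
      obtain ⟨y, h1, h2, h3⟩ := hx x hxa
      exact ⟨y, h1, h2, helt c y h3⟩
    · rcases he with (h | h) | ⟨g, hg, h⟩
      · obtain ⟨h1, h2⟩ := (p.ok c (p.p.act c _ h)).pro m e h
        exact ⟨h1, fun b hb heb => (h2 b (helt c b hb) heb).mono hle⟩
      · exact absurd h.2 (by simp)
      · have h1 := congrArg Prod.snd h
        have hc' : c = g.1 := congrArg Prod.fst h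
        simp only [Tag.pro.injEq] at h1
        obtain ⟨h2, h3⟩ := h1
        subst hc' h2 h3
        refine ⟨(lp_iff hK).2 (hG2 g hg), fun b hb heb => ?_⟩
        have h4 := helt _ b hb
        exact absurd heb (not_le.2 (hG4 g hg b h4))
  exact ⟨⟨r, hok⟩, hrp, rfl, rfl, rfl, rfl⟩

end SQ
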