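import Pool.Agent.W92_960bf8.Ind
import Pool.Agent.W_MP_960bf8_h40.Core960

/-!
# MP_960bf8_lc : truth values which are not separated by linked pairs of conditions
-/

set_option autoImplicit false

universe u

open Cardinal Set IM

namespace SQ

variable {P : Type u} [Preorder P]

/-- `L z q`: `z` leads `q`.  The leader may be extended; and the roles may be exchanged after extending both. -/
structure Swp (L : P → P → Prop) : Prop where
  mono : ∀ z z' q, L z q → z' ≤ z → L z' q
  swap : ∀ z q, L z q → ∃ z' ≤ z, ∃ q' ≤ q, L q' z'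

/-- no linked pair of conditions decides `a` differently -/
def NonSep (L : P → P → Prop) (a : RO P) : Prop :=
  ∀ z q, L z q → ¬ (z ∈ a.1 ∧ q ∈ (aᶜ).1) ∧ ¬ (z ∈ (aᶜ).1 ∧ q ∈ a.1)

end SQ
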