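import Pool.Agent.W92_960bf8.VA0

/-!
# MP_960bf8_lc : the complete Boolean algebra of the visible truth values
-/

set_option autoImplicit false

universe u v

open Cardinal Set IM

namespace SQ

variable {P : Type u} [Preorder P] {L : P → P → Prop}

theorem NonSep.compl {a : RO P} (ha : NonSep L a) : NonSep L aᶜ := by
  intro z q hl
  rw [compl_compl]
  exact ⟨(ha z q hl).2, (ha z q hl).1⟩

theorem NonSep.iSup (h : Swp L) {I : Type v} {a : I → RO P} (ha : ∀ i, NonSep L (a i)) :
    NonSep L (⨆ i, a i) := by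
  have hc : ∀ {p : P}, p ∈ ((⨆ i, a i)ᶜ).1 → ∀ i, p ∈ ((a i)ᶜ).1 := fun {p} hp i => by
    rw [compl_iSup] at hp
    exact (RO.mem_iInf _ _).1 hp i
  intro z q hl
  constructor
  · rintro ⟨h1, h2⟩
    obtain ⟨r, hr, i, hri⟩ := (RO.mem_iSup _ _).1 h1 z le_rfl
    exact (ha i r q (h.mono _ _ _ hl hr)).1 ⟨hri, hc h2 i⟩
  · rintro ⟨h1, h2⟩
    obtain ⟨z', hz', q', hq', hl'⟩ := h.swap z q hl
    obtain ⟨r, hr, i, hri⟩ := (RO.mem_iSup _ _).1 h2 q' hq'
    exact (ha i r z' (h.mono _ _ _ hl' hr)).1 ⟨hri, RO.mem_lower (hc h1 i) hz'⟩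

theorem NonSep.iInf (h : Swp L) {I : Type v} {a : I → RO P} (ha : ∀ i, NonSep L (a i)) :
    NonSep L (⨅ i, a i) := by
  have h1 := (NonSep.iSup h fun i => (ha i).compl).compl
  rw [compl_iSup] at h1
  simpa only [compl_compl] using h1

theorem NonSep.sSup (h : Swp L) {S : Set (RO P)} (ha : ∀ a ∈ S, NonSep L a) : NonSep L (sSup S) := by
  rw [sSup_eq_iSup']
  exact NonSep.iSup h fun i => ha i.1 i.2

theorem NonSep.sInf (h : Swp L) {S : Set (RO P)} (ha : ∀ a ∈ S, NonSep L a) : NonSep L (sInf S) := by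
  rw [sInf_eq_iInf']
  exact NonSep.iInf h fun i => ha i.1 i.2

theorem NonSep.top : NonSep L (⊤ : RO P) := fun z q _ => by
  rw [compl_top]
  exact ⟨fun h => RO.mem_bot _ h.2, fun h => RO.mem_bot _ h.1⟩

theorem NonSep.bot : NonSep L (⊥ : RO P) := fun _ _ _ =>
  ⟨fun h => RO.mem_bot _ h.1, fun h => RO.mem_bot _ h.2⟩

theorem NonSep.sup (h : Swp L) {a b : RO P} (ha : NonSep L a) (hb : NonSep L b) : NonSep L (a ⊔ b) := by
  rw [← sSup_pair]
  refine NonSep.sSup h ?_
  rintro x (rfl | rfl)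
  · exact ha
  · exact hb

theorem NonSep.inf (h : Swp L) {a b : RO P} (ha : NonSep L a) (hb : NonSep L b) : NonSep L (a ⊓ b) := by
  rw [← sInf_pair]
  refine NonSep.sInf h ?_
  rintro x (rfl | rfl)
  · exact ha
  · exact hb

/-- The visible algebra. -/
def VA (_ : Swp L) : Type u := {a : RO P // NonSep L a}

namespace VA

variable {h : Swp L}

/-- inclusion -/
def val (a : VA h) : RO P := a.1

theorem ext' {a b : VA h} (hab : a.val = b.val) : a = b := Subtype.ext hab

theorem val_inj {a b : VA h} : a.val = b.val ↔ a = b := ⟨ext', fun h => by rw [h]⟩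

instance instPO : PartialOrder (VA h) := inferInstanceAs (PartialOrder {a : RO P // NonSep L a})

noncomputable instance : CompleteBooleanAlgebra (VA h) where
  __ := (instPO : PartialOrder (VA h))
  sup a b := ⟨a.1 ⊔ b.1, a.2.sup h b.2⟩
  inf a b := ⟨a.1 ⊓ b.1, a.2.inf h b.2⟩
  sSup S := ⟨sSup (val '' S), NonSep.sSup h (by rintro _ ⟨a, _, rfl⟩; exact a.2)⟩
  sInf S := ⟨sInf (val '' S), NonSep.sInf h (by rintro _ ⟨a, _, rfl⟩; exact a.2)⟩
  top := ⟨⊤, NonSep.top⟩
  bot := ⟨⊥, NonSep.bot⟩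
  compl a := ⟨a.1ᶜ, a.2.compl⟩
  le_sup_left a b := le_sup_left (a := a.1) (b := b.1)
  le_sup_right a b := le_sup_right (a := a.1) (b := b.1)
  sup_le a b c h1 h2 := sup_le (a := a.1) (b := b.1) (c := c.1) h1 h2
  inf_le_left a b := inf_le_left (a := a.1) (b := b.1)
  inf_le_right a b := inf_le_right (a := a.1) (b := b.1)
  le_inf a b c h1 h2 := le_inf (α := RO P) h1 h2
  le_top a := le_top (a := a.1)
  bot_le a := bot_le (a := a.1)
  isLUB_sSup S := by
    constructor
    · intro a ha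
      exact le_sSup (s := val '' S) ⟨a, ha, rfl⟩
    · intro b hb
      refine sSup_le (s := val '' S) ?_
      rintro _ ⟨a, ha, rfl⟩
      exact hb ha
  isGLB_sInf S := by
    constructor
    · intro a ha
      exact sInf_le (s := val '' S) ⟨a, ha, rfl⟩
    · intro b hb
      refine le_sInf (s := val '' S) ?_
      rintro _ ⟨a, ha, rfl⟩
      exact hb ha
  le_sup_inf a b c := le_sup_inf (x := a.1) (y := b.1) (z := c.1)
  inf_compl_le_bot a := (inf_compl_eq_bot (a := a.1)).le
  top_le_sup_compl a := (sup_compl_eq_top (x := a.1)).ge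

theorem le_iff {a b : VA h} : a ≤ b ↔ a.val ≤ b.val := Iff.rfl

@[simp] theorem val_top : (⊤ : VA h).val = ⊤ := rfl

@[simp] theorem val_bot : (⊥ : VA h).val = ⊥ := rfl

@[simp] theorem val_sup (a b : VA h) : (a ⊔ b).val = a.val ⊔ b.val := rfl

@[simp] theorem val_inf (a b : VA h) : (a ⊓ b).val = a.val ⊓ b.val := rfl

@[simp] theorem val_compl (a : VA h) : (aᶜ).val = (a.val)ᶜ := rfl

theorem val_sSup (S : Set (VA h)) : (sSup S).val = sSup (val '' S) := rfl

theorem val_sInf (S : Set (VA h)) : (sInf S).val = sInf (val '' S) := rfl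

@[simp] theorem val_iSup {I : Sort v} (f : I → VA h) : (⨆ i, f i).val = ⨆ i, (f i).val := by
  change (sSup (range f)).val = _
  rw [val_sSup, ← range_comp]
  rfl

@[simp] theorem val_iInf {I : Sort v} (f : I → VA h) : (⨅ i, f i).val = ⨅ i, (f i).val := by
  change (sInf (range f)).val = _
  rw [val_sInf, ← range_comp]
  rfl

theorem bot_iff {a : VA h} : a = ⊥ ↔ a.val = ⊥ := val_inj.symm

/-- a nonzero truth value has an element -/
theorem exists_mem {a : VA h} (ha : a ≠ ⊥) : ∃ p, p ∈ a.val.1 := by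
  by_contra hc
  push Not at hc
  apply ha
  rw [bot_iff, eq_bot_iff]
  exact fun p hp => (hc p hp).elim

theorem ne_bot {a : VA h} {p : P} (hp : p ∈ a.val.1) : a ≠ ⊥ := by
  intro h0
  rw [h0] at hp
  exact RO.mem_bot p hp

instance [Nonempty P] : Nontrivial (VA h) :=
  ⟨⊤, ⊥, fun h0 => by
    obtain ⟨p⟩ := (inferInstance : Nonempty P)
    exact ne_bot (h := h) (a := ⊤) (p := p) (RO.mem_top p) h0⟩

section
variable {K : Type u} [LinearOrder K]
open P96

theorem val_unbV (X : K → VA h) (a : K) : (unbV X a).val = unbV (fun x => (X x).val) a := by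
  simp only [unbV, val_iInf, val_iSup]

theorem val_clubV (X : K → VA h) (a : K) : (clubV X a).val = clubV (fun x => (X x).val) a := by
  simp only [clubV, val_inf, val_iInf, val_sup, val_compl, val_unbV]

theorem val_cofT (X : K → VA h) : (cofT X).val = cofT (fun x => (X x).val) := by
  simp only [cofT, val_iInf, val_iSup]

theorem val_clubT (X : K → VA h) : (clubT X).val = clubT (fun x => (X x).val) := by
  simp only [clubT, val_inf, val_iInf, val_sup, val_compl, val_unbV, val_cofT]

theorem val_nxt (X : K → VA h) (x y : K) : (nxt X x y).val = nxt (fun x => (X x).val) x y := by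
  simp only [nxt, val_inf, val_iInf, val_compl]

theorem val_badV (X B : K → VA h) (a : K) :
    (badV X B a).val = badV (fun x => (X x).val) (fun x => (B x).val) a := by
  simp only [badV, val_iSup, val_inf, val_iInf, val_compl, val_nxt]

end

end VA

end SQ
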