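import Pool.Agent.W92_960bf8.Dens
import Pool.Agent.W92_960bf8.VA0

/-!
# MP_960bf8_lc : visible truth values
-/

set_option autoImplicit false
set_option linter.unusedSectionVars false

universe u

open Cardinal Set P96 IM

namespace SQ

variable {K J : Type u} [LinearOrder K] [LinearOrder J] [WellFoundedLT J] {nm : J → K → Set (Raw J K)}

/-- the truth value of: `x` is below `a` in the generic tree order -/
def tV (a x : K) : RO (Cnd nm) := RO.cl {p | a ≤ p.p.top ∧ x ∈ p.p.T.t a}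

/-- the truth value of: `x` is in the `a`-th set of the generic sequence -/
def aV (a x : K) : RO (Cnd nm) := RO.cl {p | a ≤ p.p.top ∧ x ∈ p.p.A a}

/-- the truth value of: `b` is in the generic set `B_c` -/
def bV (c : Crd J) (b : K) : RO (Cnd nm) := RO.cl {p | (c, Tag.elt b) ∈ p.p.F}

/-- If a property of a condition is decided by `p` then it is the truth value. -/
theorem mem_cl_dec {S : Set (Cnd nm)} {p : Cnd nm} (h : ∀ r ≤ p, ∀ s ∈ S, r ≤ s → p ∈ S) :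
    (p ∈ (RO.cl S : RO (Cnd nm)).1 ↔ p ∈ S) ∧ (p ∈ ((RO.cl S : RO (Cnd nm))ᶜ).1 ↔ p ∉ S) := by
  refine ⟨⟨fun h1 => ?_, fun h1 => ?_⟩, ⟨fun h1 h2 => ?_, fun h1 => ?_⟩⟩
  · obtain ⟨r, hr, s, hs, hrs⟩ := RO.mem_cl.1 h1 p le_rfl
    exact h r hr s hs hrs
  · exact RO.mem_cl.2 fun q hq => ⟨q, le_rfl, p, h1, hq⟩
  · exact (RO.mem_compl _ _).1 h1 p le_rfl (RO.mem_cl.2 fun q hq => ⟨q, le_rfl, p, h2, hq⟩)
  · rw [RO.mem_compl]
    intro q hq h2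
    obtain ⟨r, hr, s, hs, hrs⟩ := RO.mem_cl.1 h2 q le_rfl
    exact h1 (h r (hr.trans hq) s hs hrs)

theorem dec_tV {p : Cnd nm} {a x : K} (h : a ≤ p.p.top) :
    (p ∈ (tV a x : RO (Cnd nm)).1 ↔ x ∈ p.p.T.t a) ∧ (p ∈ ((tV a x : RO (Cnd nm))ᶜ).1 ↔ x ∉ p.p.T.t a) := by
  have key : p ∈ {p : Cnd nm | a ≤ p.p.top ∧ x ∈ p.p.T.t a} ↔ x ∈ p.p.T.t a := ⟨fun h1 => h1.2, fun h1 => ⟨h, h1⟩⟩
  have := mem_cl_dec (S := {p : Cnd nm | a ≤ p.p.top ∧ x ∈ p.p.T.t a}) (p := p) (fun r hr s hs hrs => by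
    have hr' : Ext r.p p.p := hr
    have hrs' : Ext r.p s.p := hrs
    refine ⟨h, ?_⟩
    rw [← hr'.T a h, hrs'.T a hs.1]
    exact hs.2)
  rw [key] at this
  exact this

theorem dec_aV {p : Cnd nm} {a x : K} (h : a ≤ p.p.top) :
    (p ∈ (aV a x : RO (Cnd nm)).1 ↔ x ∈ p.p.A a) ∧ (p ∈ ((aV a x : RO (Cnd nm))ᶜ).1 ↔ x ∉ p.p.A a) := by
  have key : p ∈ {p : Cnd nm | a ≤ p.p.top ∧ x ∈ p.p.A a} ↔ x ∈ p.p.A a := ⟨fun h1 => h1.2, fun h1 => ⟨h, h1⟩⟩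
  have := mem_cl_dec (S := {p : Cnd nm | a ≤ p.p.top ∧ x ∈ p.p.A a}) (p := p) (fun r hr s hs hrs => by
    have hr' : Ext r.p p.p := hr
    have hrs' : Ext r.p s.p := hrs
    refine ⟨h, ?_⟩
    rw [← hr'.A a h, hrs'.A a hs.1]
    exact hs.2)
  rw [key] at this
  exact this

theorem dec_bV {p : Cnd nm} {c : Crd J} {b : K} (hc : (c, Tag.act) ∈ p.p.F) (hb : b < p.p.top) :
    (p ∈ (bV c b : RO (Cnd nm)).1 ↔ (c, Tag.elt b) ∈ p.p.F) ∧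
      (p ∈ ((bV c b : RO (Cnd nm))ᶜ).1 ↔ (c, Tag.elt b) ∉ p.p.F) :=
  mem_cl_dec (S := {p : Cnd nm | (c, Tag.elt b) ∈ p.p.F}) (p := p) (fun r hr s hs hrs => by
    have hr' : Ext r.p p.p := hr
    have hrs' : Ext r.p s.p := hrs
    exact hr'.b c hc b hb (hrs'.F hs))

theorem elt_bV {p : Cnd nm} {c : Crd J} {b : K} (h : (c, Tag.elt b) ∈ p.p.F) :
    p ∈ (bV c b : RO (Cnd nm)).1 := RO.mem_cl.2 fun q hq => ⟨q, le_rfl, p, h, hq⟩

/-- a truth value is decided by dense many elements -/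
theorem bV_elt {p : Cnd nm} {c : Crd J} {b : K} (h : p ∈ (bV c b : RO (Cnd nm)).1) :
    ∃ q ≤ p, (c, Tag.elt b) ∈ q.p.F := by
  obtain ⟨r, hr, s, hs, hrs⟩ := RO.mem_cl.1 h p le_rfl
  have hrs' : Ext r.p s.p := hrs
  exact ⟨r, hr, hrs'.F hs⟩

variable [Nonempty (Cnd nm)] {v : (Set (Obj nm) → Set (Cnd nm) → Prop) → RO (Cnd nm)}

theorem swp_link (H : Par nm) (hv : IsPM (#K) oP v) : Swp (Link v) :=
  ⟨fun _ _ _ h hz => h.mono v hz, fun _ _ h => swap H hv h⟩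

/-- A criterion for visibility. -/
theorem nonSep_of (H : Par nm) (hv : IsPM (#K) oP v) {a : RO (Cnd nm)}
    (h : ∀ z, ∃ z₁ ≤ z, ∀ z' ≤ z₁, ∀ q', Link v q' z' →
      (z' ∈ a.1 ∧ q' ∈ a.1) ∨ (z' ∈ (aᶜ).1 ∧ q' ∈ (aᶜ).1)) : NonSep (Link v) a := by
  have hdis : ∀ {p : Cnd nm}, p ∈ a.1 → p ∈ (aᶜ).1 → False := fun h1 h2 =>
    (RO.mem_compl _ _).1 h2 _ le_rfl h1
  intro z q hl
  obtain ⟨z₁, hz₁, h1⟩ := h z
  obtain ⟨z', hz', q', hq', hl'⟩ := swap H hv (hl.mono v hz₁)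
  have h2 := h1 z' hz' q' hl'
  have hz'' : z' ≤ z := hz'.trans hz₁
  constructor
  · rintro ⟨h3, h4⟩
    rcases h2 with ⟨h5, h6⟩ | ⟨h5, h6⟩
    · exact hdis h6 (RO.mem_lower h4 hq')
    · exact hdis (RO.mem_lower h3 hz'') h5
  · rintro ⟨h3, h4⟩
    rcases h2 with ⟨h5, h6⟩ | ⟨h5, h6⟩
    · exact hdis h5 (RO.mem_lower h3 hz'')
    · exact hdis (RO.mem_lower h4 hq') h6

theorem nonSep_tV (H : Par nm) (hv : IsPM (#K) oP v) (a x : K) : NonSep (Link v) (tV a x) := by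
  refine nonSep_of H hv fun z => ?_
  obtain ⟨z₁, h1, h2, -⟩ := exists_high H z a
  refine ⟨z₁, h1, fun z' hz' q' hl => ?_⟩
  have hz'' : Ext z'.p z₁.p := hz'
  have hl' : Lk (lv v) q' z' := hl
  have h3 : a ≤ z'.p.top := h2.le.trans hz''.top_le
  have h4 : a ≤ q'.p.top := h3.trans hl'.top
  rw [(dec_tV h3).1, (dec_tV h3).2, (dec_tV h4).1, (dec_tV h4).2, hl'.T a h3]
  tauto

theorem nonSep_aV (H : Par nm) (hv : IsPM (#K) oP v) (a x : K) : NonSep (Link v) (aV a x) := by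
  refine nonSep_of H hv fun z => ?_
  obtain ⟨z₁, h1, h2, -⟩ := exists_high H z a
  refine ⟨z₁, h1, fun z' hz' q' hl => ?_⟩
  have hz'' : Ext z'.p z₁.p := hz'
  have hl' : Lk (lv v) q' z' := hl
  have h3 : a ≤ z'.p.top := h2.le.trans hz''.top_le
  have h4 : a ≤ q'.p.top := h3.trans hl'.top
  rw [(dec_aV h3).1, (dec_aV h3).2, (dec_aV h4).1, (dec_aV h4).2, hl'.A a h3]
  tauto

theorem nonSep_bV (H : Par nm) (hv : IsPM (#K) oP v) {c : Crd J} (hc : Vis v c) (b : K) :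
    NonSep (Link v) (bV c b) := by
  refine nonSep_of H hv fun z => ?_
  obtain ⟨z₀, h0, h0'⟩ := add_act H z hc.ls
  obtain ⟨z₁, h1, h2, -⟩ := exists_high H z₀ b
  refine ⟨z₁, h1.trans h0, fun z' hz' q' hl => ?_⟩
  have hz'' : Ext z'.p z₁.p := hz'
  have hz₁ : Ext z₁.p z₀.p := h1
  have hl' : Lk (lv v) q' z' := hl
  have h3 : b < z'.p.top := h2.trans_le hz''.top_le
  have h4 : b < q'.p.top := h3.trans_le hl'.top
  have h5 : (c, Tag.act) ∈ z'.p.F := hz''.F (hz₁.F h0')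
  have h6 := hl'.act c h5 ((lv_vis v c).2 hc)
  rw [(dec_bV h5 h3).1, (dec_bV h5 h3).2, (dec_bV h6 h4).1, (dec_bV h6 h4).2,
    hl'.elt c h5 ((lv_vis v c).2 hc) b h3]
  tauto

end SQ
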